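import Mathlib

set_option autoImplicit false

/-!
# Lengths in the five term sequence for the kernels `ker (M ⊗ W → M ⊗ F)`
-/

open TensorProduct Function

universe u

namespace Pool.Agent.Helper796_theta

section len

variable {B : Type*} [Ring B] {X Y : Type*} [AddCommGroup X] [Module B X] [AddCommGroup Y]
  [Module B Y]

lemma length_ker_add_range (h : X →ₗ[B] Y) :
    Module.length B X = Module.length B (LinearMap.ker h) + Module.length B (LinearMap.range h) :=
  Module.length_eq_add_of_exact (LinearMap.ker h).subtype h.rangeRestrict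
    (Submodule.subtype_injective _) h.surjective_rangeRestrict (by
      intro x
      constructor
      · intro hx
        exact ⟨⟨x, congrArg Subtype.val hx⟩, rfl⟩
      · rintro ⟨y, rfl⟩
        exact Subtype.ext y.2)

lemma length_sub_add_quot (S : Submodule B X) :
    Module.length B X = Module.length B S + Module.length B (X ⧸ S) :=
  Module.length_eq_add_of_exact S.subtype S.mkQ (Submodule.subtype_injective _)
    (Submodule.mkQ_surjective _) (LinearMap.exact_subtype_mkQ S)

end len

section five

variable {B : Type*} [CommRing B]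
variable {W F V : Type*} [AddCommGroup W] [Module B W] [AddCommGroup F] [Module B F]
  [AddCommGroup V] [Module B V]
variable (ι : W →ₗ[B] F) (π : F →ₗ[B] V)
variable {M' M M'' : Type*} [AddCommGroup M'] [Module B M'] [AddCommGroup M] [Module B M]
  [AddCommGroup M''] [Module B M'']
variable (f : M' →ₗ[B] M) (g : M →ₗ[B] M'')

/-- the map induced on the kernels -/
def kmap : LinearMap.ker (ι.lTensor M') →ₗ[B] LinearMap.ker (ι.lTensor M) :=
  ((f.rTensor W) ∘ₗ (LinearMap.ker (ι.lTensor M')).subtype).codRestrict _ (by
    intro x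
    rw [LinearMap.mem_ker, LinearMap.comp_apply, ← LinearMap.comp_apply (ι.lTensor M),
      LinearMap.lTensor_comp_rTensor, ← LinearMap.rTensor_comp_lTensor, LinearMap.comp_apply]
    have : ι.lTensor M' x = 0 := x.2
    rw [Submodule.subtype_apply, this, map_zero])

@[simp]
lemma kmap_coe (x : LinearMap.ker (ι.lTensor M')) :
    ((kmap ι f x : LinearMap.ker (ι.lTensor M)) : M ⊗[B] W) = f.rTensor W x := rfl

variable (hf : Injective f) (hg : Surjective g) (hfg : Exact f g)
variable (hπ : Surjective π) (hιπ : Exact ι π)

include hf hg hfg in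
/-- exactness in the middle -/
lemma kmap_exact [Module.Flat B F] : Exact (kmap ι f) (kmap ι g) := by
  rintro ⟨x, hx⟩
  rw [LinearMap.mem_ker] at hx
  constructor
  · intro h
    have h1 : g.rTensor W x = 0 := congrArg Subtype.val h
    obtain ⟨y, rfl⟩ := (rTensor_exact W hfg hg x).1 h1
    have h2 : f.rTensor F (ι.lTensor M' y) = 0 := by
      rw [← LinearMap.comp_apply, LinearMap.rTensor_comp_lTensor,
        ← LinearMap.lTensor_comp_rTensor, LinearMap.comp_apply, hx]
    have h3 : ι.lTensor M' y = 0 :=
      Module.Flat.rTensor_preserves_injective_linearMap (M := F) f hf (by rw [h2, map_zero])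
    exact ⟨⟨y, h3⟩, rfl⟩
  · rintro ⟨y, hy⟩
    apply Subtype.ext
    have h1 : x = f.rTensor W y := (congrArg Subtype.val hy).symm
    change g.rTensor W x = 0
    rw [h1]
    exact (rTensor_exact W hfg hg).apply_apply_eq_zero _

include hf in
/-- the kernel of the first map -/
lemma length_ker_kmap [Module.Flat B F] : Module.length B (LinearMap.ker (kmap ι f)) =
    Module.length B (LinearMap.ker (f.rTensor W)) := by
  let e : LinearMap.ker (kmap ι f) →ₗ[B] LinearMap.ker (f.rTensor W) :=
    ((LinearMap.ker (ι.lTensor M')).subtype ∘ₗ (LinearMap.ker (kmap ι f)).subtype).codRestrict _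
      (by
        intro x
        have : kmap ι f x = 0 := x.2
        exact congrArg Subtype.val this)
  have he : Bijective e := by
    constructor
    · intro x y hxy
      have : ((x : LinearMap.ker (ι.lTensor M')) : M' ⊗[B] W) =
          ((y : LinearMap.ker (ι.lTensor M')) : M' ⊗[B] W) :=
        congrArg (fun z : LinearMap.ker (f.rTensor W) => (z : M' ⊗[B] W)) hxy
      exact Subtype.ext (Subtype.ext this)
    · rintro ⟨x, hx⟩
      have h2 : f.rTensor F (ι.lTensor M' x) = 0 := by
        rw [← LinearMap.comp_apply, LinearMap.rTensor_comp_lTensor,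
          ← LinearMap.lTensor_comp_rTensor, LinearMap.comp_apply, LinearMap.mem_ker.1 hx, map_zero]
      have h3 : ι.lTensor M' x = 0 :=
        Module.Flat.rTensor_preserves_injective_linearMap (M := F) f hf (by rw [h2, map_zero])
      exact ⟨⟨⟨x, h3⟩, Subtype.ext hx⟩, rfl⟩
  exact (LinearEquiv.ofBijective e he).length_eq

include hf hg hfg hπ hιπ in
/-- the cokernel of the last map -/
lemma length_K'' [Module.Flat B F] : Module.length B (LinearMap.ker (ι.lTensor M'')) =
    Module.length B (LinearMap.range (kmap ι g)) +
      Module.length B (LinearMap.ker (f.rTensor V)) := by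
  have h₁ : (f.rTensor F) ∘ₗ (ι.lTensor M') = (ι.lTensor M) ∘ₗ (f.rTensor W) := by
    rw [LinearMap.rTensor_comp_lTensor, LinearMap.lTensor_comp_rTensor]
  have h₂ : (g.rTensor F) ∘ₗ (ι.lTensor M) = (ι.lTensor M'') ∘ₗ (g.rTensor W) := by
    rw [LinearMap.rTensor_comp_lTensor, LinearMap.lTensor_comp_rTensor]
  let δ := SnakeLemma.δ' (ι.lTensor M') (ι.lTensor M) (ι.lTensor M'') (f.rTensor W) (g.rTensor W)
    (rTensor_exact W hfg hg) (f.rTensor F) (g.rTensor F) (rTensor_exact F hfg hg) h₁ h₂
    (LinearMap.ker (ι.lTensor M'')).subtype (LinearMap.exact_subtype_ker_map _)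
    (π.lTensor M') (lTensor_exact M' hιπ hπ)
    (LinearMap.rTensor_surjective W hg)
    (Module.Flat.rTensor_preserves_injective_linearMap (M := F) f hf)
  have hδ1 : Exact (kmap ι g) δ :=
    SnakeLemma.exact_δ'_right (ι.lTensor M') (ι.lTensor M) (ι.lTensor M'') (f.rTensor W)
      (g.rTensor W)
      (rTensor_exact W hfg hg) (f.rTensor F) (g.rTensor F) (rTensor_exact F hfg hg) h₁ h₂
      (LinearMap.ker (ι.lTensor M)).subtype (LinearMap.exact_subtype_ker_map _)
      (LinearMap.ker (ι.lTensor M'')).subtype (LinearMap.exact_subtype_ker_map _)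
      (π.lTensor M') (lTensor_exact M' hιπ hπ)
      (LinearMap.rTensor_surjective W hg)
      (Module.Flat.rTensor_preserves_injective_linearMap (M := F) f hf)
      (kmap ι g) rfl (Submodule.subtype_injective _)
  have hδ2 : Exact δ (f.rTensor V) :=
    SnakeLemma.exact_δ'_left (ι.lTensor M') (ι.lTensor M) (ι.lTensor M'') (f.rTensor W)
      (g.rTensor W)
      (rTensor_exact W hfg hg) (f.rTensor F) (g.rTensor F) (rTensor_exact F hfg hg) h₁ h₂
      (LinearMap.ker (ι.lTensor M'')).subtype (LinearMap.exact_subtype_ker_map _)
      (π.lTensor M') (lTensor_exact M' hιπ hπ)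
      (π.lTensor M) (lTensor_exact M hιπ hπ)
      (LinearMap.rTensor_surjective W hg)
      (Module.Flat.rTensor_preserves_injective_linearMap (M := F) f hf)
      (f.rTensor V) (by rw [LinearMap.rTensor_comp_lTensor, LinearMap.lTensor_comp_rTensor])
      (LinearMap.lTensor_surjective _ hπ)
  rw [length_ker_add_range δ, LinearMap.exact_iff.1 hδ1, LinearMap.exact_iff.1 hδ2]

include hf in
lemma length_K' [Module.Flat B F] : Module.length B (LinearMap.ker (ι.lTensor M')) =
    Module.length B (LinearMap.ker (f.rTensor W)) +
      Module.length B (LinearMap.range (kmap ι f)) := by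
  rw [length_ker_add_range (kmap ι f), length_ker_kmap ι f hf]

include hf hg hfg in
lemma length_K [Module.Flat B F] : Module.length B (LinearMap.ker (ι.lTensor M)) =
    Module.length B (LinearMap.range (kmap ι f)) +
      Module.length B (LinearMap.range (kmap ι g)) := by
  rw [length_ker_add_range (kmap ι g), LinearMap.exact_iff.1 (kmap_exact ι f g hf hg hfg)]

include hf hg hfg hπ hιπ in
/-- additivity up to two error terms -/
theorem length_five [Module.Flat B F] : Module.length B (LinearMap.ker (ι.lTensor M')) +
      Module.length B (LinearMap.ker (ι.lTensor M'')) =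
    Module.length B (LinearMap.ker (ι.lTensor M)) +
      (Module.length B (LinearMap.ker (f.rTensor W)) +
        Module.length B (LinearMap.ker (f.rTensor V))) := by
  rw [length_K' ι f hf, length_K'' ι π f g hf hg hfg hπ hιπ, length_K ι f g hf hg hfg]
  ring

end five

end Pool.Agent.Helper796_theta
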