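import Mathlib

set_option autoImplicit false

/-!
# Towers of syzygies and Tor
-/

open CategoryTheory CategoryTheory.Limits MonoidalCategory TensorProduct Function

universe u

namespace Pool.Agent.Helper796_theta

/-- A projective resolution of `S 0`, cut into short exact sequences
`0 → S (i+1) → F i → S i → 0` with `F i` projective. -/
structure Tower (B : Type u) [CommRing B] where
  S : ℕ → ModuleCat.{u} B
  F : ℕ → ModuleCat.{u} B
  ι : ∀ i, S (i + 1) →ₗ[B] F i
  π : ∀ i, F i →ₗ[B] S i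
  inj : ∀ i, Injective (ι i)
  surj : ∀ i, Surjective (π i)
  ex : ∀ i, Exact (ι i) (π i)
  proj : ∀ i, Module.Projective B (F i)

namespace Tower

variable {B : Type u} [CommRing B] (T : Tower B)

/-- the differential -/
def d (i : ℕ) : T.F (i + 1) →ₗ[B] T.F i := T.ι i ∘ₗ T.π (i + 1)

lemma d_comp (i : ℕ) : T.d i ∘ₗ T.d (i + 1) = 0 := by
  apply LinearMap.ext
  intro x
  simp only [d, LinearMap.comp_apply, LinearMap.zero_apply]
  rw [(T.ex (i + 1)).apply_apply_eq_zero, map_zero]

lemma range_d (i : ℕ) : LinearMap.range (T.d i) = LinearMap.range (T.ι i) := by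
  rw [d, LinearMap.range_comp_of_range_eq_top]
  exact LinearMap.range_eq_top.2 (T.surj (i + 1))

lemma ker_d (i : ℕ) : LinearMap.ker (T.d i) = LinearMap.ker (T.π (i + 1)) := by
  rw [d, LinearMap.ker_comp_of_ker_eq_bot]
  exact LinearMap.ker_eq_bot.2 (T.inj i)

lemma range_ι (i : ℕ) : LinearMap.range (T.ι i) = LinearMap.ker (T.π i) :=
  (LinearMap.exact_iff.1 (T.ex i)).symm

/-- the complex -/
noncomputable def cx : ChainComplex (ModuleCat.{u} B) ℕ :=
  ChainComplex.of T.F (fun i => ModuleCat.ofHom (T.d i))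
    (fun i => by
      rw [← ModuleCat.ofHom_comp, T.d_comp]
      rfl)

lemma cx_X (i : ℕ) : T.cx.X i = T.F i := rfl

lemma cx_d (i : ℕ) : T.cx.d (i + 1) i = ModuleCat.ofHom (T.d i) :=
  ChainComplex.of_d (V := ModuleCat.{u} B) T.F (fun i => ModuleCat.ofHom (T.d i)) i

lemma aug_comp : ModuleCat.ofHom (T.d 0) ≫ ModuleCat.ofHom (T.π 0) = 0 := by
  rw [← ModuleCat.ofHom_comp]
  have : T.π 0 ∘ₗ T.d 0 = 0 := by
    apply LinearMap.ext
    intro x
    simp only [d, LinearMap.comp_apply, LinearMap.zero_apply]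
    rw [(T.ex 0).apply_apply_eq_zero]
  rw [this]
  rfl

/-- The augmentation as a chain map. -/
noncomputable def aug : T.cx ⟶ (ChainComplex.single₀ (ModuleCat.{u} B)).obj (T.S 0) :=
  (ChainComplex.toSingle₀Equiv _ _).symm ⟨ModuleCat.ofHom (T.π 0),
    (congrArg (fun t => t ≫ ModuleCat.ofHom (T.π 0)) (T.cx_d 0)).trans T.aug_comp⟩

lemma cx_exactAt (n : ℕ) : T.cx.ExactAt (n + 1) := by
  rw [HomologicalComplex.exactAt_iff' _ (n + 1 + 1) (n + 1) n (by simp) (by simp)]
  rw [ShortComplex.moduleCat_exact_iff_range_eq_ker]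
  have h1 : (T.cx.sc' (n + 1 + 1) (n + 1) n).f = ModuleCat.ofHom (T.d (n + 1)) := T.cx_d (n + 1)
  have h2 : (T.cx.sc' (n + 1 + 1) (n + 1) n).g = ModuleCat.ofHom (T.d n) := T.cx_d n
  rw [h1, h2]
  change LinearMap.range (T.d (n + 1)) = LinearMap.ker (T.d n)
  rw [T.range_d, T.ker_d, T.range_ι]

/-- The projective resolution given by a tower. -/
noncomputable def res : ProjectiveResolution (T.S 0) where
  complex := T.cx
  projective := fun n => by
    rw [cx_X]
    exact (IsProjective.iff_projective (T.F n)).1 (T.proj n)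
  π := T.aug
  quasiIso := ⟨fun n => by
    cases n
    · rw [ChainComplex.quasiIsoAt₀_iff, ShortComplex.quasiIso_iff_of_zeros']
      · constructor
        · rw [ShortComplex.moduleCat_exact_iff_range_eq_ker]
          have h1 : T.cx.d 1 0 = ModuleCat.ofHom (T.d 0) := T.cx_d 0
          have h2 : T.aug.f 0 = ModuleCat.ofHom (T.π 0) :=
            ChainComplex.toSingle₀Equiv_symm_apply_f_zero _ _
          change LinearMap.range (T.cx.d 1 0).hom = LinearMap.ker (T.aug.f 0).hom
          rw [h1, h2]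
          change LinearMap.range (T.d 0) = LinearMap.ker (T.π 0)
          rw [T.range_d, T.range_ι]
        · have h2 : T.aug.f 0 = ModuleCat.ofHom (T.π 0) :=
            ChainComplex.toSingle₀Equiv_symm_apply_f_zero _ _
          change Epi (T.aug.f 0)
          rw [h2]
          exact (ModuleCat.epi_iff_surjective _).2 (T.surj 0)
      all_goals rfl
    · rw [quasiIsoAt_iff_exactAt']
      · exact T.cx_exactAt _
      · apply ChainComplex.exactAt_succ_single_obj⟩

end Tower

section homology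

/-- the homology of `C2 → C1 → C0` when the second map factors as `C1 ↠ W → C0` and the kernel of
`C1 ↠ W` is the image of the first map. -/
lemma homology_equiv_ker {B : Type u} [CommRing B] (C : ShortComplex (ModuleCat.{u} B))
    {W : Type u} [AddCommGroup W] [Module B W] (p : C.X₂ →ₗ[B] W) (j : W →ₗ[B] C.X₃)
    (hp : Surjective p) (hg : C.g.hom = j ∘ₗ p)
    (hk : LinearMap.ker p = LinearMap.range C.f.hom) :
    Nonempty (C.homology ≃ₗ[B] LinearMap.ker j) := by
  let q : LinearMap.ker C.g.hom →ₗ[B] LinearMap.ker j :=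
    (p ∘ₗ (LinearMap.ker C.g.hom).subtype).codRestrict (LinearMap.ker j) (by
      intro x
      have hx : C.g.hom (x : C.X₂) = 0 := x.2
      have hx2 : C.g.hom (x : C.X₂) = j (p (x : C.X₂)) := LinearMap.congr_fun hg _
      rw [LinearMap.mem_ker]
      exact hx2.symm.trans hx)
  have hq : Surjective q := by
    rintro ⟨w, hw⟩
    obtain ⟨x, rfl⟩ := hp w
    refine ⟨⟨x, ?_⟩, rfl⟩
    rw [LinearMap.mem_ker, hg]
    exact hw
  have hkq : LinearMap.ker q = LinearMap.range C.moduleCatToCycles := by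
    ext x
    rw [LinearMap.mem_ker]
    constructor
    · intro hx
      have h1 : p (x : C.X₂) = 0 := congrArg Subtype.val hx
      have h2 : (x : C.X₂) ∈ LinearMap.ker p := h1
      rw [hk] at h2
      obtain ⟨y, hy⟩ := h2
      exact ⟨y, Subtype.ext hy⟩
    · rintro ⟨y, rfl⟩
      apply Subtype.ext
      have h2 : C.f.hom y ∈ LinearMap.ker p := by
        rw [hk]
        exact ⟨y, rfl⟩
      exact h2
  have e1 : C.homology ≃ₗ[B] (LinearMap.ker C.g.hom ⧸ LinearMap.range C.moduleCatToCycles) :=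
    C.moduleCatHomologyIso.toLinearEquiv
  have e2 : (LinearMap.ker C.g.hom ⧸ LinearMap.range C.moduleCatToCycles) ≃ₗ[B]
      LinearMap.ker j :=
    (Submodule.quotEquivOfEq _ _ hkq.symm).trans (q.quotKerEquivOfSurjective hq)
  exact ⟨e1.trans e2⟩

end homology

/-- Mathlib's `Tor_i(M, N)` -/
noncomputable abbrev TorM (B : Type u) [CommRing B] (i : ℕ) (M N : Type u) [AddCommGroup M] [Module B M]
    [AddCommGroup N] [Module B N] : ModuleCat.{u} B :=
  ((Tor (ModuleCat.{u} B) i).obj (ModuleCat.of B M)).obj (ModuleCat.of B N)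

namespace Tower

variable {B : Type u} [CommRing B] (T : Tower B) (M : Type u) [AddCommGroup M] [Module B M]

/-- `K i = ker (M ⊗ S (i+1) → M ⊗ F i)`, a model of `Tor_(i+1) (M, S 0)` -/
abbrev K (i : ℕ) : Submodule B (M ⊗[B] T.S (i + 1)) := LinearMap.ker ((T.ι i).lTensor M)

lemma lTensor_d (i : ℕ) : (T.d i).lTensor M = (T.ι i).lTensor M ∘ₗ (T.π (i + 1)).lTensor M := by
  rw [d, LinearMap.lTensor_comp]

lemma ker_lTensor (i : ℕ) : LinearMap.ker ((T.π (i + 1)).lTensor M) =
    LinearMap.range ((T.d (i + 1)).lTensor M) := by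
  have h1 : Exact ((T.ι (i + 1)).lTensor M) ((T.π (i + 1)).lTensor M) :=
    lTensor_exact M (T.ex (i + 1)) (T.surj (i + 1))
  rw [lTensor_d, LinearMap.range_comp_of_range_eq_top]
  · exact LinearMap.exact_iff.1 h1
  · exact LinearMap.range_eq_top.2 (LinearMap.lTensor_surjective M (T.surj (i + 1 + 1)))

theorem tor_equiv (i : ℕ) : Nonempty (TorM B (i + 1) M (T.S 0) ≃ₗ[B] T.K M i) := by
  have e1 := T.res.isoLeftDerivedObj
    ((tensoringLeft (ModuleCat.{u} B)).obj (ModuleCat.of B M)) (i + 1)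
  set K' := (((tensoringLeft (ModuleCat.{u} B)).obj (ModuleCat.of B M)).mapHomologicalComplex
    (ComplexShape.down ℕ)).obj T.cx with hK'
  have e2 : TorM B (i + 1) M (T.S 0) ≃ₗ[B] K'.homology (i + 1) := e1.toLinearEquiv
  have e3 : K'.homology (i + 1) ≅ (K'.sc' (i + 1 + 1) (i + 1) i).homology :=
    ShortComplex.homologyMapIso (K'.isoSc' (i + 1 + 1) (i + 1) i (by simp) (by simp))
  have hd : ∀ n, K'.d (n + 1) n =
      (ModuleCat.of B M) ◁ (ModuleCat.ofHom (T.d n)) := by
    intro n
    change (ModuleCat.of B M) ◁ (T.cx.d (n + 1) n) = _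
    rw [cx_d]
    rfl
  have hf : (K'.sc' (i + 1 + 1) (i + 1) i).f.hom = (T.d (i + 1)).lTensor M := by
    change (K'.d (i + 1 + 1) (i + 1)).hom = _
    rw [hd]
    rfl
  have hg : (K'.sc' (i + 1 + 1) (i + 1) i).g.hom = (T.d i).lTensor M := by
    change (K'.d (i + 1) i).hom = _
    rw [hd]
    rfl
  obtain ⟨e4⟩ := homology_equiv_ker (K'.sc' (i + 1 + 1) (i + 1) i)
    (W := M ⊗[B] T.S (i + 1)) ((T.π (i + 1)).lTensor M) ((T.ι i).lTensor M)
    (LinearMap.lTensor_surjective M (T.surj (i + 1)))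
    (hg.trans (T.lTensor_d M i))
    ((T.ker_lTensor M i).trans (congrArg LinearMap.range hf).symm)
  exact ⟨e2.trans (e3.toLinearEquiv.trans e4)⟩

end Tower

end Pool.Agent.Helper796_theta
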