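import Mathlib
import Pool.Agent.Helper796_theta.Tw

set_option autoImplicit false

/-!
# Existence and base change of towers
-/

open CategoryTheory TensorProduct Function

universe u

namespace Pool.Agent.Helper796_theta

section exist

variable {B : Type u} [CommRing B]

/-- bundled finitely generated modules -/
structure FGM (B : Type u) [CommRing B] where
  X : ModuleCat.{u} B
  fin : Module.Finite B X

/-- number of generators -/
noncomputable def FGM.n (X : FGM B) : ℕ :=
  haveI := X.fin
  Classical.choose (Module.Finite.exists_fin' B X.X)

/-- a finite free cover -/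
noncomputable def FGM.cover (X : FGM B) : (Fin X.n → B) →ₗ[B] X.X :=
  haveI := X.fin
  Classical.choose (Classical.choose_spec (Module.Finite.exists_fin' B X.X))

lemma FGM.cover_surj (X : FGM B) : Surjective X.cover :=
  haveI := X.fin
  Classical.choose_spec (Classical.choose_spec (Module.Finite.exists_fin' B X.X))

variable [IsNoetherianRing B]

/-- the syzygy -/
noncomputable def FGM.next (X : FGM B) : FGM B :=
  ⟨ModuleCat.of B (LinearMap.ker X.cover), inferInstanceAs (Module.Finite B (LinearMap.ker X.cover))⟩

/-- iterated syzygies -/
noncomputable def FGM.seq (X : FGM B) : ℕ → FGM B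
  | 0 => X
  | (i + 1) => (FGM.seq X i).next

/-- the tower of a finitely generated module -/
noncomputable def tower (N : Type u) [AddCommGroup N] [Module B N] [h : Module.Finite B N] :
    Tower B where
  S i := (FGM.seq ⟨ModuleCat.of B N, h⟩ i).X
  F i := ModuleCat.of B (Fin (FGM.seq ⟨ModuleCat.of B N, h⟩ i).n → B)
  ι i := (LinearMap.ker (FGM.seq ⟨ModuleCat.of B N, h⟩ i).cover).subtype
  π i := (FGM.seq ⟨ModuleCat.of B N, h⟩ i).cover
  inj i := Submodule.subtype_injective _
  surj i := FGM.cover_surj _
  ex i := LinearMap.exact_subtype_ker_map _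
  proj i := inferInstanceAs (Module.Projective B (Fin _ → B))

variable (N : Type u) [AddCommGroup N] [Module B N] [h : Module.Finite B N]

lemma tower_S_zero : (tower (B := B) N).S 0 = ModuleCat.of B N := rfl

instance tower_S_finite (i : ℕ) : Module.Finite B ((tower (B := B) N).S i) :=
  (FGM.seq ⟨ModuleCat.of B N, h⟩ i).fin

instance tower_F_free (i : ℕ) : Module.Free B ((tower (B := B) N).F i) :=
  inferInstanceAs (Module.Free B (Fin _ → B))

instance tower_F_finite (i : ℕ) : Module.Finite B ((tower (B := B) N).F i) :=
  inferInstanceAs (Module.Finite B (Fin _ → B))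

end exist

namespace Tower

variable {B : Type u} [CommRing B] (T : Tower B)

/-- drop the first `n` steps -/
def drop (n : ℕ) : Tower B where
  S i := T.S (n + i)
  F i := T.F (n + i)
  ι i := T.ι (n + i)
  π i := T.π (n + i)
  inj i := T.inj (n + i)
  surj i := T.surj (n + i)
  ex i := T.ex (n + i)
  proj i := T.proj (n + i)

/-- base change of a tower which stays exact -/
noncomputable def bc (B' : Type u) [CommRing B'] [Algebra B B']
    (h : ∀ i, Injective ((T.ι i).lTensor B')) : Tower B' where
  S i := ModuleCat.of B' (B' ⊗[B] T.S i)
  F i := ModuleCat.of B' (B' ⊗[B] T.F i)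
  ι i := (T.ι i).baseChange B'
  π i := (T.π i).baseChange B'
  inj i := h i
  surj i := LinearMap.lTensor_surjective B' (T.surj i)
  ex i := lTensor_exact B' (T.ex i) (T.surj i)
  proj i := by
    have := T.proj i
    exact inferInstanceAs (Module.Projective B' (B' ⊗[B] T.F i))

end Tower

section len

variable {B B' : Type u} [CommRing B] [CommRing B'] [Algebra B B']
variable {W F : Type u} [AddCommGroup W] [Module B W] [AddCommGroup F] [Module B F]
variable (M : Type u) [AddCommGroup M] [Module B M] [Module B' M] [IsScalarTower B B' M]

lemma cancel_comm (φ : W →ₗ[B] F) (z : M ⊗[B'] (B' ⊗[B] W)) :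
    TensorProduct.AlgebraTensorModule.cancelBaseChange B B' B' M F
      (LinearMap.lTensor M (φ.baseChange B') z) =
    φ.lTensor M (TensorProduct.AlgebraTensorModule.cancelBaseChange B B' B' M W z) := by
  induction z using TensorProduct.induction_on with
  | zero => simp
  | tmul x w =>
    induction w using TensorProduct.induction_on with
    | zero => simp
    | tmul b m =>
      rw [LinearMap.lTensor_tmul, LinearMap.baseChange_tmul,
        TensorProduct.AlgebraTensorModule.cancelBaseChange_tmul,
        TensorProduct.AlgebraTensorModule.cancelBaseChange_tmul, LinearMap.lTensor_tmul]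
    | add a b ha hb =>
      rw [TensorProduct.tmul_add, map_add, map_add, map_add, map_add, ha, hb]
  | add a b ha hb => rw [map_add, map_add, map_add, map_add, ha, hb]

lemma length_bc (hs : Surjective (algebraMap B B')) (φ : W →ₗ[B] F) :
    Module.length B' (LinearMap.ker ((φ.baseChange B').lTensor M)) =
      Module.length B (LinearMap.ker (φ.lTensor M)) := by
  rw [← Module.length_eq_of_surjective (S := B) (R := B') hs]
  let c := TensorProduct.AlgebraTensorModule.cancelBaseChange B B' B' M W
  let e : LinearMap.ker ((φ.baseChange B').lTensor M) →ₗ[B] LinearMap.ker (φ.lTensor M) :=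
    { toFun := fun z => ⟨c z, by
        rw [LinearMap.mem_ker, ← cancel_comm, LinearMap.mem_ker.1 z.2, map_zero]⟩
      map_add' := fun x y => Subtype.ext (map_add c _ _)
      map_smul' := fun b x => Subtype.ext (by
        change c (b • (x : M ⊗[B'] (B' ⊗[B] W))) = b • c x
        exact map_smul (c.restrictScalars B) b _) }
  have he : Bijective e := by
    constructor
    · intro x y hxy
      have h1 : c x = c y := congrArg
        (fun z : LinearMap.ker (φ.lTensor M) => (z : M ⊗[B] W)) hxy
      exact Subtype.ext (c.injective h1)
    · rintro ⟨y, hy⟩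
      obtain ⟨x, rfl⟩ := c.surjective y
      refine ⟨⟨x, ?_⟩, rfl⟩
      rw [LinearMap.mem_ker] at hy ⊢
      rw [← cancel_comm] at hy
      exact (TensorProduct.AlgebraTensorModule.cancelBaseChange B B' B' M F).injective
        (by rw [hy, map_zero])
  exact (LinearEquiv.ofBijective e he).length_eq

end len

end Pool.Agent.Helper796_theta
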