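import Mathlib
import Pool.Agent.Helper796_theta.Tw
import Pool.Agent.Helper796_theta.Tw2
import Pool.Agent.Helper796_theta.Five

set_option autoImplicit false

/-!
# Reduction of a tower modulo an element, lengths
-/

open CategoryTheory TensorProduct Function

universe u

namespace Pool.Agent.Helper796_theta

lemma len_bot {B X : Type*} [Ring B] [AddCommGroup X] [Module B X] {S : Submodule B X}
    (h : S = ⊥) : Module.length B S = 0 := by
  subst h
  exact Module.length_eq_zero

section modx

variable {B : Type u} [CommRing B] (x : B)

/-- multiplication by `x` -/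
abbrev mx (M : Type*) [AddCommGroup M] [Module B M] : M →ₗ[B] M := LinearMap.lsmul B M x

lemma mx_apply (M : Type*) [AddCommGroup M] [Module B M] (m : M) : mx x M m = x • m := rfl

lemma mx_inj {M : Type*} [AddCommGroup M] [Module B M] (h : IsSMulRegular M x) :
    Injective (mx x M) := h

lemma mx_rTensor (M V : Type*) [AddCommGroup M] [Module B M] [AddCommGroup V] [Module B V] :
    (mx x M).rTensor V = mx x (M ⊗[B] V) := by
  apply TensorProduct.ext'
  intro m v
  rw [LinearMap.rTensor_tmul, mx_apply, mx_apply, TensorProduct.smul_tmul']

variable {B' : Type u} [CommRing B'] [Algebra B B']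

/-- `0 → M → M → M' → 0`, reduction of a module modulo a regular element -/
structure RedMod (x : B) (B' : Type u) [CommRing B'] [Algebra B B']
    (M : Type u) [AddCommGroup M] [Module B M] (M' : Type u) [AddCommGroup M'] [Module B M']
    [Module B' M'] [IsScalarTower B B' M'] (g : M →ₗ[B] M') : Prop where
  reg : IsSMulRegular M x
  surj : Surjective g
  ex : Exact (mx x M) g

/-- `B' = B / x` with `x` regular -/
structure RedRing (x : B) (B' : Type u) [CommRing B'] [Algebra B B'] : Prop where
  reg : IsSMulRegular B x
  surj : Surjective (algebraMap B B')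
  ker : ∀ b, algebraMap B B' b = 0 ↔ x ∣ b

variable {x}

lemma RedRing.redMod (h : RedRing x B') : RedMod x B' B B' (Algebra.linearMap B B') where
  reg := h.reg
  surj := h.surj
  ex := by
    intro b
    rw [Algebra.linearMap_apply, h.ker]
    constructor
    · rintro ⟨c, rfl⟩
      exact ⟨c, rfl⟩
    · rintro ⟨c, rfl⟩
      exact ⟨c, rfl⟩

/-- the first terms of the tower stay exact modulo a regular element -/
lemma inj_of_reg (h : RedRing x B') {W F V : Type u} [AddCommGroup W] [Module B W]
    [AddCommGroup F] [Module B F] [AddCommGroup V] [Module B V] [Module.Projective B F]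
    (ι : W →ₗ[B] F) (π : F →ₗ[B] V) (hι : Injective ι) (hπ : Surjective π) (he : Exact ι π)
    (hV : IsSMulRegular V x) : Injective (ι.lTensor B') := by
  have hr := h.redMod
  have h1 := length_K'' ι π (mx x B) (Algebra.linearMap B B') hr.reg hr.surj hr.ex hπ he
  have h2 : LinearMap.ker (ι.lTensor B) = ⊥ :=
    LinearMap.ker_eq_bot.2 (Module.Flat.lTensor_preserves_injective_linearMap (M := B) ι hι)
  have h3 : Subsingleton (LinearMap.ker (ι.lTensor B)) := by
    rw [h2]; infer_instance
  have h4 : LinearMap.range (kmap ι (Algebra.linearMap B B')) = ⊥ := by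
    rw [LinearMap.range_eq_bot]
    apply LinearMap.ext
    intro y
    rw [Subsingleton.elim y 0, map_zero, map_zero]
  have h5 : LinearMap.ker ((mx x B).rTensor V) = ⊥ := by
    rw [mx_rTensor, LinearMap.ker_eq_bot]
    intro a b hab
    have hab' : x • a = x • b := hab
    have := congrArg (TensorProduct.lid B V) hab'
    rw [map_smul, map_smul] at this
    exact (TensorProduct.lid B V).injective (hV this)
  have e4 := len_bot (B := B) (X := LinearMap.ker (ι.lTensor B')) h4
  have e5 := len_bot h5
  rw [e4, e5, add_zero, Module.length_eq_zero_iff] at h1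
  rw [← LinearMap.ker_eq_bot, eq_bot_iff]
  intro y hy
  have := h1.elim ⟨y, hy⟩ 0
  exact congrArg Subtype.val this

variable (T : Tower B)

/-- `x` is regular on the syzygies if it is so on the ring -/
lemma Tower.reg_succ (hB : IsSMulRegular B x) (i : ℕ) : IsSMulRegular (T.S (i + 1)) x := by
  have := T.proj i
  have h1 : IsSMulRegular (T.F i) x := by
    obtain ⟨s, hs⟩ := Module.Projective.out (R := B) (P := T.F i)
    have hinj : Injective s := LeftInverse.injective hs
    have h2 : IsSMulRegular (T.F i →₀ B) x := by
      intro a b hab
      ext j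
      exact hB (DFunLike.congr_fun hab j)
    intro a b hab
    apply hinj
    apply h2
    change x • s a = x • s b
    rw [← map_smul, ← map_smul]
    exact congrArg s hab
  intro a b hab
  apply T.inj i
  apply h1
  change x • T.ι i a = x • T.ι i b
  rw [← map_smul, ← map_smul]
  exact congrArg (T.ι i) hab

lemma Tower.reg_F (hB : IsSMulRegular B x) (i : ℕ) : IsSMulRegular (T.F i) x := by
  have := T.proj i
  obtain ⟨s, hs⟩ := Module.Projective.out (R := B) (P := T.F i)
  have hinj : Injective s := LeftInverse.injective hs
  have h2 : IsSMulRegular (T.F i →₀ B) x := by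
    intro a b hab
    ext j
    exact hB (DFunLike.congr_fun hab j)
  intro a b hab
  apply hinj
  apply h2
  change x • s a = x • s b
  rw [← map_smul, ← map_smul]
  exact congrArg s hab

lemma Tower.inj_lTensor (h : RedRing x B') (h0 : IsSMulRegular (T.S 0) x) (i : ℕ) :
    Injective ((T.ι i).lTensor B') := by
  have := T.proj i
  refine inj_of_reg h (T.ι i) (T.π i) (T.inj i) (T.surj i) (T.ex i) ?_
  cases i with
  | zero => exact h0
  | succ n => exact T.reg_succ h.reg n

end modx

end Pool.Agent.Helper796_theta
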