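import Mathlib
import Pool.Agent.Helper796_theta.Modx

set_option autoImplicit false

/-!
# Tor over a quotient by a regular element in terms of Tor upstairs
-/

open CategoryTheory TensorProduct Function

universe u

namespace Pool.Agent.Helper796_theta

section

variable {B : Type u} [CommRing B] (x : B)

/-- the length of `K / x K` -/
noncomputable def lenq (K : Type*) [AddCommGroup K] [Module B K] : ℕ∞ :=
  Module.length B (K ⧸ LinearMap.range (mx x K))

/-- the length of the kernel of `x` on `K` -/
noncomputable def lenk (K : Type*) [AddCommGroup K] [Module B K] : ℕ∞ :=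
  Module.length B (LinearMap.ker (mx x K))

lemma lenq_congr {K K' : Type*} [AddCommGroup K] [Module B K] [AddCommGroup K'] [Module B K']
    (e : K ≃ₗ[B] K') : lenq x K = lenq x K' := by
  refine (Submodule.Quotient.equiv _ _ e ?_).length_eq
  ext y
  constructor
  · rintro ⟨_, ⟨z, rfl⟩, rfl⟩
    exact ⟨e z, (map_smul e x z).symm⟩
  · rintro ⟨z, rfl⟩
    exact ⟨x • e.symm z, ⟨e.symm z, rfl⟩, by
      change e (x • e.symm z) = x • z
      rw [map_smul, e.apply_symm_apply]⟩

/-- a map which is injective and hits the kernel of `x` -/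
lemma lenk_of_inj {K K' : Type*} [AddCommGroup K] [Module B K] [AddCommGroup K'] [Module B K']
    (i : K →ₗ[B] K') (hi : Injective i) (h : ∀ y : K', x • y = 0 → ∃ z, i z = y) :
    lenk x K = lenk x K' := by
  let e : LinearMap.ker (mx x K) →ₗ[B] LinearMap.ker (mx x K') :=
    (i ∘ₗ (LinearMap.ker (mx x K)).subtype).codRestrict _ (by
      intro z
      rw [LinearMap.mem_ker, LinearMap.comp_apply]
      change x • i (z : K) = 0
      rw [← map_smul]
      have : x • (z : K) = 0 := z.2
      rw [this, map_zero])
  have he : Bijective e := by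
    constructor
    · intro a b hab
      exact Subtype.ext (hi (congrArg Subtype.val hab))
    · rintro ⟨y, hy⟩
      obtain ⟨z, rfl⟩ := h y hy
      refine ⟨⟨z, ?_⟩, rfl⟩
      rw [LinearMap.mem_ker]
      apply hi
      change i (x • z) = i 0
      rw [map_smul, map_zero]
      exact hy
  exact (LinearEquiv.ofBijective e he).length_eq

lemma lenk_congr {K K' : Type*} [AddCommGroup K] [Module B K] [AddCommGroup K'] [Module B K']
    (e : K ≃ₗ[B] K') : lenk x K = lenk x K' :=
  lenk_of_inj x e.toLinearMap e.injective (fun y _ => ⟨e.symm y, e.apply_symm_apply y⟩)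

omit x in
lemma length_range_of_exact {K' K K'' : Type*} [AddCommGroup K'] [Module B K']
    [AddCommGroup K] [Module B K] [AddCommGroup K''] [Module B K'']
    (a : K' →ₗ[B] K) (b : K →ₗ[B] K'') (h : Exact a b) :
    Module.length B (LinearMap.range b) = Module.length B (K ⧸ LinearMap.range a) :=
  ((Submodule.quotEquivOfEq _ _ (LinearMap.exact_iff.1 h).symm).trans
    b.quotKerEquivRange).length_eq.symm

lemma kmap_mx {W F : Type*} [AddCommGroup W] [Module B W] [AddCommGroup F] [Module B F]
    (ι : W →ₗ[B] F) (M : Type*) [AddCommGroup M] [Module B M] :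
    kmap ι (mx x M) = mx x (LinearMap.ker (ι.lTensor M)) := by
  apply LinearMap.ext
  intro y
  apply Subtype.ext
  rw [kmap_coe, mx_rTensor]
  rfl

variable {x} {B' : Type u} [CommRing B'] [Algebra B B'] (T : Tower B)
variable {M : Type u} [AddCommGroup M] [Module B M]
variable {M' : Type u} [AddCommGroup M'] [Module B M'] [Module B' M'] [IsScalarTower B B' M']
variable {g : M →ₗ[B] M'}

/-- the length of `Tor_(i+1)` downstairs -/
lemma length_red_zero (hM : RedMod x B' M M' g) (i : ℕ) :
    Module.length B (LinearMap.ker ((T.ι i).lTensor M')) =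
      lenq x (T.K M i) + lenk x (M ⊗[B] T.S i) := by
  have := T.proj i
  rw [length_K'' (T.ι i) (T.π i) (mx x M) g hM.reg hM.surj hM.ex (T.surj i) (T.ex i)]
  have h1 := kmap_exact (T.ι i) (mx x M) g hM.reg hM.surj hM.ex
  rw [kmap_mx] at h1
  rw [length_range_of_exact _ _ h1, mx_rTensor]
  rfl

/-- regularity on a tensor product with a flat module -/
lemma reg_tensor_flat (hM : IsSMulRegular M x) (F : Type u) [AddCommGroup F] [Module B F]
    [Module.Flat B F] : IsSMulRegular (M ⊗[B] F) x := by
  have h1 : Injective ((mx x M).rTensor F) :=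
    Module.Flat.rTensor_preserves_injective_linearMap (M := F) (mx x M) hM
  rw [mx_rTensor] at h1
  exact h1

lemma lenk_succ (hM : IsSMulRegular M x) (i : ℕ) :
    lenk x (M ⊗[B] T.S (i + 1)) = lenk x (T.K M i) := by
  symm
  apply lenk_of_inj x (T.K M i).subtype (Submodule.subtype_injective _)
  intro y hy
  refine ⟨⟨y, ?_⟩, rfl⟩
  have := T.proj i
  apply reg_tensor_flat hM (T.F i)
  change x • (T.ι i).lTensor M y = x • 0
  rw [← map_smul, hy, map_zero, smul_zero]

/-- **the length of Tor downstairs** -/
theorem length_red (hM : RedMod x B' M M' g) (i : ℕ) :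
    Module.length B (LinearMap.ker ((T.ι (i + 1)).lTensor M')) =
      lenq x (T.K M (i + 1)) + lenk x (T.K M i) := by
  rw [length_red_zero T hM, lenk_succ T hM.reg]

/-- the length of Tor over the quotient ring -/
theorem length_tor_red (h : RedRing x B') (h0 : IsSMulRegular (T.S 0) x)
    (hM : RedMod x B' M M' g) (i : ℕ) :
    Module.length B' (TorM B' (i + 2) M' (B' ⊗[B] T.S 0)) =
      lenq x (T.K M (i + 1)) + lenk x (T.K M i) := by
  have h1 := (T.bc B' (T.inj_lTensor h h0)).tor_equiv M' (i + 1)
  obtain ⟨e⟩ := h1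
  have h2 : Module.length B' (TorM B' (i + 2) M' (B' ⊗[B] T.S 0)) =
      Module.length B' (LinearMap.ker (((T.ι (i + 1)).baseChange B').lTensor M')) := e.length_eq
  rw [h2, length_bc M' h.surj, length_red T hM]

end

end Pool.Agent.Helper796_theta
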