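import Mathlib
import Pool.Agent.H379R3.Reg
import Pool.Agent.Helper796_theta.Modx

set_option autoImplicit false

/-!
# Over a regular local ring of dimension `n` the `n`-th syzygies are projective
-/

open CategoryTheory TensorProduct Function IsLocalRing

universe u

namespace Pool.Agent.Helper796_theta

/-- all the projectives of the tower are finitely generated -/
def Tower.IsFin {B : Type u} [CommRing B] (T : Tower B) : Prop :=
  ∀ i, Module.Finite B (T.F i)

lemma Tower.IsFin.S {B : Type u} [CommRing B] {T : Tower B} (h : T.IsFin) (i : ℕ) :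
    Module.Finite B (T.S i) := by
  have := h i
  exact Module.Finite.of_surjective (T.π i) (T.surj i)

lemma projective_of_isField {R : Type u} [CommRing R] (h : IsField R) (M : Type u)
    [AddCommGroup M] [Module R M] : Module.Projective R M := by
  let _ : Field R := h.toField
  infer_instance

lemma exists_param {R : Type u} [CommRing R] [IsRegularLocalRing R] {n : ℕ}
    (h : ringKrullDim R = (n + 1 : ℕ)) : ∃ t ∈ maximalIdeal R, t ∉ maximalIdeal R ^ 2 := by
  set m := maximalIdeal R with hm
  have hmb : m ≠ ⊥ := by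
    intro h0
    have h2 : IsField R := isField_iff_maximalIdeal_eq.2 h0
    have := ringKrullDim_eq_zero_of_isField h2
    rw [h] at this
    have h3 : n + 1 = 0 := by exact_mod_cast this
    omega
  have hsq : ¬ (m ≤ m ^ 2) := by
    intro hle
    apply hmb
    apply Submodule.eq_bot_of_le_smul_of_le_jacobson_bot m m m.fg_of_isNoetherianRing
    · rw [smul_eq_mul, ← pow_two]; exact hle
    · exact IsLocalRing.maximalIdeal_le_jacobson _
  obtain ⟨t, h1, h2⟩ := Set.not_subset.1 hsq
  exact ⟨t, h1, h2⟩

theorem proj_of_regular (n : ℕ) : ∀ (R : Type u) [CommRing R] [IsRegularLocalRing R],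
    ringKrullDim R = (n : ℕ) → ∀ T : Tower R, T.IsFin → Module.Projective R (T.S n) := by
  induction n with
  | zero =>
    intro R _ _ h T _
    have h1 := H379R3.dim_zero_maximalIdeal_eq_bot h
    exact projective_of_isField (isField_iff_maximalIdeal_eq.2 h1) _
  | succ n ih =>
    intro R _ _ h T hT
    obtain ⟨t, ht, ht2⟩ := exists_param h
    have hdom := H379R3.isDomain R
    obtain ⟨hreg, hdim⟩ := H379R3.regular_quotient t ht ht2 n h
    have ht0 : t ≠ 0 := by
      rintro rfl
      exact ht2 (Ideal.zero_mem _)
    have hR : RedRing t (R ⧸ Ideal.span {t}) := by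
      refine ⟨?_, Ideal.Quotient.mk_surjective, ?_⟩
      · intro a b hab
        exact mul_left_cancel₀ ht0 hab
      · intro b
        change Ideal.Quotient.mk _ b = 0 ↔ _
        rw [Ideal.Quotient.eq_zero_iff_mem, Ideal.mem_span_singleton]
    let T1 := T.drop 1
    have h0 : IsSMulRegular (T1.S 0) t := T.reg_succ hR.reg 0
    let T2 := T1.bc (R ⧸ Ideal.span {t}) (T1.inj_lTensor hR h0)
    have hT2 : T2.IsFin := by
      intro i
      have := hT (1 + i)
      exact inferInstanceAs (Module.Finite (R ⧸ Ideal.span {t})
        ((R ⧸ Ideal.span {t}) ⊗[R] T.F (1 + i)))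
    have h1 : Module.Projective (R ⧸ Ideal.span {t})
        ((R ⧸ Ideal.span {t}) ⊗[R] T.S (1 + n)) := ih _ hdim T2 hT2
    have h2 := hT.S (1 + n)
    have h3' : Module.Flat (R ⧸ Ideal.span {t}) ((R ⧸ Ideal.span {t}) ⊗[R] T.S (1 + n)) :=
      @Module.Flat.of_projective _ _ _ _ _ h1
    have h3 : Module.Free (R ⧸ Ideal.span {t}) ((R ⧸ Ideal.span {t}) ⊗[R] T.S (1 + n)) :=
      @Module.free_of_flat_of_isLocalRing _ _ _ _ _ _ inferInstance h3'
    have h4 : Module.Free (R ⧸ Ideal.span {t}) (QuotSMulTop t (T.S (1 + n))) :=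
      Module.Free.of_equiv ((QuotSMulTop.equivQuotTensor t (T.S (1 + n))).extendScalarsOfSurjective
        Ideal.Quotient.mk_surjective).symm
    have h5 : IsSMulRegular (T.S (1 + n)) t := by
      rw [add_comm]
      exact T.reg_succ hR.reg n
    have h6 : Module.FinitePresentation R (T.S (1 + n)) :=
      Module.finitePresentation_of_finite R _
    have h7 : Module.Free R (T.S (1 + n)) :=
      (Module.free_quotSMulTop_iff_free R (T.S (1 + n)) (by
        exact IsLocalRing.maximalIdeal_le_jacobson _ ht) h5).1 h4
    rw [add_comm] at h7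
    infer_instance

end Pool.Agent.Helper796_theta
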