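import Mathlib
import Pool.Agent.Helper796_theta.Gl

set_option autoImplicit false

/-!
# Projective dimension of modules over a hypersurface, seen over the ambient ring
-/

open CategoryTheory CategoryTheory.Limits TensorProduct Function

universe u

namespace Pool.Agent.Helper796_theta

section pd

variable {Q : Type u} [CommRing Q]

/-- projective dimension `< n` -/
def PD (Q : Type u) [CommRing Q] (n : ℕ) (M : Type u) [AddCommGroup M] [Module Q M] : Prop :=
  HasProjectiveDimensionLT (ModuleCat.of Q M) n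

variable {M₁ M₂ M₃ : Type u} [AddCommGroup M₁] [Module Q M₁] [AddCommGroup M₂] [Module Q M₂]
  [AddCommGroup M₃] [Module Q M₃]

lemma shortExact_mk (f : M₁ →ₗ[Q] M₂) (g : M₂ →ₗ[Q] M₃) (hf : Injective f) (hg : Surjective g)
    (h : Exact f g) : (ShortComplex.mk (ModuleCat.ofHom f) (ModuleCat.ofHom g) (by
      rw [← ModuleCat.ofHom_comp, h.linearMap_comp_eq_zero]; rfl)).ShortExact := by
  apply ShortComplex.ShortExact.mk'
  · rw [ShortComplex.moduleCat_exact_iff_range_eq_ker]
    exact (LinearMap.exact_iff.1 h).symm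
  · exact (ModuleCat.mono_iff_injective _).2 hf
  · exact (ModuleCat.epi_iff_surjective _).2 hg

lemma PD.X1 {n : ℕ} (f : M₁ →ₗ[Q] M₂) (g : M₂ →ₗ[Q] M₃) (hf : Injective f) (hg : Surjective g)
    (h : Exact f g) (h2 : PD Q n M₂) (h3 : PD Q (n + 1) M₃) : PD Q n M₁ :=
  (shortExact_mk f g hf hg h).hasProjectiveDimensionLT_X₁ n h2 h3

lemma PD.X2 {n : ℕ} (f : M₁ →ₗ[Q] M₂) (g : M₂ →ₗ[Q] M₃) (hf : Injective f) (hg : Surjective g)
    (h : Exact f g) (h1 : PD Q n M₁) (h3 : PD Q n M₃) : PD Q n M₂ :=
  (shortExact_mk f g hf hg h).hasProjectiveDimensionLT_X₂ n h1 h3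

lemma PD.X3 {n : ℕ} (f : M₁ →ₗ[Q] M₂) (g : M₂ →ₗ[Q] M₃) (hf : Injective f) (hg : Surjective g)
    (h : Exact f g) (h1 : PD Q n M₁) (h2 : PD Q (n + 1) M₂) : PD Q (n + 1) M₃ :=
  (shortExact_mk f g hf hg h).hasProjectiveDimensionLT_X₃ n h1 h2

lemma PD.mono {n m : ℕ} (h : n ≤ m) (h1 : PD Q n M₁) : PD Q m M₁ := by
  have : HasProjectiveDimensionLT (ModuleCat.of Q M₁) n := h1
  exact hasProjectiveDimensionLT_of_ge _ n m h

lemma PD.proj (h : PD Q 1 M₁) : Module.Projective Q M₁ := by
  have h1 : Projective (ModuleCat.of Q M₁) := projective_iff_hasProjectiveDimensionLT_one.2 h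
  exact (IsProjective.iff_projective M₁).2 h1

lemma PD.of_proj [Module.Projective Q M₁] : PD Q 1 M₁ :=
  projective_iff_hasProjectiveDimensionLT_one.1
    ((IsProjective.iff_projective M₁).1 inferInstance)

lemma PD.retract {n : ℕ} (i : M₁ →ₗ[Q] M₂) (r : M₂ →ₗ[Q] M₁) (h : r ∘ₗ i = LinearMap.id)
    (h1 : PD Q n M₂) : PD Q n M₁ := by
  have : HasProjectiveDimensionLT (ModuleCat.of Q M₂) n := h1
  let R : Retract (ModuleCat.of Q M₁) (ModuleCat.of Q M₂) :=
    { i := ModuleCat.ofHom i
      r := ModuleCat.ofHom r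
      retract := by
        rw [← ModuleCat.ofHom_comp, h]
        rfl }
  exact R.hasProjectiveDimensionLT n

/-- global dimension at most `D`, in terms of towers -/
def GD (Q : Type u) [CommRing Q] (D : ℕ) : Prop :=
  ∀ T : Tower Q, T.IsFin → Module.Projective Q (T.S D)

lemma PD_of_tower (T : Tower Q) : ∀ (i n : ℕ), PD Q (n + 1) (T.S i) → PD Q (n + 1 + i) (T.S 0) := by
  intro i
  induction i with
  | zero => exact fun n h => h
  | succ i ih =>
    intro n h
    have h1 := T.proj i
    have h2 : PD Q (n + 1 + 1) (T.S i) :=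
      PD.X3 (T.ι i) (T.π i) (T.inj i) (T.surj i) (T.ex i) h
        (PD.mono (by omega) (PD.of_proj (M₁ := T.F i)))
    exact PD.mono (by omega) (ih (n + 1) h2)

lemma PD_of_GD [IsNoetherianRing Q] {D : ℕ} (h : GD Q D) (M : Type u) [AddCommGroup M]
    [Module Q M] [Module.Finite Q M] : PD Q (D + 1) M := by
  have h1 : Module.Projective Q ((tower M).S D) := h (tower M) (fun i => inferInstance)
  have h2 := PD_of_tower (tower (B := Q) M) D 0 PD.of_proj
  exact PD.mono (by omega) h2

end pd

section hyper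

variable {Q B : Type u} [CommRing Q] [CommRing B] [Algebra Q B] {f : Q}

lemma PD2_free (h : RedRing f B) (n : ℕ) : PD Q 2 (Fin n → B) := by
  let a : (Fin n → Q) →ₗ[Q] (Fin n → Q) := mx f _
  let b : (Fin n → Q) →ₗ[Q] (Fin n → B) := (Algebra.linearMap Q B).compLeft (Fin n)
  refine PD.X3 a b ?_ ?_ ?_ PD.of_proj (PD.mono (by omega) PD.of_proj)
  · intro x y hxy
    funext i
    exact h.reg (congrFun hxy i)
  · intro y
    choose z hz using fun i => h.surj (y i)
    exact ⟨z, funext hz⟩
  · intro x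
    constructor
    · intro hx
      have h1 : ∀ i, f ∣ x i := fun i => (h.ker _).1 (congrFun hx i)
      choose z hz using h1
      exact ⟨z, funext fun i => (hz i).symm⟩
    · rintro ⟨z, rfl⟩
      funext i
      exact (h.ker _).2 ⟨z i, rfl⟩

lemma PD2_proj (h : RedRing f B) (P : Type u) [AddCommGroup P] [Module B P] [Module Q P]
    [IsScalarTower Q B P] [Module.Finite B P] [Module.Projective B P] : PD Q 2 P := by
  obtain ⟨n, g, hg⟩ := Module.Finite.exists_fin' B P
  obtain ⟨s, hs⟩ := Module.projective_lifting_property g LinearMap.id hg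
  refine PD.retract (s.restrictScalars Q) (g.restrictScalars Q) ?_ (PD2_free h n)
  apply LinearMap.ext
  intro x
  exact LinearMap.congr_fun hs x

lemma PD_syz (h : RedRing f B) (T : Tower B) (hT : T.IsFin) [∀ i, Module Q (T.S i)]
    [∀ i, IsScalarTower Q B (T.S i)] [∀ i, Module Q (T.F i)] [∀ i, IsScalarTower Q B (T.F i)]
    {D : ℕ} (h0 : PD Q (D + 1) (T.S 0)) : ∀ (j k : ℕ), j + k = D + 1 → 2 ≤ k →
    PD Q k (T.S j) := by
  intro j
  induction j with
  | zero =>
    intro k hk _
    have : k = D + 1 := by omega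
    subst this
    exact h0
  | succ j ih =>
    intro k hk hk2
    have h1 := ih (k + 1) (by omega) (by omega)
    have h2 := T.proj j
    have h3 := hT j
    exact PD.X1 ((T.ι j).restrictScalars Q) ((T.π j).restrictScalars Q) (T.inj j) (T.surj j)
      (T.ex j) (PD.mono hk2 (PD2_proj h (T.F j))) h1

end hyper

namespace Tower

variable {B : Type u} [CommRing B]

/-- add one step at the beginning -/
def cons (U : Tower B) (S' F' : ModuleCat.{u} B) (ι' : U.S 0 →ₗ[B] F') (π' : F' →ₗ[B] S')
    (h1 : Injective ι') (h2 : Surjective π') (h3 : Exact ι' π') (h4 : Module.Projective B F') :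
    Tower B where
  S := fun i => match i with
    | 0 => S'
    | (j + 1) => U.S j
  F := fun i => match i with
    | 0 => F'
    | (j + 1) => U.F j
  ι := fun i => match i with
    | 0 => ι'
    | (j + 1) => U.ι j
  π := fun i => match i with
    | 0 => π'
    | (j + 1) => U.π j
  inj := fun i => match i with
    | 0 => h1
    | (j + 1) => U.inj j
  surj := fun i => match i with
    | 0 => h2
    | (j + 1) => U.surj j
  ex := fun i => match i with
    | 0 => h3
    | (j + 1) => U.ex j
  proj := fun i => match i with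
    | 0 => h4
    | (j + 1) => U.proj j

/-- two towers of the same module have the same `K` -/
lemma length_K_congr (U V : Tower B) (h : U.S 0 = V.S 0) (M : Type u) [AddCommGroup M]
    [Module B M] (i : ℕ) : Module.length B (U.K M i) = Module.length B (V.K M i) := by
  obtain ⟨e1⟩ := U.tor_equiv M i
  obtain ⟨e2⟩ := V.tor_equiv M i
  rw [← e1.length_eq, ← e2.length_eq, h]

end Tower

end Pool.Agent.Helper796_theta
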