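import Mathlib
import Pool.Agent.Helper796_theta.PD

set_option autoImplicit false

/-!
# Locally projective syzygies, and elements killing Tor
-/

open CategoryTheory TensorProduct Function

universe u

namespace Pool.Agent.Helper796_theta

lemma GD_of_regularLocal {R : Type u} [CommRing R] [IsRegularLocalRing R] {D : ℕ}
    (h : ringKrullDim R ≤ D) : GD R D := by
  obtain ⟨n, hn⟩ := H379R3.exists_dim_eq (B := R)
  rw [hn] at h
  have h1 : n ≤ D := by exact_mod_cast h
  obtain ⟨k, rfl⟩ := Nat.exists_eq_add_of_le' h1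
  intro T hT
  exact proj_of_regular n R hn (T.drop k) (fun i => hT (k + i))

namespace Tower

variable {B : Type u} [CommRing B] (T : Tower B)

/-- the elements `s` such that `s` times the identity of `S j` factors through `F j` -/
def fac (j : ℕ) : Ideal B where
  carrier := {s | ∃ g : T.S j →ₗ[B] T.F j, T.π j ∘ₗ g = s • LinearMap.id}
  zero_mem' := ⟨0, by rw [LinearMap.comp_zero, zero_smul]⟩
  add_mem' := by
    rintro a b ⟨g, hg⟩ ⟨h, hh⟩
    exact ⟨g + h, by rw [LinearMap.comp_add, hg, hh, add_smul]⟩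
  smul_mem' := by
    rintro c a ⟨g, hg⟩
    exact ⟨c • g, by rw [LinearMap.comp_smul, hg, smul_smul]; rfl⟩

lemma mem_fac {j : ℕ} {s : B} : s ∈ T.fac j ↔
    ∃ g : T.S j →ₗ[B] T.F j, T.π j ∘ₗ g = s • LinearMap.id := Iff.rfl

/-- `s` times the identity of `S (j+1)` extends to `F j` -/
lemma exists_ext_of_mem_fac {j : ℕ} {s : B} (h : s ∈ T.fac j) :
    ∃ h : T.F j →ₗ[B] T.S (j + 1), h ∘ₗ T.ι j = s • LinearMap.id := by
  obtain ⟨g, hg⟩ := h
  -- `s - g π` lands in the kernel of `π`
  have h1 : ∀ x, ∃ y, T.ι j y = s • x - g (T.π j x) := by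
    intro x
    apply (T.ex j _).1
    rw [map_sub, map_smul]
    have : T.π j (g (T.π j x)) = s • T.π j x := LinearMap.congr_fun hg _
    rw [this, sub_self]
  choose φ hφ using h1
  refine ⟨⟨⟨φ, ?_⟩, ?_⟩, ?_⟩
  · intro x y
    apply T.inj j
    rw [map_add, hφ, hφ, hφ, map_add, map_add, smul_add]
    abel
  · intro c x
    apply T.inj j
    rw [map_smul, hφ, hφ, map_smul, map_smul, smul_sub, RingHom.id_apply, smul_comm]
  · apply LinearMap.ext
    intro x
    apply T.inj j
    change T.ι j (φ (T.ι j x)) = T.ι j (s • x)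
    rw [hφ, (T.ex j).apply_apply_eq_zero, map_zero, sub_zero, map_smul]

lemma fac_le_succ (j : ℕ) : T.fac j ≤ T.fac (j + 1) := by
  intro s hs
  obtain ⟨h, hh⟩ := T.exists_ext_of_mem_fac hs
  have hp := T.proj j
  obtain ⟨g, hg⟩ := Module.projective_lifting_property (T.π (j + 1)) h (T.surj (j + 1))
  exact ⟨g ∘ₗ T.ι j, by rw [← LinearMap.comp_assoc, hg, hh]⟩

lemma fac_mono {i j : ℕ} (h : i ≤ j) : T.fac i ≤ T.fac j := by
  obtain ⟨k, rfl⟩ := Nat.exists_eq_add_of_le h
  induction k with
  | zero => exact le_rfl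
  | succ k ih => exact (ih (by omega)).trans (T.fac_le_succ _)

/-- elements of `fac j` kill `K i` for `j ≤ i` -/
lemma fac_smul_K {i j : ℕ} (h : j ≤ i) {s : B} (hs : s ∈ T.fac j) {M : Type u} [AddCommGroup M]
    [Module B M] (z : T.K M i) : s • z = 0 := by
  obtain ⟨h, hh⟩ := T.exists_ext_of_mem_fac (T.fac_mono h hs)
  apply Subtype.ext
  have h1 : (T.ι i).lTensor M (z : M ⊗[B] T.S (i + 1)) = 0 := z.2
  have h2 : (h.lTensor M) ((T.ι i).lTensor M (z : M ⊗[B] T.S (i + 1))) = s • (z : _) := by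
    rw [← LinearMap.comp_apply, ← LinearMap.lTensor_comp, hh, LinearMap.lTensor_smul,
      LinearMap.lTensor_id]
    rfl
  rw [h1, map_zero] at h2
  exact h2.symm

/-- the crucial localization step -/
lemma not_fac_le [IsNoetherianRing B] (hT : T.IsFin) {D : ℕ} (P : Ideal B) [P.IsPrime]
    [IsRegularLocalRing (Localization.AtPrime P)]
    (hd : ringKrullDim (Localization.AtPrime P) ≤ D) : ¬ T.fac D ≤ P := by
  intro hle
  let B' := Localization.AtPrime P
  have hflat : Module.Flat B B' := IsLocalization.flat B' P.primeCompl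
  let T' := T.bc B' (fun i =>
    Module.Flat.lTensor_preserves_injective_linearMap (M := B') (T.ι i) (T.inj i))
  have hT' : T'.IsFin := by
    intro i
    have := hT i
    exact inferInstanceAs (Module.Finite B' (B' ⊗[B] T.F i))
  have h1 : Module.Projective B' (B' ⊗[B] T.S D) := GD_of_regularLocal hd T' hT'
  obtain ⟨σ, hσ⟩ := Module.projective_lifting_property ((T.π D).baseChange B') LinearMap.id
    (LinearMap.lTensor_surjective B' (T.surj D))
  have hfin := hT.S D
  have hfp : Module.FinitePresentation B (T.S D) := Module.finitePresentation_of_finite B _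
  obtain ⟨g, s, hgs⟩ := Module.FinitePresentation.exists_lift_of_isLocalizedModule P.primeCompl
    (TensorProduct.mk B B' (T.F D) 1) ((σ.restrictScalars B) ∘ₗ TensorProduct.mk B B' (T.S D) 1)
  have h2 : (TensorProduct.mk B B' (T.S D) 1) ∘ₗ (T.π D ∘ₗ g) =
      (TensorProduct.mk B B' (T.S D) 1) ∘ₗ ((s : B) • LinearMap.id) := by
    apply LinearMap.ext
    intro x
    have h3 : TensorProduct.mk B B' (T.F D) 1 (g x) =
        (s : B) • σ (TensorProduct.mk B B' (T.S D) 1 x) := LinearMap.congr_fun hgs x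
    have h4 : (T.π D).baseChange B' (TensorProduct.mk B B' (T.F D) 1 (g x)) =
        TensorProduct.mk B B' (T.S D) 1 (T.π D (g x)) := LinearMap.baseChange_tmul _ _ _
    have h5 : (T.π D).baseChange B' (σ (TensorProduct.mk B B' (T.S D) 1 x)) =
        TensorProduct.mk B B' (T.S D) 1 x := LinearMap.congr_fun hσ _
    change TensorProduct.mk B B' (T.S D) 1 (T.π D (g x)) =
      TensorProduct.mk B B' (T.S D) 1 ((s : B) • x)
    have h6 : (T.π D).baseChange B' ((s : B) • σ (TensorProduct.mk B B' (T.S D) 1 x)) =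
        (s : B) • (T.π D).baseChange B' (σ (TensorProduct.mk B B' (T.S D) 1 x)) :=
      LinearMap.map_smul_of_tower _ _ _
    rw [← h4, h3, h6, h5, map_smul]
  obtain ⟨t, ht⟩ := Module.Finite.exists_smul_of_comp_eq_of_isLocalizedModule P.primeCompl
    (TensorProduct.mk B B' (T.S D) 1) _ _ h2
  have h3 : (t : B) * s ∈ T.fac D := by
    refine ⟨(t : B) • g, ?_⟩
    rw [LinearMap.comp_smul, mul_smul]
    exact ht
  have h4 := hle h3
  rcases (inferInstance : P.IsPrime).mem_or_mem h4 with h5 | h5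
  · exact t.2 h5
  · exact s.2 h5

/-- some power of `𝔫` lies in `fac D` -/
lemma exists_pow_le_fac [IsNoetherianRing B] (hT : T.IsFin) {D : ℕ} (𝔫 : Ideal B)
    (h : ∀ (P : Ideal B) [P.IsPrime], ¬ 𝔫 ≤ P → IsRegularLocalRing (Localization.AtPrime P) ∧
      ringKrullDim (Localization.AtPrime P) ≤ D) : ∃ c : ℕ, 𝔫 ^ c ≤ T.fac D := by
  apply Ideal.exists_pow_le_of_le_radical_of_fg
  · rw [Ideal.radical_eq_sInf]
    refine le_sInf ?_
    rintro P ⟨hP, hPp⟩
    by_contra hn
    obtain ⟨h1, h2⟩ := h P hn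
    exact T.not_fac_le hT P h2 hP
  · exact (isNoetherianRing_iff_ideal_fg B).1 inferInstance _

end Tower

lemma dim_loc_le {Q : Type u} [CommRing Q] {D : ℕ} (hD : ringKrullDim Q ≤ D) (P : Ideal Q)
    [hP : P.IsPrime] : ringKrullDim (Localization.AtPrime P) ≤ D := by
  rw [IsLocalization.AtPrime.ringKrullDim_eq_height P (Localization.AtPrime P)]
  exact (Ideal.height_le_ringKrullDim_of_ne_top hP.ne_top).trans hD

/-- global dimension is at most the Krull dimension for regular rings -/
theorem GD_of_regular {Q : Type u} [CommRing Q] [IsRegularRing Q] {D : ℕ}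
    (hD : ringKrullDim Q ≤ D) : GD Q D := by
  intro T hT
  have h1 : T.fac D = ⊤ := by
    by_contra hne
    obtain ⟨P, hP, hle⟩ := Ideal.exists_le_maximal _ hne
    have hPp : P.IsPrime := hP.isPrime
    exact T.not_fac_le hT P (dim_loc_le hD P) hle
  have h2 : (1 : Q) ∈ T.fac D := by rw [h1]; trivial
  obtain ⟨g, hg⟩ := h2
  rw [one_smul] at hg
  have := T.proj D
  exact Module.Projective.of_split g (T.π D) hg

end Pool.Agent.Helper796_theta
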