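import Mathlib
import Pool.Agent.Helper796_theta.Eight
import Pool.Agent.Helper796_theta.Loc

set_option autoImplicit false

/-!
# The Euler characteristic of multiplication by an element
-/

open CategoryTheory TensorProduct Function

universe u

namespace Pool.Agent.Helper796_theta

lemma add_ne_top' {a b : ℕ∞} (ha : a ≠ ⊤) (hb : b ≠ ⊤) : a + b ≠ ⊤ :=
  WithTop.add_ne_top.2 ⟨ha, hb⟩

section

variable {B : Type u} [CommRing B] (x : B)

lemma lTensor_mx (M : Type u) [AddCommGroup M] [Module B M] :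
    (mx x B).lTensor M = mx x (M ⊗[B] B) := by
  apply TensorProduct.ext'
  intro m v
  rw [LinearMap.lTensor_tmul, mx_apply, mx_apply, TensorProduct.tmul_smul]

lemma exact_mx_mk : Exact (mx x B) (Submodule.mkQ (Ideal.span {x})) := by
  intro b
  rw [Submodule.mkQ_apply, Submodule.Quotient.mk_eq_zero, Ideal.mem_span_singleton]
  constructor
  · rintro ⟨c, rfl⟩
    exact ⟨c, rfl⟩
  · rintro ⟨c, rfl⟩
    exact ⟨c, rfl⟩

variable (M : Type u) [AddCommGroup M] [Module B M]

lemma length_ker_lTensor_mx : Module.length B (LinearMap.ker ((mx x B).lTensor M)) = lenk x M := by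
  rw [lTensor_mx]
  exact lenk_congr x (TensorProduct.rid B M)

lemma length_tensor_quot : Module.length B (M ⊗[B] (B ⧸ Ideal.span {x})) = lenq x M := by
  have h1 : Exact ((mx x B).lTensor M) ((Submodule.mkQ (Ideal.span {x})).lTensor M) :=
    lTensor_exact M (exact_mx_mk x) (Submodule.mkQ_surjective _)
  have h2 := length_range_of_exact _ _ h1
  have h3 : LinearMap.range ((Submodule.mkQ (Ideal.span {x})).lTensor M) = ⊤ :=
    LinearMap.range_eq_top.2 (LinearMap.lTensor_surjective M (Submodule.mkQ_surjective _))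
  rw [h3, Module.length_top, lTensor_mx] at h2
  rw [h2]
  exact lenq_congr x (TensorProduct.rid B M)

variable {x M}
variable {M' M'' : Type u} [AddCommGroup M'] [Module B M'] [AddCommGroup M''] [Module B M'']

/-- additivity of the Euler characteristic -/
lemma euler_add (f : M' →ₗ[B] M) (g : M →ₗ[B] M'') (hf : Injective f) (hg : Surjective g)
    (hfg : Exact f g) : lenk x M' + lenk x M'' + lenq x M = lenk x M + (lenq x M' + lenq x M'') := by
  set V := B ⧸ Ideal.span {x}
  have h5 := length_five (mx x B) (Submodule.mkQ (Ideal.span {x})) f g hf hg hfg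
    (Submodule.mkQ_surjective _) (exact_mx_mk x)
  rw [length_ker_lTensor_mx, length_ker_lTensor_mx, length_ker_lTensor_mx] at h5
  have h6 : LinearMap.ker (f.rTensor B) = ⊥ :=
    LinearMap.ker_eq_bot.2 (Module.Flat.rTensor_preserves_injective_linearMap (M := B) f hf)
  rw [len_bot (X := M' ⊗[B] B) h6, zero_add] at h5
  have h7 : Exact (f.rTensor V) (g.rTensor V) := rTensor_exact V hfg hg
  have h8 := length_range_of_exact _ _ h7
  have h9 : LinearMap.range (g.rTensor V) = ⊤ :=
    LinearMap.range_eq_top.2 (LinearMap.rTensor_surjective V hg)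
  rw [h9, Module.length_top, length_tensor_quot] at h8
  have h10 := length_ker_add_range (f.rTensor V)
  have h11 := length_sub_add_quot (LinearMap.range (f.rTensor V))
  rw [length_tensor_quot] at h10 h11
  rw [h5, h11, h10, h8]
  ring

lemma lenq_add_le (f : M' →ₗ[B] M) (g : M →ₗ[B] M'') (hg : Surjective g)
    (hfg : Exact f g) : lenq x M ≤ lenq x M' + lenq x M'' := by
  set V := B ⧸ Ideal.span {x}
  have h7 : Exact (f.rTensor V) (g.rTensor V) := rTensor_exact V hfg hg
  have h8 := length_range_of_exact _ _ h7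
  have h9 : LinearMap.range (g.rTensor V) = ⊤ :=
    LinearMap.range_eq_top.2 (LinearMap.rTensor_surjective V hg)
  rw [h9, Module.length_top, length_tensor_quot] at h8
  have h10 := length_ker_add_range (f.rTensor V)
  have h11 := length_sub_add_quot (LinearMap.range (f.rTensor V))
  rw [length_tensor_quot] at h10 h11
  rw [h11, h10, h8]
  exact add_le_add_left le_add_self _

lemma lenq_le : lenq x M ≤ Module.length B M := by
  rw [lenq]
  exact Module.length_le_of_surjective (Submodule.mkQ _) (Submodule.mkQ_surjective _)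

lemma lenk_le : lenk x M ≤ Module.length B M :=
  Module.length_le_of_injective (LinearMap.ker (mx x M)).subtype (Submodule.subtype_injective _)

lemma lenq_eq_lenk (h : Module.length B M ≠ ⊤) : lenq x M = lenk x M := by
  have h1 := length_ker_add_range (mx x M)
  have h2 := length_sub_add_quot (LinearMap.range (mx x M))
  rw [h1, add_comm] at h2
  have h3 : Module.length B (LinearMap.range (mx x M)) ≠ ⊤ :=
    ne_top_of_le_ne_top h (Module.length_le_of_injective (LinearMap.range (mx x M)).subtype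
      (Submodule.subtype_injective _))
  exact (ENat.add_right_injective_of_ne_top h3 h2).symm

end

section dev

variable {B : Type u} [CommRing B]

/-- `N` is killed by a power of `𝔫` -/
def Killed (𝔫 : Ideal B) (N : Type u) [AddCommGroup N] [Module B N] : Prop :=
  ∃ c : ℕ, ∀ s ∈ 𝔫 ^ c, ∀ z : N, s • z = 0

lemma Killed.of_inj {𝔫 : Ideal B} {N N' : Type u} [AddCommGroup N] [Module B N]
    [AddCommGroup N'] [Module B N'] (f : N →ₗ[B] N') (hf : Injective f) (h : Killed 𝔫 N') :
    Killed 𝔫 N := by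
  obtain ⟨c, hc⟩ := h
  refine ⟨c, fun s hs z => hf ?_⟩
  rw [map_smul, map_zero, hc s hs]

lemma Killed.of_surj {𝔫 : Ideal B} {N N' : Type u} [AddCommGroup N] [Module B N]
    [AddCommGroup N'] [Module B N'] (f : N →ₗ[B] N') (hf : Surjective f) (h : Killed 𝔫 N) :
    Killed 𝔫 N' := by
  obtain ⟨c, hc⟩ := h
  refine ⟨c, fun s hs z => ?_⟩
  obtain ⟨y, rfl⟩ := hf z
  rw [← map_smul, hc s hs, map_zero]

lemma Killed.le_of_equiv {𝔫 P : Ideal B} (hP : P.IsPrime) {N : Type u} [AddCommGroup N] [Module B N]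
    (e : N ≃ₗ[B] B ⧸ P) (h : Killed 𝔫 N) : 𝔫 ≤ P := by
  obtain ⟨c, hc⟩ := h
  apply hP.le_of_pow_le (n := c)
  intro s hs
  have h1 := hc s hs (e.symm (Submodule.Quotient.mk 1))
  rw [← map_smul] at h1
  have h2 : s • (Submodule.Quotient.mk (1 : B) : B ⧸ P) = 0 := by
    apply e.symm.injective
    rw [h1, map_zero]
  rw [← Submodule.Quotient.mk_smul, smul_eq_mul, mul_one] at h2
  exact (Submodule.Quotient.mk_eq_zero P).1 h2

/-- simple quotient -/
lemma length_of_max {P : Ideal B} (hP : P.IsMaximal) {N : Type u} [AddCommGroup N] [Module B N]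
    (e : N ≃ₗ[B] B ⧸ P) : Module.length B N = 1 := by
  rw [e.length_eq, Module.length_eq_one_iff]
  exact isSimpleModule_iff_quot_maximal.2 ⟨P, hP, ⟨LinearEquiv.refl _ _⟩⟩

theorem finlen_of_killed [IsNoetherianRing B] {𝔪 : Ideal B} (hm : 𝔪.IsMaximal) {N : Type u}
    [AddCommGroup N] [Module B N] (hN : Module.Finite B N) (h : Killed 𝔪 N) :
    Module.length B N ≠ ⊤ := by
  revert h
  induction hN using IsNoetherianRing.induction_on_isQuotientEquivQuotientPrime B with
  | subsingleton N =>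
    intro _
    rw [Module.length_eq_zero]
    exact ENat.zero_ne_top
  | quotient N P e =>
    intro h
    have h1 := h.le_of_equiv P.2 e
    have h2 : 𝔪 = P.1 := hm.eq_of_le P.2.ne_top h1
    have h3 : P.1.IsMaximal := h2 ▸ hm
    rw [length_of_max h3 e]
    exact ENat.one_ne_top
  | exact N₁ N₂ N₃ f g hf hg hfg h₁ h₃ =>
    intro h
    have e1 := h₁ (h.of_inj f hf)
    have e3 := h₃ (h.of_surj g hg)
    rw [Module.length_eq_add_of_exact f g hf hg hfg]
    exact add_ne_top' e1 e3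

/-- the situation `B / 𝔫 = k[t]` -/
structure LineLike (𝔫 : Ideal B) (x : B) : Prop where
  prime : 𝔫.IsPrime
  max : ∀ P : Ideal B, P.IsPrime → 𝔫 ≤ P → P ≠ 𝔫 → P.IsMaximal
  not_mem : x ∉ 𝔫
  sup_max : (𝔫 ⊔ Ideal.span {x}).IsMaximal

lemma lenk_eq_zero_of_domain {x : B} {P : Ideal B} (hP : P.IsPrime) (hx : x ∉ P) {N : Type u}
    [AddCommGroup N] [Module B N] (e : N ≃ₗ[B] B ⧸ P) : lenk x N = 0 := by
  rw [lenk_congr x e, lenk]
  apply len_bot
  rw [eq_bot_iff]
  intro z hz
  obtain ⟨b, rfl⟩ := Submodule.Quotient.mk_surjective _ z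
  rw [LinearMap.mem_ker, mx_apply, ← Submodule.Quotient.mk_smul] at hz
  have h1 := (Submodule.Quotient.mk_eq_zero P).1 hz
  have h2 : b ∈ P := (hP.mem_or_mem h1).resolve_left hx
  exact (Submodule.Quotient.mk_eq_zero P).2 h2

lemma lenq_eq_one_of_max {x : B} {P : Ideal B} (hx : (P ⊔ Ideal.span {x}).IsMaximal)
    {N : Type u} [AddCommGroup N] [Module B N] (e : N ≃ₗ[B] B ⧸ P) : lenq x N = 1 := by
  rw [lenq_congr x e, lenq]
  have h1 : Submodule.map (Submodule.mkQ P) (P ⊔ Ideal.span {x}) =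
      LinearMap.range (mx x (B ⧸ P)) := by
    ext z
    constructor
    · rintro ⟨b, hb, rfl⟩
      obtain ⟨p, hp, q, hq, rfl⟩ := Submodule.mem_sup.1 hb
      obtain ⟨c, rfl⟩ := Ideal.mem_span_singleton'.1 hq
      refine ⟨Submodule.Quotient.mk c, ?_⟩
      rw [mx_apply, ← Submodule.Quotient.mk_smul, Submodule.mkQ_apply, Submodule.Quotient.mk_add,
        (Submodule.Quotient.mk_eq_zero P).2 hp, zero_add, smul_eq_mul, mul_comm]
    · rintro ⟨y, rfl⟩
      obtain ⟨c, rfl⟩ := Submodule.Quotient.mk_surjective _ y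
      refine ⟨x * c, ?_, rfl⟩
      exact Ideal.mul_mem_right _ _ (Ideal.mem_sup_right (Ideal.mem_span_singleton_self x))
  have h2 := (Submodule.quotientQuotientEquivQuotient P (P ⊔ Ideal.span {x}) le_sup_left).length_eq
  rw [← h1]
  refine h2.trans ?_
  exact length_of_max hx (LinearEquiv.refl _ _)

/-- the Euler characteristics with respect to two such elements agree -/
theorem euler_eq [IsNoetherianRing B] {𝔫 : Ideal B} {x₁ x₂ : B} (h₁ : LineLike 𝔫 x₁)
    (h₂ : LineLike 𝔫 x₂) {N : Type u} [AddCommGroup N] [Module B N] (hN : Module.Finite B N)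
    (h : Killed 𝔫 N) : (lenq x₁ N ≠ ⊤ ∧ lenk x₁ N ≠ ⊤ ∧ lenq x₂ N ≠ ⊤ ∧ lenk x₂ N ≠ ⊤) ∧
      lenq x₁ N + lenk x₂ N = lenq x₂ N + lenk x₁ N := by
  revert h
  induction hN using IsNoetherianRing.induction_on_isQuotientEquivQuotientPrime B with
  | subsingleton N =>
    intro _
    have h0 : Module.length B N = 0 := Module.length_eq_zero
    have q₁ : lenq x₁ N = 0 := le_antisymm (by rw [← h0]; exact lenq_le) zero_le
    have q₂ : lenq x₂ N = 0 := le_antisymm (by rw [← h0]; exact lenq_le) zero_le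
    have k₁ : lenk x₁ N = 0 := le_antisymm (by rw [← h0]; exact lenk_le) zero_le
    have k₂ : lenk x₂ N = 0 := le_antisymm (by rw [← h0]; exact lenk_le) zero_le
    rw [q₁, q₂, k₁, k₂]
    exact ⟨⟨ENat.zero_ne_top, ENat.zero_ne_top, ENat.zero_ne_top, ENat.zero_ne_top⟩, rfl⟩
  | quotient N P e =>
    intro h
    have h3 := h.le_of_equiv P.2 e
    by_cases hP : P.1 = 𝔫
    · have q₁ : lenq x₁ N = 1 := lenq_eq_one_of_max (by rw [hP]; exact h₁.sup_max) e
      have q₂ : lenq x₂ N = 1 := lenq_eq_one_of_max (by rw [hP]; exact h₂.sup_max) e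
      have k₁ : lenk x₁ N = 0 := lenk_eq_zero_of_domain P.2 (by rw [hP]; exact h₁.not_mem) e
      have k₂ : lenk x₂ N = 0 := lenk_eq_zero_of_domain P.2 (by rw [hP]; exact h₂.not_mem) e
      rw [q₁, q₂, k₁, k₂]
      exact ⟨⟨ENat.one_ne_top, ENat.zero_ne_top, ENat.one_ne_top, ENat.zero_ne_top⟩, rfl⟩
    · have h4 := length_of_max (h₁.max P.1 P.2 h3 hP) e
      have h5 : Module.length B N ≠ ⊤ := by rw [h4]; exact ENat.one_ne_top
      refine ⟨⟨ne_top_of_le_ne_top h5 lenq_le, ne_top_of_le_ne_top h5 lenk_le,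
        ne_top_of_le_ne_top h5 lenq_le, ne_top_of_le_ne_top h5 lenk_le⟩, ?_⟩
      rw [lenq_eq_lenk h5, lenq_eq_lenk h5, add_comm]
  | exact N₁ N₂ N₃ f g hf hg hfg ih₁ ih₃ =>
    intro h
    obtain ⟨⟨a1, a2, a3, a4⟩, a5⟩ := ih₁ (h.of_inj f hf)
    obtain ⟨⟨b1, b2, b3, b4⟩, b5⟩ := ih₃ (h.of_surj g hg)
    have e1 := euler_add (x := x₁) f g hf hg hfg
    have e2 := euler_add (x := x₂) f g hf hg hfg
    have f1 : lenq x₁ N₂ ≠ ⊤ :=
      ne_top_of_le_ne_top (add_ne_top' a1 b1) (lenq_add_le f g hg hfg)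
    have f2 : lenq x₂ N₂ ≠ ⊤ :=
      ne_top_of_le_ne_top (add_ne_top' a3 b3) (lenq_add_le f g hg hfg)
    have f3 : lenk x₁ N₂ ≠ ⊤ := ne_top_of_le_ne_top
      (add_ne_top' (add_ne_top' a2 b2) f1) (le_self_add.trans_eq e1.symm)
    have f4 : lenk x₂ N₂ ≠ ⊤ := ne_top_of_le_ne_top
      (add_ne_top' (add_ne_top' a4 b4) f2) (le_self_add.trans_eq e2.symm)
    refine ⟨⟨f1, f3, f2, f4⟩, ?_⟩
    rw [← ENat.natCast_toNat a1, ← ENat.natCast_toNat a2, ← ENat.natCast_toNat b1,
      ← ENat.natCast_toNat b2, ← ENat.natCast_toNat f1, ← ENat.natCast_toNat f3] at e1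
    rw [← ENat.natCast_toNat a3, ← ENat.natCast_toNat a4, ← ENat.natCast_toNat b3,
      ← ENat.natCast_toNat b4, ← ENat.natCast_toNat f2, ← ENat.natCast_toNat f4] at e2
    rw [← ENat.natCast_toNat a1, ← ENat.natCast_toNat a2, ← ENat.natCast_toNat a3,
      ← ENat.natCast_toNat a4] at a5
    rw [← ENat.natCast_toNat b1, ← ENat.natCast_toNat b2, ← ENat.natCast_toNat b3,
      ← ENat.natCast_toNat b4] at b5
    rw [← ENat.natCast_toNat f1, ← ENat.natCast_toNat f2, ← ENat.natCast_toNat f3,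
      ← ENat.natCast_toNat f4]
    norm_cast at e1 e2 a5 b5 ⊢
    omega

end dev

end Pool.Agent.Helper796_theta
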