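import Mathlib
import Pool.Agent.Helper796_theta.PD

set_option autoImplicit false

/-!
# Periodicity over a hypersurface
-/

open CategoryTheory TensorProduct Function

universe u

namespace Pool.Agent.Helper796_theta

section splice

variable {Q B : Type u} [CommRing Q] [CommRing B] [Algebra Q B] {f : Q}
variable {K P : Type u} [AddCommGroup K] [Module B K] [Module Q K] [IsScalarTower Q B K]
  [AddCommGroup P] [Module Q P] (q : P →ₗ[Q] K)

/-- the covering map `B ⊗ P → K` -/
noncomputable def pB (B : Type u) [CommRing B] [Algebra Q B] [Module B K] [IsScalarTower Q B K] :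
    B ⊗[Q] P →ₗ[B] K := q.liftBaseChange B

lemma pB_tmul (b : B) (v : P) : pB q B (b ⊗ₜ v) = b • q v := rfl

lemma exists_one_tmul (hs : Surjective (algebraMap Q B)) {V : Type u} [AddCommGroup V]
    [Module Q V] (z : B ⊗[Q] V) : ∃ v : V, z = 1 ⊗ₜ v := by
  induction z using TensorProduct.induction_on with
  | zero => exact ⟨0, (TensorProduct.tmul_zero _ _).symm⟩
  | tmul b v =>
    obtain ⟨c, rfl⟩ := hs b
    exact ⟨c • v, by
      rw [TensorProduct.tmul_smul, Algebra.algebraMap_eq_smul_one, TensorProduct.smul_tmul']⟩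
  | add a b ha hb =>
    obtain ⟨v, rfl⟩ := ha
    obtain ⟨w, rfl⟩ := hb
    exact ⟨v + w, (TensorProduct.tmul_add _ _ _).symm⟩

/-- `1 ⊗ v = 0` iff `v` is divisible by `f` -/
lemma one_tmul_eq_zero (h : RedRing f B) {V : Type u} [AddCommGroup V] [Module Q V] (v : V) :
    (1 : B) ⊗ₜ[Q] v = 0 ↔ ∃ w, v = f • w := by
  constructor
  · intro hv
    have h1 : Exact ((mx f Q).rTensor V) ((Algebra.linearMap Q B).rTensor V) :=
      rTensor_exact V h.redMod.ex h.redMod.surj
    have h2 : (Algebra.linearMap Q B).rTensor V ((1 : Q) ⊗ₜ v) = 0 := by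
      rw [LinearMap.rTensor_tmul, Algebra.linearMap_apply, map_one, hv]
    obtain ⟨z, hz⟩ := (h1 _).1 h2
    refine ⟨TensorProduct.lid Q V z, ?_⟩
    rw [mx_rTensor] at hz
    have h3 := congrArg (TensorProduct.lid Q V) hz
    rw [mx_apply, map_smul, TensorProduct.lid_tmul, one_smul] at h3
    exact h3.symm
  · rintro ⟨w, rfl⟩
    rw [TensorProduct.tmul_smul, TensorProduct.smul_tmul', ← Algebra.algebraMap_eq_smul_one,
      (h.ker f).2 (dvd_refl f), TensorProduct.zero_tmul]

/-- the map `B ⊗ L → ker (B ⊗ P → K)` -/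
noncomputable def piL (B : Type u) [CommRing B] [Algebra Q B] [Module B K] [IsScalarTower Q B K] :
    B ⊗[Q] (LinearMap.ker q) →ₗ[B] LinearMap.ker (pB q B) :=
  ((LinearMap.ker q).subtype.baseChange B).codRestrict _ (by
    intro z
    induction z using TensorProduct.induction_on with
    | zero => simp
    | tmul b v =>
      rw [LinearMap.mem_ker, LinearMap.baseChange_tmul, pB_tmul, Submodule.subtype_apply, v.2,
        smul_zero]
    | add a b ha hb =>
      rw [map_add]
      exact Submodule.add_mem _ ha hb)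

lemma piL_coe (z : B ⊗[Q] (LinearMap.ker q)) :
    (piL q B z : B ⊗[Q] P) = (LinearMap.ker q).subtype.baseChange B z := rfl

lemma piL_surj (h : RedRing f B) : Surjective (piL q B) := by
  rintro ⟨z, hz⟩
  obtain ⟨v, rfl⟩ := exists_one_tmul h.surj z
  rw [LinearMap.mem_ker, pB_tmul, one_smul] at hz
  exact ⟨1 ⊗ₜ ⟨v, hz⟩, Subtype.ext rfl⟩

/-- `f K = 0` -/
lemma f_smul_K (h : RedRing f B) (k : K) : f • k = 0 := by
  rw [← algebraMap_smul B f k, (h.ker f).2 (dvd_refl f), zero_smul]

/-- `P → L`, `v ↦ f v` -/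
noncomputable def fL (h : RedRing f B) : P →ₗ[Q] LinearMap.ker q :=
  (mx f P).codRestrict _ (by
    intro v
    rw [LinearMap.mem_ker, mx_apply, map_smul, f_smul_K h])

/-- `P → B ⊗ L`, `v ↦ 1 ⊗ f v` -/
noncomputable def fBL (h : RedRing f B) : P →ₗ[Q] B ⊗[Q] (LinearMap.ker q) :=
  TensorProduct.mk Q B _ 1 ∘ₗ fL q h

lemma fBL_ker (h : RedRing f B) : LinearMap.ker q ≤ LinearMap.ker (fBL q h) := by
  intro v hv
  rw [LinearMap.mem_ker]
  have h1 : fL q h v = f • (⟨v, hv⟩ : LinearMap.ker q) := Subtype.ext rfl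
  change (1 : B) ⊗ₜ[Q] (fL q h v) = 0
  rw [h1, one_tmul_eq_zero h]
  exact ⟨_, rfl⟩

/-- the map `K → B ⊗ L` -/
noncomputable def iK (h : RedRing f B) (hq : Surjective q) : K →ₗ[B] B ⊗[Q] (LinearMap.ker q) :=
  LinearMap.extendScalarsOfSurjective h.surj
    (((LinearMap.ker q).liftQ (fBL q h) (fBL_ker q h)) ∘ₗ
      (q.quotKerEquivOfSurjective hq).symm.toLinearMap)

lemma iK_apply (h : RedRing f B) (hq : Surjective q) (v : P) :
    iK q h hq (q v) = 1 ⊗ₜ fL q h v := by
  change ((LinearMap.ker q).liftQ (fBL q h) (fBL_ker q h))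
    ((q.quotKerEquivOfSurjective hq).symm (q v)) = _
  have : (q.quotKerEquivOfSurjective hq).symm (q v) = Submodule.Quotient.mk v := by
    rw [LinearEquiv.symm_apply_eq]
    rfl
  rw [this]
  rfl

lemma iK_inj (h : RedRing f B) (hq : Surjective q) (hP : IsSMulRegular P f) :
    Injective (iK q h hq) := by
  rw [← LinearMap.ker_eq_bot, eq_bot_iff]
  intro k hk
  obtain ⟨v, rfl⟩ := hq k
  rw [LinearMap.mem_ker, iK_apply, one_tmul_eq_zero h] at hk
  obtain ⟨w, hw⟩ := hk
  have h1 : f • v = f • (w : P) := congrArg Subtype.val hw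
  have h2 : v = w := hP h1
  rw [h2]
  exact w.2

lemma iK_exact (h : RedRing f B) (hq : Surjective q) : Exact (iK q h hq) (piL q B) := by
  intro z
  constructor
  · intro hz
    obtain ⟨v, rfl⟩ := exists_one_tmul h.surj z
    have h1 : (1 : B) ⊗ₜ[Q] (v : P) = 0 := congrArg Subtype.val hz
    rw [one_tmul_eq_zero h] at h1
    obtain ⟨w, hw⟩ := h1
    refine ⟨q w, ?_⟩
    rw [iK_apply]
    congr 1
    exact Subtype.ext hw.symm
  · rintro ⟨k, rfl⟩
    obtain ⟨w, rfl⟩ := hq k
    rw [iK_apply]
    apply Subtype.ext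
    change (1 : B) ⊗ₜ[Q] (f • w) = 0
    rw [one_tmul_eq_zero h]
    exact ⟨w, rfl⟩

end splice

section period

variable {Q B : Type u} [CommRing Q] [CommRing B] [Algebra Q B] {f : Q}

/-- two periodicity for a tower of a module of projective dimension at most one -/
lemma period_zero (h : RedRing f B) (U : Tower B) [Module Q (U.S 0)]
    [IsScalarTower Q B (U.S 0)] [Module.Finite B (U.S 0)] (hU : PD Q 2 (U.S 0))
    (M : Type u) [AddCommGroup M] [Module B M] (i : ℕ) :
    Module.length B (U.K M (i + 2)) = Module.length B (U.K M i) := by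
  have hfin : Module.Finite Q (U.S 0) := by
    have : Module.Finite Q B := Module.Finite.of_surjective (Algebra.linearMap Q B) h.surj
    exact Module.Finite.trans B _
  obtain ⟨n, q, hq⟩ := Module.Finite.exists_fin' Q (U.S 0)
  have hL : Module.Projective Q (LinearMap.ker q) :=
    PD.proj (PD.X1 (LinearMap.ker q).subtype q (Submodule.subtype_injective _) hq
      (LinearMap.exact_subtype_ker_map _) PD.of_proj hU)
  have hreg : IsSMulRegular (Fin n → Q) f := by
    intro a b hab
    funext i
    exact h.reg (congrFun hab i)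
  let V := (U.cons (ModuleCat.of B (LinearMap.ker (pB q B)))
    (ModuleCat.of B (B ⊗[Q] (LinearMap.ker q))) (iK q h hq) (piL q B) (iK_inj q h hq hreg)
    (piL_surj q h) (iK_exact q h hq) (inferInstanceAs (Module.Projective B (B ⊗[Q] _)))).cons
    (U.S 0) (ModuleCat.of B (B ⊗[Q] (Fin n → Q))) (LinearMap.ker (pB q B)).subtype (pB q B)
    (Submodule.subtype_injective _) (by
      intro k
      obtain ⟨v, rfl⟩ := hq k
      exact ⟨1 ⊗ₜ v, by
        change (1 : B) • q v = q v
        rw [one_smul]⟩) (LinearMap.exact_subtype_ker_map _)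
      (inferInstanceAs (Module.Projective B (B ⊗[Q] _)))
  have h1 : Module.length B (U.K M (i + 2)) = Module.length B (V.K M (i + 2)) :=
    Tower.length_K_congr U V rfl M (i + 2)
  rw [h1]
  rfl

/-- **Periodicity of Tor over a hypersurface.** -/
theorem period (h : RedRing f B) [IsNoetherianRing Q] {D : ℕ} (hQ : GD Q (D + 1)) (T : Tower B)
    (hT : T.IsFin) (M : Type u) [AddCommGroup M] [Module B M] (i : ℕ) (hi : D ≤ i) :
    Module.length B (T.K M (i + 2)) = Module.length B (T.K M i) := by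
  let _ : ∀ i, Module Q (T.S i) := fun i => Module.compHom _ (algebraMap Q B)
  have _ : ∀ i, IsScalarTower Q B (T.S i) := fun i =>
    ⟨fun a b c => by
      change (a • b) • c = algebraMap Q B a • b • c
      rw [Algebra.smul_def, mul_smul]⟩
  let _ : ∀ i, Module Q (T.F i) := fun i => Module.compHom _ (algebraMap Q B)
  have _ : ∀ i, IsScalarTower Q B (T.F i) := fun i =>
    ⟨fun a b c => by
      change (a • b) • c = algebraMap Q B a • b • c
      rw [Algebra.smul_def, mul_smul]⟩
  have hB : Module.Finite Q B := Module.Finite.of_surjective (Algebra.linearMap Q B) h.surj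
  have h0 : Module.Finite B (T.S 0) := hT.S 0
  have h00 : Module.Finite Q (T.S 0) := Module.Finite.trans B _
  have h1 : PD Q (D + 1 + 1) (T.S 0) := PD_of_GD hQ _
  have h2 : PD Q 2 (T.S D) := PD_syz h T hT h1 D 2 (by omega) le_rfl
  have h3 : Module.Finite B (T.S D) := hT.S D
  obtain ⟨j, rfl⟩ := Nat.exists_eq_add_of_le hi
  exact @period_zero Q B _ _ _ f h (T.drop D) (inferInstanceAs (Module Q (T.S D)))
    (inferInstanceAs (IsScalarTower Q B (T.S D))) h3 h2 M _ _ j

end period

end Pool.Agent.Helper796_theta
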