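import Mathlib
import Pool.Agent.Helper796_theta.Eight
import Pool.Agent.Helper796_theta.Per

set_option autoImplicit false

/-!
# Telescoping: additivity and deformation of the alternating differences
-/

open CategoryTheory TensorProduct Function

universe u

namespace Pool.Agent.Helper796_theta

/-- the telescoping lemma -/
lemma tele (δ β : ℕ → ℤ) (m D : ℕ) (h1 : ∀ i, m ≤ i → δ i = β (i + 1) + β i)
    (h2 : ∀ i, D ≤ i → δ (i + 2) = δ i) (C : ℤ) (h3 : ∀ i, m ≤ i → |β i| ≤ C) :
    ∀ i, D ≤ i → δ (i + 1) = δ i := by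
  -- for large `i`
  have key : ∀ i, m ≤ i → D ≤ i → δ (i + 1) = δ i := by
    intro i hm hD
    have hk : ∀ k : ℕ, β (i + 2 * k) = β i + k * (δ (i + 1) - δ i) ∧
        δ (i + 2 * k) = δ i ∧ δ (i + 2 * k + 1) = δ (i + 1) := by
      intro k
      induction k with
      | zero => simp
      | succ k ih =>
        obtain ⟨ih1, ih2, ih3⟩ := ih
        have e1 := h1 (i + 2 * k) (by omega)
        have e2 := h1 (i + 2 * k + 1) (by omega)
        have e3 := h2 (i + 2 * k) (by omega)
        have e4 := h2 (i + 2 * k + 1) (by omega)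
        have g1 : i + 2 * (k + 1) = i + 2 * k + 2 := by ring
        rw [g1]
        refine ⟨?_, e3.trans ih2, ?_⟩
        · have : β (i + 2 * k + 2) = β (i + 2 * k) + (δ (i + 2 * k + 1) - δ (i + 2 * k)) := by
            have e2' : δ (i + 2 * k + 1) = β (i + 2 * k + 2) + β (i + 2 * k + 1) := e2
            linarith
          rw [this, ih1, ih2, ih3]
          push_cast
          ring
        · exact e4.trans ih3
    by_contra hne
    have hne' : δ (i + 1) - δ i ≠ 0 := sub_ne_zero.2 hne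
    have hC : 0 ≤ C := le_trans (abs_nonneg _) (h3 i hm)
    have h4 := (hk (2 * C + 1).toNat).1
    have h5 := h3 (i + 2 * (2 * C + 1).toNat) (by omega)
    have h6 := h3 i hm
    have h7 : (((2 * C + 1).toNat : ℕ) : ℤ) = 2 * C + 1 := Int.toNat_of_nonneg (by omega)
    have h8 : |((2 * C + 1).toNat : ℤ) * (δ (i + 1) - δ i)| ≤ 2 * C := by
      have : ((2 * C + 1).toNat : ℤ) * (δ (i + 1) - δ i) =
          β (i + 2 * (2 * C + 1).toNat) - β i := by rw [h4]; ring
      rw [this]
      calc |β (i + 2 * (2 * C + 1).toNat) - β i| ≤ |β (i + 2 * (2 * C + 1).toNat)| + |β i| :=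
            abs_sub _ _
        _ ≤ 2 * C := by omega
    rw [abs_mul, h7, abs_of_nonneg (by omega : (0 : ℤ) ≤ 2 * C + 1)] at h8
    have h9 : 1 ≤ |δ (i + 1) - δ i| := Int.one_le_abs hne'
    nlinarith
  -- descent
  have hper : ∀ i, D ≤ i → ∀ k : ℕ, δ (i + 2 * k) = δ i := by
    intro i hi k
    induction k with
    | zero => rfl
    | succ k ih =>
      have : i + 2 * (k + 1) = i + 2 * k + 2 := by ring
      rw [this, h2 _ (by omega), ih]
  intro i hi
  have e1 := hper i hi m
  have e2 := hper (i + 1) (by omega) m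
  have e3 := key (i + 2 * m) (by omega) (by omega)
  have e4 : i + 2 * m + 1 = i + 1 + 2 * m := by ring
  rw [e4] at e3
  rw [← e1, ← e2, e3]

section add

variable {A : Type u} [CommRing A]

/-- the length of `K i` as a natural number -/
noncomputable def kn (T : Tower A) (M : Type u) [AddCommGroup M] [Module A M] (i : ℕ) : ℕ :=
  (Module.length A (T.K M i)).toNat

/-- finiteness and periodicity of Tor from degree `D` on -/
structure Good (T : Tower A) (D : ℕ) (M : Type u) [AddCommGroup M] [Module A M] : Prop where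
  fin : ∀ i, D ≤ i → Module.length A (T.K M i) ≠ ⊤
  per : ∀ i, D ≤ i → Module.length A (T.K M (i + 2)) = Module.length A (T.K M i)

/-- the difference of the lengths -/
noncomputable def th (T : Tower A) (i : ℕ) (M : Type u) [AddCommGroup M] [Module A M] : ℤ :=
  kn T M (i + 1) - kn T M i

lemma Good.coe {T : Tower A} {D : ℕ} {M : Type u} [AddCommGroup M] [Module A M]
    (h : Good T D M) {i : ℕ} (hi : D ≤ i) : (kn T M i : ℕ∞) = Module.length A (T.K M i) :=
  ENat.natCast_toNat (h.fin i hi)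

lemma Good.kn_per {T : Tower A} {D : ℕ} {M : Type u} [AddCommGroup M] [Module A M]
    (h : Good T D M) {i : ℕ} (hi : D ≤ i) : kn T M (i + 2) = kn T M i := by
  rw [kn, kn, h.per i hi]

lemma Good.kn_le {T : Tower A} {D : ℕ} {M : Type u} [AddCommGroup M] [Module A M]
    (h : Good T D M) : ∀ i, D ≤ i → kn T M i ≤ kn T M D + kn T M (D + 1) := by
  intro i
  induction i using Nat.strong_induction_on with
  | _ i ih =>
    intro hi
    by_cases h1 : i = D
    · subst h1; omega
    · by_cases h2 : i = D + 1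
      · subst h2; omega
      · obtain ⟨j, rfl⟩ : ∃ j, i = j + 2 := ⟨i - 2, by omega⟩
        rw [h.kn_per (by omega)]
        exact ih j (by omega) (by omega)

variable {M' M M'' : Type u} [AddCommGroup M'] [Module A M'] [AddCommGroup M] [Module A M]
  [AddCommGroup M''] [Module A M'']

/-- additivity -/
theorem th_add {T : Tower A} {D : ℕ} (f : M' →ₗ[A] M) (g : M →ₗ[A] M'') (hf : Injective f)
    (hg : Surjective g) (hfg : Exact f g) (h' : Good T D M') (h : Good T D M)
    (h'' : Good T D M'') (i : ℕ) (hi : D ≤ i) : th T i M = th T i M' + th T i M'' := by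
  have hproj := T.proj
  let c : ℕ → ℕ∞ := fun i => Module.length A (LinearMap.ker (f.rTensor (T.S i)))
  have hc : ∀ i, c i ≤ Module.length A (T.K M'' i) := by
    intro i
    have h1 := length_K'' (T.ι i) (T.π i) f g hf hg hfg (T.surj i) (T.ex i)
    rw [h1]
    exact le_add_self
  have hcf : ∀ i, D ≤ i → c i ≠ ⊤ := fun i hi => ne_top_of_le_ne_top (h''.fin i hi) (hc i)
  have hcc : ∀ i, D ≤ i → ((c i).toNat : ℕ∞) = c i := fun i hi => ENat.natCast_toNat (hcf i hi)
  have hfive : ∀ i, D ≤ i → kn T M' i + kn T M'' i = kn T M i + ((c (i + 1)).toNat + (c i).toNat) := by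
    intro i hi
    have h1 := length_five (T.ι i) (T.π i) f g hf hg hfg (T.surj i) (T.ex i)
    have h2 : Module.length A (T.K M' i) + Module.length A (T.K M'' i) =
        Module.length A (T.K M i) + (c (i + 1) + c i) := h1
    rw [← h'.coe hi, ← h''.coe hi, ← h.coe hi, ← hcc i hi, ← hcc (i + 1) (by omega)] at h2
    exact_mod_cast h2
  have hcn : ∀ i, D ≤ i → (c i).toNat ≤ kn T M'' D + kn T M'' (D + 1) := by
    intro i hi
    have h1 := hc i
    rw [← hcc i hi, ← h''.coe hi] at h1
    have h2 : (c i).toNat ≤ kn T M'' i := by exact_mod_cast h1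
    exact h2.trans (h''.kn_le i hi)
  have hd := tele (fun i => (kn T M' i : ℤ) + kn T M'' i - kn T M i) (fun i => ((c i).toNat : ℤ))
    D D (by
      intro i hi
      have := hfive i hi
      omega) (by
      intro i hi
      rw [h'.kn_per hi, h''.kn_per hi, h.kn_per hi]) (kn T M'' D + kn T M'' (D + 1)) (by
      intro i hi
      have := hcn i hi
      rw [abs_of_nonneg (by omega)]
      omega)
  have h3 := hd i hi
  simp only [th]
  omega

end add

section deform

variable {B : Type u} [CommRing B] {x₁ x₂ : B}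

/-- **deformation invariance** -/
theorem deform (T : Tower B) {M : Type u} [AddCommGroup M] [Module B M]
    {B₁ B₂ : Type u} [CommRing B₁] [Algebra B B₁] [CommRing B₂] [Algebra B B₂]
    {M₁ M₂ : Type u} [AddCommGroup M₁] [Module B M₁] [Module B₁ M₁] [IsScalarTower B B₁ M₁]
    [AddCommGroup M₂] [Module B M₂] [Module B₂ M₂] [IsScalarTower B B₂ M₂]
    {g₁ : M →ₗ[B] M₁} {g₂ : M →ₗ[B] M₂} (h₁ : RedMod x₁ B₁ M M₁ g₁) (h₂ : RedMod x₂ B₂ M M₂ g₂)
    {D i₀ : ℕ} (H₁ : Good T D M₁) (H₂ : Good T D M₂)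
    (hE : ∀ i, i₀ ≤ i → lenq x₁ (T.K M i) + lenk x₂ (T.K M i) =
      lenq x₂ (T.K M i) + lenk x₁ (T.K M i))
    (i : ℕ) (hi : D ≤ i) : th T i M₁ = th T i M₂ := by
  have e₁ : ∀ i, Module.length B (T.K M₁ (i + 1)) = lenq x₁ (T.K M (i + 1)) + lenk x₁ (T.K M i) :=
    fun i => length_red T h₁ i
  have e₂ : ∀ i, Module.length B (T.K M₂ (i + 1)) = lenq x₂ (T.K M (i + 1)) + lenk x₂ (T.K M i) :=
    fun i => length_red T h₂ i
  set m := i₀ + D with hm
  have fk₁ : ∀ i, m ≤ i → lenk x₁ (T.K M i) ≠ ⊤ := fun i hi =>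
    ne_top_of_le_ne_top (H₁.fin (i + 1) (by omega)) (by rw [e₁]; exact le_add_self)
  have fk₂ : ∀ i, m ≤ i → lenk x₂ (T.K M i) ≠ ⊤ := fun i hi =>
    ne_top_of_le_ne_top (H₂.fin (i + 1) (by omega)) (by rw [e₂]; exact le_add_self)
  have fq₁ : ∀ i, m ≤ i → lenq x₁ (T.K M (i + 1)) ≠ ⊤ := fun i hi =>
    ne_top_of_le_ne_top (H₁.fin (i + 1) (by omega)) (by rw [e₁]; exact le_self_add)
  have fq₂ : ∀ i, m ≤ i → lenq x₂ (T.K M (i + 1)) ≠ ⊤ := fun i hi =>
    ne_top_of_le_ne_top (H₂.fin (i + 1) (by omega)) (by rw [e₂]; exact le_self_add)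
  have n₁ : ∀ i, m ≤ i → kn T M₁ (i + 1) = (lenq x₁ (T.K M (i + 1))).toNat +
      (lenk x₁ (T.K M i)).toNat := by
    intro i hi
    have h3 := e₁ i
    rw [← H₁.coe (by omega), ← ENat.natCast_toNat (fq₁ i hi), ← ENat.natCast_toNat (fk₁ i hi)] at h3
    exact_mod_cast h3
  have n₂ : ∀ i, m ≤ i → kn T M₂ (i + 1) = (lenq x₂ (T.K M (i + 1))).toNat +
      (lenk x₂ (T.K M i)).toNat := by
    intro i hi
    have h3 := e₂ i
    rw [← H₂.coe (by omega), ← ENat.natCast_toNat (fq₂ i hi), ← ENat.natCast_toNat (fk₂ i hi)] at h3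
    exact_mod_cast h3
  have nE : ∀ i, m ≤ i → (lenq x₁ (T.K M (i + 1))).toNat + (lenk x₂ (T.K M (i + 1))).toNat =
      (lenq x₂ (T.K M (i + 1))).toNat + (lenk x₁ (T.K M (i + 1))).toNat := by
    intro i hi
    have h3 := hE (i + 1) (by omega)
    rw [← ENat.natCast_toNat (fq₁ i hi), ← ENat.natCast_toNat (fk₁ (i + 1) (by omega)),
      ← ENat.natCast_toNat (fq₂ i hi), ← ENat.natCast_toNat (fk₂ (i + 1) (by omega))] at h3
    exact_mod_cast h3
  have hd := tele (fun i => (kn T M₁ i : ℤ) - kn T M₂ i)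
    (fun i => ((lenk x₁ (T.K M (i - 1))).toNat : ℤ) - (lenk x₂ (T.K M (i - 1))).toNat)
    (m + 1) D (by
      intro i hi
      obtain ⟨j, rfl⟩ : ∃ j, i = j + 1 := ⟨i - 1, by omega⟩
      have h3 := n₁ j (by omega)
      have h4 := n₂ j (by omega)
      have h5 := nE j (by omega)
      have h6 : j + 1 + 1 - 1 = j + 1 := by omega
      have h7 : j + 1 - 1 = j := by omega
      rw [h6, h7]
      omega) (by
      intro i hi
      rw [H₁.kn_per hi, H₂.kn_per hi])
    ((kn T M₁ D + kn T M₁ (D + 1)) + (kn T M₂ D + kn T M₂ (D + 1))) (by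
      intro i hi
      obtain ⟨j, rfl⟩ : ∃ j, i = j + 1 := ⟨i - 1, by omega⟩
      have h3 := n₁ j (by omega)
      have h4 := n₂ j (by omega)
      have h5 := H₁.kn_le (j + 1) (by omega)
      have h6 := H₂.kn_le (j + 1) (by omega)
      have h7 : j + 1 - 1 = j := by omega
      rw [h7, abs_le]
      omega)
  have h3 := hd i hi
  simp only [th]
  omega

end deform

end Pool.Agent.Helper796_theta
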