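import Mathlib
import Pool.Agent.Helper796_theta.Tele
import Pool.Agent.Helper796_theta.Loc
import Pool.Agent.Helper796_theta.Euler

set_option autoImplicit false

/-!
# Assembly: the abstract deformation theorem for theta
-/

open CategoryTheory TensorProduct Function

universe u

namespace Pool.Agent.Helper796_theta

/-- the ring `A = Q / f` has, away from the maximal ideal `𝔪`, only regular local rings -/
structure HypData (Q A : Type u) [CommRing Q] [CommRing A] [Algebra Q A] (f : Q) (D : ℕ)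
    (𝔪 : Ideal A) : Prop where
  noeth : IsNoetherianRing Q
  red : RedRing f A
  gd : GD Q (D + 1)
  max : 𝔪.IsMaximal
  reg : ∀ (P : Ideal A) [P.IsPrime], ¬ 𝔪 ≤ P → IsRegularLocalRing (Localization.AtPrime P)
  dim : ringKrullDim A ≤ D

section

variable {Q A : Type u} [CommRing Q] [CommRing A] [Algebra Q A] {f : Q} {D : ℕ} {𝔪 : Ideal A}

lemma HypData.noethA (h : HypData Q A f D 𝔪) : IsNoetherianRing A := by
  have := h.noeth
  exact isNoetherianRing_of_surjective Q A (algebraMap Q A) h.red.surj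

/-- Tor is finite and periodic from degree `D` on -/
theorem HypData.good (h : HypData Q A f D 𝔪) (T : Tower A) (hT : T.IsFin) (M : Type u)
    [AddCommGroup M] [Module A M] [Module.Finite A M] : Good T D M := by
  have h1 := h.noeth
  have h2 := h.noethA
  constructor
  · intro i hi
    obtain ⟨c, hc⟩ := T.exists_pow_le_fac hT 𝔪 (fun P _ hP => ⟨h.reg P hP, dim_loc_le h.dim P⟩)
    have hF := hT.S (i + 1)
    have hfin : Module.Finite A (T.K M i) :=
      Module.Finite.of_injective (T.K M i).subtype (Submodule.subtype_injective _)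
    exact finlen_of_killed h.max hfin ⟨c, fun s hs z => T.fac_smul_K hi (hc hs) z⟩
  · intro i hi
    exact period h.red h.gd T hT M i hi

end

namespace Tower

variable {A : Type u} [CommRing A]

/-- two towers of isomorphic modules have the same `K` -/
lemma length_K_congr' (U V : Tower A) (e : U.S 0 ≃ₗ[A] V.S 0) (M : Type u) [AddCommGroup M]
    [Module A M] (i : ℕ) : Module.length A (U.K M i) = Module.length A (V.K M i) := by
  obtain ⟨e1⟩ := U.tor_equiv M i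
  obtain ⟨e2⟩ := V.tor_equiv M i
  have e3 : TorM A (i + 1) M (U.S 0) ≅ TorM A (i + 1) M (V.S 0) :=
    ((Tor (ModuleCat.{u} A) (i + 1)).obj (ModuleCat.of A M)).mapIso e.toModuleIso
  rw [← e1.length_eq, ← e2.length_eq, e3.toLinearEquiv.length_eq]

lemma kn_congr (U V : Tower A) (e : U.S 0 ≃ₗ[A] V.S 0) (M : Type u) [AddCommGroup M]
    [Module A M] (i : ℕ) : kn U M i = kn V M i := by
  rw [kn, kn, length_K_congr' U V e]

lemma th_congr (U V : Tower A) (e : U.S 0 ≃ₗ[A] V.S 0) (M : Type u) [AddCommGroup M]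
    [Module A M] (i : ℕ) : th U i M = th V i M := by
  rw [th, th, kn_congr U V e, kn_congr U V e]

end Tower

/-- Hochster's theta from degrees `2e+2` and `2e+1` -/
noncomputable def thTor (A : Type u) [CommRing A] (e : ℕ) (M N : Type u) [AddCommGroup M]
    [Module A M] [AddCommGroup N] [Module A N] : ℤ :=
  ((Module.length A (TorM A (2 * e + 2) M N)).toNat : ℤ) -
    ((Module.length A (TorM A (2 * e + 1) M N)).toNat : ℤ)

section

variable {A : Type u} [CommRing A] (M : Type u) [AddCommGroup M] [Module A M]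

lemma length_tor_eq (T : Tower A) (i : ℕ) :
    Module.length A (TorM A (i + 1) M (T.S 0)) = Module.length A (T.K M i) := by
  obtain ⟨e⟩ := T.tor_equiv M i
  exact e.length_eq

lemma thTor_eq (T : Tower A) (e : ℕ) : thTor A e M (T.S 0) = th T (2 * e) M := by
  rw [thTor, th, kn, kn, ← length_tor_eq M T (2 * e), ← length_tor_eq M T (2 * e + 1)]

lemma length_tor_congr {N N' : Type u} [AddCommGroup N] [Module A N] [AddCommGroup N']
    [Module A N'] (e : N ≃ₗ[A] N') (i : ℕ) :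
    Module.length A (TorM A i M N) = Module.length A (TorM A i M N') :=
  (((Tor (ModuleCat.{u} A) i).obj (ModuleCat.of A M)).mapIso e.toModuleIso).toLinearEquiv.length_eq

lemma length_tor_congr_left {M' N : Type u} [AddCommGroup N] [Module A N] [AddCommGroup M']
    [Module A M'] (e : M ≃ₗ[A] M') (i : ℕ) :
    Module.length A (TorM A i M N) = Module.length A (TorM A i M' N) :=
  (((Tor (ModuleCat.{u} A) i).mapIso e.toModuleIso).app (ModuleCat.of A N)).toLinearEquiv.length_eq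

end

section base

variable {B B₁ : Type u} [CommRing B] [CommRing B₁] [Algebra B B₁] {x : B}
  {M M₁ : Type u} [AddCommGroup M] [Module B M] [AddCommGroup M₁] [Module B M₁] [Module B₁ M₁]
  [IsScalarTower B B₁ M₁] {g : M →ₗ[B] M₁}

/-- `B₁ ⊗ M ≃ M₁` -/
lemma RedMod.equiv (hB : RedRing x B₁) (h : RedMod x B₁ M M₁ g) :
    Nonempty ((B₁ ⊗[B] M) ≃ₗ[B₁] M₁) := by
  let φ : B₁ ⊗[B] M →ₗ[B₁] M₁ := g.liftBaseChange B₁
  refine ⟨LinearEquiv.ofBijective φ ⟨?_, ?_⟩⟩
  · rw [← LinearMap.ker_eq_bot, eq_bot_iff]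
    intro z hz
    obtain ⟨v, rfl⟩ := exists_one_tmul hB.surj z
    have h1 : g v = 0 := by
      have : φ ((1 : B₁) ⊗ₜ v) = (1 : B₁) • g v := rfl
      rw [LinearMap.mem_ker, this, one_smul] at hz
      exact hz
    obtain ⟨w, hw⟩ := (h.ex v).1 h1
    rw [Submodule.mem_bot, one_tmul_eq_zero hB]
    exact ⟨w, hw.symm⟩
  · intro m
    obtain ⟨v, rfl⟩ := h.surj m
    exact ⟨1 ⊗ₜ v, one_smul _ _⟩

lemma good_bc (T : Tower B) (hB : RedRing x B₁) (h : ∀ i, Injective ((T.ι i).lTensor B₁))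
    {D : ℕ} (hg : Good (T.bc B₁ h) D M₁) : Good T D M₁ := by
  have h1 : ∀ i, Module.length B₁ ((T.bc B₁ h).K M₁ i) = Module.length B (T.K M₁ i) :=
    fun i => length_bc M₁ hB.surj (T.ι i)
  constructor
  · intro i hi
    rw [← h1]
    exact hg.fin i hi
  · intro i hi
    rw [← h1, ← h1]
    exact hg.per i hi

lemma th_bc (T : Tower B) (hB : RedRing x B₁) (h : ∀ i, Injective ((T.ι i).lTensor B₁)) (i : ℕ) :
    th (T.bc B₁ h) i M₁ = th T i M₁ := by
  have h1 : ∀ i, Module.length B₁ ((T.bc B₁ h).K M₁ i) = Module.length B (T.K M₁ i) :=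
    fun i => length_bc M₁ hB.surj (T.ι i)
  rw [th, th, kn, kn, kn, kn, h1, h1]

end base

section main

variable {B B₁ B₂ Q₁ Q₂ : Type u} [CommRing B] [CommRing B₁] [Algebra B B₁] [CommRing B₂]
  [Algebra B B₂] [CommRing Q₁] [Algebra Q₁ B₁] [CommRing Q₂] [Algebra Q₂ B₂] {x₁ x₂ : B}
  {M M₁ M₂ : Type u} [AddCommGroup M] [Module B M]
  [AddCommGroup M₁] [Module B M₁] [Module B₁ M₁] [IsScalarTower B B₁ M₁]
  [AddCommGroup M₂] [Module B M₂] [Module B₂ M₂] [IsScalarTower B B₂ M₂]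
  {N N₁ N₂ : Type u} [AddCommGroup N] [Module B N]
  [AddCommGroup N₁] [Module B N₁] [Module B₁ N₁] [IsScalarTower B B₁ N₁]
  [AddCommGroup N₂] [Module B N₂] [Module B₂ N₂] [IsScalarTower B B₂ N₂]
  {gM₁ : M →ₗ[B] M₁} {gM₂ : M →ₗ[B] M₂} {gN₁ : N →ₗ[B] N₁} {gN₂ : N →ₗ[B] N₂}

/-- **the abstract deformation theorem** -/
theorem transfer [IsNoetherianRing B] (hB₁ : RedRing x₁ B₁) (hB₂ : RedRing x₂ B₂)
    [Module.Finite B M] [Module.Finite B N]
    (hM₁ : RedMod x₁ B₁ M M₁ gM₁) (hM₂ : RedMod x₂ B₂ M M₂ gM₂)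
    (hN₁ : RedMod x₁ B₁ N N₁ gN₁) (hN₂ : RedMod x₂ B₂ N N₂ gN₂)
    {𝔫 : Ideal B} (hl₁ : LineLike 𝔫 x₁) (hl₂ : LineLike 𝔫 x₂) {D' : ℕ}
    (hdim : ringKrullDim B ≤ D')
    (hreg : ∀ (P : Ideal B) [P.IsPrime], ¬ 𝔫 ≤ P → IsRegularLocalRing (Localization.AtPrime P))
    {f₁ : Q₁} {f₂ : Q₂} {D : ℕ} {𝔪₁ : Ideal B₁} {𝔪₂ : Ideal B₂}
    (H₁ : HypData Q₁ B₁ f₁ D 𝔪₁) (H₂ : HypData Q₂ B₂ f₂ D 𝔪₂) (e : ℕ) (he : D ≤ 2 * e) :
    thTor B₁ e M₁ N₁ = thTor B₂ e M₂ N₂ := by
  let T := tower (B := B) N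
  have hT : T.IsFin := fun i => tower_F_finite N i
  have i₁ := T.inj_lTensor hB₁ (x := x₁) (B' := B₁) hN₁.reg
  have i₂ := T.inj_lTensor hB₂ (x := x₂) (B' := B₂) hN₂.reg
  have fM₁ : Module.Finite B M₁ := Module.Finite.of_surjective gM₁ hM₁.surj
  have fM₂ : Module.Finite B M₂ := Module.Finite.of_surjective gM₂ hM₂.surj
  have fM₁' : Module.Finite B₁ M₁ := Module.Finite.of_restrictScalars_finite B B₁ M₁
  have fM₂' : Module.Finite B₂ M₂ := Module.Finite.of_restrictScalars_finite B B₂ M₂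
  have hT₁ : (T.bc B₁ i₁).IsFin := fun i => by
    have := hT i
    exact inferInstanceAs (Module.Finite B₁ (B₁ ⊗[B] T.F i))
  have hT₂ : (T.bc B₂ i₂).IsFin := fun i => by
    have := hT i
    exact inferInstanceAs (Module.Finite B₂ (B₂ ⊗[B] T.F i))
  have G₁ := H₁.good _ hT₁ M₁
  have G₂ := H₂.good _ hT₂ M₂
  obtain ⟨c, hc⟩ := T.exists_pow_le_fac hT (D := D') 𝔫
    (fun P _ hP => ⟨hreg P hP, dim_loc_le hdim P⟩)
  have hE : ∀ i, D' ≤ i → lenq x₁ (T.K M i) + lenk x₂ (T.K M i) =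
      lenq x₂ (T.K M i) + lenk x₁ (T.K M i) := by
    intro i hi
    have hF := hT.S (i + 1)
    have hfin : Module.Finite B (T.K M i) :=
      Module.Finite.of_injective (T.K M i).subtype (Submodule.subtype_injective _)
    exact (euler_eq hl₁ hl₂ hfin ⟨c, fun s hs z => T.fac_smul_K hi (hc hs) z⟩).2
  have hd := deform T hM₁ hM₂ (good_bc T hB₁ i₁ G₁) (good_bc T hB₂ i₂ G₂) hE (2 * e) he
  rw [← th_bc T hB₁ i₁, ← th_bc T hB₂ i₂, ← thTor_eq, ← thTor_eq] at hd
  obtain ⟨e₁⟩ := hN₁.equiv hB₁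
  obtain ⟨e₂⟩ := hN₂.equiv hB₂
  have t₁ : thTor B₁ e M₁ ((T.bc B₁ i₁).S 0) = thTor B₁ e M₁ N₁ := by
    rw [thTor, thTor]
    erw [length_tor_congr M₁ e₁ (2 * e + 2), length_tor_congr M₁ e₁ (2 * e + 1)]
  have t₂ : thTor B₂ e M₂ ((T.bc B₂ i₂).S 0) = thTor B₂ e M₂ N₂ := by
    rw [thTor, thTor]
    erw [length_tor_congr M₂ e₂ (2 * e + 2), length_tor_congr M₂ e₂ (2 * e + 1)]
  rw [← t₁, ← t₂, hd]

end main

end Pool.Agent.Helper796_theta
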