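import Mathlib
import Pool.Agent.Helper796_theta.Asm

set_option autoImplicit false

/-!
# Additive functions on finitely generated modules, and nilpotent endomorphisms
-/

open TensorProduct Function

universe u

namespace Pool.Agent.Helper796_theta

/-- an additive function on finitely generated modules -/
structure AddFn (E : Type u) [CommRing E] where
  toFun : ∀ (M : Type u) [AddCommGroup M] [Module E M], ℤ
  add : ∀ {M' M M'' : Type u} [AddCommGroup M'] [Module E M'] [AddCommGroup M] [Module E M]
    [AddCommGroup M''] [Module E M''], Module.Finite E M' → Module.Finite E M →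
    Module.Finite E M'' → ∀ (f : M' →ₗ[E] M) (g : M →ₗ[E] M''), Injective f → Surjective g →
    Exact f g → toFun M = toFun M' + toFun M''

namespace AddFn

variable {E : Type u} [CommRing E] (θ : AddFn E)

lemma zero (M : Type u) [AddCommGroup M] [Module E M] [Subsingleton M] : θ.toFun M = 0 := by
  have h1 : Module.Finite E M := inferInstance
  have h2 := θ.add h1 h1 h1 (0 : M →ₗ[E] M) (0 : M →ₗ[E] M) (injective_of_subsingleton _)
    (surjective_to_subsingleton _) (fun x => by
      constructor
      · intro _; exact ⟨0, Subsingleton.elim _ _⟩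
      · intro _; exact Subsingleton.elim _ _)
  omega

lemma congr {M N : Type u} [AddCommGroup M] [Module E M] [AddCommGroup N] [Module E N]
    (hM : Module.Finite E M) (e : M ≃ₗ[E] N) : θ.toFun M = θ.toFun N := by
  have hN : Module.Finite E N := Module.Finite.equiv e
  have h2 := θ.add hM hN (inferInstanceAs (Module.Finite E PUnit.{u+1})) e.toLinearMap
    (0 : N →ₗ[E] PUnit.{u+1}) e.injective (surjective_to_subsingleton _)
    ((e.toLinearMap.exact_zero_iff_surjective _).2 e.surjective)
  rw [θ.zero PUnit.{u+1}, add_zero] at h2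
  exact h2.symm

variable [IsNoetherianRing E]

/-- additivity for a linear map: kernel and range -/
lemma ker_add_range {M N : Type u} [AddCommGroup M] [Module E M] [AddCommGroup N] [Module E N]
    (hM : Module.Finite E M) (f : M →ₗ[E] N) :
    θ.toFun M = θ.toFun (LinearMap.ker f) + θ.toFun (LinearMap.range f) :=
  θ.add inferInstance hM inferInstance (LinearMap.ker f).subtype f.rangeRestrict
    (Submodule.subtype_injective _) f.surjective_rangeRestrict (by
      intro x
      constructor
      · intro hx
        exact ⟨⟨x, congrArg Subtype.val hx⟩, rfl⟩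
      · rintro ⟨y, rfl⟩
        exact Subtype.ext y.2)

lemma sub_add_quot {M : Type u} [AddCommGroup M] [Module E M] (hM : Module.Finite E M)
    (S : Submodule E M) : θ.toFun M = θ.toFun S + θ.toFun (M ⧸ S) :=
  θ.add inferInstance hM inferInstance S.subtype S.mkQ (Submodule.subtype_injective _)
    (Submodule.mkQ_surjective _) (LinearMap.exact_subtype_mkQ S)

/-- the nilpotent endomorphism lemma -/
theorem nilp {W X : Type u} [AddCommGroup W] [Module E W] [AddCommGroup X] [Module E X]
    (hW : Module.Finite E W) (ρ : W →ₗ[E] W) (μ : W →ₗ[E] X) (hμ : Surjective μ)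
    (hex : Exact ρ μ) (n : ℕ) (hn : ∀ w, (ρ ^ (n + 1)) w = 0)
    (hinj : ∀ w, (ρ ^ n) w = 0 → μ w = 0) : θ.toFun W = (n + 1) * θ.toFun X := by
  have hX : Module.Finite E X := Module.Finite.of_surjective μ hμ
  -- the class of the kernel of `ρ` is the class of `X`
  have hK1 : θ.toFun (LinearMap.ker ρ) = θ.toFun X := by
    have h1 := θ.ker_add_range hW ρ
    have h2 := θ.ker_add_range hW μ
    have h3 : LinearMap.range μ = ⊤ := LinearMap.range_eq_top.2 hμ
    have h4 : LinearMap.ker μ = LinearMap.range ρ := LinearMap.exact_iff.1 hex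
    have h5 : θ.toFun (LinearMap.range μ) = θ.toFun X := by
      rw [h3]
      exact θ.congr inferInstance Submodule.topEquiv
    rw [h5, h4] at h2
    omega
  -- the chain
  have hchain : ∀ m, m ≤ n → θ.toFun (LinearMap.ker (ρ ^ (m + 1))) =
      θ.toFun (LinearMap.ker (ρ ^ m)) + θ.toFun (LinearMap.ker ρ) := by
    intro m hm
    let r : LinearMap.ker (ρ ^ (m + 1)) →ₗ[E] LinearMap.ker (ρ ^ m) :=
      (ρ ∘ₗ (LinearMap.ker (ρ ^ (m + 1))).subtype).codRestrict _ (by
        rintro ⟨w, hw⟩
        rw [LinearMap.mem_ker, pow_succ] at hw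
        exact hw)
    have hr : Surjective r := by
      rintro ⟨w, hw⟩
      rw [LinearMap.mem_ker] at hw
      have h1 : (ρ ^ n) w = 0 := by
        obtain ⟨k, rfl⟩ := Nat.exists_eq_add_of_le' hm
        rw [pow_add]
        change (ρ ^ k) ((ρ ^ m) w) = 0
        rw [hw, map_zero]
      obtain ⟨v, rfl⟩ := (hex w).1 (hinj w h1)
      refine ⟨⟨v, ?_⟩, rfl⟩
      rw [LinearMap.mem_ker, pow_succ]
      exact hw
    let i : LinearMap.ker ρ →ₗ[E] LinearMap.ker (ρ ^ (m + 1)) :=
      (LinearMap.ker ρ).subtype.codRestrict _ (by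
        rintro ⟨w, hw⟩
        rw [LinearMap.mem_ker] at hw
        rw [LinearMap.mem_ker, pow_succ]
        change (ρ ^ m) (ρ w) = 0
        rw [hw, map_zero])
    have hi : Injective i := by
      intro a b hab
      exact Subtype.ext (congrArg (fun z : LinearMap.ker (ρ ^ (m + 1)) => (z : W)) hab)
    have hir : Exact i r := by
      intro w
      constructor
      · intro hw
        refine ⟨⟨w, ?_⟩, rfl⟩
        exact congrArg (fun z : LinearMap.ker (ρ ^ m) => (z : W)) hw
      · rintro ⟨v, rfl⟩
        exact Subtype.ext v.2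
    rw [θ.add inferInstance inferInstance inferInstance i r hi hr hir, add_comm]
  have hall : ∀ m, m ≤ n + 1 → θ.toFun (LinearMap.ker (ρ ^ m)) = m * θ.toFun X := by
    intro m
    induction m with
    | zero =>
      intro _
      have h0 : LinearMap.ker (ρ ^ 0) = ⊥ := by
        rw [pow_zero]
        exact LinearMap.ker_eq_bot.2 (fun a b h => h)
      rw [h0, θ.zero]
      simp
    | succ m ih =>
      intro hm
      rw [hchain m (by omega), ih (by omega), hK1]
      push_cast
      ring
  have h1 := hall (n + 1) le_rfl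
  have h2 : LinearMap.ker (ρ ^ (n + 1)) = ⊤ := by
    rw [eq_top_iff]
    intro w _
    exact hn w
  rw [h2, θ.congr inferInstance Submodule.topEquiv] at h1
  rw [h1]
  push_cast
  ring

section prod

variable {W : Type u} [AddCommGroup W] [Module E W] {𝓔 : Type u} [CommRing 𝓔]
  (Φ : 𝓔 →+* Module.End E W)

omit [IsNoetherianRing E] in
lemma range_mul_le (a b : 𝓔) : LinearMap.range (Φ (a * b)) ≤ LinearMap.range (Φ a) := by
  rintro _ ⟨v, rfl⟩
  rw [map_mul]
  exact ⟨Φ b v, rfl⟩

omit [IsNoetherianRing E] in
lemma range_mul_le' (a b : 𝓔) : LinearMap.range (Φ (a * b)) ≤ LinearMap.range (Φ b) := by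
  rw [mul_comm]
  exact range_mul_le Φ b a

omit [IsNoetherianRing E] in
/-- exactness along a multiset -/
lemma ker_le_range {m0 : Multiset 𝓔}
    (hex : ∀ r m, m0 = r ::ₘ m → LinearMap.ker (Φ r) ≤ LinearMap.range (Φ m.prod)) :
    ∀ m1 m2 : Multiset 𝓔, m0 = m1 + m2 →
      LinearMap.ker (Φ m1.prod) ≤ LinearMap.range (Φ m2.prod) := by
  intro m1
  induction m1 using Multiset.induction_on with
  | empty =>
    intro m2 _ w hw
    rw [Multiset.prod_zero, map_one] at hw
    have : w = 0 := hw
    rw [this]
    exact Submodule.zero_mem _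
  | cons r m1 ih =>
    intro m2 hm w hw
    rw [Multiset.prod_cons, map_mul] at hw
    have h1 : Φ m1.prod w ∈ LinearMap.ker (Φ r) := hw
    obtain ⟨v, hv⟩ := hex r (m1 + m2) (by rw [hm, Multiset.cons_add]) h1
    rw [Multiset.prod_add, map_mul] at hv
    have h2 : w - Φ m2.prod v ∈ LinearMap.ker (Φ m1.prod) := by
      rw [LinearMap.mem_ker, map_sub, sub_eq_zero]
      exact hv.symm
    have h3 := ih (r ::ₘ m2) (by rw [hm, Multiset.cons_add, Multiset.add_cons]) h2
    rw [Multiset.prod_cons] at h3
    have h4 := range_mul_le' Φ _ _ h3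
    have h5 : w = (w - Φ m2.prod v) + Φ m2.prod v := by abel
    rw [h5]
    exact Submodule.add_mem _ h4 ⟨v, rfl⟩

lemma prod_aux (hW : Module.Finite E W) {m0 : Multiset 𝓔}
    (hex : ∀ r m, m0 = r ::ₘ m → LinearMap.ker (Φ r) ≤ LinearMap.range (Φ m.prod)) :
    ∀ m1 m2 : Multiset 𝓔, m0 = m1 + m2 → θ.toFun W = θ.toFun (LinearMap.range (Φ m1.prod)) +
      (m1.map fun r => θ.toFun (W ⧸ LinearMap.range (Φ r))).sum := by
  intro m1
  induction m1 using Multiset.induction_on with
  | empty =>
    intro m2 _
    rw [Multiset.prod_zero, Multiset.map_zero, Multiset.sum_zero, add_zero, map_one]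
    have h1 : LinearMap.range (1 : Module.End E W) = ⊤ := LinearMap.range_id
    rw [h1]
    exact (θ.congr inferInstance Submodule.topEquiv).symm
  | cons r m1 ih =>
    intro m2 hm
    rw [ih (r ::ₘ m2) (by rw [hm, Multiset.cons_add, Multiset.add_cons]), Multiset.map_cons,
      Multiset.sum_cons, ← add_assoc]
    congr 1
    set V := LinearMap.range (Φ m1.prod) with hV
    set V' := LinearMap.range (Φ (r ::ₘ m1).prod) with hV'
    have hle : V' ≤ V := by
      rw [hV', hV, Multiset.prod_cons]
      exact range_mul_le' Φ _ _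
    set N := V'.comap V.subtype with hN
    have h1 : θ.toFun V = θ.toFun N + θ.toFun (V ⧸ N) := θ.sub_add_quot inferInstance N
    have h2 : θ.toFun N = θ.toFun V' :=
      θ.congr inferInstance (Submodule.comapSubtypeEquivOfLe hle)
    let g : W →ₗ[E] V ⧸ N := N.mkQ ∘ₗ (Φ m1.prod).rangeRestrict
    have hg : Surjective g :=
      (Submodule.mkQ_surjective N).comp (Φ m1.prod).surjective_rangeRestrict
    have hker : LinearMap.ker g = LinearMap.range (Φ r) := by
      apply le_antisymm
      · intro w hw
        have h3 : (Φ m1.prod).rangeRestrict w ∈ N := by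
          have : N.mkQ ((Φ m1.prod).rangeRestrict w) = 0 := hw
          rwa [Submodule.mkQ_apply, Submodule.Quotient.mk_eq_zero] at this
        have h4 : Φ m1.prod w ∈ V' := h3
        rw [hV', Multiset.prod_cons, mul_comm, map_mul] at h4
        obtain ⟨v, hv⟩ := h4
        have h5 : w - Φ r v ∈ LinearMap.ker (Φ m1.prod) := by
          rw [LinearMap.mem_ker, map_sub, sub_eq_zero]
          exact hv.symm
        have h6 := ker_le_range Φ hex m1 (r ::ₘ m2)
          (by rw [hm, Multiset.cons_add, Multiset.add_cons]) h5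
        rw [Multiset.prod_cons] at h6
        have h7 : w = (w - Φ r v) + Φ r v := by abel
        rw [h7]
        exact Submodule.add_mem _ (range_mul_le Φ _ _ h6) ⟨v, rfl⟩
      · rintro _ ⟨v, rfl⟩
        have h3 : (Φ m1.prod).rangeRestrict (Φ r v) ∈ N := by
          change Φ m1.prod (Φ r v) ∈ V'
          rw [hV', Multiset.prod_cons, mul_comm, map_mul]
          exact ⟨v, rfl⟩
        rw [LinearMap.mem_ker]
        change N.mkQ _ = 0
        rw [Submodule.mkQ_apply, Submodule.Quotient.mk_eq_zero]
        exact h3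
    have h3 : θ.toFun (V ⧸ N) = θ.toFun (W ⧸ LinearMap.range (Φ r)) := by
      rw [← θ.congr inferInstance (g.quotKerEquivOfSurjective hg),
        ← θ.congr inferInstance (Submodule.quotEquivOfEq _ _ hker)]
    rw [h1, h2, h3]

/-- the class of `W`, when a product of commuting endomorphisms vanishes exactly -/
theorem prod (hW : Module.Finite E W) {m0 : Multiset 𝓔} (h0 : Φ m0.prod = 0)
    (hex : ∀ r m, m0 = r ::ₘ m → LinearMap.ker (Φ r) ≤ LinearMap.range (Φ m.prod)) :
    θ.toFun W = (m0.map fun r => θ.toFun (W ⧸ LinearMap.range (Φ r))).sum := by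
  rw [θ.prod_aux Φ hW hex m0 0 (add_zero _).symm, h0, LinearMap.range_zero, θ.zero, zero_add]

end prod

end AddFn

end Pool.Agent.Helper796_theta
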