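import Mathlib
import Pool.Agent.Helper796_theta.Asm
import Pool.Agent.Helper796_theta.AddFn

set_option autoImplicit false

/-!
# Modules induced from a regular subring do not contribute
-/

open CategoryTheory TensorProduct Function

universe u

namespace Pool.Agent.Helper796_theta

section res

variable {P C : Type u} [CommRing P] [CommRing C] [Algebra P C]

lemma proj_res [Module.Free P C] (F : Type u) [AddCommGroup F] [Module C F] [Module P F]
    [IsScalarTower P C F] [Module.Finite C F] [Module.Projective C F] : Module.Projective P F := by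
  obtain ⟨n, g, hg⟩ := Module.Finite.exists_fin' C F
  obtain ⟨s, hs⟩ := Module.projective_lifting_property g LinearMap.id hg
  refine Module.Projective.of_split (M := Fin n → C) (s.restrictScalars P) (g.restrictScalars P) ?_
  apply LinearMap.ext
  intro x
  exact LinearMap.congr_fun hs x

variable (P) in
/-- a tower, restricted to a subring -/
noncomputable def Tower.resTo [Module.Free P C] (T : Tower C) (hT : T.IsFin) : Tower P :=
  letI i1 : ∀ i, Module P (T.S i) := fun i => Module.compHom (T.S i) (algebraMap P C)
  letI i2 : ∀ i, Module P (T.F i) := fun i => Module.compHom (T.F i) (algebraMap P C)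
  haveI i3 : ∀ i, IsScalarTower P C (T.S i) := fun i => ⟨fun p c m => by
    rw [Algebra.smul_def, mul_smul]; rfl⟩
  haveI i4 : ∀ i, IsScalarTower P C (T.F i) := fun i => ⟨fun p c m => by
    rw [Algebra.smul_def, mul_smul]; rfl⟩
  { S := fun i => ModuleCat.of P (T.S i)
    F := fun i => ModuleCat.of P (T.F i)
    ι := fun i => (T.ι i).restrictScalars P
    π := fun i => (T.π i).restrictScalars P
    inj := T.inj
    surj := T.surj
    ex := T.ex
    proj := fun i => by
      have := T.proj i
      have := hT i
      exact proj_res (P := P) (C := C) (T.F i) }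

lemma res_cancel (S F X : Type u) [AddCommGroup S] [Module C S] [Module P S]
    [IsScalarTower P C S] [AddCommGroup F] [Module C F] [Module P F] [IsScalarTower P C F]
    [AddCommGroup X] [Module P X] (φ : S →ₗ[C] F) (z : S ⊗[C] (C ⊗[P] X)) :
    TensorProduct.AlgebraTensorModule.cancelBaseChange P C C F X (φ.rTensor (C ⊗[P] X) z) =
      (φ.restrictScalars P).rTensor X
        (TensorProduct.AlgebraTensorModule.cancelBaseChange P C C S X z) := by
  induction z using TensorProduct.induction_on with
  | zero => simp
  | tmul s w =>
    induction w using TensorProduct.induction_on with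
    | zero => simp
    | tmul c x =>
      rw [LinearMap.rTensor_tmul, TensorProduct.AlgebraTensorModule.cancelBaseChange_tmul,
        TensorProduct.AlgebraTensorModule.cancelBaseChange_tmul, LinearMap.rTensor_tmul]
      change (c • φ s) ⊗ₜ[P] x = (φ (c • s)) ⊗ₜ[P] x
      rw [map_smul]
    | add a b ha hb =>
      rw [TensorProduct.tmul_add, map_add, map_add, map_add, map_add, ha, hb]
  | add a b ha hb => rw [map_add, map_add, map_add, map_add, ha, hb]

/-- induced modules have no higher Tor -/
theorem K_induced [Module.Free P C] [Module.Finite P C] {D : ℕ} (hP : GD P D) (T : Tower C)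
    (hT : T.IsFin) (X : Type u) [AddCommGroup X] [Module P X] (j : ℕ) (hj : D ≤ j) :
    T.K (C ⊗[P] X) j = ⊥ := by
  let _ : ∀ i, Module P (T.S i) := fun i => Module.compHom (T.S i) (algebraMap P C)
  let _ : ∀ i, Module P (T.F i) := fun i => Module.compHom (T.F i) (algebraMap P C)
  have _ : ∀ i, IsScalarTower P C (T.S i) := fun i => ⟨fun p c m => by
    rw [Algebra.smul_def, mul_smul]; rfl⟩
  have _ : ∀ i, IsScalarTower P C (T.F i) := fun i => ⟨fun p c m => by
    rw [Algebra.smul_def, mul_smul]; rfl⟩
  have hres : (T.resTo P hT).IsFin := by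
    intro i
    have := hT i
    exact Module.Finite.trans (R := P) C (T.F i)
  have hproj : Module.Projective P (T.S j) := by
    have h1 := hP ((T.resTo P hT).drop (j - D)) (fun i => hres _)
    have h2 : j - D + D = j := by omega
    have h3 : Module.Projective P ((T.resTo P hT).S (j - D + D)) := h1
    rw [h2] at h3
    exact h3
  obtain ⟨s, hs⟩ := Module.projective_lifting_property ((T.π j).restrictScalars P) LinearMap.id
    (T.surj j)
  have hs' : ∀ y, T.π j (s y) = y := fun y => LinearMap.congr_fun hs y
  -- a retraction of `ι`
  have hex : ∀ y : T.F j, ∃ x : T.S (j + 1), T.ι j x = y - s (T.π j y) := by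
    intro y
    apply (T.ex j _).1
    rw [map_sub, hs', sub_self]
  choose r hr using hex
  have hinj : Injective (((T.ι j).restrictScalars P).rTensor X) := by
    let r' : T.F j →ₗ[P] T.S (j + 1) :=
      { toFun := r
        map_add' := fun a b => by
          apply T.inj j
          rw [hr, map_add (T.ι j), hr, hr, map_add, map_add]
          abel
        map_smul' := fun c a => by
          apply T.inj j
          rw [hr, RingHom.id_apply]
          have h1 : T.π j (c • a) = c • T.π j a := ((T.π j).restrictScalars P).map_smul c a
          have h2 : T.ι j (c • r a) = c • T.ι j (r a) := ((T.ι j).restrictScalars P).map_smul c (r a)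
          rw [h1, h2, hr, map_smul, smul_sub] }
    have h1 : r' ∘ₗ (T.ι j).restrictScalars P = LinearMap.id := by
      apply LinearMap.ext
      intro x
      apply T.inj j
      change T.ι j (r (T.ι j x)) = T.ι j x
      rw [hr, (T.ex j).apply_apply_eq_zero, map_zero, sub_zero]
    have h2 : r'.rTensor X ∘ₗ ((T.ι j).restrictScalars P).rTensor X = LinearMap.id := by
      rw [← LinearMap.rTensor_comp, h1, LinearMap.rTensor_id]
    exact LeftInverse.injective (g := r'.rTensor X) (LinearMap.congr_fun h2)
  rw [eq_bot_iff]
  intro z hz
  rw [LinearMap.mem_ker] at hz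
  rw [Submodule.mem_bot]
  let z' := TensorProduct.comm C (C ⊗[P] X) (T.S (j + 1)) z
  have h1 : (T.ι j).rTensor (C ⊗[P] X) z' = 0 := by
    have h2 : ∀ y : (C ⊗[P] X) ⊗[C] T.S (j + 1), (T.ι j).rTensor (C ⊗[P] X)
        (TensorProduct.comm C (C ⊗[P] X) (T.S (j + 1)) y) =
        TensorProduct.comm C (C ⊗[P] X) (T.F j) ((T.ι j).lTensor (C ⊗[P] X) y) := by
      intro y
      induction y using TensorProduct.induction_on with
      | zero => simp
      | tmul a b => rfl
      | add a b ha hb => rw [map_add, map_add, map_add, map_add, ha, hb]
    rw [h2, hz, map_zero]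
  have h2 := res_cancel (T.S (j + 1)) (T.F j) X (T.ι j) z'
  rw [h1, map_zero] at h2
  have h3 : TensorProduct.AlgebraTensorModule.cancelBaseChange P C C (T.S (j + 1)) X z' = 0 := by
    apply hinj
    rw [map_zero]
    exact h2.symm
  have h4 : z' = 0 := (TensorProduct.AlgebraTensorModule.cancelBaseChange P C C
    (T.S (j + 1)) X).injective (by rw [h3, map_zero])
  exact (TensorProduct.comm C (C ⊗[P] X) (T.S (j + 1))).injective (by rw [map_zero]; exact h4)

end res

end Pool.Agent.Helper796_theta
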