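import Mathlib

set_option autoImplicit false

/-!
# A vanishing lemma for functions with many symmetries
-/

open Function

namespace Pool.Agent.Helper796_theta

section

variable {I : Type} [Fintype I]

/-- the functional attached to a function on exponents -/
noncomputable def Lam (Θ : (I →₀ ℕ) → ℤ) : MvPolynomial I ℚ →ₗ[ℚ] ℚ :=
  (MvPolynomial.basisMonomials I ℚ).constr ℚ fun γ => (Θ γ : ℚ)

omit [Fintype I] in
lemma Lam_monomial (Θ : (I →₀ ℕ) → ℤ) (γ : I →₀ ℕ) :
    Lam Θ (MvPolynomial.monomial γ 1) = Θ γ := by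
  have h := (MvPolynomial.basisMonomials I ℚ).constr_basis ℚ (fun γ => (Θ γ : ℚ)) γ
  rw [MvPolynomial.coe_basisMonomials] at h
  exact h

/-- the annihilator -/
noncomputable def annI (Θ : (I →₀ ℕ) → ℤ) : Ideal (MvPolynomial I ℚ) where
  carrier := {u | ∀ v, Lam Θ (u * v) = 0}
  zero_mem' := fun v => by rw [zero_mul, map_zero]
  add_mem' := fun {a b} ha hb v => by rw [add_mul, map_add, ha v, hb v, add_zero]
  smul_mem' := fun c {a} ha v => by
    rw [smul_eq_mul, mul_comm c, mul_assoc]
    exact ha (c * v)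

omit [Fintype I] in
lemma mem_annI (Θ : (I →₀ ℕ) → ℤ) (u : MvPolynomial I ℚ)
    (h : ∀ γ, Lam Θ (u * MvPolynomial.monomial γ 1) = 0) : u ∈ annI Θ := by
  intro v
  induction v using MvPolynomial.induction_on' with
  | monomial γ c =>
    have : (MvPolynomial.monomial γ c : MvPolynomial I ℚ) = c • MvPolynomial.monomial γ 1 := by
      rw [MvPolynomial.smul_monomial, smul_eq_mul, mul_one]
    rw [this, mul_smul_comm, map_smul, h, smul_zero]
  | add p q hp hq => rw [mul_add, map_add, hp, hq, add_zero]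

/-- no characters -/
theorem char_lemma (a m w : I → ℕ) (g : ℕ) (hg : 0 < g) (ha : ∀ i, 0 < a i)
    (hm : ∀ i, m i * g = a i * w i) (Θ : (I →₀ ℕ) → ℤ)
    (h1 : ∀ i γ, ∑ j ∈ Finset.range (a i), Θ (γ + Finsupp.single i j) = 0)
    (h2 : ∀ γ, Θ (γ + Finsupp.equivFunOnFinite.symm m) = Θ γ)
    (hNC : ∀ b : I → ℕ, (∀ i, 0 < b i ∧ b i < a i) → ¬ g ∣ ∑ i, b i * w i) : Θ 0 = 0 := by
  classical
  have hp : ∀ i, (∑ j ∈ Finset.range (a i), (MvPolynomial.X i : MvPolynomial I ℚ) ^ j) ∈
      annI Θ := by
    intro i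
    apply mem_annI
    intro γ
    rw [Finset.sum_mul, map_sum]
    have h3 : ∀ j ∈ Finset.range (a i), Lam Θ ((MvPolynomial.X i : MvPolynomial I ℚ) ^ j *
        MvPolynomial.monomial γ 1) = (Θ (γ + Finsupp.single i j) : ℚ) := by
      intro j _
      rw [MvPolynomial.X_pow_eq_monomial, MvPolynomial.monomial_mul, mul_one, Lam_monomial,
        add_comm]
    rw [Finset.sum_congr rfl h3]
    exact_mod_cast h1 i γ
  have ht : (MvPolynomial.monomial (Finsupp.equivFunOnFinite.symm m) 1 - 1 :
      MvPolynomial I ℚ) ∈ annI Θ := by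
    apply mem_annI
    intro γ
    rw [sub_mul, one_mul, map_sub, MvPolynomial.monomial_mul, mul_one, Lam_monomial,
      Lam_monomial, add_comm, h2, sub_self]
  by_cases htop : annI Θ = ⊤
  · have h3 : (1 : MvPolynomial I ℚ) ∈ annI Θ := by rw [htop]; trivial
    have h4 := h3 (MvPolynomial.monomial 0 1)
    rw [one_mul, Lam_monomial] at h4
    exact_mod_cast h4
  · exfalso
    obtain ⟨𝔪, h𝔪, hle⟩ := Ideal.exists_le_maximal _ htop
    let _ : Field (MvPolynomial I ℚ ⧸ 𝔪) := Ideal.Quotient.field 𝔪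
    let K := AlgebraicClosure (MvPolynomial I ℚ ⧸ 𝔪)
    let φ : MvPolynomial I ℚ →+* K := (algebraMap (MvPolynomial I ℚ ⧸ 𝔪) K).comp
      (Ideal.Quotient.mk 𝔪)
    have hφ : ∀ u ∈ annI Θ, φ u = 0 := by
      intro u hu
      change algebraMap _ K (Ideal.Quotient.mk 𝔪 u) = 0
      rw [Ideal.Quotient.eq_zero_iff_mem.2 (hle hu), map_zero]
    have hK : CharZero K :=
      charZero_of_injective_ringHom (f := φ.comp MvPolynomial.C) (RingHom.injective _)
    let η : I → K := fun i => φ (MvPolynomial.X i)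
    have hη1 : ∀ i, ∑ j ∈ Finset.range (a i), η i ^ j = 0 := by
      intro i
      have := hφ _ (hp i)
      rw [map_sum] at this
      simpa [η, map_pow] using this
    have hη2 : ∀ i, η i ^ a i = 1 := by
      intro i
      have h3 := (Commute.all (η i) 1).geom_sum₂_mul (a i)
      have h4 := mul_geom_sum (η i) (a i)
      rw [hη1, mul_zero] at h4
      exact (sub_eq_zero.1 h4.symm)
    have hη3 : ∀ i, η i ≠ 1 := by
      intro i h3
      have h4 := hη1 i
      rw [h3] at h4
      simp only [one_pow, Finset.sum_const, Finset.card_range, nsmul_eq_mul, mul_one] at h4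
      have := ha i
      have h5 : a i = 0 := by exact_mod_cast h4
      omega
    have hη4 : ∏ i, η i ^ m i = 1 := by
      have h3 := hφ _ ht
      have h4 : (MvPolynomial.monomial (Finsupp.equivFunOnFinite.symm m) 1 : MvPolynomial I ℚ) =
          ∏ i, MvPolynomial.X i ^ m i := by
        rw [MvPolynomial.monomial_eq, MvPolynomial.C_1, one_mul,
          Finsupp.prod_fintype _ _ (fun i => pow_zero _)]
        rfl
      rw [h4, φ.map_sub, φ.map_one, sub_eq_zero, map_prod] at h3
      rw [← h3]
      refine Finset.prod_congr rfl fun i _ => ?_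
      rw [map_pow]
    set N := g * ∏ i, a i with hN
    have hNpos : 0 < N := Nat.mul_pos hg (Finset.prod_pos fun i _ => ha i)
    have hNK : NeZero (N : K) := ⟨by exact_mod_cast hNpos.ne'⟩
    obtain ⟨Ω, hΩ⟩ := HasEnoughRootsOfUnity.exists_primitiveRoot K N
    have haN : ∀ i, a i ∣ N := fun i =>
      (Finset.dvd_prod_of_mem a (Finset.mem_univ i)).trans (Dvd.intro_left g rfl)
    have hexp : ∀ i, ∃ e b : ℕ, η i = Ω ^ e ∧ e * a i = N * b ∧ 0 < b ∧ b < a i := by
      intro i
      obtain ⟨c, hc⟩ := haN i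
      have h3 : η i ^ N = 1 := by rw [hc, pow_mul, hη2, one_pow]
      have hN0 : NeZero N := ⟨hNpos.ne'⟩
      obtain ⟨e, he, h4⟩ := hΩ.eq_pow_of_pow_eq_one h3
      have h5 : Ω ^ (e * a i) = 1 := by rw [pow_mul, h4, hη2]
      obtain ⟨b, hb⟩ := (hΩ.pow_eq_one_iff_dvd _).1 h5
      refine ⟨e, b, h4.symm, hb, ?_, ?_⟩
      · rcases Nat.eq_zero_or_pos b with h6 | h6
        · exfalso
          rw [h6, mul_zero] at hb
          have h7 : e = 0 := by
            rcases Nat.mul_eq_zero.1 hb with h | h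
            · exact h
            · have := ha i; omega
          apply hη3 i
          rw [← h4, h7, pow_zero]
        · exact h6
      · by_contra hcon
        push Not at hcon
        have h6 : e * a i < N * a i := Nat.mul_lt_mul_of_pos_right he (ha i)
        have h7 : N * a i ≤ N * b := Nat.mul_le_mul_left N hcon
        omega
    choose e b he heb hb0 hba using hexp
    apply hNC b (fun i => ⟨hb0 i, hba i⟩)
    have h3 : Ω ^ (∑ i, e i * m i) = 1 := by
      rw [← hη4, ← Finset.prod_pow_eq_pow_sum]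
      refine Finset.prod_congr rfl fun i _ => ?_
      rw [he, pow_mul]
    obtain ⟨c, hc⟩ := (hΩ.pow_eq_one_iff_dvd _).1 h3
    refine ⟨c, ?_⟩
    have h4 : N * ∑ i, b i * w i = N * (g * c) := by
      calc N * ∑ i, b i * w i = ∑ i, (N * b i) * w i := by
            rw [Finset.mul_sum]
            exact Finset.sum_congr rfl fun i _ => by ring
        _ = ∑ i, (e i * a i) * w i := Finset.sum_congr rfl fun i _ => by rw [heb]
        _ = ∑ i, e i * (m i * g) := Finset.sum_congr rfl fun i _ => by rw [hm]; ring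
        _ = g * ∑ i, e i * m i := by
            rw [Finset.mul_sum]
            exact Finset.sum_congr rfl fun i _ => by ring
        _ = N * (g * c) := by rw [hc]; ring
    exact Nat.eq_of_mul_eq_mul_left hNpos h4

end

end Pool.Agent.Helper796_theta
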