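import Mathlib
import Pool.Agent.Helper796_theta.AddFn

set_option autoImplicit false

/-!
# Induced modules from a radical extension, and twists by roots of unity
-/

open TensorProduct Function

universe u

namespace Pool.Agent.Helper796_theta

/-- the module `M` with `e` acting as `s e` -/
def Tw {E : Type u} [CommRing E] (_s : E →+* E) (M : Type u) : Type u := M

namespace Tw

variable {E : Type u} [CommRing E] (s : E →+* E) (M : Type u) [AddCommGroup M] [Module E M]

instance : AddCommGroup (Tw s M) := inferInstanceAs (AddCommGroup M)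

instance : Module E (Tw s M) := Module.compHom M s

/-- the identity -/
def of : M ≃+ Tw s M := AddEquiv.refl M

lemma smul_of (e : E) (m : M) : e • of s M m = of s M (s e • m) := rfl

end Tw

section factor

/-- `x^n - z^n` as a product over the powers of a primitive root of unity -/
lemma pow_sub_pow_eq_prod_pow {D : Type u} [CommRing D] [IsDomain D] {ζ : D} {n : ℕ}
    (hn : 0 < n) (h : IsPrimitiveRoot ζ n) (x z : D) :
    ∏ j ∈ Finset.range n, (x - ζ ^ j * z) = x ^ n - z ^ n := by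
  classical
  rw [h.pow_sub_pow_eq_prod_sub_mul x z hn]
  have hinj : Set.InjOn (fun j => ζ ^ j) (Finset.range n : Set ℕ) := by
    intro i hi j hj hij
    exact h.pow_inj (Finset.mem_range.1 (Finset.mem_coe.1 hi))
      (Finset.mem_range.1 (Finset.mem_coe.1 hj)) hij
  have himg : Polynomial.nthRootsFinset n (1 : D) = (Finset.range n).image fun j => ζ ^ j := by
    symm
    apply Finset.eq_of_subset_of_card_le
    · intro y hy
      obtain ⟨j, _, rfl⟩ := Finset.mem_image.1 hy
      rw [Polynomial.mem_nthRootsFinset hn, ← pow_mul, mul_comm, pow_mul, h.pow_eq_one, one_pow]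
    · rw [h.card_nthRootsFinset, Finset.card_image_of_injOn hinj, Finset.card_range]
  rw [himg, Finset.prod_image (fun i hi j hj hij => hinj hi hj hij)]

end factor

section coords

variable {P E M : Type u} [CommRing P] [CommRing E] [Algebra P E] {n : ℕ}
  (b : Module.Basis (Fin (n + 1)) P E) [AddCommGroup M] [Module P M]

/-- the coordinates on `E ⊗ M` -/
noncomputable def co (i : Fin (n + 1)) : E ⊗[P] M →ₗ[P] M :=
  (TensorProduct.lid P M).toLinearMap ∘ₗ (b.coord i).rTensor M

lemma co_tmul (i : Fin (n + 1)) (e : E) (m : M) : co b i (e ⊗ₜ[P] m) = b.coord i e • m := rfl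

lemma expand (w : E ⊗[P] M) : w = ∑ i, b i ⊗ₜ[P] co b i w := by
  induction w using TensorProduct.induction_on with
  | zero => simp
  | tmul e m =>
    conv_lhs => rw [← b.sum_repr e, TensorProduct.sum_tmul]
    refine Finset.sum_congr rfl fun i _ => ?_
    rw [co_tmul, TensorProduct.tmul_smul, TensorProduct.smul_tmul']
    rfl
  | add x y hx hy =>
    conv_lhs => rw [hx, hy]
    rw [← Finset.sum_add_distrib]
    refine Finset.sum_congr rfl fun i _ => ?_
    rw [map_add, TensorProduct.tmul_add]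

variable {Y : E} (hb : ∀ i, b i = Y ^ (i : ℕ)) {g : P} (hg : Y ^ (n + 1) = algebraMap P E g)

include hb hg in
lemma coord_mul (i : Fin n) (e : E) : b.coord i.succ (Y * e) = b.coord i.castSucc e := by
  have : (b.coord i.succ) ∘ₗ (LinearMap.mulLeft P Y) = b.coord i.castSucc := by
    apply b.ext
    intro j
    rw [LinearMap.comp_apply, LinearMap.mulLeft_apply, hb, ← pow_succ']
    rcases Fin.eq_castSucc_or_eq_last j with ⟨j, rfl⟩ | rfl
    · have h1 : Y ^ ((j.castSucc : ℕ) + 1) = b j.succ := by rw [hb]; rfl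
      have h2 : Y ^ (j.castSucc : ℕ) = b j.castSucc := (hb _).symm
      rw [h1, h2, Module.Basis.coord_apply, Module.Basis.coord_apply, b.repr_self, b.repr_self]
      by_cases hij : j = i
      · subst hij
        rw [Finsupp.single_eq_same, Finsupp.single_eq_same]
      · rw [Finsupp.single_eq_of_ne (fun h => hij (Fin.succ_injective _ h).symm),
          Finsupp.single_eq_of_ne (fun h => hij (Fin.castSucc_injective _ h).symm)]
    · have h1 : Y ^ ((Fin.last n : ℕ) + 1) = g • b 0 := by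
        rw [hb, Algebra.smul_def]
        simp only [Fin.val_last, Fin.val_zero, pow_zero, mul_one]
        exact hg
      have h2 : Y ^ (Fin.last n : ℕ) = b (Fin.last n) := (hb _).symm
      rw [h1, h2, map_smul, Module.Basis.coord_apply, Module.Basis.coord_apply, b.repr_self,
        b.repr_self, Finsupp.single_eq_of_ne (Fin.succ_ne_zero _),
        Finsupp.single_eq_of_ne (Fin.castSucc_lt_last i).ne, smul_zero]
  exact LinearMap.congr_fun this e

end coords

section ops

variable {P E : Type u} [CommRing P] [CommRing E] [Algebra P E]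
  (M : Type u) [AddCommGroup M] [Module E M] [Module P M] [IsScalarTower P E M]

/-- the action of `E ⊗ E` on `E ⊗ M` -/
noncomputable def act : E ⊗[P] E →ₐ[E] Module.End E (E ⊗[P] M) :=
  Algebra.TensorProduct.lift (Algebra.ofId E _)
    ((Module.End.baseChangeHom P E M).comp (Algebra.lsmul P P M))
    (fun x _ => Algebra.commutes x _)

lemma act_tmul (u v x : E) (m : M) :
    act M (u ⊗ₜ[P] v) (x ⊗ₜ[P] m) = (u * x) ⊗ₜ[P] (v • m) := by
  rw [act, Algebra.TensorProduct.lift_tmul]
  rfl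

variable {n : ℕ} (b : Module.Basis (Fin (n + 1)) P E)

omit [IsScalarTower P E M] in
lemma co_mul_right (i : Fin (n + 1)) (v : E) [IsScalarTower P E M] (w : E ⊗[P] M) :
    co b i (act M (1 ⊗ₜ[P] v) w) = v • co b i w := by
  induction w using TensorProduct.induction_on with
  | zero => simp
  | tmul e m => rw [act_tmul, one_mul, co_tmul, co_tmul, smul_comm]
  | add x y hx hy => rw [map_add, map_add, map_add, hx, hy, smul_add]

variable {Y : E} (hb : ∀ i, b i = Y ^ (i : ℕ)) {g : P} (hg : Y ^ (n + 1) = algebraMap P E g)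

include hb hg in
lemma co_mul_left (i : Fin n) (w : E ⊗[P] M) :
    co b i.succ (act M (Y ⊗ₜ[P] 1) w) = co b i.castSucc w := by
  induction w using TensorProduct.induction_on with
  | zero => simp
  | tmul e m => rw [act_tmul, one_smul, co_tmul, co_tmul, coord_mul b hb hg]
  | add x y hx hy => rw [map_add, map_add, map_add, hx, hy]

include hb hg in
/-- exactness 1 -/
lemma ex_one (Z : E) : LinearMap.ker (act M (Y ⊗ₜ[P] 1 - 1 ⊗ₜ[P] Z)) ≤
    LinearMap.range (act M (∑ i ∈ Finset.range (n + 1),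
      (Y ⊗ₜ[P] (1 : E)) ^ i * ((1 : E) ⊗ₜ[P] Z) ^ (n - i))) := by
  intro w hw
  have h1 : act M (Y ⊗ₜ[P] 1) w = act M (1 ⊗ₜ[P] Z) w := by
    rw [LinearMap.mem_ker, map_sub, LinearMap.sub_apply, sub_eq_zero] at hw
    exact hw
  have h2 : ∀ i : Fin n, co b i.castSucc w = Z • co b i.succ w := by
    intro i
    rw [← co_mul_left M b hb hg i w, h1, co_mul_right]
  have h3 : ∀ j : ℕ, j ≤ n → ∀ i : Fin (n + 1), (i : ℕ) = n - j →
      co b i w = Z ^ j • co b (Fin.last n) w := by
    intro j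
    induction j with
    | zero =>
      intro _ i hi
      have : i = Fin.last n := Fin.ext (by simpa using hi)
      rw [this, pow_zero, one_smul]
    | succ j ih =>
      intro hj i hi
      have h4 : (i : ℕ) < n := by omega
      have h5 : i = (⟨i, h4⟩ : Fin n).castSucc := rfl
      rw [h5, h2, ih (by omega) _ (by simp; omega), smul_smul, ← pow_succ']
  refine ⟨(1 : E) ⊗ₜ[P] co b (Fin.last n) w, ?_⟩
  rw [map_sum, LinearMap.sum_apply]
  conv_rhs => rw [expand b w]
  rw [← Fin.sum_univ_eq_sum_range (fun i => (act M ((Y ⊗ₜ[P] (1 : E)) ^ i *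
    ((1 : E) ⊗ₜ[P] Z) ^ (n - i))) ((1 : E) ⊗ₜ[P] co b (Fin.last n) w))]
  refine Finset.sum_congr rfl fun i _ => ?_
  rw [Algebra.TensorProduct.tmul_pow, Algebra.TensorProduct.tmul_pow, one_pow, one_pow,
    Algebra.TensorProduct.tmul_mul_tmul, mul_one, one_mul, act_tmul, mul_one, hb]
  congr 1
  rw [h3 (n - i) (by omega) i (by have := i.2; omega)]

variable (P) in
/-- the map to the twisted module -/
noncomputable def mu (s : E →+* E) (hs : ∀ p : P, s (algebraMap P E p) = algebraMap P E p) :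
    E ⊗[P] M →ₗ[E] Tw s M :=
  letI : Module P (Tw s M) := inferInstanceAs (Module P M)
  haveI : IsScalarTower P E (Tw s M) := ⟨fun p e m => by
    change s (p • e) • (show M from m) = p • (s e • (show M from m))
    rw [Algebra.smul_def, map_mul, hs, mul_smul, algebraMap_smul]⟩
  LinearMap.liftBaseChange E ({ toFun := fun m => Tw.of s M m
                                map_add' := fun _ _ => rfl
                                map_smul' := fun _ _ => rfl } : M →ₗ[P] Tw s M)

lemma mu_tmul (s : E →+* E) (hs : ∀ p : P, s (algebraMap P E p) = algebraMap P E p) (e : E)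
    (m : M) : mu P M s hs (e ⊗ₜ[P] m) = Tw.of s M (s e • m) := rfl

lemma mu_surj (s : E →+* E) (hs : ∀ p : P, s (algebraMap P E p) = algebraMap P E p) :
    Surjective (mu P M s hs) := by
  intro m
  refine ⟨1 ⊗ₜ (Tw.of s M).symm m, ?_⟩
  rw [mu_tmul, map_one, one_smul, AddEquiv.apply_symm_apply]

include hb in
/-- exactness 2 -/
lemma ex_two (s : E →+* E) (hs : ∀ p : P, s (algebraMap P E p) = algebraMap P E p) :
    LinearMap.ker (mu P M s hs) = LinearMap.range (act M (Y ⊗ₜ[P] 1 - 1 ⊗ₜ[P] (s Y))) := by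
  apply le_antisymm
  · intro w hw
    have h1 : ∀ (i : ℕ) (m : M), (Y ^ i) ⊗ₜ[P] m - (1 : E) ⊗ₜ[P] ((s Y) ^ i • m) ∈
        LinearMap.range (act M (Y ⊗ₜ[P] 1 - 1 ⊗ₜ[P] (s Y))) := by
      intro i m
      obtain ⟨c, hc⟩ := sub_dvd_pow_sub_pow (Y ⊗ₜ[P] (1 : E)) ((1 : E) ⊗ₜ[P] (s Y)) i
      refine ⟨act M c ((1 : E) ⊗ₜ[P] m), ?_⟩
      have h2 : act M ((Y ⊗ₜ[P] 1 - 1 ⊗ₜ[P] (s Y)) * c) ((1 : E) ⊗ₜ[P] m) =
          act M (Y ⊗ₜ[P] 1 - 1 ⊗ₜ[P] (s Y)) (act M c ((1 : E) ⊗ₜ[P] m)) := by
        rw [map_mul]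
        rfl
      rw [← h2, ← hc, Algebra.TensorProduct.tmul_pow, Algebra.TensorProduct.tmul_pow, one_pow,
        map_sub, LinearMap.sub_apply, act_tmul, act_tmul, mul_one, mul_one, one_smul]
    have h2 : w - (1 : E) ⊗ₜ[P] (∑ i : Fin (n + 1), (s Y) ^ (i : ℕ) • co b i w) ∈
        LinearMap.range (act M (Y ⊗ₜ[P] 1 - 1 ⊗ₜ[P] (s Y))) := by
      have h3 : w - (1 : E) ⊗ₜ[P] (∑ i : Fin (n + 1), (s Y) ^ (i : ℕ) • co b i w) =
          ∑ i : Fin (n + 1), ((Y ^ (i : ℕ)) ⊗ₜ[P] (co b i w) -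
            (1 : E) ⊗ₜ[P] ((s Y) ^ (i : ℕ) • co b i w)) := by
        rw [Finset.sum_sub_distrib, TensorProduct.tmul_sum]
        congr 1
        conv_lhs => rw [expand b w]
        refine Finset.sum_congr rfl fun i _ => ?_
        rw [hb]
      rw [h3]
      exact Submodule.sum_mem _ fun i _ => h1 _ _
    have h3 : (∑ i : Fin (n + 1), (s Y) ^ (i : ℕ) • co b i w) = 0 := by
      have h4 : mu P M s hs w = Tw.of s M (∑ i : Fin (n + 1), (s Y) ^ (i : ℕ) • co b i w) := by
        conv_lhs => rw [expand b w]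
        rw [map_sum, map_sum]
        refine Finset.sum_congr rfl fun i _ => ?_
        rw [mu_tmul, hb, map_pow]
      rw [LinearMap.mem_ker, h4] at hw
      exact (Tw.of s M).injective (by rw [hw, map_zero])
    rw [h3, TensorProduct.tmul_zero, sub_zero] at h2
    exact h2
  · rintro _ ⟨w, rfl⟩
    rw [LinearMap.mem_ker]
    induction w using TensorProduct.induction_on with
    | zero => simp
    | tmul e m =>
      rw [map_sub, LinearMap.sub_apply, act_tmul, act_tmul, map_sub, mu_tmul, mu_tmul, one_smul,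
        one_mul, map_mul, mul_comm (s Y), mul_smul, sub_self]
    | add x y hx hy => rw [map_add, map_add, hx, hy, add_zero]

end ops

section poly

variable {k : Type u} [Field k]

/-- the linear factors -/
noncomputable def lf (ζ : k) (j : ℕ) : MvPolynomial (Fin 2) k :=
  MvPolynomial.X 0 - MvPolynomial.C (ζ ^ j) * MvPolynomial.X 1

lemma lf_ne_zero (ζ : k) (j : ℕ) : lf ζ j ≠ 0 := by
  intro h
  have h1 := congrArg (MvPolynomial.eval ![(1 : k), 0]) h
  simp [lf] at h1

/-- the multiset of linear factors -/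
noncomputable def lfs (ζ : k) (a q : ℕ) : Multiset (MvPolynomial (Fin 2) k) :=
  (Multiset.range a).bind fun j => Multiset.replicate q (lf ζ j)

lemma lfs_prod {ζ : k} {a : ℕ} (ha : 0 < a) (hζ : IsPrimitiveRoot ζ a) {p e : ℕ} [ExpChar k p] :
    (lfs ζ a (p ^ e)).prod = MvPolynomial.X 0 ^ (a * p ^ e) - MvPolynomial.X 1 ^ (a * p ^ e) := by
  have h1 : (lfs ζ a (p ^ e)).prod = (∏ j ∈ Finset.range a, lf ζ j) ^ (p ^ e) := by
    rw [lfs, Multiset.prod_bind]
    simp only [Multiset.prod_replicate]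
    rw [← Finset.prod_pow]
    rfl
  have hp : ExpChar (MvPolynomial (Fin 2) k) p :=
    expChar_of_injective_ringHom (MvPolynomial.C_injective (Fin 2) k) p
  have h2 : IsPrimitiveRoot (MvPolynomial.C ζ : MvPolynomial (Fin 2) k) a :=
    hζ.map_of_injective (MvPolynomial.C_injective (Fin 2) k)
  have h3 := pow_sub_pow_eq_prod_pow ha h2 (MvPolynomial.X 0) (MvPolynomial.X 1)
  have h4 : ∏ j ∈ Finset.range a, lf ζ j = MvPolynomial.X 0 ^ a - MvPolynomial.X 1 ^ a := by
    rw [← h3]
    refine Finset.prod_congr rfl fun j _ => ?_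
    rw [lf, map_pow]
  rw [h1, h4, sub_pow_expChar_pow, ← pow_mul, ← pow_mul]

lemma mem_lfs {ζ : k} {a q : ℕ} {r : MvPolynomial (Fin 2) k} (h : r ∈ lfs ζ a q) :
    ∃ j < a, r = lf ζ j := by
  rw [lfs, Multiset.mem_bind] at h
  obtain ⟨j, hj, h⟩ := h
  exact ⟨j, Multiset.mem_range.1 hj, Multiset.eq_of_mem_replicate h⟩

lemma lf_cofactor {ζ : k} {a q n : ℕ} (hζ : IsPrimitiveRoot ζ a) (hn : n + 1 = a * q) (j : ℕ) :
    lf ζ j * (∑ i ∈ Finset.range (n + 1), MvPolynomial.X 0 ^ i *
      (MvPolynomial.C (ζ ^ j) * MvPolynomial.X 1) ^ (n - i)) =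
      MvPolynomial.X 0 ^ (n + 1) - MvPolynomial.X 1 ^ (n + 1) := by
  have h1 := (Commute.all (MvPolynomial.X 0 : MvPolynomial (Fin 2) k)
    (MvPolynomial.C (ζ ^ j) * MvPolynomial.X 1)).geom_sum₂_mul (n + 1)
  have h2 : (MvPolynomial.C (ζ ^ j) * MvPolynomial.X 1 : MvPolynomial (Fin 2) k) ^ (n + 1) =
      MvPolynomial.X 1 ^ (n + 1) := by
    rw [mul_pow, ← map_pow, ← pow_mul, hn, mul_comm j, mul_assoc, pow_mul, hζ.pow_eq_one, one_pow,
      map_one, one_mul]
  rw [h2] at h1
  rw [← h1, lf, mul_comm]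
  rfl

end poly

section sum

variable {k P E : Type u} [Field k] [CommRing P] [CommRing E] [Algebra k P] [Algebra k E]
  [Algebra P E] [IsScalarTower k P E]

variable (k P E) in
/-- evaluation of polynomials in two variables at `Y ⊗ 1`, `1 ⊗ Y` -/
noncomputable def psi (Y : E) : MvPolynomial (Fin 2) k →+* E ⊗[P] E :=
  MvPolynomial.eval₂Hom ((algebraMap P (E ⊗[P] E)).comp (algebraMap k P))
    ![Y ⊗ₜ[P] 1, 1 ⊗ₜ[P] Y]

omit [Algebra k E] [IsScalarTower k P E] in
lemma psi_X0 (Y : E) : psi k P E Y (MvPolynomial.X 0) = Y ⊗ₜ[P] 1 := by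
  rw [psi, MvPolynomial.eval₂Hom_X']
  rfl

lemma psi_CX1 (Y : E) (c : k) : psi k P E Y (MvPolynomial.C c * MvPolynomial.X 1) =
    1 ⊗ₜ[P] (algebraMap k E c * Y) := by
  rw [map_mul, psi, MvPolynomial.eval₂Hom_X', MvPolynomial.eval₂Hom_C, RingHom.comp_apply,
    IsScalarTower.algebraMap_apply k P E, ← Algebra.smul_def, ← Algebra.smul_def,
    TensorProduct.tmul_smul]
  rfl

variable (M : Type u) [AddCommGroup M] [Module E M] [Module P M] [IsScalarTower P E M]
  [IsNoetherianRing E] (θ : AddFn E)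

theorem twist_sum [Module.Finite E M] {n a p e : ℕ} (b : Module.Basis (Fin (n + 1)) P E) {Y : E}
    (hb : ∀ i, b i = Y ^ (i : ℕ)) {g : P} (hg : Y ^ (n + 1) = algebraMap P E g) [ExpChar k p]
    {ζ : k} (hζ : IsPrimitiveRoot ζ a) (hn : n + 1 = a * p ^ e) (s : ℕ → E →+* E)
    (hs : ∀ j (p : P), s j (algebraMap P E p) = algebraMap P E p)
    (hsY : ∀ j, s j Y = algebraMap k E (ζ ^ j) * Y) :
    θ.toFun (E ⊗[P] M) = p ^ e * ∑ j ∈ Finset.range a, θ.toFun (Tw (s j) M) := by
  have ha : 0 < a := by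
    rcases Nat.eq_zero_or_pos a with h | h
    · subst h; omega
    · exact h
  have hY : (Y ⊗ₜ[P] (1 : E)) ^ (n + 1) = ((1 : E) ⊗ₜ[P] Y) ^ (n + 1) := by
    rw [Algebra.TensorProduct.tmul_pow, Algebra.TensorProduct.tmul_pow, hg, one_pow,
      Algebra.algebraMap_eq_smul_one, TensorProduct.smul_tmul]
  let Φ : MvPolynomial (Fin 2) k →+* Module.End E (E ⊗[P] M) :=
    (act M : E ⊗[P] E →ₐ[E] Module.End E (E ⊗[P] M)).toRingHom.comp (psi k P E Y)
  have hΦ : ∀ f, Φ f = act M (psi k P E Y f) := fun f => rfl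
  have hlf : ∀ j, psi k P E Y (lf ζ j) = Y ⊗ₜ[P] 1 - 1 ⊗ₜ[P] (s j Y) := by
    intro j
    rw [lf, map_sub, psi_X0, psi_CX1, hsY]
  have hprod : (lfs ζ a (p ^ e)).prod = MvPolynomial.X 0 ^ (n + 1) - MvPolynomial.X 1 ^ (n + 1) := by
    rw [lfs_prod ha hζ, hn]
  have h0 : Φ (lfs ζ a (p ^ e)).prod = 0 := by
    have h1 : psi k P E Y (MvPolynomial.X 1) = (1 : E) ⊗ₜ[P] Y := by
      rw [psi, MvPolynomial.eval₂Hom_X']
      rfl
    rw [hprod, hΦ, map_sub, map_pow, map_pow, psi_X0, h1, hY, sub_self, map_zero]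
  have hex : ∀ r m, lfs ζ a (p ^ e) = r ::ₘ m →
      LinearMap.ker (Φ r) ≤ LinearMap.range (Φ m.prod) := by
    intro r m hrm
    obtain ⟨j, _, rfl⟩ := mem_lfs (hrm ▸ Multiset.mem_cons_self r m)
    have h1 : lf ζ j * m.prod = MvPolynomial.X 0 ^ (n + 1) - MvPolynomial.X 1 ^ (n + 1) := by
      rw [← hprod, hrm, Multiset.prod_cons]
    rw [← lf_cofactor hζ hn j] at h1
    have h2 := mul_left_cancel₀ (lf_ne_zero ζ j) h1
    rw [h2, hΦ, hΦ, hlf, map_sum]
    have h3 : (∑ i ∈ Finset.range (n + 1), psi k P E Y (MvPolynomial.X 0 ^ i *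
        (MvPolynomial.C (ζ ^ j) * MvPolynomial.X 1) ^ (n - i))) =
        ∑ i ∈ Finset.range (n + 1), (Y ⊗ₜ[P] (1 : E)) ^ i * ((1 : E) ⊗ₜ[P] (s j Y)) ^ (n - i) := by
      refine Finset.sum_congr rfl fun i _ => ?_
      rw [map_mul, map_pow, map_pow, psi_X0, psi_CX1, hsY]
    rw [h3]
    exact ex_one M b hb hg (s j Y)
  have hW : Module.Finite E (E ⊗[P] M) := by
    have hE : Module.Finite P E := Module.Finite.of_basis b
    have hM : Module.Finite P M := Module.Finite.trans E M
    infer_instance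
  have hquot : ∀ j, θ.toFun ((E ⊗[P] M) ⧸ LinearMap.range (Φ (lf ζ j))) =
      θ.toFun (Tw (s j) M) := by
    intro j
    have h1 : LinearMap.range (Φ (lf ζ j)) = LinearMap.ker (mu P M (s j) (hs j)) := by
      rw [ex_two M b hb (s j) (hs j), hΦ, hlf]
    rw [h1]
    exact θ.congr inferInstance
      ((mu P M (s j) (hs j)).quotKerEquivOfSurjective (mu_surj M (s j) (hs j)))
  rw [θ.prod Φ hW h0 hex, lfs, Multiset.map_bind, Multiset.sum_bind]
  simp only [Multiset.map_replicate, Multiset.sum_replicate, hquot]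
  rw [Finset.mul_sum]
  simp only [nsmul_eq_mul]
  push_cast
  rfl

end sum

end Pool.Agent.Helper796_theta
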