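import Mathlib
import Pool.Agent.Helper796_theta.Twist

set_option autoImplicit false

/-!
# Hypersurface rings `K[X] / (c X_j ^ a + G)`, with `G` free of `X_j`
-/

open TensorProduct Function

universe u

namespace Pool.Agent.Helper796_theta

section bp

variable {K : Type u} [Field K] {σ : Type} [DecidableEq σ] (F : MvPolynomial σ K) (j : σ)

/-- polynomials without `X_j` -/
abbrev PJ (K : Type u) [Field K] {σ : Type} (j : σ) : Type u := MvPolynomial {l : σ // l ≠ j} K

/-- the hypersurface ring -/
abbrev EE (F : MvPolynomial σ K) : Type u := MvPolynomial σ K ⧸ Ideal.span {F}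

/-- the structure map -/
noncomputable def pjMap : PJ K j →+* EE F :=
  (Ideal.Quotient.mk (Ideal.span {F})).comp (MvPolynomial.rename Subtype.val).toRingHom

/-- the algebra structure -/
noncomputable abbrev pjAlg : Algebra (PJ K j) (EE F) := (pjMap F j).toAlgebra

variable {F j} {n : ℕ} {c : K} {G : PJ K j}

/-- `-c⁻¹ G` -/
noncomputable def gg (c : K) (G : PJ K j) : PJ K j := -(MvPolynomial.C c⁻¹ * G)

/-- the monic polynomial -/
noncomputable def mon (n : ℕ) (c : K) (G : PJ K j) : Polynomial (PJ K j) :=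
  Polynomial.X ^ (n + 1) - Polynomial.C (gg c G)

lemma mon_monic : (mon n c G).Monic := Polynomial.monic_X_pow_sub_C _ (Nat.succ_ne_zero n)

lemma mon_deg : (mon n c G).natDegree = n + 1 := Polynomial.natDegree_X_pow_sub_C

variable (hc : c ≠ 0)
  (hF : F = MvPolynomial.C c * MvPolynomial.X j ^ (n + 1) + MvPolynomial.rename Subtype.val G)

include hc hF in
lemma X_pow_eq : (Ideal.Quotient.mk (Ideal.span {F}) (MvPolynomial.X j)) ^ (n + 1) =
    pjMap F j (gg c G) := by
  rw [← map_pow]
  change _ = Ideal.Quotient.mk (Ideal.span {F}) (MvPolynomial.rename Subtype.val (gg c G))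
  rw [Ideal.Quotient.mk_eq_mk_iff_sub_mem, Ideal.mem_span_singleton]
  refine ⟨MvPolynomial.C c⁻¹, ?_⟩
  have h1 : (MvPolynomial.C c⁻¹ * MvPolynomial.C c : MvPolynomial σ K) = 1 := by
    rw [← map_mul, inv_mul_cancel₀ hc, map_one]
  rw [gg, map_neg, map_mul, MvPolynomial.rename_C, sub_neg_eq_add, hF]
  calc MvPolynomial.X j ^ (n + 1) + MvPolynomial.C c⁻¹ * MvPolynomial.rename Subtype.val G
      = (MvPolynomial.C c⁻¹ * MvPolynomial.C c) * MvPolynomial.X j ^ (n + 1) +
        MvPolynomial.C c⁻¹ * MvPolynomial.rename Subtype.val G := by rw [h1, one_mul]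
    _ = _ := by ring

/-- the backward map -/
noncomputable def bwd : letI := pjAlg F j; AdjoinRoot (mon n c G) →ₐ[PJ K j] EE F :=
  letI := pjAlg F j
  AdjoinRoot.liftAlgHom (mon n c G) (Algebra.ofId (PJ K j) (EE F))
    (Ideal.Quotient.mk (Ideal.span {F}) (MvPolynomial.X j)) (by
      rw [mon, Polynomial.eval₂_sub, Polynomial.eval₂_pow, Polynomial.eval₂_X, Polynomial.eval₂_C,
        sub_eq_zero]
      exact X_pow_eq hc hF)

/-- the forward map -/
noncomputable def fwd : EE F →+* AdjoinRoot (mon n c G) :=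
  Ideal.Quotient.lift (Ideal.span {F})
    (MvPolynomial.eval₂Hom ((AdjoinRoot.of (mon n c G)).comp MvPolynomial.C)
      (fun l => if h : l = j then AdjoinRoot.root (mon n c G) else
        AdjoinRoot.of (mon n c G) (MvPolynomial.X ⟨l, h⟩))) (by
    set φ := MvPolynomial.eval₂Hom ((AdjoinRoot.of (mon n c G)).comp MvPolynomial.C)
      (fun l => if h : l = j then AdjoinRoot.root (mon n c G) else
        AdjoinRoot.of (mon n c G) (MvPolynomial.X ⟨l, h⟩)) with hφ
    have h1 : ∀ H : PJ K j, φ (MvPolynomial.rename Subtype.val H) = AdjoinRoot.of (mon n c G) H := by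
      intro H
      have h2 : φ.comp (MvPolynomial.rename Subtype.val).toRingHom =
          AdjoinRoot.of (mon n c G) := by
        apply MvPolynomial.ringHom_ext
        · intro a
          change φ (MvPolynomial.rename Subtype.val (MvPolynomial.C a)) = _
          rw [MvPolynomial.rename_C, hφ, MvPolynomial.eval₂Hom_C]
          rfl
        · intro l
          change φ (MvPolynomial.rename Subtype.val (MvPolynomial.X l)) = _
          rw [MvPolynomial.rename_X, hφ, MvPolynomial.eval₂Hom_X', dif_neg l.2]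
      exact RingHom.congr_fun h2 H
    have h2 : φ F = 0 := by
      have h3 : AdjoinRoot.root (mon n c G) ^ (n + 1) =
          AdjoinRoot.of (mon n c G) (gg c G) := by
        have h4 := AdjoinRoot.eval₂_root (mon n c G)
        rw [mon, Polynomial.eval₂_sub, Polynomial.eval₂_pow, Polynomial.eval₂_X,
          Polynomial.eval₂_C, sub_eq_zero] at h4
        exact h4
      have h5 : φ (MvPolynomial.C c) = AdjoinRoot.of (mon n c G) (MvPolynomial.C c) := by
        rw [hφ, MvPolynomial.eval₂Hom_C]
        rfl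
      have h6 : φ (MvPolynomial.X j) = AdjoinRoot.root (mon n c G) := by
        rw [hφ, MvPolynomial.eval₂Hom_X', dif_pos rfl]
      conv_lhs => rw [hF]
      rw [map_add, map_mul, map_pow, h1, h5, h6, h3, ← map_mul, ← map_add]
      have h7 : (MvPolynomial.C c * gg c G + G : PJ K j) = 0 := by
        rw [gg, mul_neg, ← mul_assoc, ← map_mul, mul_inv_cancel₀ hc, map_one, one_mul,
          neg_add_cancel]
      rw [h7, map_zero]
    have h3 : Ideal.span {F} ≤ RingHom.ker φ := by
      rw [Ideal.span_singleton_le_iff_mem]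
      exact h2
    intro a ha
    exact h3 ha)

lemma fwd_mk (p : MvPolynomial σ K) : fwd hc hF (Ideal.Quotient.mk (Ideal.span {F}) p) =
    MvPolynomial.eval₂Hom ((AdjoinRoot.of (mon n c G)).comp MvPolynomial.C)
      (fun l => if h : l = j then AdjoinRoot.root (mon n c G) else
        AdjoinRoot.of (mon n c G) (MvPolynomial.X ⟨l, h⟩)) p := rfl

lemma bwd_of (H : PJ K j) : bwd hc hF (AdjoinRoot.of (mon n c G) H) = pjMap F j H := by
  letI := pjAlg F j
  exact AdjoinRoot.liftAlgHom_of _ _ _ _ _

lemma bwd_root : bwd hc hF (AdjoinRoot.root (mon n c G)) =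
    Ideal.Quotient.mk (Ideal.span {F}) (MvPolynomial.X j) := by
  letI := pjAlg F j
  exact AdjoinRoot.liftAlgHom_root _ _ _ _

lemma bwd_fwd (z : EE F) : bwd hc hF (fwd hc hF z) = z := by
  letI := pjAlg F j
  obtain ⟨p, rfl⟩ := Ideal.Quotient.mk_surjective z
  have h1 : ((bwd hc hF : AdjoinRoot (mon n c G) →+* EE F).comp (fwd hc hF)).comp
      (Ideal.Quotient.mk (Ideal.span {F})) = Ideal.Quotient.mk (Ideal.span {F}) := by
    apply MvPolynomial.ringHom_ext
    · intro a
      change bwd hc hF (fwd hc hF (Ideal.Quotient.mk _ (MvPolynomial.C a))) = _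
      rw [fwd_mk, MvPolynomial.eval₂Hom_C]
      change bwd hc hF (AdjoinRoot.of _ (MvPolynomial.C a)) = _
      rw [bwd_of]
      change Ideal.Quotient.mk (Ideal.span {F}) (MvPolynomial.rename Subtype.val _) = _
      rw [MvPolynomial.rename_C]
    · intro l
      change bwd hc hF (fwd hc hF (Ideal.Quotient.mk _ (MvPolynomial.X l))) = _
      rw [fwd_mk, MvPolynomial.eval₂Hom_X']
      by_cases h : l = j
      · rw [dif_pos h, bwd_root, h]
      · rw [dif_neg h, bwd_of]
        change Ideal.Quotient.mk (Ideal.span {F}) (MvPolynomial.rename Subtype.val _) = _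
        rw [MvPolynomial.rename_X]
  exact RingHom.congr_fun h1 p

lemma fwd_bwd (z : AdjoinRoot (mon n c G)) : fwd hc hF (bwd hc hF z) = z := by
  letI := pjAlg F j
  obtain ⟨p, rfl⟩ := AdjoinRoot.mk_surjective z
  have h1 : ((fwd hc hF).comp (bwd hc hF : AdjoinRoot (mon n c G) →+* EE F)).comp
      (AdjoinRoot.mk (mon n c G)) = AdjoinRoot.mk (mon n c G) := by
    apply Polynomial.ringHom_ext
    · intro H
      change fwd hc hF (bwd hc hF (AdjoinRoot.of _ H)) = AdjoinRoot.of _ H
      rw [bwd_of]
      change fwd hc hF (Ideal.Quotient.mk (Ideal.span {F}) (MvPolynomial.rename Subtype.val H)) = _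
      rw [fwd_mk]
      have h2 : (MvPolynomial.eval₂Hom ((AdjoinRoot.of (mon n c G)).comp MvPolynomial.C)
          (fun l => if h : l = j then AdjoinRoot.root (mon n c G) else
          AdjoinRoot.of (mon n c G) (MvPolynomial.X ⟨l, h⟩))).comp
          (MvPolynomial.rename Subtype.val).toRingHom = AdjoinRoot.of (mon n c G) := by
        apply MvPolynomial.ringHom_ext
        · intro a
          change MvPolynomial.eval₂Hom _ _ (MvPolynomial.rename Subtype.val (MvPolynomial.C a)) = _
          rw [MvPolynomial.rename_C, MvPolynomial.eval₂Hom_C]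
          rfl
        · intro l
          change MvPolynomial.eval₂Hom _ _ (MvPolynomial.rename Subtype.val (MvPolynomial.X l)) = _
          rw [MvPolynomial.rename_X, MvPolynomial.eval₂Hom_X', dif_neg l.2]
      exact RingHom.congr_fun h2 H
    · change fwd hc hF (bwd hc hF (AdjoinRoot.root _)) = AdjoinRoot.root _
      rw [bwd_root, fwd_mk, MvPolynomial.eval₂Hom_X', dif_pos rfl]
  exact RingHom.congr_fun h1 p

include hc hF in
/-- the basis of powers of `X_j` -/
theorem exists_basis : letI := pjAlg F j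
    ∃ b : Module.Basis (Fin (n + 1)) (PJ K j) (EE F),
      ∀ i, b i = (Ideal.Quotient.mk (Ideal.span {F}) (MvPolynomial.X j)) ^ (i : ℕ) := by
  letI := pjAlg F j
  let e : AdjoinRoot (mon n c G) ≃ₗ[PJ K j] EE F :=
    LinearEquiv.ofBijective (bwd hc hF).toLinearMap
      ⟨(LeftInverse.injective (g := fwd hc hF) (fwd_bwd hc hF)),
        (RightInverse.surjective (g := fwd hc hF) (bwd_fwd hc hF))⟩
  let pb := AdjoinRoot.powerBasis' (mon_monic (n := n) (c := c) (G := G))
  have hdim : pb.dim = n + 1 := mon_deg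
  refine ⟨(pb.basis.reindex (finCongr hdim)).map e, ?_⟩
  intro i
  rw [Module.Basis.map_apply, Module.Basis.reindex_apply, PowerBasis.basis_eq_pow]
  change bwd hc hF (AdjoinRoot.root _ ^ _) = _
  rw [map_pow, bwd_root]
  rfl

end bp

end Pool.Agent.Helper796_theta
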