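import Mathlib
import Pool.Agent.Helper796_theta.Bp

set_option autoImplicit false

/-!
# Scaling automorphisms
-/

open TensorProduct Function

universe u

namespace Pool.Agent.Helper796_theta

section tw

variable {E : Type u} [CommRing E] (M : Type u) [AddCommGroup M] [Module E M]

/-- twisting twice -/
def twTw (s t r : E →+* E) (h : ∀ e, t (s e) = r e) : Tw s (Tw t M) ≃ₗ[E] Tw r M :=
  { (AddEquiv.refl M : Tw s (Tw t M) ≃+ Tw r M) with
    map_smul' := fun e m => by
      change t (s e) • (show M from m) = r e • (show M from m)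
      rw [h] }

/-- twisting by the identity -/
def twId (r : E →+* E) (h : ∀ e, r e = e) : Tw r M ≃ₗ[E] M :=
  { (AddEquiv.refl M : Tw r M ≃+ M) with
    map_smul' := fun e m => by
      change r e • (show M from m) = e • (show M from m)
      rw [h] }

variable {M} in
/-- functoriality of twisting -/
def twMap (s : E →+* E) {M' : Type u} [AddCommGroup M'] [Module E M'] (e : M ≃ₗ[E] M') :
    Tw s M ≃ₗ[E] Tw s M' :=
  { (e.toAddEquiv : Tw s M ≃+ Tw s M') with
    map_smul' := fun c m => e.map_smul (s c) m }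

lemma tw_finite (s : E →+* E) (hs : Surjective s) [h : Module.Finite E M] :
    Module.Finite E (Tw s M) := by
  classical
  obtain ⟨S, hS⟩ := h.fg_top
  refine ⟨⟨S.image (Tw.of s M), ?_⟩⟩
  rw [eq_top_iff]
  have key : ∀ y : M, y ∈ Submodule.span E (S : Set M) →
      Tw.of s M y ∈ Submodule.span E ((S.image (Tw.of s M) : Finset (Tw s M)) : Set (Tw s M)) := by
    intro y hy
    induction hy using Submodule.span_induction with
    | mem y hy => exact Submodule.subset_span (Finset.mem_coe.2 (Finset.mem_image_of_mem _ hy))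
    | zero => exact Submodule.zero_mem _
    | add a b _ _ ha hb => exact Submodule.add_mem _ ha hb
    | smul c a _ ha =>
      obtain ⟨c, rfl⟩ := hs c
      exact Submodule.smul_mem _ c ha
  intro x _
  exact key ((Tw.of s M).symm x) (by rw [hS]; trivial)

end tw

section scl

variable {K : Type u} [Field K] {σ : Type} [DecidableEq σ]

/-- scaling of the variables -/
noncomputable def sclP (u : σ → K) : MvPolynomial σ K →+* MvPolynomial σ K :=
  MvPolynomial.eval₂Hom MvPolynomial.C fun l => MvPolynomial.C (u l) * MvPolynomial.X l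

omit [DecidableEq σ] in
lemma sclP_X (u : σ → K) (l : σ) : sclP u (MvPolynomial.X l) =
    MvPolynomial.C (u l) * MvPolynomial.X l := MvPolynomial.eval₂Hom_X' _ _ _

omit [DecidableEq σ] in
lemma sclP_C (u : σ → K) (a : K) : sclP u (MvPolynomial.C a) = MvPolynomial.C a :=
  MvPolynomial.eval₂Hom_C _ _ _

omit [DecidableEq σ] in
lemma sclP_sclP (u v : σ → K) (p : MvPolynomial σ K) : sclP u (sclP v p) = sclP (u * v) p := by
  have : (sclP u).comp (sclP v) = sclP (u * v) := by
    apply MvPolynomial.ringHom_ext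
    · intro a
      rw [RingHom.comp_apply, sclP_C, sclP_C, sclP_C]
    · intro l
      rw [RingHom.comp_apply, sclP_X, map_mul, sclP_C, sclP_X, sclP_X, Pi.mul_apply, map_mul]
      ring
  exact RingHom.congr_fun this p

omit [DecidableEq σ] in
lemma sclP_one (p : MvPolynomial σ K) : sclP 1 p = p := by
  have : sclP (1 : σ → K) = RingHom.id _ := by
    apply MvPolynomial.ringHom_ext
    · intro a
      rw [sclP_C]; rfl
    · intro l
      rw [sclP_X, Pi.one_apply, map_one, one_mul]; rfl
  rw [this]; rfl

omit [DecidableEq σ] in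
lemma sclP_monomial (u : σ → K) (α : σ →₀ ℕ) (c : K) : sclP u (MvPolynomial.monomial α c) =
    MvPolynomial.C (α.prod fun l e => u l ^ e) * MvPolynomial.monomial α c := by
  rw [sclP, MvPolynomial.eval₂Hom_monomial, MvPolynomial.monomial_eq, Finsupp.prod, Finsupp.prod,
    Finsupp.prod, map_prod]
  simp only [mul_pow, map_pow]
  rw [Finset.prod_mul_distrib]
  ring

variable (F : MvPolynomial σ K)

/-- the scaling automorphism of the hypersurface ring -/
noncomputable def sc (u : σ → K) (hu : F ∣ sclP u F) : EE F →+* EE F :=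
  Ideal.quotientMap (Ideal.span {F}) (sclP u) (by
    rw [Ideal.span_singleton_le_iff_mem, Ideal.mem_comap, Ideal.mem_span_singleton]
    exact hu)

variable {F}

omit [DecidableEq σ] in
lemma sc_mk (u : σ → K) (hu : F ∣ sclP u F) (p : MvPolynomial σ K) :
    sc F u hu (Ideal.Quotient.mk _ p) = Ideal.Quotient.mk _ (sclP u p) := rfl

omit [DecidableEq σ] in
lemma scl_mul {u v : σ → K} (hu : F ∣ sclP u F) (hv : F ∣ sclP v F) : F ∣ sclP (u * v) F := by
  rw [← sclP_sclP]
  exact hu.trans (map_dvd (sclP u) hv)

omit [DecidableEq σ] in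
lemma sc_sc (u v : σ → K) (hu : F ∣ sclP u F) (hv : F ∣ sclP v F) (z : EE F) :
    sc F u hu (sc F v hv z) = sc F (u * v) (scl_mul hu hv) z := by
  obtain ⟨p, rfl⟩ := Ideal.Quotient.mk_surjective z
  rw [sc_mk, sc_mk, sc_mk, sclP_sclP]

omit [DecidableEq σ] in
lemma sc_one (h : F ∣ sclP 1 F) (z : EE F) : sc F 1 h z = z := by
  obtain ⟨p, rfl⟩ := Ideal.Quotient.mk_surjective z
  rw [sc_mk, sclP_one]

omit [DecidableEq σ] in
lemma sc_congr {u v : σ → K} (h : u = v) (hu : F ∣ sclP u F) (hv : F ∣ sclP v F) :
    sc F u hu = sc F v hv := by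
  subst h; rfl

/-- scaling of one variable -/
def one1 (j : σ) (z : K) : σ → K := fun l => if l = j then z else 1

lemma sclP_one1_rename (j : σ) (z : K) (G : PJ K j) :
    sclP (one1 j z) (MvPolynomial.rename Subtype.val G) = MvPolynomial.rename Subtype.val G := by
  have : (sclP (one1 j z)).comp (MvPolynomial.rename Subtype.val : PJ K j →ₐ[K] _).toRingHom =
      (MvPolynomial.rename Subtype.val : PJ K j →ₐ[K] _).toRingHom := by
    apply MvPolynomial.ringHom_ext
    · intro a
      change sclP _ (MvPolynomial.rename Subtype.val (MvPolynomial.C a)) =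
        MvPolynomial.rename Subtype.val (MvPolynomial.C a)
      rw [MvPolynomial.rename_C, sclP_C]
    · intro l
      change sclP _ (MvPolynomial.rename Subtype.val (MvPolynomial.X l)) =
        MvPolynomial.rename Subtype.val (MvPolynomial.X l)
      rw [MvPolynomial.rename_X, sclP_X, one1, if_neg l.2, map_one, one_mul]
  exact RingHom.congr_fun this G

lemma sclP_one1 {j : σ} {n : ℕ} {c : K} {G : PJ K j}
    (hF : F = MvPolynomial.C c * MvPolynomial.X j ^ n + MvPolynomial.rename Subtype.val G)
    {z : K} (hz : z ^ n = 1) : sclP (one1 j z) F = F := by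
  conv_lhs => rw [hF]
  rw [map_add, map_mul, map_pow, sclP_C, sclP_X, sclP_one1_rename, one1, if_pos rfl, mul_pow,
    ← map_pow, hz, map_one, one_mul]
  exact hF.symm

omit [DecidableEq σ] in
lemma sclP_weight {w : σ → ℕ} {L : ℕ} (hw : ∀ α, F.coeff α ≠ 0 → Finsupp.weight w α = L)
    (z : K) : sclP (fun l => z ^ w l) F = MvPolynomial.C (z ^ L) * F := by
  conv_lhs => rw [F.as_sum]
  conv_rhs => rw [F.as_sum]
  rw [map_sum, Finset.mul_sum]
  refine Finset.sum_congr rfl fun α hα => ?_
  rw [sclP_monomial]
  congr 2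
  rw [← hw α (MvPolynomial.mem_support_iff.1 hα), Finsupp.weight_apply, Finsupp.sum, Finsupp.prod,
    ← Finset.prod_pow_eq_pow_sum]
  refine Finset.prod_congr rfl fun l _ => ?_
  rw [← pow_mul, smul_eq_mul, mul_comm]

end scl

end Pool.Agent.Helper796_theta
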