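import Mathlib
import Pool.Agent.Helper796_theta.Scl
import Pool.Agent.Helper796_theta.Char

set_option autoImplicit false

/-!
# Vanishing of additive functions for lack of characters
-/

open TensorProduct Function

universe u

namespace Pool.Agent.Helper796_theta

section van

variable {K : Type u} [Field K] {σ : Type} [DecidableEq σ] {F : MvPolynomial σ K}

omit [DecidableEq σ] in
/-- the scalar tower through polynomials without `X_j` -/
lemma pj_tower (j : σ) : letI := pjAlg F j; IsScalarTower K (PJ K j) (EE F) := by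
  letI := pjAlg F j
  refine IsScalarTower.of_algebraMap_eq fun a => ?_
  change Ideal.Quotient.mk (Ideal.span {F}) (MvPolynomial.C a) =
    Ideal.Quotient.mk (Ideal.span {F}) (MvPolynomial.rename Subtype.val (MvPolynomial.C a))
  rw [MvPolynomial.rename_C]

/-- the sum over the twists in one variable vanishes -/
theorem sum_twist [IsNoetherianRing (EE F)] (θ : AddFn (EE F)) {j : σ} {a p e : ℕ} [ExpChar K p]
    {ζ : K} (ha : 0 < a) (hζ : IsPrimitiveRoot ζ a) {c : K} (hc : c ≠ 0) {G : PJ K j}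
    (hF : F = MvPolynomial.C c * MvPolynomial.X j ^ (a * p ^ e) +
      MvPolynomial.rename Subtype.val G)
    (hind : letI := pjAlg F j; ∀ (X : Type u) [AddCommGroup X] [Module (PJ K j) X]
      [Module.Finite (PJ K j) X], θ.toFun (EE F ⊗[PJ K j] X) = 0)
    (hu : ∀ l : ℕ, F ∣ sclP (one1 j (ζ ^ l)) F)
    (M : Type u) [AddCommGroup M] [Module (EE F) M] [Module.Finite (EE F) M] :
    ∑ l ∈ Finset.range a, θ.toFun (Tw (sc F (one1 j (ζ ^ l)) (hu l)) M) = 0 := by
  letI := pjAlg F j
  have hp : 0 < p := expChar_pos K p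
  obtain ⟨n, hn⟩ : ∃ n, a * p ^ e = n + 1 :=
    ⟨a * p ^ e - 1, by have := Nat.mul_pos ha (pow_pos hp e); omega⟩
  have hF' := hF
  rw [hn] at hF'
  obtain ⟨b, hb⟩ := exists_basis hc hF'
  let _ : Module (PJ K j) M := Module.compHom M (algebraMap (PJ K j) (EE F))
  have _ : IsScalarTower (PJ K j) (EE F) M := ⟨fun p c m => by
    rw [Algebra.smul_def, mul_smul]; rfl⟩
  have htow := pj_tower (F := F) (K := K) j
  have hfE : Module.Finite (PJ K j) (EE F) := Module.Finite.of_basis b
  have hfM : Module.Finite (PJ K j) M := Module.Finite.trans (EE F) M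
  have h1 := twist_sum (k := K) M θ b hb (X_pow_eq hc hF') hζ hn.symm
    (fun l => sc F (one1 j (ζ ^ l)) (hu l)) (by
      intro l H
      change sc F _ _ (Ideal.Quotient.mk (Ideal.span {F}) (MvPolynomial.rename Subtype.val H)) = _
      rw [sc_mk, sclP_one1_rename]
      rfl) (by
      intro l
      rw [sc_mk, sclP_X, one1, if_pos rfl, map_mul]
      rfl)
  rw [hind M] at h1
  have h2 : ((p : ℤ) ^ e) ≠ 0 := pow_ne_zero _ (by exact_mod_cast hp.ne')
  exact (mul_eq_zero.1 h1.symm).resolve_left h2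

/-- the scaling attached to an exponent -/
def uu {I : Finset σ} (ζ : σ → K) (γ : {i // i ∈ I} →₀ ℕ) : σ → K :=
  fun l => if h : l ∈ I then ζ l ^ γ ⟨l, h⟩ else 1

lemma uu_zero {I : Finset σ} (ζ : σ → K) : uu ζ (0 : {i // i ∈ I} →₀ ℕ) = 1 := by
  funext l
  rw [uu]
  split_ifs with h
  · rw [Finsupp.zero_apply, pow_zero]; rfl
  · rfl

lemma uu_single {I : Finset σ} (ζ : σ → K) (i : {i // i ∈ I}) (m : ℕ) :
    uu ζ (Finsupp.single i m) = one1 (i : σ) (ζ i ^ m) := by
  funext l
  rw [uu, one1]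
  by_cases h : l = i
  · subst h
    rw [dif_pos i.2, if_pos rfl]
    congr 1
    exact Finsupp.single_eq_same
  · rw [if_neg h]
    split_ifs with h2
    · rw [Finsupp.single_eq_of_ne (fun h3 => h (congrArg Subtype.val h3)), pow_zero]
    · rfl

lemma uu_add {I : Finset σ} (ζ : σ → K) (γ δ : {i // i ∈ I} →₀ ℕ) :
    uu ζ (γ + δ) = uu ζ γ * uu ζ δ := by
  funext l
  rw [Pi.mul_apply, uu, uu, uu]
  split_ifs with h
  · rw [Finsupp.add_apply, pow_add]
  · rw [mul_one]

theorem van [IsNoetherianRing (EE F)] {p : ℕ} [ExpChar K p] [Fintype σ] (w : σ → ℕ) (L : ℕ)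
    (hFw : ∀ α, F.coeff α ≠ 0 → Finsupp.weight w α = L) (I : Finset σ) (a e : σ → ℕ)
    (ha : ∀ i ∈ I, 0 < a i)
    (hI : ∀ i ∈ I, ∃ c : K, c ≠ 0 ∧ ∃ G : PJ K i,
      F = MvPolynomial.C c * MvPolynomial.X i ^ (a i * p ^ e i) +
        MvPolynomial.rename Subtype.val G)
    (g : ℕ) (hg : (g : K) ≠ 0) (hgL : g ∣ L) (hgw : ∀ i, i ∉ I → g ∣ w i)
    (hNC : ∀ b : σ → ℕ, (∀ i ∈ I, 0 < b i ∧ b i < a i) → ¬ g ∣ ∑ i ∈ I, b i * w i)
    (ω : K) (hω : IsPrimitiveRoot ω (g * ∏ i ∈ I, a i)) (θ : AddFn (EE F))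
    (hind : ∀ i ∈ I, letI := pjAlg F i; ∀ (X : Type u) [AddCommGroup X] [Module (PJ K i) X]
      [Module.Finite (PJ K i) X], θ.toFun (EE F ⊗[PJ K i] X) = 0)
    (M : Type u) [AddCommGroup M] [Module (EE F) M] [Module.Finite (EE F) M]
    (hM : ∀ (z : K), z ^ g = 1 → ∀ h, Nonempty (M ≃ₗ[EE F] Tw (sc F (fun l => z ^ w l) h) M)) :
    θ.toFun M = 0 := by
  have hgpos : 0 < g := by
    rcases Nat.eq_zero_or_pos g with h | h
    · subst h; simp at hg
    · exact h
  let B : σ → ℕ := fun i => ∏ l ∈ I.erase i, a l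
  have hB : ∀ i ∈ I, ∏ l ∈ I, a l = a i * B i := fun i hi =>
    (Finset.mul_prod_erase I a hi).symm
  have hApos : 0 < ∏ l ∈ I, a l := Finset.prod_pos ha
  let ζ : σ → K := fun i => ω ^ (g * B i)
  have hζ : ∀ i ∈ I, IsPrimitiveRoot (ζ i) (a i) := by
    intro i hi
    exact hω.pow (Nat.mul_pos hgpos hApos) (by rw [hB i hi]; ring)
  have hζ1 : ∀ i ∈ I, ζ i ^ a i = 1 := fun i hi => (hζ i hi).pow_eq_one
  -- weights of the special variables
  have haw : ∀ i ∈ I, a i * p ^ e i * w i = L := by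
    intro i hi
    obtain ⟨c, hc, G, hFG⟩ := hI i hi
    have hpos : 0 < a i * p ^ e i := Nat.mul_pos (ha i hi) (pow_pos (expChar_pos K p) _)
    have h1 : F.coeff (Finsupp.single i (a i * p ^ e i)) = c := by
      rw [hFG, MvPolynomial.coeff_add, MvPolynomial.coeff_C_mul, MvPolynomial.coeff_X_pow,
        if_pos rfl, mul_one, MvPolynomial.coeff_rename_eq_zero, add_zero]
      intro u hu
      exfalso
      have h2 := DFunLike.congr_fun hu i
      rw [Finsupp.single_eq_same, Finsupp.mapDomain_of_notMem_range] at h2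
      · omega
      · rintro ⟨l, hl⟩
        exact l.2 hl
    have h2 := hFw _ (by rw [h1]; exact hc)
    rw [Finsupp.weight_single, smul_eq_mul] at h2
    exact h2
  have hcop : ∀ i, Nat.Coprime g (p ^ e i) := by
    intro i
    apply Nat.Coprime.pow_right
    rcases expChar_is_prime_or_one K p with hp | hp
    · rw [Nat.coprime_comm, Nat.Prime.coprime_iff_not_dvd hp]
      intro hdvd
      apply hg
      have hchar : CharP K p := by
        have hex : ExpChar K p := inferInstance
        cases hex with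
        | zero => exact absurd hp Nat.not_prime_one
        | prime _ => assumption
      exact (CharP.cast_eq_zero_iff K p g).2 hdvd
    · rw [hp]; exact Nat.coprime_one_right g
  have hm : ∀ i ∈ I, ∃ m, m * g = a i * w i := by
    intro i hi
    have h1 : g ∣ (a i * w i) * p ^ e i := by
      have h2 := haw i hi
      have h3 : a i * w i * p ^ e i = L := by rw [← h2]; ring
      rw [h3]; exact hgL
    obtain ⟨m, hm⟩ := (hcop i).dvd_of_dvd_mul_right h1
    exact ⟨m, by rw [hm]; ring⟩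
  choose! m hm using hm
  let z : K := ω ^ (∏ l ∈ I, a l)
  have hz : z ^ g = 1 := by
    rw [← pow_mul, mul_comm]
    exact hω.pow_eq_one
  have hzw : ∀ i ∈ I, z ^ w i = ζ i ^ m i := by
    intro i hi
    change (ω ^ _) ^ _ = (ω ^ _) ^ _
    rw [← pow_mul, ← pow_mul]
    congr 1
    rw [hB i hi]
    calc a i * B i * w i = (a i * w i) * B i := by ring
      _ = (m i * g) * B i := by rw [hm i hi]
      _ = g * B i * m i := by ring
  -- divisibility
  have hone : ∀ i ∈ I, ∀ k : ℕ, F ∣ sclP (one1 i (ζ i ^ k)) F := by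
    intro i hi k
    obtain ⟨c, hc, G, hFG⟩ := hI i hi
    rw [sclP_one1 hFG]
    rw [← pow_mul, mul_comm k, mul_assoc, pow_mul, hζ1 i hi, one_pow]
  have huu : ∀ γ : {i // i ∈ I} →₀ ℕ, F ∣ sclP (uu ζ γ) F := by
    intro γ
    induction γ using Finsupp.induction_linear with
    | zero => rw [uu_zero, sclP_one]
    | add f g hf hg => rw [uu_add]; exact scl_mul hf hg
    | single i k => rw [uu_single]; exact hone i i.2 k
  have hsurj : ∀ γ : {i // i ∈ I} →₀ ℕ, Surjective (sc F (uu ζ γ) (huu γ)) := by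
    intro γ y
    let γ' : {i // i ∈ I} →₀ ℕ := Finsupp.equivFunOnFinite.symm fun i => (a i - 1) * γ i
    have h1 : uu ζ γ * uu ζ γ' = 1 := by
      rw [← uu_add]
      funext l
      rw [uu]
      split_ifs with h
      · have h2 : (γ + γ') ⟨l, h⟩ = a l * γ ⟨l, h⟩ := by
          rw [Finsupp.add_apply]
          change γ ⟨l, h⟩ + (a l - 1) * γ ⟨l, h⟩ = _
          obtain ⟨t, ht⟩ : ∃ t, a l = t + 1 := ⟨a l - 1, by have := ha l h; omega⟩
          rw [ht, Nat.add_sub_cancel]
          ring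
        rw [h2, pow_mul, hζ1 l h, one_pow]
        rfl
      · rfl
    refine ⟨sc F (uu ζ γ') (huu γ') y, ?_⟩
    rw [sc_sc, sc_congr h1 _ (by rw [sclP_one]), sc_one]
  -- the function on exponents
  let Θ : ({i // i ∈ I} →₀ ℕ) → ℤ := fun γ => θ.toFun (Tw (sc F (uu ζ γ) (huu γ)) M)
  have hfin : ∀ γ, Module.Finite (EE F) (Tw (sc F (uu ζ γ) (huu γ)) M) := fun γ =>
    tw_finite M _ (hsurj γ)
  have h1 : ∀ (i : {i // i ∈ I}) γ, ∑ l ∈ Finset.range (a i), Θ (γ + Finsupp.single i l) = 0 := by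
    intro i γ
    obtain ⟨c, hc, G, hFG⟩ := hI i i.2
    have hf := hfin γ
    have h2 := sum_twist θ (ha i i.2) (hζ i i.2) hc hFG (hind i i.2) (hone i i.2)
      (Tw (sc F (uu ζ γ) (huu γ)) M)
    rw [← h2]
    refine Finset.sum_congr rfl fun l _ => ?_
    symm
    apply θ.congr (tw_finite _ _ ?_)
    · refine twTw M _ _ _ ?_
      intro y
      rw [sc_sc]
      refine RingHom.congr_fun (sc_congr ?_ _ _) y
      rw [uu_add, uu_single]
    · have h3 := hsurj (Finsupp.single i l)
      rw [sc_congr (uu_single ζ i l) _ (hone i i.2 l)] at h3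
      exact h3
  have hzF : F ∣ sclP (fun l => z ^ w l) F := by
    rw [sclP_weight hFw]
    exact Dvd.intro_left _ rfl
  have h2 : ∀ γ, Θ (γ + Finsupp.equivFunOnFinite.symm (fun i : {i // i ∈ I} => m i)) = Θ γ := by
    intro γ
    have h3 : uu ζ (γ + Finsupp.equivFunOnFinite.symm (fun i : {i // i ∈ I} => m i)) =
        (fun l => z ^ w l) * uu ζ γ := by
      funext l
      rw [uu_add, Pi.mul_apply, Pi.mul_apply, mul_comm]
      congr 1
      rw [uu]
      split_ifs with h
      · change ζ l ^ m l = z ^ w l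
        exact (hzw l h).symm
      · obtain ⟨t, ht⟩ := hgw l h
        rw [ht, pow_mul, hz, one_pow]
    obtain ⟨f⟩ := hM z hz hzF
    have e2 : Tw (sc F (uu ζ γ) (huu γ)) (Tw (sc F (fun l => z ^ w l) hzF) M) ≃ₗ[EE F]
        Tw (sc F (uu ζ (γ + Finsupp.equivFunOnFinite.symm
          (fun i : {i // i ∈ I} => m i))) (huu _)) M := by
      refine twTw M _ _ _ ?_
      intro y
      rw [sc_sc]
      exact RingHom.congr_fun (sc_congr h3.symm _ _) y
    exact θ.congr (hfin _) (e2.symm.trans (twMap (sc F (uu ζ γ) (huu γ)) f).symm)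
  have h3 := char_lemma (I := {i // i ∈ I}) (fun i => a i) (fun i => m i) (fun i => w i) g hgpos
    (fun i => ha i i.2) (fun i => hm i i.2) Θ h1 h2 (by
      intro b hb hdvd
      apply hNC (fun l => if h : l ∈ I then b ⟨l, h⟩ else 0) (by
        intro i hi
        rw [dif_pos hi]
        exact hb ⟨i, hi⟩)
      rw [← Finset.sum_coe_sort I]
      convert hdvd using 2 with i
      rw [dif_pos i.2])
  have h4 : Θ 0 = θ.toFun M := by
    apply θ.congr (hfin 0)
    refine twId M _ ?_
    intro y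
    rw [sc_congr (uu_zero ζ) _ (by rw [sclP_one]), sc_one]
  rw [← h4, h3]

end van

end Pool.Agent.Helper796_theta
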