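import Mathlib
import Pool.Agent.Helper796_theta.Van
import Pool.Agent.Helper796_theta.K1

set_option autoImplicit false

/-!
# Finite extension of the base field
-/

open TensorProduct Function

universe u

namespace Pool.Agent.Helper796_theta

section poly

variable {k K : Type u} [Field k] [Field K] [Algebra k K] {σ : Type} {ι : Type} [Fintype ι]
  (β : Module.Basis ι k K)

/-- the map on polynomials -/
noncomputable abbrev mp (k K : Type u) [Field k] [Field K] [Algebra k K] (σ : Type) :
    MvPolynomial σ k →+* MvPolynomial σ K := MvPolynomial.map (algebraMap k K)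

lemma exists_comb (G : MvPolynomial σ K) : ∃ g : ι → MvPolynomial σ k,
    G = ∑ l, MvPolynomial.C (β l) * mp k K σ (g l) := by
  classical
  induction G using MvPolynomial.induction_on with
  | C a =>
    refine ⟨fun l => MvPolynomial.C (β.repr a l), ?_⟩
    have h1 : ∀ l, MvPolynomial.C (β l) * mp k K σ (MvPolynomial.C (β.repr a l)) =
        MvPolynomial.C (β.repr a l • β l) := by
      intro l
      rw [mp, MvPolynomial.map_C, ← map_mul, Algebra.smul_def, mul_comm]
    rw [Finset.sum_congr rfl fun l _ => h1 l, ← map_sum, β.sum_repr]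
  | add p q hp hq =>
    obtain ⟨g, hg⟩ := hp
    obtain ⟨h, hh⟩ := hq
    refine ⟨fun l => g l + h l, ?_⟩
    rw [hg, hh, ← Finset.sum_add_distrib]
    exact Finset.sum_congr rfl fun l _ => by rw [map_add, mul_add]
  | mul_X p j hp =>
    obtain ⟨g, hg⟩ := hp
    refine ⟨fun l => g l * MvPolynomial.X j, ?_⟩
    rw [hg, Finset.sum_mul]
    exact Finset.sum_congr rfl fun l _ => by rw [map_mul, mp, MvPolynomial.map_X, mul_assoc]

lemma comb_zero (g : ι → MvPolynomial σ k)
    (h : ∑ l, MvPolynomial.C (β l) * mp k K σ (g l) = 0) : ∀ l, g l = 0 := by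
  intro l
  ext α
  have h1 := congrArg (MvPolynomial.coeff α) h
  rw [MvPolynomial.coeff_sum, MvPolynomial.coeff_zero] at h1
  have h2 : ∑ l, (g l).coeff α • β l = 0 := by
    rw [← h1]
    refine Finset.sum_congr rfl fun l _ => ?_
    rw [MvPolynomial.coeff_C_mul, mp, MvPolynomial.coeff_map, Algebra.smul_def, mul_comm]
  have h3 := Fintype.linearIndependent_iff.1 β.linearIndependent (fun l => (g l).coeff α) h2 l
  rw [MvPolynomial.coeff_zero]
  exact h3

variable (F₀ : MvPolynomial σ k)

/-- the map of hypersurface rings -/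
noncomputable def cE (k K : Type u) [Field k] [Field K] [Algebra k K] {σ : Type}
    (F₀ : MvPolynomial σ k) : EE F₀ →+* EE (mp k K σ F₀) :=
  Ideal.quotientMap (Ideal.span {mp k K σ F₀}) (mp k K σ) (by
    rw [Ideal.span_singleton_le_iff_mem, Ideal.mem_comap]
    exact Ideal.mem_span_singleton_self _)

variable {F₀}

lemma cE_mk (p : MvPolynomial σ k) : cE k K F₀ (Ideal.Quotient.mk _ p) =
    Ideal.Quotient.mk _ (mp k K σ p) := rfl

include β in
/-- the hypersurface ring over `K` is free over the one over `k` -/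
theorem exists_basis_cE : letI := (cE k K F₀).toAlgebra
    Nonempty (Module.Basis ι (EE F₀) (EE (mp k K σ F₀))) := by
  letI := (cE k K F₀).toAlgebra
  let Φ : (ι → EE F₀) →ₗ[EE F₀] EE (mp k K σ F₀) :=
    { toFun := fun c => ∑ l, cE k K F₀ (c l) *
        Ideal.Quotient.mk (Ideal.span {mp k K σ F₀}) (MvPolynomial.C (β l))
      map_add' := fun c c' => by
        rw [← Finset.sum_add_distrib]
        exact Finset.sum_congr rfl fun l _ => by rw [Pi.add_apply, map_add, add_mul]
      map_smul' := fun a c => by
        rw [RingHom.id_apply, Finset.smul_sum]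
        refine Finset.sum_congr rfl fun l _ => ?_
        rw [Pi.smul_apply, smul_eq_mul, map_mul, Algebra.smul_def, mul_assoc]
        rfl }
  have hΦ : ∀ c, Φ c = ∑ l, cE k K F₀ (c l) *
    Ideal.Quotient.mk (Ideal.span {mp k K σ F₀}) (MvPolynomial.C (β l)) := fun c => rfl
  have hbij : Bijective Φ := by
    constructor
    · rw [injective_iff_map_eq_zero]
      intro c hc
      choose g hg using fun l => Ideal.Quotient.mk_surjective (c l)
      have h1 : Ideal.Quotient.mk (Ideal.span {mp k K σ F₀})
          (∑ l, MvPolynomial.C (β l) * mp k K σ (g l)) = 0 := by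
        rw [← hc, hΦ, map_sum]
        refine Finset.sum_congr rfl fun l _ => ?_
        rw [← hg l, cE_mk, map_mul, mul_comm]
      rw [Ideal.Quotient.eq_zero_iff_mem, Ideal.mem_span_singleton] at h1
      obtain ⟨H, hH⟩ := h1
      obtain ⟨h, hh⟩ := exists_comb β H
      have h2 : ∑ l, MvPolynomial.C (β l) * mp k K σ (g l - F₀ * h l) = 0 := by
        have h3 : ∀ l, MvPolynomial.C (β l) * mp k K σ (g l - F₀ * h l) =
            MvPolynomial.C (β l) * mp k K σ (g l) -
              mp k K σ F₀ * (MvPolynomial.C (β l) * mp k K σ (h l)) := by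
          intro l
          rw [map_sub, map_mul]
          ring
        rw [Finset.sum_congr rfl fun l _ => h3 l, Finset.sum_sub_distrib, ← Finset.mul_sum, ← hh,
          hH, sub_self]
      have h3 := comb_zero β _ h2
      funext l
      rw [← hg l, Pi.zero_apply, Ideal.Quotient.eq_zero_iff_mem, Ideal.mem_span_singleton]
      exact ⟨h l, sub_eq_zero.1 (h3 l)⟩
    · intro z
      obtain ⟨G, rfl⟩ := Ideal.Quotient.mk_surjective z
      obtain ⟨g, hg⟩ := exists_comb β G
      refine ⟨fun l => Ideal.Quotient.mk _ (g l), ?_⟩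
      rw [hΦ]
      conv_rhs => rw [hg]
      rw [map_sum]
      refine Finset.sum_congr rfl fun l _ => ?_
      rw [cE_mk, map_mul, mul_comm]
  exact ⟨Module.Basis.ofEquivFun (LinearEquiv.ofBijective Φ hbij).symm⟩

end poly

section rs

/-- restriction of scalars -/
def Rs (C E U : Type u) [CommRing C] [CommRing E] [Algebra C E] : Type u := U

variable (C E U : Type u) [CommRing C] [CommRing E] [Algebra C E] [AddCommGroup U] [Module E U]

instance : AddCommGroup (Rs C E U) := inferInstanceAs (AddCommGroup U)

instance : Module E (Rs C E U) := inferInstanceAs (Module E U)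

instance : Module C (Rs C E U) := Module.compHom U (algebraMap C E)

instance : IsScalarTower C E (Rs C E U) := ⟨fun c e y => by
  rw [Algebra.smul_def, mul_smul]; rfl⟩

/-- the identity -/
def Rs.of : U ≃ₗ[E] Rs C E U := LinearEquiv.refl E U

instance [Module.Finite E U] : Module.Finite E (Rs C E U) := Module.Finite.equiv (Rs.of C E U)

instance [Module.Finite C E] [Module.Finite E U] : Module.Finite C (Rs C E U) :=
  Module.Finite.trans E _

end rs

section ind

variable {P C P₂ E : Type u} [CommRing P] [CommRing C] [CommRing P₂] [CommRing E] [Algebra P C]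
  [Algebra P P₂] [Algebra C E] [Algebra P₂ E] {n : ℕ} (b : Module.Basis (Fin (n + 1)) P C)
  (b₂ : Module.Basis (Fin (n + 1)) P₂ E) (hb : ∀ i, algebraMap C E (b i) = b₂ i)
  (hsq : ∀ p : P, algebraMap C E (algebraMap P C p) = algebraMap P₂ E (algebraMap P P₂ p))
  (X : Type u) [AddCommGroup X] [Module P₂ X] [Module P X] [IsScalarTower P P₂ X]

/-- the module -/
@[reducible] def RsP (P C E U : Type u) [CommRing P] [CommRing C] [CommRing E] [Algebra C E]
    [Algebra P C] [AddCommGroup U] [Module E U] : Module P (Rs C E U) :=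
  Module.compHom (Rs C E U) (algebraMap P C)

include b b₂ hb hsq in
theorem ind_equiv : Nonempty ((C ⊗[P] X) ≃ₗ[C] Rs C E (E ⊗[P₂] X)) := by
  let _ : Module P (Rs C E (E ⊗[P₂] X)) := RsP P C E (E ⊗[P₂] X)
  have _ : IsScalarTower P C (Rs C E (E ⊗[P₂] X)) := ⟨fun p c y => by
    rw [Algebra.smul_def, mul_smul]; rfl⟩
  have hsm : ∀ (c : C) (y : E ⊗[P₂] X), c • Rs.of C E _ y =
    Rs.of C E _ (algebraMap C E c • y) := fun c y => rfl
  have hsp : ∀ (p : P) (y : E ⊗[P₂] X), p • Rs.of C E _ y =
    Rs.of C E _ (algebraMap C E (algebraMap P C p) • y) := fun p y => rfl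
  let g : X →ₗ[P] Rs C E (E ⊗[P₂] X) :=
    { toFun := fun x => Rs.of C E _ (1 ⊗ₜ x)
      map_add' := fun x y => by rw [TensorProduct.tmul_add, map_add]
      map_smul' := fun p x => by
        rw [RingHom.id_apply, hsp, hsq, ← algebraMap_smul P₂ p x, TensorProduct.tmul_smul,
          algebraMap_smul E (algebraMap P P₂ p)] }
  let φ : C ⊗[P] X →ₗ[C] Rs C E (E ⊗[P₂] X) := g.liftBaseChange C
  have hφ : ∀ c x, φ (c ⊗ₜ x) = Rs.of C E _ ((algebraMap C E c) ⊗ₜ x) := by
    intro c x
    have h1 : φ (c ⊗ₜ x) = c • g x := rfl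
    rw [h1]
    change c • Rs.of C E _ ((1 : E) ⊗ₜ[P₂] x) = _
    rw [hsm, TensorProduct.smul_tmul', smul_eq_mul, mul_one]
  have hco : ∀ (i : Fin (n + 1)) (c : C), b₂.coord i (algebraMap C E c) =
      algebraMap P P₂ (b.coord i c) := by
    intro i c
    have h1 : algebraMap C E c = ∑ l, algebraMap P P₂ (b.repr c l) • b₂ l := by
      conv_lhs => rw [← b.sum_repr c, map_sum]
      refine Finset.sum_congr rfl fun l _ => ?_
      rw [Algebra.smul_def, map_mul, hsq, hb, ← Algebra.smul_def]
    rw [h1, map_sum, Finset.sum_eq_single i]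
    · rw [map_smul, Module.Basis.coord_apply, b₂.repr_self, Finsupp.single_eq_same, smul_eq_mul,
        mul_one]
      rfl
    · intro l _ hl
      rw [map_smul, Module.Basis.coord_apply, b₂.repr_self, Finsupp.single_eq_of_ne hl.symm,
        smul_zero]
    · intro h
      exact absurd (Finset.mem_univ i) h
  have hcoφ : ∀ (i : Fin (n + 1)) (z : C ⊗[P] X),
      co b₂ i ((Rs.of C E _).symm (φ z)) = co b i z := by
    intro i z
    induction z using TensorProduct.induction_on with
    | zero => simp
    | tmul c x => rw [hφ, LinearEquiv.symm_apply_apply, co_tmul, co_tmul, hco, algebraMap_smul]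
    | add x y hx hy => rw [map_add, map_add, map_add, map_add, hx, hy]
  refine ⟨LinearEquiv.ofBijective φ ⟨?_, ?_⟩⟩
  · rw [injective_iff_map_eq_zero]
    intro z hz
    rw [expand b z]
    apply Finset.sum_eq_zero
    intro i _
    rw [← hcoφ, hz, map_zero, map_zero, TensorProduct.tmul_zero]
  · intro y
    obtain ⟨y, rfl⟩ := (Rs.of C E (E ⊗[P₂] X)).surjective y
    refine ⟨∑ i, b i ⊗ₜ[P] co b₂ i y, ?_⟩
    rw [map_sum]
    conv_rhs => rw [expand b₂ y, map_sum]
    exact Finset.sum_congr rfl fun i _ => by rw [hφ, hb]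

end ind

namespace AddFn

variable {C E : Type u} [CommRing C] [CommRing E] [Algebra C E]

/-- restriction of scalars -/
noncomputable def res (θ : AddFn C) [Module.Finite C E] : AddFn E where
  toFun U _ _ := θ.toFun (Rs C E U)
  add := by
    intro M' M M'' _ _ _ _ _ _ h' h h'' f g hf hg hfg
    let f' : Rs C E M' →ₗ[E] Rs C E M := f
    let g' : Rs C E M →ₗ[E] Rs C E M'' := g
    exact θ.add (M' := Rs C E M') (M := Rs C E M) (M'' := Rs C E M'') inferInstance inferInstance
      inferInstance (f'.restrictScalars C) (g'.restrictScalars C) hf hg hfg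

lemma res_toFun (θ : AddFn C) [Module.Finite C E] (U : Type u) [AddCommGroup U] [Module E U] :
    (θ.res (E := E)).toFun U = θ.toFun (Rs C E U) := rfl

lemma pow_fn (θ : AddFn C) (M : Type u) [AddCommGroup M] [Module C M]
    [Module.Finite C M] (n : ℕ) : θ.toFun (Fin n → M) = n * θ.toFun M := by
  induction n with
  | zero =>
    rw [θ.zero]
    simp
  | succ n ih =>
    let f : M →ₗ[C] (Fin (n + 1) → M) := LinearMap.single C (fun _ => M) 0
    let g : (Fin (n + 1) → M) →ₗ[C] (Fin n → M) := LinearMap.funLeft C M Fin.succ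
    have h1 := θ.add (M' := M) (M := Fin (n + 1) → M) (M'' := Fin n → M) inferInstance
      inferInstance inferInstance f g (Pi.single_injective (M := fun _ : Fin (n + 1) => M) 0) (by
        intro y
        exact ⟨Fin.cons 0 y, by funext i; rfl⟩) (by
        intro y
        constructor
        · intro hy
          refine ⟨y 0, ?_⟩
          funext i
          refine Fin.cases ?_ (fun i => ?_) i
          · simp [f]
          · have := congrFun hy i
            simp only [g, LinearMap.funLeft_apply, Pi.zero_apply] at this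
            simp [f, this]
        · rintro ⟨x, rfl⟩
          funext i
          simp [f, g, LinearMap.funLeft_apply])
    rw [h1, ih]
    push_cast
    ring

lemma res_baseChange (θ : AddFn C) [Module.Finite C E] {n : ℕ}
    (B : Module.Basis (Fin n) C E) (M : Type u) [AddCommGroup M] [Module C M]
    [Module.Finite C M] : (θ.res (E := E)).toFun (E ⊗[C] M) = n * θ.toFun M := by
  rw [← pow_fn, res_toFun]
  let e0 : (E ⊗[C] M) ≃ₗ[C] (Fin n → M) :=
    (TensorProduct.equivFinsuppOfBasisLeft B).trans (Finsupp.linearEquivFunOnFinite C M (Fin n))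
  let e1 : Rs C E (E ⊗[C] M) ≃ₗ[C] (Fin n → M) :=
    { e0.toAddEquiv with
      map_smul' := fun c y => by
        have h1 := e0.map_smul c y
        rw [← algebraMap_smul E c (show E ⊗[C] M from y)] at h1
        exact h1 }
  exact θ.congr inferInstance e1

end AddFn

end Pool.Agent.Helper796_theta
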