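import Mathlib
import Pool.Agent.Helper796_theta.Gl

set_option autoImplicit false

/-!
# The one parameter family degenerating `R / f` to the cone of the weighted leading form
-/

open Function

universe u v

namespace Pool.Agent.Helper796_theta.Fam

section defs

variable {R : Type u} [CommRing R] {n : ℕ} (x : Fin n → R) (w : Fin n → ℕ) (L : ℕ)
  (Fh : MvPolynomial (Fin n) R)

/-- `R[t][y_0, …, y_(n-1)]` -/
abbrev PP (R : Type u) [CommRing R] (n : ℕ) : Type u := MvPolynomial (Fin n) (Polynomial R)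

/-- `x_i - t^(w_i) y_i` -/
noncomputable def bb (i : Fin n) : PP R n :=
  MvPolynomial.C (Polynomial.C (x i)) - MvPolynomial.C (Polynomial.X ^ w i) * MvPolynomial.X i

/-- the homogenization of `Fh` -/
noncomputable def ft : PP R n :=
  ∑ α ∈ Fh.support, MvPolynomial.monomial α
    (Polynomial.C (Fh.coeff α) * Polynomial.X ^ (Finsupp.weight w α - L))

/-- the ideal of relations -/
noncomputable def JJ : Ideal (PP R n) := Ideal.span (Set.range (bb x w)) ⊔ Ideal.span {ft w L Fh}

/-- the family -/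
def AA : Type u := PP R n ⧸ JJ x w L Fh

noncomputable instance : CommRing (AA x w L Fh) := inferInstanceAs (CommRing (PP R n ⧸ JJ x w L Fh))

instance [IsNoetherianRing R] : IsNoetherianRing (AA x w L Fh) :=
  inferInstanceAs (IsNoetherianRing (PP R n ⧸ JJ x w L Fh))

/-- the projection to the family -/
noncomputable def mkA : PP R n →+* AA x w L Fh := Ideal.Quotient.mk (JJ x w L Fh)

lemma mkA_surj : Surjective (mkA x w L Fh) := Ideal.Quotient.mk_surjective

lemma mkA_eq_zero (p : PP R n) : mkA x w L Fh p = 0 ↔ p ∈ JJ x w L Fh :=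
  Ideal.Quotient.eq_zero_iff_mem

variable {x w L Fh}

/-- the evaluation -/
noncomputable def Phi {S : Type v} [CommRing S] (φ : R →+* S) (τ : S) (η : Fin n → S) :
    PP R n →+* S := MvPolynomial.eval₂Hom (Polynomial.eval₂RingHom φ τ) η

section Phi

variable {S : Type v} [CommRing S] (φ : R →+* S) (τ : S) (η : Fin n → S)

@[simp] lemma Phi_C (r : R) : Phi φ τ η (MvPolynomial.C (Polynomial.C r)) = φ r := by
  simp [Phi]

@[simp] lemma Phi_t : Phi φ τ η (MvPolynomial.C Polynomial.X) = τ := by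
  simp [Phi]

@[simp] lemma Phi_X (i : Fin n) : Phi φ τ η (MvPolynomial.X i) = η i := by
  simp [Phi]

lemma Phi_bb (i : Fin n) : Phi φ τ η (bb x w i) = φ (x i) - τ ^ w i * η i := by
  simp [bb, map_pow]

lemma Phi_ft : Phi φ τ η (ft w L Fh) =
    ∑ α ∈ Fh.support, φ (Fh.coeff α) * τ ^ (Finsupp.weight w α - L) *
      α.prod fun i a => η i ^ a := by
  rw [ft, map_sum]
  refine Finset.sum_congr rfl fun α _ => ?_
  simp [Phi, MvPolynomial.eval₂Hom_monomial]

lemma weight_prod (hx : ∀ i, τ ^ w i * η i = φ (x i)) (α : Fin n →₀ ℕ) :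
    τ ^ (Finsupp.weight w α) * (α.prod fun i a => η i ^ a) = α.prod fun i a => φ (x i) ^ a := by
  rw [Finsupp.weight_apply, Finsupp.sum, ← Finset.prod_pow_eq_pow_sum, Finsupp.prod, Finsupp.prod,
    ← Finset.prod_mul_distrib]
  refine Finset.prod_congr rfl fun i _ => ?_
  rw [← hx i, mul_pow, ← pow_mul, smul_eq_mul, mul_comm (w i)]

lemma Phi_ft_mul (hx : ∀ i, τ ^ w i * η i = φ (x i))
    (hL : ∀ α ∈ Fh.support, L ≤ Finsupp.weight w α) :
    τ ^ L * Phi φ τ η (ft w L Fh) = φ (MvPolynomial.eval x Fh) := by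
  rw [Phi_ft, MvPolynomial.eval_eq, map_sum, Finset.mul_sum]
  refine Finset.sum_congr rfl fun α hα => ?_
  have h1 : L + (Finsupp.weight w α - L) = Finsupp.weight w α := by
    have := hL α hα
    omega
  have h2 := weight_prod φ τ η hx α
  calc τ ^ L * (φ (Fh.coeff α) * τ ^ (Finsupp.weight w α - L) * α.prod fun i a => η i ^ a)
      = φ (Fh.coeff α) * (τ ^ (L + (Finsupp.weight w α - L)) *
          α.prod fun i a => η i ^ a) := by ring
    _ = φ (Fh.coeff α) * α.prod fun i a => φ (x i) ^ a := by rw [h1, h2]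
    _ = _ := by
      rw [map_mul, map_prod, Finsupp.prod]
      congr 1
      exact Finset.prod_congr rfl fun i _ => (map_pow φ _ _).symm

/-- the induced map on the family -/
noncomputable def Psi (h1 : ∀ i, τ ^ w i * η i = φ (x i)) (h2 : Phi φ τ η (ft w L Fh) = 0) :
    AA x w L Fh →+* S :=
  Ideal.Quotient.lift (JJ x w L Fh) (Phi φ τ η) (by
    have : JJ x w L Fh ≤ RingHom.ker (Phi φ τ η) := by
      rw [JJ, sup_le_iff, Ideal.span_le, Ideal.span_le]
      constructor
      · rintro _ ⟨i, rfl⟩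
        rw [SetLike.mem_coe, RingHom.mem_ker, Phi_bb, h1, sub_self]
      · rintro _ rfl
        exact h2
    intro a ha
    exact this ha)

lemma Psi_mk (h1 : ∀ i, τ ^ w i * η i = φ (x i)) (h2 : Phi φ τ η (ft w L Fh) = 0) (z : PP R n) :
    Psi φ τ η h1 h2 (mkA x w L Fh z) = Phi φ τ η z := rfl

end Phi

/-- uniqueness of maps out of the family -/
lemma hom_ext {S : Type v} [CommRing S] {a b : AA x w L Fh →+* S}
    (h0 : ∀ r, a (mkA x w L Fh (MvPolynomial.C (Polynomial.C r))) =
      b (mkA x w L Fh (MvPolynomial.C (Polynomial.C r))))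
    (h1 : a (mkA x w L Fh (MvPolynomial.C Polynomial.X)) =
      b (mkA x w L Fh (MvPolynomial.C Polynomial.X)))
    (h2 : ∀ i, a (mkA x w L Fh (MvPolynomial.X i)) =
      b (mkA x w L Fh (MvPolynomial.X i))) : a = b := by
  have h4 : a.comp (mkA x w L Fh) = b.comp (mkA x w L Fh) := by
    apply MvPolynomial.ringHom_ext
    · intro p
      have h3 : (a.comp (mkA x w L Fh)).comp MvPolynomial.C =
          (b.comp (mkA x w L Fh)).comp MvPolynomial.C := by
        apply Polynomial.ringHom_ext
        · exact h0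
        · exact h1
      exact RingHom.congr_fun h3 p
    · exact h2
  ext z
  obtain ⟨p, rfl⟩ := mkA_surj x w L Fh z
  exact RingHom.congr_fun h4 p

variable (x w L Fh)

/-- `t` in the family -/
noncomputable def tA : AA x w L Fh := mkA x w L Fh (MvPolynomial.C Polynomial.X)

/-- `y_i` in the family -/
noncomputable def yA (i : Fin n) : AA x w L Fh := mkA x w L Fh (MvPolynomial.X i)

/-- the structure map of the family -/
noncomputable def rA : R →+* AA x w L Fh :=
  (mkA x w L Fh).comp (MvPolynomial.C.comp Polynomial.C)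

lemma rel_x (i : Fin n) : tA x w L Fh ^ w i * yA x w L Fh i = rA x w L Fh (x i) := by
  symm
  rw [← sub_eq_zero]
  have h1 : bb x w i ∈ JJ x w L Fh :=
    Ideal.mem_sup_left (Ideal.subset_span ⟨i, rfl⟩)
  rw [← mkA_eq_zero] at h1
  rw [← h1, bb, map_sub, map_mul, map_pow, map_pow]
  rfl

lemma mk_eq_Phi (z : PP R n) : mkA x w L Fh z =
    Phi (rA x w L Fh) (tA x w L Fh) (yA x w L Fh) z := by
  have : (mkA x w L Fh) = Phi (rA x w L Fh) (tA x w L Fh) (yA x w L Fh) := by
    apply MvPolynomial.ringHom_ext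
    · intro p
      have h3 : (mkA x w L Fh).comp MvPolynomial.C =
          (Phi (rA x w L Fh) (tA x w L Fh) (yA x w L Fh)).comp MvPolynomial.C := by
        apply Polynomial.ringHom_ext
        · intro r
          rw [RingHom.comp_apply, RingHom.comp_apply, Phi_C]
          rfl
        · rw [RingHom.comp_apply, RingHom.comp_apply, Phi_t]
          rfl
      exact RingHom.congr_fun h3 p
    · intro i
      rw [Phi_X]
      rfl
  rw [this]

lemma Phi_ft_self : Phi (rA x w L Fh) (tA x w L Fh) (yA x w L Fh) (ft w L Fh) = 0 := by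
  rw [← mk_eq_Phi, mkA_eq_zero]
  exact Ideal.mem_sup_right (Ideal.mem_span_singleton_self _)

variable {L Fh} in
lemma rA_f (hL : ∀ α ∈ Fh.support, L ≤ Finsupp.weight w α) :
    rA x w L Fh (MvPolynomial.eval x Fh) = 0 := by
  rw [← Phi_ft_mul (rA x w L Fh) (tA x w L Fh) (yA x w L Fh) (rel_x x w L Fh) hL, Phi_ft_self,
    mul_zero]

end defs

end Pool.Agent.Helper796_theta.Fam
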