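import Mathlib
import Pool.Agent.Helper796_theta.Fam

set_option autoImplicit false

/-!
# The parameter `t` is a nonzerodivisor on the family
-/

open Function

universe u v

namespace Pool.Agent.Helper796_theta.Fam

/-- the abstract step -/
lemma swap_step {S : Type u} [CommRing S] {t b : S} {I : Ideal S}
    (h1 : ∀ z, t * z ∈ I → z ∈ I)
    (h2 : ∀ z, b * z ∈ Ideal.span {t} ⊔ I → z ∈ Ideal.span {t} ⊔ I) :
    ∀ z, t * z ∈ I ⊔ Ideal.span {b} → z ∈ I ⊔ Ideal.span {b} := by
  intro z hz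
  obtain ⟨u, hu, v', hv', huv⟩ := Submodule.mem_sup.1 hz
  obtain ⟨v, rfl⟩ := Ideal.mem_span_singleton'.1 hv'
  have h3 : b * v ∈ Ideal.span {t} ⊔ I := by
    have : b * v = t * z + (-u) := by rw [← huv]; ring
    rw [this]
    exact Ideal.add_mem _ (Ideal.mem_sup_left (Ideal.mul_mem_right _ _
      (Ideal.mem_span_singleton_self t))) (Ideal.mem_sup_right (Ideal.neg_mem_iff _ |>.2 hu))
  obtain ⟨a, ha, c, hc, hac⟩ := Submodule.mem_sup.1 (h2 v h3)
  obtain ⟨a', rfl⟩ := Ideal.mem_span_singleton'.1 ha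
  have h4 : t * (z - b * a') ∈ I := by
    have : t * (z - b * a') = u + b * c := by
      have h5 : t * z = u + v * b := huv.symm
      rw [mul_sub, h5, ← hac]
      ring
    rw [this]
    exact Ideal.add_mem _ hu (Ideal.mul_mem_left _ _ hc)
  have h5 := h1 _ h4
  have h6 : z = (z - b * a') + a' * b := by ring
  rw [h6]
  exact Ideal.add_mem _ (Ideal.mem_sup_left h5)
    (Ideal.mem_sup_right (Ideal.mul_mem_left _ _ (Ideal.mem_span_singleton_self b)))

section

variable {R : Type u} [CommRing R] {n : ℕ} (x : Fin n → R) (w : Fin n → ℕ) (L : ℕ)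
  (Fh : MvPolynomial (Fin n) R)

/-- the ideal of the first `j` elements -/
def IR (j : ℕ) : Ideal R := Ideal.span (x '' {i | (i : ℕ) < j})

/-- the ideal of the first `j` relations -/
noncomputable def IP (j : ℕ) : Ideal (PP R n) := Ideal.span (bb x w '' {i | (i : ℕ) < j})

lemma IP_succ {j : ℕ} (hj : j < n) : IP x w (j + 1) = IP x w j ⊔ Ideal.span {bb x w ⟨j, hj⟩} := by
  rw [IP, IP, ← Ideal.span_union]
  congr 1
  ext z
  constructor
  · rintro ⟨i, hi, rfl⟩
    by_cases h : (i : ℕ) < j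
    · exact Or.inl ⟨i, h, rfl⟩
    · right
      have hi' : (i : ℕ) < j + 1 := hi
      have : i = ⟨j, hj⟩ := Fin.ext (by change (i : ℕ) = j; omega)
      rw [this]
      rfl
  · rintro (⟨i, hi, rfl⟩ | rfl)
    · exact ⟨i, Nat.lt_succ_of_lt hi, rfl⟩
    · exact ⟨⟨j, hj⟩, Nat.lt_succ_self j, rfl⟩

/-- `t ↦ 0` -/
noncomputable def pi0 (R : Type u) [CommRing R] (n : ℕ) : PP R n →+* MvPolynomial (Fin n) R :=
  MvPolynomial.map Polynomial.constantCoeff

/-- the section -/
noncomputable def sec0 (R : Type u) [CommRing R] (n : ℕ) : MvPolynomial (Fin n) R →+* PP R n :=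
  MvPolynomial.map Polynomial.C

/-- the ideal generated by `t` -/
noncomputable def It (R : Type u) [CommRing R] (n : ℕ) : Ideal (PP R n) :=
  Ideal.span {MvPolynomial.C Polynomial.X}

lemma sub_sec_mem (z : PP R n) : z - sec0 R n (pi0 R n z) ∈ It R n := by
  induction z using MvPolynomial.induction_on with
  | C p =>
    rw [pi0, sec0, MvPolynomial.map_C, MvPolynomial.map_C, ← map_sub, It,
      Ideal.mem_span_singleton]
    apply map_dvd
    rw [Polynomial.X_dvd_iff, Polynomial.coeff_sub, Polynomial.constantCoeff_apply,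
      Polynomial.coeff_C_zero, sub_self]
  | add p q hp hq =>
    have : p + q - sec0 R n (pi0 R n (p + q)) =
        (p - sec0 R n (pi0 R n p)) + (q - sec0 R n (pi0 R n q)) := by
      rw [map_add, map_add]; ring
    rw [this]
    exact Ideal.add_mem _ hp hq
  | mul_X p i hp =>
    have : p * MvPolynomial.X i - sec0 R n (pi0 R n (p * MvPolynomial.X i)) =
        (p - sec0 R n (pi0 R n p)) * MvPolynomial.X i := by
      rw [map_mul, map_mul, pi0, sec0, MvPolynomial.map_X, MvPolynomial.map_X]; ring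
    rw [this]
    exact Ideal.mul_mem_right _ _ hp

variable {x w}

lemma pi0_bb (hw : ∀ i, 0 < w i) (i : Fin n) : pi0 R n (bb x w i) = MvPolynomial.C (x i) := by
  rw [bb, map_sub, map_mul, pi0, MvPolynomial.map_C, MvPolynomial.map_C, MvPolynomial.map_X]
  rw [Polynomial.constantCoeff_apply, Polynomial.constantCoeff_apply, Polynomial.coeff_C_zero,
    Polynomial.coeff_X_pow, if_neg (by have := hw i; omega), map_zero, zero_mul, sub_zero]

lemma mem_It_sup (hw : ∀ i, 0 < w i) (j : ℕ) (z : PP R n) :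
    z ∈ It R n ⊔ IP x w j ↔ ∀ α, (pi0 R n z).coeff α ∈ IR x j := by
  rw [← MvPolynomial.mem_map_C_iff]
  constructor
  · intro hz
    have h1 : (It R n ⊔ IP x w j) ≤ Ideal.comap (pi0 R n) (Ideal.map MvPolynomial.C (IR x j)) := by
      rw [sup_le_iff, It, IP, Ideal.span_le, Ideal.span_le]
      constructor
      · rintro _ rfl
        rw [SetLike.mem_coe, Ideal.mem_comap, pi0, MvPolynomial.map_C,
          Polynomial.constantCoeff_apply, Polynomial.coeff_X_zero, map_zero]
        exact Ideal.zero_mem _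
      · rintro _ ⟨i, hi, rfl⟩
        rw [SetLike.mem_coe, Ideal.mem_comap, pi0_bb hw]
        exact Ideal.mem_map_of_mem _ (Ideal.subset_span ⟨i, hi, rfl⟩)
    exact h1 hz
  · intro hz
    have h1 : Ideal.map MvPolynomial.C (IR x j) ≤ Ideal.comap (sec0 R n) (It R n ⊔ IP x w j) := by
      rw [IR, Ideal.map_span, Ideal.span_le]
      rintro _ ⟨_, ⟨i, hi, rfl⟩, rfl⟩
      rw [SetLike.mem_coe, Ideal.mem_comap, sec0, MvPolynomial.map_C]
      have h2 : (MvPolynomial.C (Polynomial.C (x i)) : PP R n) =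
          MvPolynomial.C (Polynomial.X ^ w i) * MvPolynomial.X i + bb x w i := by
        rw [bb]; ring
      rw [h2]
      refine Ideal.add_mem _ (Ideal.mem_sup_left (Ideal.mul_mem_right _ _ ?_))
        (Ideal.mem_sup_right (Ideal.subset_span ⟨i, hi, rfl⟩))
      rw [It, Ideal.mem_span_singleton]
      apply map_dvd
      exact dvd_pow_self _ (by have := hw i; omega)
    have h3 : z = (z - sec0 R n (pi0 R n z)) + sec0 R n (pi0 R n z) := by ring
    rw [h3]
    exact Ideal.add_mem _ (Ideal.mem_sup_left (sub_sec_mem z)) (h1 hz)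

/-- a regular sequence, elementwise -/
def RegSeq (x : Fin n → R) : Prop :=
  ∀ (j : Fin n) (c : R), x j * c ∈ IR x j → c ∈ IR x j

lemma t_reg_IP (hw : ∀ i, 0 < w i) (hx : RegSeq x) (j : ℕ) : j ≤ n → ∀ z : PP R n,
    MvPolynomial.C Polynomial.X * z ∈ IP x w j → z ∈ IP x w j := by
  induction j with
  | zero =>
    intro _ z hz
    have h0 : IP x w 0 = ⊥ := by
      rw [IP]
      have : {i : Fin n | (i : ℕ) < 0} = ∅ := by
        ext i; simp
      rw [this, Set.image_empty, Ideal.span_empty]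
    rw [h0, Ideal.mem_bot] at hz ⊢
    ext1 α
    have h1 := congrArg (MvPolynomial.coeff α) hz
    rw [MvPolynomial.coeff_C_mul, MvPolynomial.coeff_zero] at h1
    rw [MvPolynomial.coeff_zero]
    ext k
    have h2 := congrArg (fun p => Polynomial.coeff p (k + 1)) h1
    simpa using h2
  | succ j ih =>
    intro hj
    rw [IP_succ x w hj]
    apply swap_step (ih (by omega))
    intro z hz
    change z ∈ It R n ⊔ IP x w j
    change bb x w ⟨j, hj⟩ * z ∈ It R n ⊔ IP x w j at hz
    rw [mem_It_sup hw] at hz ⊢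
    intro α
    have h1 := hz α
    rw [map_mul, pi0_bb hw, MvPolynomial.coeff_C_mul] at h1
    exact hx ⟨j, hj⟩ _ h1

lemma JJ_eq : JJ x w L Fh = IP x w n ⊔ Ideal.span {ft w L Fh} := by
  rw [JJ, IP]
  congr 2
  ext z
  constructor
  · rintro ⟨i, rfl⟩
    exact ⟨i, i.2, rfl⟩
  · rintro ⟨i, _, rfl⟩
    exact ⟨i, rfl⟩

lemma pi0_ft : pi0 R n (ft w L Fh) =
    ∑ α ∈ Fh.support, if Finsupp.weight w α ≤ L then MvPolynomial.monomial α (Fh.coeff α) else 0 := by
  rw [ft, map_sum]
  refine Finset.sum_congr rfl fun α _ => ?_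
  rw [pi0, MvPolynomial.map_monomial, map_mul, map_pow, Polynomial.constantCoeff_apply,
    Polynomial.constantCoeff_apply, Polynomial.coeff_C_zero, Polynomial.coeff_X_zero]
  by_cases h : Finsupp.weight w α ≤ L
  · rw [if_pos h, Nat.sub_eq_zero_of_le h, pow_zero, mul_one]
  · rw [if_neg h, zero_pow (by omega), mul_zero, map_zero]

lemma coeff_pi0_ft (hL : ∀ α ∈ Fh.support, L ≤ Finsupp.weight w α) (α : Fin n →₀ ℕ) :
    (pi0 R n (ft w L Fh)).coeff α = if Finsupp.weight w α = L then Fh.coeff α else 0 := by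
  classical
  rw [pi0_ft, MvPolynomial.coeff_sum]
  by_cases hα : α ∈ Fh.support
  · rw [Finset.sum_eq_single α]
    · by_cases h : Finsupp.weight w α = L
      · rw [if_pos h.le, if_pos h, MvPolynomial.coeff_monomial, if_pos rfl]
      · have h1 : ¬ Finsupp.weight w α ≤ L := fun h' => h (le_antisymm h' (hL α hα))
        rw [if_neg h1, if_neg h, MvPolynomial.coeff_zero]
    · intro β _ hβ
      by_cases h : Finsupp.weight w β ≤ L
      · rw [if_pos h, MvPolynomial.coeff_monomial, if_neg hβ]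
      · rw [if_neg h, MvPolynomial.coeff_zero]
    · intro h
      exact absurd hα h
  · have h0 : Fh.coeff α = 0 := MvPolynomial.notMem_support_iff.1 hα
    rw [h0, ite_self]
    apply Finset.sum_eq_zero
    intro β hβ
    have hne : β ≠ α := fun h => hα (h ▸ hβ)
    by_cases h : Finsupp.weight w β ≤ L
    · rw [if_pos h, MvPolynomial.coeff_monomial, if_neg hne]
    · rw [if_neg h, MvPolynomial.coeff_zero]

variable (x w) in
/-- the standing hypotheses -/
structure Hyp : Prop where
  w_pos : ∀ i, 0 < w i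
  L_pos : 0 < L
  le_weight : ∀ α ∈ Fh.support, L ≤ Finsupp.weight w α
  regSeq : RegSeq x
  prime : (IR x n).IsPrime
  lead : ∃ α, Finsupp.weight w α = L ∧ Fh.coeff α ∉ IR x n

variable (h : Hyp x w L Fh)

include h in
lemma t_reg (z : AA x w L Fh) (hz : tA x w L Fh * z = 0) : z = 0 := by
  obtain ⟨z, rfl⟩ := mkA_surj x w L Fh z
  rw [tA, ← map_mul, mkA_eq_zero, JJ_eq] at hz
  rw [mkA_eq_zero, JJ_eq]
  refine swap_step (t_reg_IP h.w_pos h.regSeq n le_rfl) ?_ z hz
  intro v hv
  change v ∈ It R n ⊔ IP x w n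
  change ft w L Fh * v ∈ It R n ⊔ IP x w n at hv
  rw [mem_It_sup h.w_pos] at hv ⊢
  have hp := h.prime
  have key : ∀ p : MvPolynomial (Fin n) R, (∀ α, p.coeff α ∈ IR x n) ↔
      MvPolynomial.map (Ideal.Quotient.mk (IR x n)) p = 0 := by
    intro p
    constructor
    · intro hp
      ext α
      rw [MvPolynomial.coeff_map, MvPolynomial.coeff_zero, Ideal.Quotient.eq_zero_iff_mem]
      exact hp α
    · intro hp α
      rw [← Ideal.Quotient.eq_zero_iff_mem, ← MvPolynomial.coeff_map, hp, MvPolynomial.coeff_zero]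
  rw [key] at hv ⊢
  rw [map_mul, map_mul] at hv
  refine (mul_eq_zero.1 hv).resolve_left ?_
  intro hf
  rw [← key] at hf
  obtain ⟨α, h1, h2⟩ := h.lead
  apply h2
  have h3 := hf α
  rw [coeff_pi0_ft L Fh h.le_weight, if_pos h1] at h3
  exact h3

end

end Pool.Agent.Helper796_theta.Fam
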