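import Mathlib
import Pool.Agent.Helper796_theta.FamReg
import Pool.Agent.Helper796_theta.Euler

set_option autoImplicit false

/-!
# The fibres of the family
-/

open Function

universe u v

namespace Pool.Agent.Helper796_theta.Fam

section

variable {R : Type u} [CommRing R] {n : ℕ} {x : Fin n → R} {w : Fin n → ℕ} {L : ℕ}
  {Fh : MvPolynomial (Fin n) R}

/-- the hypersurface ring -/
abbrev HA (x : Fin n → R) (Fh : MvPolynomial (Fin n) R) : Type u :=
  R ⧸ Ideal.span {MvPolynomial.eval x Fh}

lemma Phi_ft_one (h : Hyp x w L Fh) : Phi (Ideal.Quotient.mk (Ideal.span {MvPolynomial.eval x Fh}))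
    1 (fun i => Ideal.Quotient.mk _ (x i)) (ft w L Fh) = 0 := by
  have h1 := Phi_ft_mul (Ideal.Quotient.mk (Ideal.span {MvPolynomial.eval x Fh})) 1
    (fun i => Ideal.Quotient.mk _ (x i)) (fun i => by rw [one_pow, one_mul]) h.le_weight
  rw [one_pow, one_mul] at h1
  rw [h1, Ideal.Quotient.eq_zero_iff_mem]
  exact Ideal.mem_span_singleton_self _

/-- the fibre at `t = 1` -/
noncomputable def ev1 (h : Hyp x w L Fh) : AA x w L Fh →+* HA x Fh :=
  Psi (Ideal.Quotient.mk _) 1 (fun i => Ideal.Quotient.mk _ (x i))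
    (fun i => by rw [one_pow, one_mul]) (Phi_ft_one h)

/-- evaluation at `t = 1` in `R` -/
noncomputable def evR (x : Fin n → R) : PP R n →+* R := Phi (RingHom.id R) 1 x

lemma ev1_mk (h : Hyp x w L Fh) (p : PP R n) :
    ev1 h (mkA x w L Fh p) = Ideal.Quotient.mk _ (evR x p) := by
  have : (ev1 h).comp (mkA x w L Fh) = (Ideal.Quotient.mk _).comp (evR x) := by
    apply MvPolynomial.ringHom_ext
    · intro p
      have h3 : ((ev1 h).comp (mkA x w L Fh)).comp MvPolynomial.C =
          ((Ideal.Quotient.mk (Ideal.span {MvPolynomial.eval x Fh})).comp (evR x)).comp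
            MvPolynomial.C := by
        apply Polynomial.ringHom_ext
        · intro r
          simp only [RingHom.comp_apply, evR, Phi_C, ev1, Psi_mk, RingHom.id_apply]
        · simp only [RingHom.comp_apply, evR, Phi_t, ev1, Psi_mk, map_one]
      exact RingHom.congr_fun h3 p
    · intro i
      simp only [RingHom.comp_apply, evR, Phi_X, ev1, Psi_mk]
  exact RingHom.congr_fun this p

lemma mk_sub_mem (p : PP R n) : (mkA x w L Fh p) -
    rA x w L Fh (evR x p) ∈ Ideal.span {tA x w L Fh - 1} := by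
  rw [← Ideal.Quotient.mk_eq_mk_iff_sub_mem]
  have ht : Ideal.Quotient.mk (Ideal.span {tA x w L Fh - 1}) (tA x w L Fh) = 1 := by
    rw [← map_one (Ideal.Quotient.mk (Ideal.span {tA x w L Fh - 1})),
      Ideal.Quotient.mk_eq_mk_iff_sub_mem]
    exact Ideal.mem_span_singleton_self _
  have : ((Ideal.Quotient.mk (Ideal.span {tA x w L Fh - 1})).comp
      (mkA x w L Fh)) =
      ((Ideal.Quotient.mk (Ideal.span {tA x w L Fh - 1})).comp (rA x w L Fh)).comp (evR x) := by
    apply MvPolynomial.ringHom_ext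
    · intro p
      have h3 : ((Ideal.Quotient.mk (Ideal.span {tA x w L Fh - 1})).comp
          (mkA x w L Fh)).comp MvPolynomial.C =
          (((Ideal.Quotient.mk (Ideal.span {tA x w L Fh - 1})).comp (rA x w L Fh)).comp
            (evR x)).comp MvPolynomial.C := by
        apply Polynomial.ringHom_ext
        · intro r
          simp only [RingHom.comp_apply, evR, Phi_C, RingHom.id_apply]
          rfl
        · simp only [RingHom.comp_apply, evR, Phi_t, map_one]
          exact ht
      exact RingHom.congr_fun h3 p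
    · intro i
      simp only [RingHom.comp_apply, evR, Phi_X]
      rw [← rel_x, map_mul, map_pow, ht, one_pow, one_mul]
      rfl
  exact RingHom.congr_fun this p

lemma ev1_surj (h : Hyp x w L Fh) : Surjective (ev1 h) := by
  intro a
  obtain ⟨r, rfl⟩ := Ideal.Quotient.mk_surjective a
  exact ⟨mkA x w L Fh (MvPolynomial.C (Polynomial.C r)), by
    rw [ev1_mk, evR, Phi_C, RingHom.id_apply]⟩

lemma ev1_t (h : Hyp x w L Fh) : ev1 h (tA x w L Fh) = 1 := by
  rw [tA, ev1_mk, evR, Phi_t, map_one]

lemma ev1_ker (h : Hyp x w L Fh) (z : AA x w L Fh) : ev1 h z = 0 ↔ (tA x w L Fh - 1) ∣ z := by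
  constructor
  · intro hz
    obtain ⟨p, rfl⟩ := mkA_surj x w L Fh z
    rw [ev1_mk, Ideal.Quotient.eq_zero_iff_mem] at hz
    obtain ⟨c, hc⟩ := Ideal.mem_span_singleton'.1 hz
    have h1 := mk_sub_mem (x := x) (w := w) (L := L) (Fh := Fh) p
    rw [← hc, map_mul, rA_f x w h.le_weight, mul_zero, sub_zero, Ideal.mem_span_singleton] at h1
    exact h1
  · rintro ⟨c, rfl⟩
    rw [map_mul, map_sub, ev1_t, map_one, sub_self, zero_mul]

/-! ### embedding into Laurent polynomials -/

open LaurentPolynomial in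
lemma lau_rel (i : Fin n) : (T (1 : ℤ) : LaurentPolynomial (HA x Fh)) ^ w i *
    (LaurentPolynomial.C (Ideal.Quotient.mk _ (x i)) * T (-(w i : ℤ))) =
    (LaurentPolynomial.C.comp (Ideal.Quotient.mk _)) (x i) := by
  rw [T_pow, mul_left_comm, ← T_add]
  simp

open LaurentPolynomial in
/-- the embedding of the family in Laurent polynomials over the hypersurface ring -/
noncomputable def lau (h : Hyp x w L Fh) : AA x w L Fh →+* LaurentPolynomial (HA x Fh) :=
  Psi (LaurentPolynomial.C.comp (Ideal.Quotient.mk _)) (T (1 : ℤ))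
    (fun i => LaurentPolynomial.C (Ideal.Quotient.mk _ (x i)) * T (-(w i : ℤ)))
    (fun i => lau_rel i) (by
      have h1 := Phi_ft_mul (LaurentPolynomial.C.comp (Ideal.Quotient.mk
        (Ideal.span {MvPolynomial.eval x Fh}))) (T (1 : ℤ))
        (fun i => LaurentPolynomial.C (Ideal.Quotient.mk _ (x i)) * T (-(w i : ℤ)))
        (fun i => lau_rel i) h.le_weight
      rw [RingHom.comp_apply, Ideal.Quotient.eq_zero_iff_mem.2 (Ideal.mem_span_singleton_self _),
        map_zero] at h1
      have hu : IsUnit ((T (1 : ℤ) : LaurentPolynomial (HA x Fh)) ^ L) := by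
        rw [T_pow]
        exact isUnit_T _
      exact (hu.mul_right_eq_zero).1 h1)

open LaurentPolynomial in
lemma lau_t (h : Hyp x w L Fh) : lau h (tA x w L Fh) = T 1 := by
  rw [lau, tA, Psi_mk, Phi_t]

open LaurentPolynomial in
lemma lau_y (h : Hyp x w L Fh) (i : Fin n) : lau h (yA x w L Fh i) =
    LaurentPolynomial.C (Ideal.Quotient.mk _ (x i)) * T (-(w i : ℤ)) := by
  rw [lau, yA, Psi_mk, Phi_X]

lemma lau_r (h : Hyp x w L Fh) (r : R) : lau h (rA x w L Fh r) =
    LaurentPolynomial.C (Ideal.Quotient.mk _ r) := by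
  change lau h (mkA x w L Fh (MvPolynomial.C (Polynomial.C r))) = _
  rw [lau, Psi_mk, Phi_C, RingHom.comp_apply]

lemma exists_pow_mul (z : AA x w L Fh) : ∃ (N : ℕ) (g : Polynomial R),
    tA x w L Fh ^ N * z = mkA x w L Fh (MvPolynomial.C g) := by
  obtain ⟨p, rfl⟩ := mkA_surj x w L Fh z
  induction p using MvPolynomial.induction_on with
  | C g => exact ⟨0, g, by rw [pow_zero, one_mul]⟩
  | add p q hp hq =>
    obtain ⟨N, g, hg⟩ := hp
    obtain ⟨M, g', hg'⟩ := hq
    refine ⟨N + M, Polynomial.X ^ M * g + Polynomial.X ^ N * g', ?_⟩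
    rw [map_add, map_add, map_add, map_mul, map_mul, map_mul, map_mul, ← hg, ← hg', map_pow,
      map_pow, map_pow, map_pow]
    change tA x w L Fh ^ (N + M) * _ = tA x w L Fh ^ M * _ + tA x w L Fh ^ N * _
    ring
  | mul_X p i hp =>
    obtain ⟨N, g, hg⟩ := hp
    refine ⟨N + w i, g * Polynomial.C (x i), ?_⟩
    have h1 := rel_x x w L Fh i
    rw [map_mul, map_mul, map_mul, ← hg]
    change tA x w L Fh ^ (N + w i) * (_ * yA x w L Fh i) = _ * rA x w L Fh (x i)
    rw [← h1]
    ring

lemma lau_C (h : Hyp x w L Fh) (g : Polynomial R) :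
    lau h (mkA x w L Fh (MvPolynomial.C g)) =
      Polynomial.toLaurent (g.map (Ideal.Quotient.mk _)) := by
  have h3 : ((lau h).comp (mkA x w L Fh)).comp MvPolynomial.C =
      (Polynomial.toLaurent (R := HA x Fh)).comp (Polynomial.mapRingHom (Ideal.Quotient.mk _)) := by
    apply Polynomial.ringHom_ext
    · intro r
      simp only [RingHom.comp_apply, lau, Psi_mk, Phi_C, Polynomial.coe_mapRingHom,
        Polynomial.map_C, Polynomial.toLaurent_C]
    · simp only [RingHom.comp_apply, lau, Psi_mk, Phi_t, Polynomial.coe_mapRingHom,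
        Polynomial.map_X, Polynomial.toLaurent_X]
  exact RingHom.congr_fun h3 g

lemma mk_C_eq_zero (h : Hyp x w L Fh) (g : Polynomial R)
    (hg : g.map (Ideal.Quotient.mk (Ideal.span {MvPolynomial.eval x Fh})) = 0) :
    mkA x w L Fh (MvPolynomial.C g) = 0 := by
  rw [g.as_sum_range_C_mul_X_pow, map_sum, map_sum]
  apply Finset.sum_eq_zero
  intro k _
  have h1 : Ideal.Quotient.mk (Ideal.span {MvPolynomial.eval x Fh}) (g.coeff k) = 0 := by
    rw [← Polynomial.coeff_map, hg, Polynomial.coeff_zero]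
  rw [Ideal.Quotient.eq_zero_iff_mem] at h1
  obtain ⟨c, hc⟩ := Ideal.mem_span_singleton'.1 h1
  rw [map_mul, map_mul]
  have h2 : mkA x w L Fh (MvPolynomial.C (Polynomial.C (g.coeff k))) =
      rA x w L Fh (g.coeff k) := rfl
  rw [h2, ← hc, map_mul, rA_f x w h.le_weight, mul_zero, zero_mul]

theorem lau_inj (h : Hyp x w L Fh) : Injective (lau h) := by
  rw [injective_iff_map_eq_zero]
  intro z hz
  obtain ⟨N, g, hg⟩ := exists_pow_mul z
  have h1 : lau h (tA x w L Fh ^ N * z) = 0 := by rw [map_mul, hz, mul_zero]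
  rw [hg, lau_C] at h1
  have h2 : g.map (Ideal.Quotient.mk (Ideal.span {MvPolynomial.eval x Fh})) = 0 :=
    Polynomial.toLaurent_injective (by rw [h1, map_zero])
  rw [mk_C_eq_zero h g h2] at hg
  clear h1 h2 hz
  induction N with
  | zero => rwa [pow_zero, one_mul] at hg
  | succ N ih =>
    apply ih
    apply t_reg L Fh h
    rw [← mul_assoc, ← pow_succ']
    exact hg

end

end Pool.Agent.Helper796_theta.Fam
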