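import Mathlib
import Pool.Agent.Helper796_theta.FamMap

set_option autoImplicit false

/-!
# The special fibre and the line `t`
-/

open Function

universe u v

namespace Pool.Agent.Helper796_theta.Fam

section

variable {R : Type u} [CommRing R] {n : ℕ} {x : Fin n → R} {w : Fin n → ℕ} {L : ℕ}
  {Fh : MvPolynomial (Fin n) R}

/-- `T - 1` is a nonzerodivisor on Laurent polynomials -/
lemma lau_T_sub_one {A : Type v} [CommRing A] (g : LaurentPolynomial A)
    (hg : (LaurentPolynomial.T 1 - 1) * g = 0) : g = 0 := by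
  have h1 : LaurentPolynomial.T 1 * g = g := by
    rw [sub_mul, one_mul, sub_eq_zero] at hg
    exact hg
  obtain ⟨N, p, hp⟩ := g.exists_T_pow
  have h2 : LaurentPolynomial.T 1 * Polynomial.toLaurent p = Polynomial.toLaurent p := by
    rw [hp, ← mul_assoc, h1]
  rw [← Polynomial.toLaurent_X, ← map_mul] at h2
  have h3 := Polynomial.toLaurent_injective h2
  have h4 : p = 0 := by
    have h5 : (Polynomial.X - 1) * p = 0 := by rw [sub_mul, one_mul, h3, sub_self]
    have h6 : (Polynomial.X - 1 : Polynomial A).Monic := by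
      have := Polynomial.monic_X_sub_C (1 : A)
      rwa [map_one] at this
    exact (h6.mul_right_eq_zero_iff).1 h5
  rw [h4, map_zero] at hp
  have h5 : IsUnit (LaurentPolynomial.T (N : ℤ) : LaurentPolynomial A) :=
    LaurentPolynomial.isUnit_T _
  exact (h5.mul_left_eq_zero).1 hp.symm

theorem t1_reg (h : Hyp x w L Fh) (z : AA x w L Fh) (hz : (tA x w L Fh - 1) * z = 0) : z = 0 := by
  apply lau_inj h
  rw [map_zero]
  apply lau_T_sub_one
  rw [← lau_t h, ← map_one (lau h), ← map_sub, ← map_mul, hz, map_zero]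

/-- the fibre `t = 1` -/
theorem redRing_one (h : Hyp x w L Fh) :
    letI := (ev1 h).toAlgebra
    RedRing (tA x w L Fh - 1) (HA x Fh) := by
  letI := (ev1 h).toAlgebra
  refine ⟨?_, ev1_surj h, fun b => ev1_ker h b⟩
  intro a b hab
  have h1 : (tA x w L Fh - 1) * (a - b) = 0 := by
    rw [mul_sub, sub_eq_zero]
    exact hab
  exact sub_eq_zero.1 (t1_reg h _ h1)

section special

variable {k : Type u} [Field k] (ρ : R →+* k)

/-- the leading form -/
noncomputable def lead (w : Fin n → ℕ) (L : ℕ) (Fh : MvPolynomial (Fin n) R) :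
    MvPolynomial (Fin n) k := MvPolynomial.map ρ (pi0 R n (ft w L Fh))

/-- the cone -/
abbrev CA (w : Fin n → ℕ) (L : ℕ) (Fh : MvPolynomial (Fin n) R) : Type u :=
  MvPolynomial (Fin n) k ⧸ Ideal.span {lead ρ w L Fh}

variable {ρ} (hρ : Surjective ρ) (hk : RingHom.ker ρ = IR x n)

include hk in
lemma rho_x (i : Fin n) : ρ (x i) = 0 := by
  rw [← RingHom.mem_ker, hk]
  exact Ideal.subset_span ⟨i, i.2, rfl⟩

/-- reduction of the polynomial ring -/
noncomputable def red (ρ : R →+* k) (n : ℕ) : PP R n →+* MvPolynomial (Fin n) k :=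
  (MvPolynomial.map ρ).comp (pi0 R n)

lemma red_ft : red ρ n (ft w L Fh) = lead ρ w L Fh := rfl

lemma Phi_zero : Phi ((Ideal.Quotient.mk (Ideal.span {lead ρ w L Fh})).comp
    (MvPolynomial.C.comp ρ)) 0 (fun i => Ideal.Quotient.mk _ (MvPolynomial.X i)) =
    (Ideal.Quotient.mk (Ideal.span {lead ρ w L Fh})).comp (red ρ n) := by
  apply MvPolynomial.ringHom_ext
  · intro p
    have h3 : (Phi ((Ideal.Quotient.mk (Ideal.span {lead ρ w L Fh})).comp
        (MvPolynomial.C.comp ρ)) 0 (fun i => Ideal.Quotient.mk _ (MvPolynomial.X i))).comp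
        MvPolynomial.C = ((Ideal.Quotient.mk (Ideal.span {lead ρ w L Fh})).comp
          (red ρ n)).comp MvPolynomial.C := by
      apply Polynomial.ringHom_ext
      · intro r
        simp only [RingHom.comp_apply, Phi_C, red, pi0, MvPolynomial.map_C,
          Polynomial.constantCoeff_apply, Polynomial.coeff_C_zero]
      · simp only [RingHom.comp_apply, Phi_t, red, pi0, MvPolynomial.map_C,
          Polynomial.constantCoeff_apply, Polynomial.coeff_X_zero, map_zero]
    exact RingHom.congr_fun h3 p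
  · intro i
    simp only [RingHom.comp_apply, Phi_X, red, pi0, MvPolynomial.map_X]

/-- the special fibre -/
noncomputable def ev0 (h : Hyp x w L Fh) (hk : RingHom.ker ρ = IR x n) :
    AA x w L Fh →+* CA ρ w L Fh :=
  Psi ((Ideal.Quotient.mk (Ideal.span {lead ρ w L Fh})).comp (MvPolynomial.C.comp ρ)) 0
    (fun i => Ideal.Quotient.mk _ (MvPolynomial.X i))
    (fun i => by
      rw [zero_pow (h.w_pos i).ne', zero_mul, RingHom.comp_apply, RingHom.comp_apply, rho_x hk,
        map_zero, map_zero]) (by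
      rw [Phi_zero, RingHom.comp_apply, red_ft, Ideal.Quotient.eq_zero_iff_mem]
      exact Ideal.mem_span_singleton_self _)

lemma ev0_mk (h : Hyp x w L Fh) (hk : RingHom.ker ρ = IR x n) (p : PP R n) :
    ev0 h hk (mkA x w L Fh p) = Ideal.Quotient.mk _ (red ρ n p) := by
  rw [ev0, Psi_mk, Phi_zero, RingHom.comp_apply]

lemma ev0_t (h : Hyp x w L Fh) (hk : RingHom.ker ρ = IR x n) :
    ev0 h hk (tA x w L Fh) = 0 := by
  rw [ev0, tA, Psi_mk, Phi_t]

lemma ev0_y (h : Hyp x w L Fh) (hk : RingHom.ker ρ = IR x n) (i : Fin n) :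
    ev0 h hk (yA x w L Fh i) = Ideal.Quotient.mk _ (MvPolynomial.X i) := by
  rw [ev0, yA, Psi_mk, Phi_X]

lemma ev0_r (h : Hyp x w L Fh) (hk : RingHom.ker ρ = IR x n) (r : R) :
    ev0 h hk (rA x w L Fh r) = Ideal.Quotient.mk _ (MvPolynomial.C (ρ r)) := by
  change ev0 h hk (mkA x w L Fh (MvPolynomial.C (Polynomial.C r))) = _
  rw [ev0, Psi_mk, Phi_C, RingHom.comp_apply, RingHom.comp_apply]

lemma pi0_sec0 (q : MvPolynomial (Fin n) R) : pi0 R n (sec0 R n q) = q := by
  rw [pi0, sec0, MvPolynomial.map_map]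
  have : (Polynomial.constantCoeff : Polynomial R →+* R).comp Polynomial.C = RingHom.id R := by
    ext r
    simp
  rw [this, MvPolynomial.map_id]

include hρ in
lemma red_surj : Surjective (red ρ n) := by
  intro q
  obtain ⟨q', rfl⟩ := MvPolynomial.map_surjective ρ hρ q
  exact ⟨sec0 R n q', by rw [red, RingHom.comp_apply, pi0_sec0]⟩

include hρ in
lemma ev0_surj (h : Hyp x w L Fh) (hk : RingHom.ker ρ = IR x n) : Surjective (ev0 h hk) := by
  intro a
  obtain ⟨q, rfl⟩ := Ideal.Quotient.mk_surjective a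
  obtain ⟨p, rfl⟩ := red_surj hρ (n := n) q
  exact ⟨mkA x w L Fh p, ev0_mk h hk p⟩

include hρ in
lemma ev0_ker (h : Hyp x w L Fh) (hk : RingHom.ker ρ = IR x n) (z : AA x w L Fh) :
    ev0 h hk z = 0 ↔ tA x w L Fh ∣ z := by
  constructor
  · intro hz
    obtain ⟨p, rfl⟩ := mkA_surj x w L Fh z
    rw [ev0_mk, Ideal.Quotient.eq_zero_iff_mem] at hz
    obtain ⟨c, hc⟩ := Ideal.mem_span_singleton'.1 hz
    obtain ⟨q, rfl⟩ := red_surj hρ (n := n) c
    have h1 : red ρ n (p - q * ft w L Fh) = 0 := by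
      rw [map_sub, map_mul, red_ft, hc, sub_self]
    have h2 : p - q * ft w L Fh ∈ It R n ⊔ IP x w n := by
      rw [mem_It_sup h.w_pos]
      intro α
      rw [← hk, RingHom.mem_ker, ← MvPolynomial.coeff_map]
      change (red ρ n (p - q * ft w L Fh)).coeff α = 0
      rw [h1, MvPolynomial.coeff_zero]
    obtain ⟨a, ha, b, hb, hab⟩ := Submodule.mem_sup.1 h2
    obtain ⟨a', rfl⟩ := Ideal.mem_span_singleton'.1 ha
    have h3 : mkA x w L Fh b = 0 := by
      rw [mkA_eq_zero, JJ_eq]
      exact Ideal.mem_sup_left hb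
    have h4 : mkA x w L Fh (ft w L Fh) = 0 := by
      rw [mkA_eq_zero, JJ_eq]
      exact Ideal.mem_sup_right (Ideal.mem_span_singleton_self _)
    have h5 := congrArg (mkA x w L Fh) hab
    rw [map_add, h3, add_zero, map_mul, map_sub, map_mul, h4, mul_zero, sub_zero] at h5
    rw [← h5]
    exact ⟨_, mul_comm _ _⟩
  · rintro ⟨c, rfl⟩
    rw [map_mul, ev0_t, zero_mul]

include hρ in
/-- the fibre `t = 0` -/
theorem redRing_zero (h : Hyp x w L Fh) (hk : RingHom.ker ρ = IR x n) :
    letI := (ev0 h hk).toAlgebra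
    RedRing (tA x w L Fh) (CA ρ w L Fh) := by
  letI := (ev0 h hk).toAlgebra
  refine ⟨?_, ev0_surj hρ h hk, fun b => ev0_ker hρ h hk b⟩
  intro a b hab
  have h1 : tA x w L Fh * (a - b) = 0 := by
    rw [mul_sub, sub_eq_zero]
    exact hab
  exact sub_eq_zero.1 (t_reg L Fh h _ h1)

/-! ### the line -/

lemma Phi_line (h : Hyp x w L Fh) : Phi ((Polynomial.C : k →+* Polynomial k).comp ρ) Polynomial.X
    (fun _ : Fin n => 0) (ft w L Fh) = 0 := by
  rw [Phi_ft]
  apply Finset.sum_eq_zero
  intro α hα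
  have h1 : α ≠ 0 := by
    rintro rfl
    have := h.le_weight 0 hα
    rw [map_zero] at this
    have := h.L_pos
    omega
  obtain ⟨i, hi⟩ : ∃ i, α i ≠ 0 := by
    by_contra hcon
    push Not at hcon
    exact h1 (Finsupp.ext hcon)
  have h2 : (α.prod fun _ a => (0 : Polynomial k) ^ a) = 0 := by
    rw [Finsupp.prod]
    exact Finset.prod_eq_zero (Finsupp.mem_support_iff.2 hi) (zero_pow hi)
  rw [h2, mul_zero]

/-- the quotient by the `y_i` -/
noncomputable def line (h : Hyp x w L Fh) (hk : RingHom.ker ρ = IR x n) :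
    AA x w L Fh →+* Polynomial k :=
  Psi ((Polynomial.C : k →+* Polynomial k).comp ρ) Polynomial.X (fun _ => 0)
    (fun i => by rw [mul_zero, RingHom.comp_apply, rho_x hk, map_zero]) (Phi_line h)

lemma line_t (h : Hyp x w L Fh) (hk : RingHom.ker ρ = IR x n) :
    line h hk (tA x w L Fh) = Polynomial.X := by
  rw [line, tA, Psi_mk, Phi_t]

lemma line_y (h : Hyp x w L Fh) (hk : RingHom.ker ρ = IR x n) (i : Fin n) :
    line h hk (yA x w L Fh i) = 0 := by
  rw [line, yA, Psi_mk, Phi_X]

lemma line_C (h : Hyp x w L Fh) (hk : RingHom.ker ρ = IR x n) (g : Polynomial R) :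
    line h hk (mkA x w L Fh (MvPolynomial.C g)) = g.map ρ := by
  have h3 : ((line h hk).comp (mkA x w L Fh)).comp MvPolynomial.C = Polynomial.mapRingHom ρ := by
    apply Polynomial.ringHom_ext
    · intro r
      simp only [RingHom.comp_apply, line, Psi_mk, Phi_C, Polynomial.coe_mapRingHom,
        Polynomial.map_C]
    · simp only [RingHom.comp_apply, line, Psi_mk, Phi_t, Polynomial.coe_mapRingHom,
        Polynomial.map_X]
  exact RingHom.congr_fun h3 g

include hρ in
lemma line_surj (h : Hyp x w L Fh) (hk : RingHom.ker ρ = IR x n) : Surjective (line h hk) := by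
  intro g
  obtain ⟨g', rfl⟩ := Polynomial.map_surjective ρ hρ g
  exact ⟨_, line_C h hk g'⟩

/-- the ideal generated by the `y_i` -/
noncomputable def yI (x : Fin n → R) (w : Fin n → ℕ) (L : ℕ) (Fh : MvPolynomial (Fin n) R) :
    Ideal (AA x w L Fh) := Ideal.span (Set.range (yA x w L Fh))

lemma exists_sub_mem_yI (z : AA x w L Fh) :
    ∃ g : Polynomial R, z - mkA x w L Fh (MvPolynomial.C g) ∈ yI x w L Fh := by
  obtain ⟨p, rfl⟩ := mkA_surj x w L Fh z
  induction p using MvPolynomial.induction_on with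
  | C g => exact ⟨g, by rw [sub_self]; exact Ideal.zero_mem _⟩
  | add p q hp hq =>
    obtain ⟨g, hg⟩ := hp
    obtain ⟨g', hg'⟩ := hq
    refine ⟨g + g', ?_⟩
    have : mkA x w L Fh (p + q) - mkA x w L Fh (MvPolynomial.C (g + g')) =
        (mkA x w L Fh p - mkA x w L Fh (MvPolynomial.C g)) +
          (mkA x w L Fh q - mkA x w L Fh (MvPolynomial.C g')) := by
      rw [map_add, map_add, map_add]; ring
    rw [this]
    exact Ideal.add_mem _ hg hg'
  | mul_X p i hp =>
    refine ⟨0, ?_⟩
    rw [map_zero, map_zero, sub_zero, map_mul]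
    exact Ideal.mul_mem_left _ _ (Ideal.subset_span ⟨i, rfl⟩)

lemma line_ker (h : Hyp x w L Fh) (hk : RingHom.ker ρ = IR x n) :
    RingHom.ker (line h hk) = yI x w L Fh := by
  apply le_antisymm
  · intro z hz
    rw [RingHom.mem_ker] at hz
    obtain ⟨g, hg⟩ := exists_sub_mem_yI z
    have h1 : yI x w L Fh ≤ RingHom.ker (line h hk) := by
      rw [yI, Ideal.span_le]
      rintro _ ⟨i, rfl⟩
      exact line_y h hk i
    have h2 := h1 hg
    rw [RingHom.mem_ker, map_sub, hz, line_C, zero_sub, neg_eq_zero] at h2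
    have h3 : mkA x w L Fh (MvPolynomial.C g) ∈ yI x w L Fh := by
      rw [g.as_sum_range_C_mul_X_pow, map_sum, map_sum]
      apply Ideal.sum_mem
      intro j _
      rw [map_mul, map_mul]
      apply Ideal.mul_mem_right
      have h4 : g.coeff j ∈ IR x n := by
        rw [← hk, RingHom.mem_ker, ← Polynomial.coeff_map, h2, Polynomial.coeff_zero]
      have h5 : IR x n ≤ Ideal.comap (rA x w L Fh) (yI x w L Fh) := by
        rw [IR, Ideal.span_le]
        rintro _ ⟨i, _, rfl⟩
        rw [SetLike.mem_coe, Ideal.mem_comap, ← rel_x]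
        exact Ideal.mul_mem_left _ _ (Ideal.subset_span ⟨i, rfl⟩)
      exact h5 h4
    have h4 := Ideal.add_mem _ hg h3
    rwa [sub_add_cancel] at h4
  · rw [yI, Ideal.span_le]
    rintro _ ⟨i, rfl⟩
    exact line_y h hk i

/-- the abstract shape of the line -/
lemma lineLike_of {B : Type u} [CommRing B] (ψ : B →+* Polynomial k) (hs : Surjective ψ) (a : k)
    (z : B) (hz : ψ z = Polynomial.X - Polynomial.C a) : LineLike (RingHom.ker ψ) z := by
  refine ⟨RingHom.ker_isPrime ψ, ?_, ?_, ?_⟩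
  · intro P hP hle hne
    have h1 : P = Ideal.comap ψ (Ideal.map ψ P) := by
      rw [Ideal.comap_map_of_surjective ψ hs, ← RingHom.ker_eq_comap_bot]
      exact (sup_eq_left.2 hle).symm
    have h2 : (Ideal.map ψ P).IsPrime := Ideal.map_isPrime_of_surjective hs hle
    have h3 : Ideal.map ψ P ≠ ⊥ := by
      intro h0
      apply hne
      rw [h1, h0, ← RingHom.ker_eq_comap_bot]
    have h4 : (Ideal.map ψ P).IsMaximal := h2.isMaximal h3
    rw [h1]
    exact Ideal.comap_isMaximal_of_surjective ψ hs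
  · rw [RingHom.mem_ker, hz]
    exact Polynomial.X_sub_C_ne_zero a
  · have h1 : RingHom.ker ψ ⊔ Ideal.span {z} =
        Ideal.comap ψ (Ideal.span {Polynomial.X - Polynomial.C a}) := by
      have h2 : Ideal.span {Polynomial.X - Polynomial.C a} = Ideal.map ψ (Ideal.span {z}) := by
        rw [Ideal.map_span, Set.image_singleton, hz]
      rw [h2, Ideal.comap_map_of_surjective ψ hs, ← RingHom.ker_eq_comap_bot, sup_comm]
    rw [h1]
    have h3 : (Ideal.span {Polynomial.X - Polynomial.C a}).IsMaximal :=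
      PrincipalIdealRing.isMaximal_of_irreducible (Polynomial.irreducible_X_sub_C a)
    exact Ideal.comap_isMaximal_of_surjective ψ hs

include hρ in
lemma lineLike_t (h : Hyp x w L Fh) (hk : RingHom.ker ρ = IR x n) :
    LineLike (yI x w L Fh) (tA x w L Fh) := by
  rw [← line_ker h hk]
  exact lineLike_of _ (line_surj hρ h hk) 0 _ (by rw [line_t, map_zero, sub_zero])

include hρ in
lemma lineLike_t1 (h : Hyp x w L Fh) (hk : RingHom.ker ρ = IR x n) :
    LineLike (yI x w L Fh) (tA x w L Fh - 1) := by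
  rw [← line_ker h hk]
  exact lineLike_of _ (line_surj hρ h hk) 1 _ (by rw [map_sub, line_t, map_one, map_one])

end special

end

end Pool.Agent.Helper796_theta.Fam
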