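import Mathlib
import Pool.Agent.Helper796_theta.Gl

set_option autoImplicit false

/-!
# Regularity at a prime: localization and lifting through a nonzerodivisor
-/

open Function IsLocalRing

universe u v

namespace Pool.Agent.Helper796_theta

/-- the local ring at `P` is regular -/
def RegAt {B : Type u} [CommRing B] (P : Ideal B) [P.IsPrime] : Prop :=
  IsRegularLocalRing (Localization.AtPrime P)

section loc

variable {B : Type u} {B' : Type v} [CommRing B] [CommRing B'] [Algebra B B'] (M : Submonoid B)
  [IsLocalization M B']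

include M in
lemma regAt_comap (P' : Ideal B') [P'.IsPrime] :
    RegAt (P'.comap (algebraMap B B')) ↔ RegAt P' := by
  have h1 : IsLocalization.AtPrime (Localization.AtPrime P') (P'.comap (algebraMap B B')) :=
    IsLocalization.isLocalization_isLocalization_atPrime_isLocalization M _ P'
  let e := (IsLocalization.algEquiv (P'.comap (algebraMap B B')).primeCompl
    (Localization.AtPrime (P'.comap (algebraMap B B'))) (Localization.AtPrime P')).toRingEquiv
  constructor
  · intro h
    have : IsRegularLocalRing (Localization.AtPrime (P'.comap (algebraMap B B'))) := h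
    exact IsRegularLocalRing.of_ringEquiv e
  · intro h
    have : IsRegularLocalRing (Localization.AtPrime P') := h
    exact IsRegularLocalRing.of_ringEquiv e.symm

include M in
lemma regAt_of_loc (P : Ideal B) [hP : P.IsPrime] (hM : Disjoint (M : Set B) P)
    (h : ∀ (P' : Ideal B') [P'.IsPrime], P'.comap (algebraMap B B') = P → RegAt P') : RegAt P := by
  have h1 : (Ideal.map (algebraMap B B') P).IsPrime :=
    IsLocalization.isPrime_of_isPrime_disjoint M B' P hP hM
  have h2 : (Ideal.map (algebraMap B B') P).comap (algebraMap B B') = P :=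
    IsLocalization.under_map_of_isPrime_disjoint M B' hP hM
  have h3 := (regAt_comap M (Ideal.map (algebraMap B B') P)).2 (h _ h2)
  have h4 : ∀ (P₁ : Ideal B) (hP₁ : P₁.IsPrime), P₁ = P → @RegAt B _ P₁ hP₁ → RegAt P := by
    rintro P₁ hP₁ rfl h
    exact h
  exact h4 _ _ h2 h3

end loc

section lift

lemma regular_of_quot {S : Type u} [CommRing S] [IsLocalRing S] [IsNoetherianRing S] {t : S}
    (ht : t ∈ maximalIdeal S) (ht0 : t ∈ nonZeroDivisors S)
    [IsRegularLocalRing (S ⧸ Ideal.span {t})] : IsRegularLocalRing S := by
  classical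
  apply IsRegularLocalRing.of_spanFinrank_maximalIdeal_le
  have h1 := ringKrullDim_quotient_span_singleton_succ_eq_ringKrullDim_of_mem_nonZeroDivisors
    ht0 ht
  rw [← h1, ← (isRegularLocalRing_iff (S ⧸ Ideal.span {t})).1 inferInstance]
  have hfg : (maximalIdeal (S ⧸ Ideal.span {t})).FG := Ideal.fg_of_isNoetherianRing _
  choose r hr using fun y : S ⧸ Ideal.span {t} => Ideal.Quotient.mk_surjective y
  set s := (maximalIdeal (S ⧸ Ideal.span {t})).generators with hs
  have hsfin : s.Finite := Submodule.FG.finite_generators hfg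
  have hspan : Ideal.span s = maximalIdeal (S ⧸ Ideal.span {t}) := Submodule.span_generators _
  have hmax : maximalIdeal S = Ideal.span (r '' s ∪ {t}) := by
    apply le_antisymm
    · intro y hy
      have h2 : Ideal.Quotient.mk (Ideal.span {t}) y ∈
          (Ideal.span (r '' s)).map (Ideal.Quotient.mk (Ideal.span {t})) := by
        rw [Ideal.map_span, ← Set.image_comp]
        have : (Ideal.Quotient.mk (Ideal.span {t})) ∘ r = id := by
          funext x; exact hr x
        rw [this, Set.image_id, hspan]
        have h3 : (maximalIdeal S).map (Ideal.Quotient.mk (Ideal.span {t})) =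
            maximalIdeal (S ⧸ Ideal.span {t}) := H379R3.map_mk_maximalIdeal _
        rw [← h3]
        exact Ideal.mem_map_of_mem _ hy
      obtain ⟨z, hz, hzy⟩ := (Ideal.mem_map_iff_of_surjective _
        Ideal.Quotient.mk_surjective).1 h2
      have h3 : y - z ∈ Ideal.span {t} := Ideal.Quotient.eq.1 hzy.symm
      have h4 : y = z + (y - z) := by ring
      rw [h4, Ideal.span_union]
      exact Ideal.add_mem _ (Ideal.mem_sup_left hz) (Ideal.mem_sup_right h3)
    · rw [Ideal.span_le]
      rintro _ (⟨y, hy, rfl⟩ | rfl)
      · have h3 : Ideal.Quotient.mk (Ideal.span {t}) (r y) ∈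
            maximalIdeal (S ⧸ Ideal.span {t}) := by
          rw [hr, ← hspan]
          exact Ideal.subset_span hy
        by_contra h4
        have h5 : IsUnit (r y) := by
          by_contra h6
          exact h4 ((IsLocalRing.mem_maximalIdeal _).2 h6)
        exact (IsLocalRing.mem_maximalIdeal _).1 h3 (h5.map _)
      · exact ht
  have h2 : (maximalIdeal S).spanFinrank ≤
      (maximalIdeal (S ⧸ Ideal.span {t})).spanFinrank + 1 := by
    rw [hmax]
    refine (Submodule.spanFinrank_span_le_ncard_of_finite
      ((hsfin.image _).union (Set.finite_singleton t))).trans ?_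
    refine (Set.ncard_union_le _ _).trans ?_
    rw [Set.ncard_singleton, ← Submodule.FG.generators_ncard hfg]
    exact Nat.add_le_add_right (Set.ncard_image_le hsfin) 1
  exact_mod_cast h2

/-- regularity lifts through a nonzerodivisor -/
theorem regAt_of_red {B B₀ : Type u} [CommRing B] [IsNoetherianRing B] [CommRing B₀]
    [Algebra B B₀] {t : B} (h : RedRing t B₀) (P : Ideal B) [hP : P.IsPrime] (ht : t ∈ P)
    (hreg : ∀ (P₀ : Ideal B₀) [P₀.IsPrime], P₀.comap (algebraMap B B₀) = P → RegAt P₀) :
    RegAt P := by
  have hker : RingHom.ker (algebraMap B B₀) ≤ P := by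
    intro b hb
    obtain ⟨c, rfl⟩ := (h.ker b).1 hb
    exact Ideal.mul_mem_right _ _ ht
  have h0 : (Ideal.map (algebraMap B B₀) P).IsPrime := Ideal.map_isPrime_of_surjective h.surj hker
  have hc : (Ideal.map (algebraMap B B₀) P).comap (algebraMap B B₀) = P := by
    rw [Ideal.comap_map_of_surjective _ h.surj, ← RingHom.ker_eq_comap_bot]
    exact sup_eq_left.2 hker
  have hr := hreg _ hc
  set P₀ := Ideal.map (algebraMap B B₀) P with hP₀
  let φ : Localization.AtPrime P →+* Localization.AtPrime P₀ :=
    Localization.localRingHom P P₀ (algebraMap B B₀) hc.symm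
  have hφ : ∀ (a : B) (s : P.primeCompl), φ (IsLocalization.mk' _ a s) =
      IsLocalization.mk' _ (algebraMap B B₀ a) (⟨algebraMap B B₀ s, fun hs => s.2 (by
        have h1 : (s : B) ∈ Ideal.comap (algebraMap B B₀) P₀ := hs
        rw [hc] at h1
        exact h1)⟩ : P₀.primeCompl) := by
    intro a s
    exact Localization.localRingHom_mk' P P₀ (algebraMap B B₀) hc.symm a s
  have hsurj : Surjective φ := by
    intro z
    obtain ⟨a₀, s₀, rfl⟩ := IsLocalization.exists_mk'_eq P₀.primeCompl z
    obtain ⟨a, rfl⟩ := h.surj a₀
    obtain ⟨s, hs⟩ := h.surj s₀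
    have hsP : s ∉ P := by
      intro hsP
      apply s₀.2
      rw [← hs]
      exact Ideal.mem_map_of_mem _ hsP
    refine ⟨IsLocalization.mk' _ a (⟨s, hsP⟩ : P.primeCompl), ?_⟩
    rw [hφ]
    congr 1
    exact Subtype.ext hs
  have hkerφ : RingHom.ker φ = Ideal.span {algebraMap B (Localization.AtPrime P) t} := by
    apply le_antisymm
    · intro z hz
      obtain ⟨a, s, rfl⟩ := IsLocalization.exists_mk'_eq P.primeCompl z
      rw [RingHom.mem_ker, hφ, IsLocalization.mk'_eq_zero_iff] at hz
      obtain ⟨m₀, hm₀⟩ := hz
      obtain ⟨m, hm⟩ := h.surj m₀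
      have hmP : m ∉ P := by
        intro hmP
        apply m₀.2
        rw [← hm]
        exact Ideal.mem_map_of_mem _ hmP
      rw [← hm, ← map_mul, h.ker] at hm₀
      obtain ⟨c, hc'⟩ := hm₀
      rw [Ideal.mem_span_singleton]
      have hu : IsUnit (algebraMap B (Localization.AtPrime P) m) :=
        IsLocalization.map_units (M := P.primeCompl) (Localization.AtPrime P) ⟨m, hmP⟩
      have h1 : algebraMap B (Localization.AtPrime P) t ∣
          algebraMap B (Localization.AtPrime P) m * IsLocalization.mk' _ a s := by
        rw [IsLocalization.mul_mk'_eq_mk'_of_mul, hc', ← IsLocalization.mul_mk'_eq_mk'_of_mul]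
        exact ⟨_, rfl⟩
      exact (hu.dvd_mul_left).1 h1
    · rw [Ideal.span_le]
      rintro _ rfl
      rw [SetLike.mem_coe, RingHom.mem_ker]
      change φ (algebraMap B _ t) = 0
      rw [Localization.localRingHom_to_map, (h.ker t).2 dvd_rfl, map_zero]
  have hP₀reg : IsRegularLocalRing (Localization.AtPrime P₀) := hr
  have e := (Ideal.quotEquivOfEq hkerφ.symm).trans (RingHom.quotientKerEquivOfSurjective hsurj)
  have hq : IsRegularLocalRing (Localization.AtPrime P ⧸
      Ideal.span {algebraMap B (Localization.AtPrime P) t}) := IsRegularLocalRing.of_ringEquiv e.symm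
  have hnoeth : IsNoetherianRing (Localization.AtPrime P) :=
    IsLocalization.isNoetherianRing P.primeCompl _ inferInstance
  have ht1 : algebraMap B (Localization.AtPrime P) t ∈ maximalIdeal (Localization.AtPrime P) := by
    rw [← Localization.AtPrime.map_eq_maximalIdeal]
    exact Ideal.mem_map_of_mem _ ht
  have ht0 : t ∈ nonZeroDivisors B := by
    rw [mem_nonZeroDivisors_iff_right]
    intro z hz
    have : t • z = t • 0 := by rw [smul_zero, smul_eq_mul, mul_comm]; exact hz
    exact h.reg this
  have ht2 : algebraMap B (Localization.AtPrime P) t ∈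
      nonZeroDivisors (Localization.AtPrime P) :=
    IsLocalization.map_nonZeroDivisors_le P.primeCompl _ ⟨t, ht0, rfl⟩
  exact regular_of_quot ht1 ht2

end lift

end Pool.Agent.Helper796_theta
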