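import Mathlib
import Pool.Agent.Helper796_theta.FamMap2
import Pool.Agent.Helper796_theta.RegAt

set_option autoImplicit false

/-!
# The family is regular away from the line
-/

open Function

universe u v

namespace Pool.Agent.Helper796_theta.Fam

section

variable {A : Type u} [CommRing A] [IsNoetherianRing A]

/-- localization at an element is a regular ring if all local rings missing it are regular -/
lemma regularRing_away (a : A) (h : ∀ (P : Ideal A) [P.IsPrime], a ∉ P → RegAt P) :
    IsRegularRing (Localization.Away a) := by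
  have hn : IsNoetherianRing (Localization.Away a) :=
    IsLocalization.isNoetherianRing (Submonoid.powers a) _ inferInstance
  rw [isRegularRing_iff]
  intro q hq
  have h1 : a ∉ q.comap (algebraMap A (Localization.Away a)) := by
    intro ha
    have hu : IsUnit (algebraMap A (Localization.Away a) a) :=
      IsLocalization.map_units (M := Submonoid.powers a) _ ⟨a, Submonoid.mem_powers a⟩
    exact hq.ne_top (Ideal.eq_top_of_isUnit_mem _ ha hu)
  exact (regAt_comap (Submonoid.powers a) q).1 (h _ h1)

lemma regAt_poly (a : A) (h : ∀ (P : Ideal A) [P.IsPrime], a ∉ P → RegAt P)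
    (P : Ideal (Polynomial A)) [hP : P.IsPrime] (ha : Polynomial.C a ∉ P) : RegAt P := by
  have h1 := regularRing_away a h
  let S := Polynomial (Localization.Away a)
  let _ : Algebra (Polynomial A) S := Polynomial.algebra A (Localization.Away a)
  have _ : IsLocalization (Submonoid.map Polynomial.C.toMonoidHom (Submonoid.powers a)) S :=
    Polynomial.isLocalization _ _
  have h2 : IsRegularRing S := inferInstance
  refine regAt_of_loc (B' := S) (Submonoid.map Polynomial.C.toMonoidHom (Submonoid.powers a)) P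
    ?_ ?_
  · rw [Set.disjoint_left]
    rintro _ ⟨_, ⟨k, rfl⟩, rfl⟩ hk
    apply ha
    have h3 : (Polynomial.C a : Polynomial A) ^ k ∈ P := by
      rw [← map_pow]
      exact hk
    exact hP.mem_of_pow_mem _ h3
  · intro P' hP' _
    exact h2.isRegularLocalRing_localization P'

lemma regAt_laurent (a : A) (h : ∀ (P : Ideal A) [P.IsPrime], a ∉ P → RegAt P)
    (P : Ideal (LaurentPolynomial A)) [hP : P.IsPrime] (ha : LaurentPolynomial.C a ∉ P) :
    RegAt P := by
  rw [← regAt_comap (B := Polynomial A) (Submonoid.powers (Polynomial.X : Polynomial A)) P]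
  apply regAt_poly a h
  intro hmem
  apply ha
  have h1 : algebraMap (Polynomial A) (LaurentPolynomial A) (Polynomial.C a) ∈ P := hmem
  rw [LaurentPolynomial.algebraMap_eq_toLaurent, Polynomial.toLaurent_C] at h1
  exact h1

end

section

variable {R : Type u} [CommRing R] {n : ℕ} {x : Fin n → R} {w : Fin n → ℕ} {L : ℕ}
  {Fh : MvPolynomial (Fin n) R}

lemma lau_isLocalization (h : Hyp x w L Fh) :
    letI := (lau h).toAlgebra
    IsLocalization.Away (tA x w L Fh) (LaurentPolynomial (HA x Fh)) := by
  let _ := (lau h).toAlgebra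
  have hal : algebraMap (AA x w L Fh) (LaurentPolynomial (HA x Fh)) = lau h := rfl
  refine (isLocalization_iff (M := Submonoid.powers (tA x w L Fh))
    (S := LaurentPolynomial (HA x Fh))).2 ⟨?_, ?_, ?_⟩
  · rintro ⟨_, ⟨k, rfl⟩⟩
    rw [hal]
    change IsUnit (lau h (tA x w L Fh ^ k))
    rw [map_pow, lau_t]
    exact (LaurentPolynomial.isUnit_T 1).pow k
  · intro g
    obtain ⟨N, p, hp⟩ := g.exists_T_pow
    obtain ⟨g', rfl⟩ := Polynomial.map_surjective (Ideal.Quotient.mk _)
      Ideal.Quotient.mk_surjective p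
    refine ⟨(mkA x w L Fh (MvPolynomial.C g'), ⟨tA x w L Fh ^ N, N, rfl⟩), ?_⟩
    rw [hal]
    change g * lau h (tA x w L Fh ^ N) = lau h (mkA x w L Fh (MvPolynomial.C g'))
    rw [lau_C, hp, map_pow, lau_t, LaurentPolynomial.T_pow, mul_one]
  · intro a b hab
    rw [hal] at hab
    refine ⟨1, ?_⟩
    rw [lau_inj h hab]

variable {k : Type u} [Field k] {ρ : R →+* k}

/-- the family is regular away from the line -/
theorem regAt_fam [IsNoetherianRing R] (h : Hyp x w L Fh) (hρ : Surjective ρ)
    (hk : RingHom.ker ρ = IR x n)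
    (hA : ∀ (P : Ideal (HA x Fh)) [P.IsPrime] (i : Fin n), Ideal.Quotient.mk _ (x i) ∉ P → RegAt P)
    (hC : ∀ (P : Ideal (CA ρ w L Fh)) [P.IsPrime] (i : Fin n),
      Ideal.Quotient.mk _ (MvPolynomial.X i) ∉ P → RegAt P)
    (P : Ideal (AA x w L Fh)) [hP : P.IsPrime] (hy : ¬ yI x w L Fh ≤ P) : RegAt P := by
  obtain ⟨i, hi⟩ : ∃ i, yA x w L Fh i ∉ P := by
    by_contra hcon
    push Not at hcon
    apply hy
    rw [yI, Ideal.span_le]
    rintro _ ⟨i, rfl⟩
    exact hcon i
  by_cases ht : tA x w L Fh ∈ P
  · let _ := (ev0 h hk).toAlgebra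
    refine regAt_of_red (redRing_zero hρ h hk) P ht ?_
    intro P₀ hP₀ hc
    apply hC P₀ i
    intro hmem
    apply hi
    rw [← hc]
    change ev0 h hk (yA x w L Fh i) ∈ P₀
    rw [ev0_y]
    exact hmem
  · let _ := (lau h).toAlgebra
    have _ := lau_isLocalization h
    refine regAt_of_loc (B' := LaurentPolynomial (HA x Fh)) (Submonoid.powers (tA x w L Fh)) P ?_ ?_
    · rw [Set.disjoint_left]
      rintro _ ⟨j, rfl⟩ hj
      exact ht (hP.mem_of_pow_mem _ hj)
    · intro P' hP' hc
      apply regAt_laurent (Ideal.Quotient.mk _ (x i)) (fun Q _ hQ => hA Q i hQ)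
      intro hmem
      apply hi
      rw [← hc]
      change lau h (yA x w L Fh i) ∈ P'
      rw [lau_y]
      exact Ideal.mul_mem_right _ _ hmem

end

end Pool.Agent.Helper796_theta.Fam
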