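import Mathlib
import Pool.Agent.Helper796_theta.Per

set_option autoImplicit false

/-!
# The module over the family attached to a module over the general fibre
-/

open TensorProduct Function

universe u

namespace Pool.Agent.Helper796_theta

/-- A grading by the integers on an algebra with an invertible element of degree one, given by
the projections to the parts with degree in a set. -/
structure ZGr (A Λ : Type u) [CommRing A] [CommRing Λ] [Algebra A Λ] (T : Λ) where
  unit : IsUnit T
  fil : (ℤ → Prop) → (Λ →ₗ[A] Λ)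
  fil_mul : ∀ S g, fil S (T * g) = T * fil (fun n => S (n + 1)) g
  fil_fil : ∀ S S' g, fil S (fil S' g) = fil (fun n => S n ∧ S' n) g
  fil_bd : ∀ g, ∃ N : ℕ, (∀ S, (∀ n : ℤ, n.natAbs ≤ N → S n) → fil S g = g) ∧
    (∀ S, (∀ n : ℤ, n.natAbs ≤ N → ¬ S n) → fil S g = 0)
  fil_or : ∀ S S' g, (∀ n, S n → ¬ S' n) → fil (fun n => S n ∨ S' n) g = fil S g + fil S' g

section

variable {A Λ : Type u} [CommRing A] [CommRing Λ] [Algebra A Λ] {T : Λ} (Z : ZGr A Λ T)
variable (M : Type u) [AddCommGroup M] [Module A M]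

/-- the projections on `Λ ⊗ M` -/
noncomputable def ZGr.Fil (S : ℤ → Prop) : Λ ⊗[A] M →ₗ[A] Λ ⊗[A] M := (Z.fil S).rTensor M

variable {M}

lemma ZGr.Fil_tmul (S : ℤ → Prop) (g : Λ) (m : M) : Z.Fil M S (g ⊗ₜ m) = Z.fil S g ⊗ₜ m := rfl

lemma ZGr.Fil_smul (S : ℤ → Prop) (z : Λ ⊗[A] M) :
    Z.Fil M S (T • z) = T • Z.Fil M (fun n => S (n + 1)) z := by
  induction z using TensorProduct.induction_on with
  | zero => simp
  | tmul g m =>
    rw [TensorProduct.smul_tmul', Z.Fil_tmul, Z.Fil_tmul, TensorProduct.smul_tmul', smul_eq_mul,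
      smul_eq_mul, Z.fil_mul]
  | add a b ha hb => rw [smul_add, map_add, ha, hb, map_add, smul_add]

lemma ZGr.Fil_Fil (S S' : ℤ → Prop) (z : Λ ⊗[A] M) :
    Z.Fil M S (Z.Fil M S' z) = Z.Fil M (fun n => S n ∧ S' n) z := by
  induction z using TensorProduct.induction_on with
  | zero => simp
  | tmul g m => rw [Z.Fil_tmul, Z.Fil_tmul, Z.Fil_tmul, Z.fil_fil]
  | add a b ha hb => rw [map_add, map_add, ha, hb, map_add]

lemma ZGr.Fil_or (S S' : ℤ → Prop) (h : ∀ n, S n → ¬ S' n) (z : Λ ⊗[A] M) :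
    Z.Fil M (fun n => S n ∨ S' n) z = Z.Fil M S z + Z.Fil M S' z := by
  induction z using TensorProduct.induction_on with
  | zero => simp
  | tmul g m => rw [Z.Fil_tmul, Z.Fil_tmul, Z.Fil_tmul, Z.fil_or _ _ _ h, TensorProduct.add_tmul]
  | add a b ha hb =>
    rw [map_add, map_add, ha, hb, map_add]
    abel

lemma ZGr.Fil_bd (z : Λ ⊗[A] M) : ∃ N : ℕ,
    (∀ S, (∀ n : ℤ, n.natAbs ≤ N → S n) → Z.Fil M S z = z) ∧
      (∀ S, (∀ n : ℤ, n.natAbs ≤ N → ¬ S n) → Z.Fil M S z = 0) := by
  induction z using TensorProduct.induction_on with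
  | zero => exact ⟨0, fun S _ => map_zero _, fun S _ => map_zero _⟩
  | tmul g m =>
    obtain ⟨N, h1, h2⟩ := Z.fil_bd g
    exact ⟨N, fun S hS => by rw [Z.Fil_tmul, h1 S hS], fun S hS => by
      rw [Z.Fil_tmul, h2 S hS, TensorProduct.zero_tmul]⟩
  | add a b ha hb =>
    obtain ⟨N, h1, h2⟩ := ha
    obtain ⟨N', h1', h2'⟩ := hb
    refine ⟨max N N', fun S hS => ?_, fun S hS => ?_⟩
    · rw [map_add, h1 S (fun n hn => hS n (hn.trans (le_max_left _ _))),
        h1' S (fun n hn => hS n (hn.trans (le_max_right _ _)))]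
    · rw [map_add, h2 S (fun n hn => hS n (hn.trans (le_max_left _ _))),
        h2' S (fun n hn => hS n (hn.trans (le_max_right _ _))), add_zero]

include Z in
lemma ZGr.T_reg (z w : Λ ⊗[A] M) (h : T • z = T • w) : z = w := by
  obtain ⟨u, hu⟩ := Z.unit
  have h1 : (↑u⁻¹ : Λ) • (T • z) = (↑u⁻¹ : Λ) • (T • w) := by rw [h]
  rw [smul_smul, smul_smul, ← hu, Units.inv_mul, one_smul, one_smul] at h1
  exact h1

include Z in
lemma ZGr.T1_reg (z : Λ ⊗[A] M) (h : T • z = z) : z = 0 := by
  obtain ⟨N, h1, h2⟩ := Z.Fil_bd z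
  have h3 : ∀ k : ℕ, Z.Fil M (fun n => (N : ℤ) - k < n) z = 0 := by
    intro k
    induction k with
    | zero =>
      apply h2
      intro n hn
      omega
    | succ k ih =>
      have h4 : Z.Fil M (fun n => (N : ℤ) - k < n) (T • z) = 0 := by rw [h, ih]
      rw [Z.Fil_smul] at h4
      have h5 := Z.T_reg _ 0 (h4.trans (smul_zero T).symm)
      have h6 : (fun n : ℤ => (N : ℤ) - ((k + 1 : ℕ) : ℤ) < n) =
          (fun n : ℤ => (N : ℤ) - k < n + 1) := by
        funext n
        apply propext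
        push_cast
        omega
      rw [h6]
      exact h5
  have h4 := h3 (2 * N + 1)
  rw [h1] at h4
  · exact h4
  · intro n hn
    push_cast
    omega

end

section module

variable {B A Λ : Type u} [CommRing B] [CommRing A] [CommRing Λ] [Algebra A B] [Algebra B Λ]
  [Algebra A Λ] [IsScalarTower A B Λ]

/-- the comparison map -/
noncomputable def phiM (A B Λ : Type u) [CommRing A] [CommRing B] [CommRing Λ] [Algebra A B]
    [Algebra B Λ] [Algebra A Λ] [IsScalarTower A B Λ] (M : Type u) [AddCommGroup M] [Module A M] :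
    B ⊗[A] M →ₗ[B] Λ ⊗[A] M :=
  TensorProduct.AlgebraTensorModule.map (Algebra.linearMap B Λ) LinearMap.id

variable {M : Type u} [AddCommGroup M] [Module A M]

lemma phiM_tmul (b : B) (m : M) : phiM A B Λ M (b ⊗ₜ m) = algebraMap B Λ b ⊗ₜ m := rfl

/-- the module over the family -/
abbrev Mt (A B Λ : Type u) [CommRing A] [CommRing B] [CommRing Λ] [Algebra A B] [Algebra B Λ]
    [Algebra A Λ] [IsScalarTower A B Λ] (M : Type u) [AddCommGroup M] [Module A M] : Type u :=
  LinearMap.range (phiM A B Λ M)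

instance Mt_finite [Module.Finite A M] : Module.Finite B (Mt A B Λ M) :=
  inferInstanceAs (Module.Finite B (LinearMap.range (phiM A B Λ M)))

lemma smul_eq_algebraMap (b : B) (z : Λ ⊗[A] M) : b • z = algebraMap B Λ b • z := by
  induction z using TensorProduct.induction_on with
  | zero => simp
  | tmul g m =>
    rw [TensorProduct.smul_tmul', TensorProduct.smul_tmul', algebraMap_smul]
  | add a b ha hb => rw [smul_add, ha, hb, smul_add]

variable {T : Λ} (Z : ZGr A Λ T) {t : B} (ht : algebraMap B Λ t = T)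

include Z ht in
lemma Mt_reg_t : IsSMulRegular (Mt A B Λ M) t := by
  intro z w h
  apply Subtype.ext
  apply Z.T_reg
  have h1 : t • (z : Λ ⊗[A] M) = t • (w : Λ ⊗[A] M) := congrArg Subtype.val h
  have h2 : ∀ y : Λ ⊗[A] M, t • y = T • y := fun y => by rw [smul_eq_algebraMap t y, ht]
  rw [h2, h2] at h1
  exact h1

include Z ht in
lemma Mt_reg_t1 : IsSMulRegular (Mt A B Λ M) (t - 1) := by
  intro z w h
  rw [← sub_eq_zero]
  apply Subtype.ext
  apply Z.T1_reg
  have h1 : (t - 1) • (z : Λ ⊗[A] M) = (t - 1) • (w : Λ ⊗[A] M) := congrArg Subtype.val h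
  have h3 : ∀ y : Λ ⊗[A] M, (t - 1) • y = T • y - y := fun y => by
    apply eq_sub_of_add_eq
    have h4 : (t - 1) • y + (1 : B) • y = (t - 1 + 1) • y := (add_smul (t - 1) (1 : B) y).symm
    rw [one_smul, sub_add_cancel, smul_eq_algebraMap t y, ht] at h4
    exact h4
  rw [h3, h3] at h1
  change T • ((z : Λ ⊗[A] M) - w) = (z : Λ ⊗[A] M) - w
  rw [smul_sub, sub_eq_sub_iff_sub_eq_sub]
  exact h1

variable (B Λ M) in
/-- evaluation at `T = 1` -/
noncomputable def augM (aug : Λ →ₗ[A] A) : Λ ⊗[A] M →ₗ[A] M :=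
  (TensorProduct.lid A M).toLinearMap ∘ₗ aug.rTensor M

lemma augM_tmul (aug : Λ →ₗ[A] A) (g : Λ) (m : M) : augM Λ M aug (g ⊗ₜ m) = aug g • m := rfl

variable [Algebra B A] [Module B M] [IsScalarTower B A M]

/-- the evaluation `M̃ → M` -/
noncomputable def gOne (aug : Λ →+* A) (h1 : ∀ a, aug (algebraMap A Λ a) = a)
    (h2 : ∀ b, aug (algebraMap B Λ b) = algebraMap B A b) : Mt A B Λ M →ₗ[B] M where
  toFun z := augM Λ M
    { toFun := aug, map_add' := map_add aug, map_smul' := fun a g => by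
        rw [Algebra.smul_def, map_mul, h1]; rfl } (z : Λ ⊗[A] M)
  map_add' z w := map_add _ _ _
  map_smul' b z := by
    have key : ∀ (y : Λ ⊗[A] M), augM Λ M
      { toFun := aug, map_add' := map_add aug, map_smul' := fun a g => by
          rw [Algebra.smul_def, map_mul, h1]; rfl } (b • y) = b • augM Λ M
      { toFun := aug, map_add' := map_add aug, map_smul' := fun a g => by
          rw [Algebra.smul_def, map_mul, h1]; rfl } y := by
      intro y
      induction y using TensorProduct.induction_on with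
      | zero => simp
      | tmul g m =>
        rw [TensorProduct.smul_tmul', augM_tmul, augM_tmul]
        change aug (b • g) • m = b • (aug g • m)
        rw [Algebra.smul_def, map_mul, h2, mul_smul, algebraMap_smul]
      | add a b ha hb => rw [smul_add, map_add, ha, hb, map_add, smul_add]
    exact key _

omit [Algebra B A] [Module B M] [IsScalarTower B A M] in
lemma range_smul_mem (z : Mt A B Λ M) : ∃ u : B ⊗[A] M, phiM A B Λ M u = z := z.2

/-- the module `M̃` reduces to `M` at `t = 1` -/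
theorem redMod_one (hB : RedRing (t - 1) A) (h0 : ∀ a, algebraMap B A (algebraMap A B a) = a)
    (aug : Λ →+* A) (h1 : ∀ a, aug (algebraMap A Λ a) = a)
    (h2 : ∀ b, aug (algebraMap B Λ b) = algebraMap B A b) (hreg : IsSMulRegular (Mt A B Λ M) (t - 1)) :
    RedMod (t - 1) A (Mt A B Λ M) M (gOne aug h1 h2) := by
  let evB : B →ₗ[A] A :=
    { toFun := algebraMap B A
      map_add' := map_add _
      map_smul' := fun a b => by
        rw [Algebra.smul_def, map_mul, h0]; rfl }
  have hG : ∀ u : B ⊗[A] M, gOne aug h1 h2 ⟨phiM A B Λ M u, ⟨u, rfl⟩⟩ =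
      TensorProduct.lid A M (evB.rTensor M u) := by
    intro u
    induction u using TensorProduct.induction_on with
    | zero =>
      have : (⟨phiM A B Λ M 0, ⟨0, rfl⟩⟩ : Mt A B Λ M) = 0 := Subtype.ext (map_zero _)
      rw [this, map_zero, map_zero, map_zero]
    | tmul b m =>
      change aug (algebraMap B Λ b) • m = algebraMap B A b • m
      rw [h2]
    | add a b ha hb =>
      have : (⟨phiM A B Λ M (a + b), ⟨a + b, rfl⟩⟩ : Mt A B Λ M) =
          ⟨phiM A B Λ M a, ⟨a, rfl⟩⟩ + ⟨phiM A B Λ M b, ⟨b, rfl⟩⟩ := Subtype.ext (map_add _ _ _)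
      rw [this, map_add, ha, hb, map_add, map_add]
  let mt : B →ₗ[A] B := (mx (t - 1) B).restrictScalars A
  have hmt : ∀ v : B ⊗[A] M, mt.rTensor M v = (t - 1) • v := by
    intro v
    induction v using TensorProduct.induction_on with
    | zero => simp
    | tmul b m =>
      rw [TensorProduct.smul_tmul']
      rfl
    | add a b ha hb => rw [map_add, ha, hb, smul_add]
  refine ⟨hreg, ?_, ?_⟩
  · intro m
    refine ⟨⟨phiM A B Λ M (1 ⊗ₜ m), ⟨_, rfl⟩⟩, ?_⟩
    rw [hG, LinearMap.rTensor_tmul, TensorProduct.lid_tmul]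
    change algebraMap B A 1 • m = m
    rw [map_one, one_smul]
  · have hex : Exact mt evB := by
      intro b
      change algebraMap B A b = 0 ↔ _
      rw [hB.ker]
      constructor
      · rintro ⟨c, rfl⟩
        exact ⟨c, rfl⟩
      · rintro ⟨c, rfl⟩
        exact ⟨c, rfl⟩
    have hex2 := rTensor_exact M hex hB.surj
    rintro ⟨z, u, rfl⟩
    constructor
    · intro hz
      rw [hG] at hz
      have h3 : evB.rTensor M u = 0 := (TensorProduct.lid A M).injective (by rw [hz, map_zero])
      obtain ⟨v, rfl⟩ := (hex2 u).1 h3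
      refine ⟨⟨phiM A B Λ M v, ⟨v, rfl⟩⟩, ?_⟩
      apply Subtype.ext
      change (t - 1) • phiM A B Λ M v = phiM A B Λ M (mt.rTensor M v)
      rw [hmt, map_smul]
    · rintro ⟨⟨_, v, rfl⟩, hv⟩
      rw [← hv, mx_apply, map_smul, hG]
      rw [← algebraMap_smul A (t - 1), (hB.ker _).2 dvd_rfl, zero_smul]

end module

section special

variable {B C N : Type u} [CommRing B] [CommRing C] [Algebra B C] {t : B} [AddCommGroup N]
  [Module B N]

/-- reduction of a module at a regular element -/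
theorem redMod_tensor (hC : RedRing t C) (hreg : IsSMulRegular N t) :
    RedMod t C N (C ⊗[B] N) (TensorProduct.mk B C N 1) := by
  refine ⟨hreg, ?_, ?_⟩
  · intro z
    obtain ⟨v, rfl⟩ := exists_one_tmul hC.surj z
    exact ⟨v, rfl⟩
  · intro v
    rw [TensorProduct.mk_apply, one_tmul_eq_zero hC]
    constructor
    · rintro ⟨w, rfl⟩
      exact ⟨w, rfl⟩
    · rintro ⟨w, rfl⟩
      exact ⟨w, rfl⟩

end special

end Pool.Agent.Helper796_theta
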