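import Mathlib
import Pool.Agent.Helper796_theta.Mod
import Pool.Agent.Helper796_theta.Asm

set_option autoImplicit false

/-!
# The transfer theorem in a generic setting, with the grading of the special fibre
-/

open TensorProduct Function

universe u

namespace Pool.Agent.Helper796_theta

section transfer

variable {B A Λ C Q₁ Q₂ : Type u} [CommRing B] [CommRing A] [CommRing Λ] [CommRing C]
  [CommRing Q₁] [CommRing Q₂]
  [Algebra A B] [Algebra B Λ] [Algebra A Λ] [IsScalarTower A B Λ] [Algebra B A] [Algebra B C]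
  [Algebra Q₁ A] [Algebra Q₂ C] {T : Λ} (Z : ZGr A Λ T) {t : B} (ht : algebraMap B Λ t = T)

/-- the degenerate module -/
abbrev M0 (A B Λ C : Type u) [CommRing A] [CommRing B] [CommRing Λ] [CommRing C] [Algebra A B]
    [Algebra B Λ] [Algebra A Λ] [IsScalarTower A B Λ] [Algebra B C] (M : Type u)
    [AddCommGroup M] [Module A M] : Type u := C ⊗[B] Mt A B Λ M

include Z ht in
theorem transfer2 [IsNoetherianRing B] (hA : RedRing (t - 1) A) (hC : RedRing t C)
    (h0 : ∀ a, algebraMap B A (algebraMap A B a) = a)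
    (aug : Λ →+* A) (h1 : ∀ a, aug (algebraMap A Λ a) = a)
    (h2 : ∀ b, aug (algebraMap B Λ b) = algebraMap B A b)
    {𝔫 : Ideal B} (hl₁ : LineLike 𝔫 (t - 1)) (hl₂ : LineLike 𝔫 t) {D' : ℕ}
    (hdim : ringKrullDim B ≤ D')
    (hreg : ∀ (P : Ideal B) [P.IsPrime], ¬ 𝔫 ≤ P → IsRegularLocalRing (Localization.AtPrime P))
    {f₁ : Q₁} {f₂ : Q₂} {D : ℕ} {𝔪₁ : Ideal A} {𝔪₂ : Ideal C}
    (H₁ : HypData Q₁ A f₁ D 𝔪₁) (H₂ : HypData Q₂ C f₂ D 𝔪₂)
    (M N : Type u) [AddCommGroup M] [Module A M] [Module.Finite A M]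
    [AddCommGroup N] [Module A N] [Module.Finite A N] (e : ℕ) (he : D ≤ 2 * e) :
    thTor A e M N = thTor C e (M0 A B Λ C M) (M0 A B Λ C N) := by
  let _ : Module B M := Module.compHom M (algebraMap B A)
  have _ : IsScalarTower B A M := ⟨fun b a m => by
    rw [Algebra.smul_def, mul_smul]; rfl⟩
  let _ : Module B N := Module.compHom N (algebraMap B A)
  have _ : IsScalarTower B A N := ⟨fun b a m => by
    rw [Algebra.smul_def, mul_smul]; rfl⟩
  have hM₁ := redMod_one (Λ := Λ) (M := M) hA h0 aug h1 h2 (Mt_reg_t1 Z ht)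
  have hN₁ := redMod_one (Λ := Λ) (M := N) hA h0 aug h1 h2 (Mt_reg_t1 Z ht)
  have hM₂ := redMod_tensor (N := Mt A B Λ M) hC (Mt_reg_t Z ht)
  have hN₂ := redMod_tensor (N := Mt A B Λ N) hC (Mt_reg_t Z ht)
  exact transfer hA hC hM₁ hM₂ hN₁ hN₂ hl₁ hl₂ hdim hreg H₁ H₂ e he

end transfer

section grading

variable {B A Λ C : Type u} [CommRing B] [CommRing A] [CommRing Λ] [CommRing C]
  [Algebra A B] [Algebra B Λ] [Algebra A Λ] [IsScalarTower A B Λ] [Algebra B C]
  {T : Λ} (Z : ZGr A Λ T) {t : B} (ht : algebraMap B Λ t = T)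
  (hcl : ∀ S b, ∃ b', Z.fil S (algebraMap B Λ b) = algebraMap B Λ b')
  (hC : RedRing t C) {M : Type u} [AddCommGroup M] [Module A M]

include hcl in
lemma Fil_mem (S : ℤ → Prop) (z : Λ ⊗[A] M) (hz : z ∈ LinearMap.range (phiM A B Λ M)) :
    Z.Fil M S z ∈ LinearMap.range (phiM A B Λ M) := by
  obtain ⟨u, rfl⟩ := hz
  induction u using TensorProduct.induction_on with
  | zero => rw [map_zero, map_zero]; exact Submodule.zero_mem _
  | tmul b m =>
    obtain ⟨b', hb'⟩ := hcl S b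
    rw [phiM_tmul, Z.Fil_tmul, hb']
    exact ⟨b' ⊗ₜ m, rfl⟩
  | add a b ha hb => rw [map_add, map_add]; exact Submodule.add_mem _ ha hb

/-- the projections on `M̃` -/
noncomputable def FilMt (S : ℤ → Prop) : Mt A B Λ M →+ Mt A B Λ M where
  toFun z := ⟨Z.Fil M S z, Fil_mem Z hcl S _ z.2⟩
  map_zero' := Subtype.ext (map_zero _)
  map_add' _ _ := Subtype.ext (map_add _ _ _)

lemma FilMt_coe (S : ℤ → Prop) (z : Mt A B Λ M) :
    (FilMt Z hcl S z : Λ ⊗[A] M) = Z.Fil M S z := rfl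

include ht in
lemma FilMt_t (S : ℤ → Prop) (z : Mt A B Λ M) :
    FilMt Z hcl S (t • z) = t • FilMt Z hcl (fun n => S (n + 1)) z := by
  apply Subtype.ext
  rw [FilMt_coe]
  change Z.Fil M S (t • (z : Λ ⊗[A] M)) = t • Z.Fil M (fun n => S (n + 1)) (z : Λ ⊗[A] M)
  rw [smul_eq_algebraMap, ht, Z.Fil_smul, smul_eq_algebraMap t, ht]

/-- the projections on the special fibre -/
noncomputable def FilM0 (S : ℤ → Prop) : M0 A B Λ C M →+ M0 A B Λ C M :=
  AddMonoidHom.liftOfSurjective (TensorProduct.mk B C (Mt A B Λ M) 1).toAddMonoidHom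
    (fun z => (exists_one_tmul hC.surj z).imp fun _ h => h.symm)
    ⟨(TensorProduct.mk B C (Mt A B Λ M) 1).toAddMonoidHom.comp (FilMt Z hcl S), by
      intro z hz
      obtain ⟨w, rfl⟩ := (one_tmul_eq_zero hC (V := Mt A B Λ M) z).1 hz
      change (1 : C) ⊗ₜ[B] (FilMt Z hcl S (t • w)) = 0
      rw [FilMt_t Z ht]
      exact (one_tmul_eq_zero hC (V := Mt A B Λ M) _).2 ⟨_, rfl⟩⟩

lemma FilM0_apply (S : ℤ → Prop) (z : Mt A B Λ M) :
    FilM0 Z ht hcl hC S ((1 : C) ⊗ₜ[B] z) = (1 : C) ⊗ₜ[B] (FilMt Z hcl S z) :=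
  AddMonoidHom.liftOfRightInverse_comp_apply _ _ _ _ z

lemma ZGr.Fil_pow_smul (S : ℤ → Prop) (k : ℕ) (z : Λ ⊗[A] M) :
    Z.Fil M S (T ^ k • z) = T ^ k • Z.Fil M (fun n => S (n + k)) z := by
  induction k generalizing S z with
  | zero => simp
  | succ k ih =>
    have h1 : (fun n : ℤ => S (n + 1 + k)) = fun n : ℤ => S (n + ((k + 1 : ℕ) : ℤ)) := by
      funext n
      congr 1
      push_cast
      ring
    rw [pow_succ, mul_smul, ih, Z.Fil_smul, mul_smul, h1]

include Z in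
lemma ZGr.T_pow_reg (k : ℕ) (z w : Λ ⊗[A] M) (h : T ^ k • z = T ^ k • w) : z = w := by
  induction k with
  | zero => simpa using h
  | succ k ih =>
    apply ih
    apply Z.T_reg
    rw [smul_smul, smul_smul, ← pow_succ']
    exact h

lemma ZGr.Fil_hom (S : ℤ → Prop) (k : ℕ) (g : Λ) (a : A) (hg : T ^ k * g = algebraMap A Λ a)
    (z : Λ ⊗[A] M) : Z.Fil M S (g • z) = g • Z.Fil M (fun n => S (n - k)) z := by
  apply Z.T_pow_reg k
  have h1 : (fun n : ℤ => S (n + k - k)) = S := by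
    funext n
    rw [add_sub_cancel_right]
  have h2 := Z.Fil_pow_smul (fun n => S (n - k)) k (g • z)
  simp only [h1] at h2
  rw [← h2, smul_smul, smul_smul, hg]
  have h3 : ∀ y : Λ ⊗[A] M, algebraMap A Λ a • y = a • y := fun y =>
    algebraMap_smul Λ a y
  rw [h3, h3, map_smul]

/-- an element of `B` which becomes homogeneous of degree `-k` -/
def HomB (A : Type u) [CommRing A] [Algebra A Λ] (T : Λ) (k : ℕ) (b : B) : Prop :=
  ∃ a : A, T ^ k * algebraMap B Λ b = algebraMap A Λ a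

lemma FilMt_hom (S : ℤ → Prop) (k : ℕ) (b : B) (hb : HomB A T k b) (z : Mt A B Λ M) :
    FilMt Z hcl S (b • z) = b • FilMt Z hcl (fun n => S (n - k)) z := by
  obtain ⟨a, ha⟩ := hb
  apply Subtype.ext
  rw [FilMt_coe]
  change Z.Fil M S (b • (z : Λ ⊗[A] M)) = b • Z.Fil M (fun n => S (n - k)) (z : Λ ⊗[A] M)
  rw [smul_eq_algebraMap, Z.Fil_hom S k _ a ha, smul_eq_algebraMap b]

lemma FilM0_hom (S : ℤ → Prop) (k : ℕ) (b : B) (hb : HomB A T k b) (u : M0 A B Λ C M) :
    FilM0 Z ht hcl hC S (algebraMap B C b • u) =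
      algebraMap B C b • FilM0 Z ht hcl hC (fun n => S (n - k)) u := by
  obtain ⟨z, rfl⟩ := exists_one_tmul (V := Mt A B Λ M) hC.surj u
  rw [FilM0_apply]
  have h1 : ∀ y : Mt A B Λ M, algebraMap B C b • ((1 : C) ⊗ₜ[B] y) = (1 : C) ⊗ₜ[B] (b • y) := by
    intro y
    rw [TensorProduct.tmul_smul, algebraMap_smul]
  rw [h1, h1, FilM0_apply, FilMt_hom Z hcl S k b hb]

lemma FilM0_FilM0 (S S' : ℤ → Prop) (u : M0 A B Λ C M) :
    FilM0 Z ht hcl hC S (FilM0 Z ht hcl hC S' u) =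
      FilM0 Z ht hcl hC (fun n => S n ∧ S' n) u := by
  obtain ⟨z, rfl⟩ := exists_one_tmul (V := Mt A B Λ M) hC.surj u
  rw [FilM0_apply, FilM0_apply, FilM0_apply]
  congr 1
  apply Subtype.ext
  rw [FilMt_coe, FilMt_coe, FilMt_coe, Z.Fil_Fil]

lemma FilM0_or (S S' : ℤ → Prop) (h : ∀ n, S n → ¬ S' n) (u : M0 A B Λ C M) :
    FilM0 Z ht hcl hC (fun n => S n ∨ S' n) u =
      FilM0 Z ht hcl hC S u + FilM0 Z ht hcl hC S' u := by
  obtain ⟨z, rfl⟩ := exists_one_tmul (V := Mt A B Λ M) hC.surj u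
  rw [FilM0_apply, FilM0_apply, FilM0_apply, ← TensorProduct.tmul_add]
  congr 1
  apply Subtype.ext
  exact Z.Fil_or S S' h _

lemma FilM0_bd (u : M0 A B Λ C M) : ∃ N : ℕ,
    (∀ S, (∀ n : ℤ, n.natAbs ≤ N → S n) → FilM0 Z ht hcl hC S u = u) ∧
      (∀ S, (∀ n : ℤ, n.natAbs ≤ N → ¬ S n) → FilM0 Z ht hcl hC S u = 0) := by
  obtain ⟨z, rfl⟩ := exists_one_tmul (V := Mt A B Λ M) hC.surj u
  obtain ⟨N, h1, h2⟩ := Z.Fil_bd (z : Λ ⊗[A] M)
  refine ⟨N, fun S hS => ?_, fun S hS => ?_⟩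
  · rw [FilM0_apply]
    congr 1
    exact Subtype.ext (h1 S hS)
  · rw [FilM0_apply]
    have : FilMt Z hcl S z = 0 := Subtype.ext (h2 S hS)
    rw [this, TensorProduct.tmul_zero]

lemma FilM0_false (u : M0 A B Λ C M) : FilM0 Z ht hcl hC (fun _ => False) u = 0 := by
  obtain ⟨N, _, h2⟩ := FilM0_bd Z ht hcl hC u
  exact h2 _ (fun _ _ h => h)

/-- the graded pieces of the special fibre -/
noncomputable def gr (M : Type u) [AddCommGroup M] [Module A M] (n : ℤ) :
    AddSubgroup (M0 A B Λ C M) :=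
  (FilM0 (M := M) Z ht hcl hC (fun m => m = -n)).range

lemma mem_gr {n : ℤ} {u : M0 A B Λ C M} : u ∈ gr Z ht hcl hC M n ↔
    FilM0 Z ht hcl hC (fun m => m = -n) u = u := by
  constructor
  · rintro ⟨v, rfl⟩
    rw [FilM0_FilM0]
    congr 2
    funext m
    apply propext
    constructor
    · exact fun h => h.1
    · exact fun h => ⟨h, h⟩
  · intro h
    exact ⟨u, h⟩

lemma FilM0_gr_ne {n m : ℤ} (h : n ≠ m) {u : M0 A B Λ C M} (hu : u ∈ gr Z ht hcl hC M n) :
    FilM0 Z ht hcl hC (fun j => j = -m) u = 0 := by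
  rw [mem_gr] at hu
  rw [← hu, FilM0_FilM0]
  have : (fun j : ℤ => j = -m ∧ j = -n) = fun _ => False := by
    funext j
    apply propext
    constructor
    · rintro ⟨h1, h2⟩
      apply h
      rw [h1] at h2
      exact (neg_injective h2).symm
    · exact fun h => h.elim
  rw [this, FilM0_false]

lemma gr_hom {n : ℤ} (k : ℕ) (b : B) (hb : HomB A T k b) {u : M0 A B Λ C M}
    (hu : u ∈ gr Z ht hcl hC M n) : algebraMap B C b • u ∈ gr Z ht hcl hC M (n + k) := by
  rw [mem_gr] at hu ⊢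
  rw [FilM0_hom Z ht hcl hC _ k b hb]
  have : (fun j : ℤ => j - k = -(n + k)) = fun j : ℤ => j = -n := by
    funext j
    apply propext
    constructor
    · intro h; omega
    · intro h; omega
  rw [this, hu]

open Classical in
lemma FilM0_sum (D : Finset ℤ) (u : M0 A B Λ C M) :
    ∑ n ∈ D, FilM0 Z ht hcl hC (fun m => m = -n) u =
      FilM0 Z ht hcl hC (fun m => -m ∈ D) u := by
  induction D using Finset.induction_on with
  | empty =>
    rw [Finset.sum_empty]
    have : (fun m : ℤ => -m ∈ (∅ : Finset ℤ)) = fun _ => False := by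
      funext j
      simp
    rw [this, FilM0_false]
  | insert a s ha ih =>
    rw [Finset.sum_insert ha, ih, ← FilM0_or]
    · congr 2
      funext m
      apply propext
      rw [Finset.mem_insert]
      constructor
      · rintro (h | h)
        · left; rw [h, neg_neg]
        · right; exact h
      · rintro (h | h)
        · left; rw [← h, neg_neg]
        · right; exact h
    · rintro n hn hns
      apply ha
      rw [hn, neg_neg] at hns
      exact hns

theorem gr_internal : DirectSum.IsInternal (gr Z ht hcl hC M) := by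
  classical
  have key : ∀ (x : DirectSum ℤ fun n => gr Z ht hcl hC M n) (m : ℤ),
      FilM0 Z ht hcl hC (fun j => j = -m) (DirectSum.coeAddMonoidHom (gr Z ht hcl hC M) x) =
        (x m : M0 A B Λ C M) := by
    intro x m
    induction x using DirectSum.induction_on with
    | zero => simp
    | of n y =>
      rw [DirectSum.coeAddMonoidHom_of]
      by_cases h : n = m
      · subst h
        rw [DirectSum.of_eq_same]
        exact (mem_gr Z ht hcl hC).1 y.2
      · rw [DirectSum.of_eq_of_ne _ _ _ (fun h' => h h'.symm)]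
        exact FilM0_gr_ne Z ht hcl hC h y.2
    | add x y hx hy =>
      rw [map_add, map_add, hx, hy]
      rfl
  constructor
  · rw [injective_iff_map_eq_zero]
    intro x hx
    ext m
    have h1 := key x m
    rw [hx, map_zero] at h1
    exact h1.symm
  · intro u
    obtain ⟨N, h1, _⟩ := FilM0_bd Z ht hcl hC u
    refine ⟨∑ n ∈ Finset.Icc (-(N : ℤ)) N, DirectSum.of (fun n => gr Z ht hcl hC M n) n
      ⟨FilM0 Z ht hcl hC (fun m => m = -n) u, ⟨u, rfl⟩⟩, ?_⟩
    rw [map_sum]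
    have h2 : ∀ n ∈ Finset.Icc (-(N : ℤ)) N,
        DirectSum.coeAddMonoidHom (gr Z ht hcl hC M)
          (DirectSum.of (fun n => gr Z ht hcl hC M n) n
            ⟨FilM0 Z ht hcl hC (fun m => m = -n) u, ⟨u, rfl⟩⟩) =
          FilM0 Z ht hcl hC (fun m => m = -n) u := fun n _ =>
      DirectSum.coeAddMonoidHom_of _ _ _
    rw [Finset.sum_congr rfl h2, FilM0_sum]
    apply h1
    intro n hn
    rw [Finset.mem_Icc]
    omega

end grading

end Pool.Agent.Helper796_theta
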