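import Mathlib
import Pool.Agent.Helper796_theta.Mod

set_option autoImplicit false

/-!
# The integer grading of Laurent polynomials
-/

open Function

universe u

namespace Pool.Agent.Helper796_theta

section

variable {A : Type u} [CommRing A]

open Classical in
/-- the projection on Laurent polynomials to the degrees in a set -/
noncomputable def filL (S : ℤ → Prop) : LaurentPolynomial A →ₗ[A] LaurentPolynomial A where
  toFun g := AddMonoidAlgebra.ofCoeff (Finsupp.filter S g.coeff)
  map_add' f g := by
    apply LaurentPolynomial.ext
    intro n
    change Finsupp.filter S (f + g).coeff n = (Finsupp.filter S f.coeff n) + Finsupp.filter S g.coeff n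
    rw [Finsupp.filter_apply, Finsupp.filter_apply, Finsupp.filter_apply]
    split_ifs
    · rfl
    · rw [add_zero]
  map_smul' a g := by
    apply LaurentPolynomial.ext
    intro n
    change Finsupp.filter S (a • g).coeff n = a • (Finsupp.filter S g.coeff n)
    rw [Finsupp.filter_apply, Finsupp.filter_apply]
    split_ifs
    · rfl
    · rw [smul_zero]

open Classical in
lemma coeff_filL (S : ℤ → Prop) (g : LaurentPolynomial A) (n : ℤ) :
    (filL S g).coeff n = if S n then g.coeff n else 0 := Finsupp.filter_apply _ _ _

lemma coeff_T_mul' (g : LaurentPolynomial A) (k n : ℤ) :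
    (LaurentPolynomial.T k * g).coeff n = g.coeff (n - k) := by
  rw [LaurentPolynomial.T, AddMonoidAlgebra.coeff_single_mul_apply, one_mul]
  congr 1
  ring

/-- the integer grading of Laurent polynomials -/
noncomputable def lauZ (A : Type u) [CommRing A] :
    ZGr A (LaurentPolynomial A) (LaurentPolynomial.T 1) where
  unit := LaurentPolynomial.isUnit_T 1
  fil := filL
  fil_mul S g := by
    classical
    apply LaurentPolynomial.ext
    intro n
    rw [coeff_filL, coeff_T_mul', coeff_T_mul', coeff_filL, sub_add_cancel]
  fil_fil S S' g := by
    classical
    apply LaurentPolynomial.ext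
    intro n
    rw [coeff_filL, coeff_filL, coeff_filL]
    by_cases h1 : S n <;> by_cases h2 : S' n <;> simp [h1, h2]
  fil_bd g := by
    classical
    refine ⟨g.coeff.support.sup Int.natAbs, ?_, ?_⟩
    · intro S hS
      apply LaurentPolynomial.ext
      intro n
      rw [coeff_filL]
      split_ifs with h
      · rfl
      · symm
        by_contra hne
        exact h (hS n (Finset.le_sup (f := Int.natAbs) (Finsupp.mem_support_iff.2 hne)))
    · intro S hS
      apply LaurentPolynomial.ext
      intro n
      rw [coeff_filL]
      split_ifs with h
      · by_contra hne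
        exact hS n (Finset.le_sup (f := Int.natAbs) (Finsupp.mem_support_iff.2 hne)) h
      · rfl
  fil_or S S' g h := by
    classical
    apply LaurentPolynomial.ext
    intro n
    change _ = (filL S g).coeff n + (filL S' g).coeff n
    rw [coeff_filL, coeff_filL, coeff_filL]
    by_cases h1 : S n
    · have := h n h1
      simp [h1, this]
    · by_cases h2 : S' n <;> simp [h1, h2]

lemma filL_C_mul_T (S : ℤ → Prop) (a : A) (n : ℤ) :
    (S n → filL S (LaurentPolynomial.C a * LaurentPolynomial.T n) =
      LaurentPolynomial.C a * LaurentPolynomial.T n) ∧
    (¬ S n → filL S (LaurentPolynomial.C a * LaurentPolynomial.T n) = 0) := by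
  classical
  have hc : ∀ m, m ≠ n → (LaurentPolynomial.C a * LaurentPolynomial.T n :
      LaurentPolynomial A).coeff m = 0 := by
    intro m hm
    rw [← LaurentPolynomial.single_eq_C_mul_T, AddMonoidAlgebra.coeff_single, Finsupp.single_apply, if_neg hm.symm]
  constructor
  · intro h
    apply LaurentPolynomial.ext
    intro m
    rw [coeff_filL]
    split_ifs with hm
    · rfl
    · rw [hc m (fun h' => hm (h' ▸ h))]
  · intro h
    apply LaurentPolynomial.ext
    intro m
    rw [coeff_filL]
    split_ifs with hm
    · rw [hc m (fun h' => h (h' ▸ hm))]
      rfl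
    · rfl

end

end Pool.Agent.Helper796_theta
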