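import Mathlib
import Pool.Agent.Helper796_theta.FamReg

set_option autoImplicit false

/-!
# Regular parameters form a regular sequence
-/

open Function IsLocalRing

universe u v

namespace Pool.Agent.Helper796_theta.Fam

variable {R : Type u} [CommRing R] [IsRegularLocalRing R] {n : ℕ} {x : Fin n → R}

lemma IR_le (hx : Ideal.span (Set.range x) = maximalIdeal R) (j : ℕ) : IR x j ≤ maximalIdeal R := by
  rw [← hx]
  exact Ideal.span_mono (Set.image_subset_range _ _)

lemma IR_top (hx : Ideal.span (Set.range x) = maximalIdeal R) : IR x n = maximalIdeal R := by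
  rw [← hx, IR]
  congr 1
  ext z
  constructor
  · rintro ⟨i, _, rfl⟩
    exact ⟨i, rfl⟩
  · rintro ⟨i, rfl⟩
    exact ⟨i, i.2, rfl⟩

lemma quot_local {I : Ideal R} (hI : I ≤ maximalIdeal R) : IsLocalRing (R ⧸ I) := by
  have hne : I ≠ ⊤ := by
    intro h
    rw [h] at hI
    exact (maximalIdeal.isMaximal R).ne_top (top_le_iff.1 hI)
  have : Nontrivial (R ⧸ I) := Ideal.Quotient.nontrivial_iff.2 hne
  exact IsLocalRing.of_surjective' (Ideal.Quotient.mk _) Ideal.Quotient.mk_surjective

lemma rank_le (hx : Ideal.span (Set.range x) = maximalIdeal R) {I : Ideal R}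
    (hI : I ≤ maximalIdeal R) [IsLocalRing (R ⧸ I)] (S : Finset (Fin n))
    (hS : ∀ i, i ∉ S → x i ∈ I) : (maximalIdeal (R ⧸ I)).spanFinrank ≤ S.card := by
  classical
  have hmax : maximalIdeal (R ⧸ I) =
      Ideal.span ((fun i => Ideal.Quotient.mk I (x i)) '' (S : Set (Fin n))) := by
    rw [← H379R3.map_mk_maximalIdeal, ← hx, Ideal.map_span]
    apply le_antisymm
    · rw [Ideal.span_le]
      rintro _ ⟨_, ⟨i, rfl⟩, rfl⟩
      by_cases h : i ∈ S
      · exact Ideal.subset_span ⟨i, h, rfl⟩
      · rw [Ideal.Quotient.eq_zero_iff_mem.2 (hS i h)]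
        exact Ideal.zero_mem _
    · apply Ideal.span_mono
      rintro _ ⟨i, _, rfl⟩
      exact ⟨x i, ⟨i, rfl⟩, rfl⟩
  rw [hmax]
  refine (Submodule.spanFinrank_span_le_ncard_of_finite (Set.toFinite _)).trans ?_
  refine (Set.ncard_image_le (Set.toFinite _)).trans ?_
  rw [Set.ncard_coe_finset]

lemma dim_ge (hx : Ideal.span (Set.range x) = maximalIdeal R) (hd : ringKrullDim R = (n : ℕ))
    {j : ℕ} (hj : j ≤ n) : ((n - j : ℕ) : WithBot ℕ∞) ≤ ringKrullDim (R ⧸ IR x j) := by
  classical
  let S : Finset R := (Finset.univ.filter fun i : Fin n => (i : ℕ) < j).image x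
  have hS : (S : Set R) = x '' {i | (i : ℕ) < j} := by
    ext z
    simp [S]
  have hcard : S.card ≤ j := by
    refine Finset.card_image_le.trans ?_
    rw [Fin.card_filter_val_lt]
    exact min_le_right _ _
  have h1 := ringKrullDim_le_ringKrullDim_quotient_add_card (R := R) S (by
    rw [hS, IsLocalRing.ringJacobson_eq_maximalIdeal]
    rintro _ ⟨i, _, rfl⟩
    rw [← hx]
    exact Ideal.subset_span ⟨i, rfl⟩)
  rw [hS, hd] at h1
  change _ ≤ ringKrullDim (R ⧸ IR x j) + _ at h1
  obtain ⟨k, rfl⟩ := Nat.exists_eq_add_of_le hj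
  have h2 : ((k : ℕ) : WithBot ℕ∞) + (j : ℕ) ≤ ringKrullDim (R ⧸ IR x j) + (j : ℕ) := by
    have h3 : ((S.card : ℕ) : WithBot ℕ∞) ≤ ((j : ℕ) : WithBot ℕ∞) := by exact_mod_cast hcard
    calc ((k : ℕ) : WithBot ℕ∞) + (j : ℕ) = ((j + k : ℕ) : WithBot ℕ∞) := by
          push_cast; rw [add_comm]
      _ ≤ _ := h1
      _ ≤ _ := add_le_add le_rfl h3
  have h4 : j + k - j = k := by omega
  rw [h4]
  exact ENat.WithBot.add_le_add_natCast_right_iff.1 h2

lemma IR_regular (hx : Ideal.span (Set.range x) = maximalIdeal R) (hd : ringKrullDim R = (n : ℕ))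
    {j : ℕ} (hj : j ≤ n) : IsRegularLocalRing (R ⧸ IR x j) := by
  classical
  have hloc := quot_local (IR_le hx j)
  apply IsRegularLocalRing.of_spanFinrank_maximalIdeal_le
  refine le_trans ?_ (dim_ge hx hd hj)
  have h1 := rank_le hx (IR_le hx j) (Finset.univ.filter fun i : Fin n => ¬ (i : ℕ) < j) (by
    intro i hi
    have : (i : ℕ) < j := by simpa using hi
    exact Ideal.subset_span ⟨i, this, rfl⟩)
  have h2 : (Finset.univ.filter fun i : Fin n => ¬ (i : ℕ) < j).card = n - j := by
    rw [Finset.filter_not, Finset.card_sdiff_of_subset (Finset.filter_subset _ _),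
      Finset.card_univ, Fintype.card_fin, Fin.card_filter_val_lt, min_eq_right hj]
  rw [h2] at h1
  exact_mod_cast h1

lemma IR_prime (hx : Ideal.span (Set.range x) = maximalIdeal R) (hd : ringKrullDim R = (n : ℕ))
    {j : ℕ} (hj : j ≤ n) : (IR x j).IsPrime := by
  have := IR_regular hx hd hj
  have := H379R3.isDomain (R ⧸ IR x j)
  exact (Ideal.Quotient.isDomain_iff_prime _).1 inferInstance

/-- regular parameters form a regular sequence -/
theorem regSeq (hx : Ideal.span (Set.range x) = maximalIdeal R) (hd : ringKrullDim R = (n : ℕ)) :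
    RegSeq x := by
  classical
  intro j c hc
  have hp := IR_prime hx hd j.2.le
  refine (hp.mem_or_mem hc).resolve_left ?_
  intro hmem
  have hloc := quot_local (IR_le hx j)
  have h1 := rank_le hx (IR_le hx j) (Finset.univ.filter fun i : Fin n => ¬ (i : ℕ) < j + 1) (by
    intro i hi
    have hi' : (i : ℕ) < j + 1 := by simpa using hi
    by_cases h : (i : ℕ) < j
    · exact Ideal.subset_span ⟨i, h, rfl⟩
    · have : i = j := Fin.ext (by omega)
      rw [this]
      exact hmem)
  have h2 : (Finset.univ.filter fun i : Fin n => ¬ (i : ℕ) < j + 1).card = n - (j + 1) := by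
    rw [Finset.filter_not, Finset.card_sdiff_of_subset (Finset.filter_subset _ _),
      Finset.card_univ, Fintype.card_fin, Fin.card_filter_val_lt, min_eq_right (by omega)]
  rw [h2] at h1
  have h3 := (dim_ge hx hd j.2.le).trans
    (ringKrullDim_le_spanFinrank_maximalIdeal (R ⧸ IR x j))
  have h4 : n - (j : ℕ) ≤ (maximalIdeal (R ⧸ IR x j)).spanFinrank := by exact_mod_cast h3
  have := j.2
  omega

end Pool.Agent.Helper796_theta.Fam
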