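import Mathlib
import Pool.Agent.Helper796_theta.FamRegAt
import Pool.Agent.Helper796_theta.Params
import Pool.Agent.Helper796_theta.Lau
import Pool.Agent.Helper796_theta.Gen

set_option autoImplicit false

/-!
# Instantiation of the generic transfer theorem
-/

open Function TensorProduct

universe u

namespace Pool.Agent.Helper796_theta

lemma ZGr.fil_pow {A Λ : Type u} [CommRing A] [CommRing Λ] [Algebra A Λ] {T : Λ} (Z : ZGr A Λ T)
    (S : ℤ → Prop) (k : ℕ) (z : Λ) :
    Z.fil S (T ^ k * z) = T ^ k * Z.fil (fun n => S (n + k)) z := by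
  induction k generalizing S z with
  | zero => simp
  | succ k ih =>
    have h1 : (fun n : ℤ => S (n + 1 + k)) = fun n : ℤ => S (n + ((k + 1 : ℕ) : ℤ)) := by
      funext n
      congr 1
      push_cast
      ring
    rw [pow_succ, mul_assoc, ih, Z.fil_mul, mul_assoc, h1]

lemma ZGr.fil_hom {A Λ : Type u} [CommRing A] [CommRing Λ] [Algebra A Λ] {T : Λ} (Z : ZGr A Λ T)
    (S : ℤ → Prop) (k : ℕ) (g : Λ) (a : A) (hg : T ^ k * g = algebraMap A Λ a)
    (z : Λ) : Z.fil S (g * z) = g * Z.fil (fun n => S (n - k)) z := by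
  have hu : IsUnit (T ^ k) := Z.unit.pow k
  apply hu.mul_left_cancel
  have h1 : (fun n : ℤ => S (n + k - k)) = S := by
    funext n
    rw [add_sub_cancel_right]
  have h2 := Z.fil_pow (fun n => S (n - k)) k (g * z)
  simp only [h1] at h2
  rw [← h2, ← mul_assoc, ← mul_assoc, hg, ← Algebra.smul_def, ← Algebra.smul_def, map_smul]

namespace Fam

variable {R : Type u} [CommRing R] {n : ℕ} {x : Fin n → R} {w : Fin n → ℕ} {L : ℕ}
  {Fh : MvPolynomial (Fin n) R}

/-- the family as an algebra over the general fibre -/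
noncomputable def aA (h : Hyp x w L Fh) : HA x Fh →+* AA x w L Fh :=
  Ideal.Quotient.lift _ (rA x w L Fh) (by
    have : Ideal.span {MvPolynomial.eval x Fh} ≤ RingHom.ker (rA x w L Fh) := by
      rw [Ideal.span_le]
      rintro _ rfl
      exact rA_f x w h.le_weight
    intro a ha
    exact this ha)

lemma aA_mk (h : Hyp x w L Fh) (r : R) : aA h (Ideal.Quotient.mk _ r) = rA x w L Fh r := rfl

lemma ev1_aA (h : Hyp x w L Fh) (a : HA x Fh) : ev1 h (aA h a) = a := by
  obtain ⟨r, rfl⟩ := Ideal.Quotient.mk_surjective a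
  rw [aA_mk]
  change ev1 h (mkA x w L Fh (MvPolynomial.C (Polynomial.C r))) = _
  rw [ev1_mk, evR, Phi_C, RingHom.id_apply]

lemma lau_aA (h : Hyp x w L Fh) (a : HA x Fh) : lau h (aA h a) = LaurentPolynomial.C a := by
  obtain ⟨r, rfl⟩ := Ideal.Quotient.mk_surjective a
  rw [aA_mk, lau_r]

lemma ev1_y (h : Hyp x w L Fh) (i : Fin n) :
    ev1 h (yA x w L Fh i) = Ideal.Quotient.mk _ (x i) := by
  rw [yA, ev1_mk, evR, Phi_X]

lemma lau_T_pow_y (h : Hyp x w L Fh) (i : Fin n) :
    LaurentPolynomial.T 1 ^ w i * lau h (yA x w L Fh i) =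
      algebraMap (HA x Fh) (LaurentPolynomial (HA x Fh)) (Ideal.Quotient.mk _ (x i)) := by
  rw [← lau_t h, ← map_pow, ← map_mul, rel_x, lau_r]
  rfl

/-- the augmentation `T ↦ 1` -/
noncomputable def aug (A : Type u) [CommRing A] : LaurentPolynomial A →+* A :=
  LaurentPolynomial.eval₂ (RingHom.id A) 1

lemma aug_C (A : Type u) [CommRing A] (a : A) : aug A (LaurentPolynomial.C a) = a := by
  rw [aug, LaurentPolynomial.eval₂_C, RingHom.id_apply]

lemma aug_T (A : Type u) [CommRing A] (k : ℤ) : aug A (LaurentPolynomial.T k) = 1 := by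
  rw [aug, LaurentPolynomial.eval₂_T, one_zpow, Units.val_one]

lemma aug_lau (h : Hyp x w L Fh) (b : AA x w L Fh) : aug (HA x Fh) (lau h b) = ev1 h b := by
  have : (aug (HA x Fh)).comp (lau h) = ev1 h := by
    apply hom_ext
    · intro r
      change aug _ (lau h (rA x w L Fh r)) = ev1 h (mkA x w L Fh (MvPolynomial.C (Polynomial.C r)))
      rw [lau_r, aug_C, ev1_mk, evR, Phi_C, RingHom.id_apply]
    · change aug _ (lau h (tA x w L Fh)) = ev1 h (tA x w L Fh)
      rw [lau_t, aug_T, ev1_t]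
    · intro i
      change aug _ (lau h (yA x w L Fh i)) = ev1 h (yA x w L Fh i)
      rw [lau_y, map_mul, aug_C, aug_T, mul_one, ev1_y]
  exact RingHom.congr_fun this b

/-- the closure property -/
def Clo (h : Hyp x w L Fh) (b : AA x w L Fh) : Prop :=
  ∀ S, ∃ b', (lauZ (HA x Fh)).fil S (lau h b) = lau h b'

lemma Clo.add {h : Hyp x w L Fh} {b c : AA x w L Fh} (hb : Clo h b) (hc : Clo h c) :
    Clo h (b + c) := by
  intro S
  obtain ⟨b', hb'⟩ := hb S
  obtain ⟨c', hc'⟩ := hc S
  exact ⟨b' + c', by rw [map_add, map_add, hb', hc', map_add]⟩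

lemma Clo.mul {h : Hyp x w L Fh} {b c : AA x w L Fh} {k : ℕ} {a : HA x Fh}
    (hc : LaurentPolynomial.T 1 ^ k * lau h c = algebraMap _ _ a) (hb : Clo h b) :
    Clo h (c * b) := by
  intro S
  obtain ⟨b', hb'⟩ := hb (fun n => S (n - k))
  exact ⟨c * b', by rw [map_mul, (lauZ (HA x Fh)).fil_hom S k _ a hc, hb', map_mul]⟩

lemma Clo.t {h : Hyp x w L Fh} {b : AA x w L Fh} (hb : Clo h b) : Clo h (tA x w L Fh * b) := by
  intro S
  obtain ⟨b', hb'⟩ := hb (fun n => S (n + 1))
  exact ⟨tA x w L Fh * b', by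
    rw [map_mul, lau_t, (lauZ (HA x Fh)).fil_mul, hb', map_mul, lau_t]⟩

lemma Clo.one (h : Hyp x w L Fh) : Clo h 1 := by
  intro S
  have h1 := filL_C_mul_T (A := HA x Fh) S 1 0
  rw [map_one, LaurentPolynomial.T_zero, one_mul] at h1
  by_cases hS : S 0
  · exact ⟨1, by rw [map_one]; exact h1.1 hS⟩
  · exact ⟨0, by rw [map_one, map_zero]; exact h1.2 hS⟩

lemma Clo.r {h : Hyp x w L Fh} {b : AA x w L Fh} (r : R) (hb : Clo h b) :
    Clo h (rA x w L Fh r * b) := by
  refine Clo.mul (k := 0) (a := Ideal.Quotient.mk _ r) ?_ hb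
  rw [pow_zero, one_mul, lau_r]
  rfl

theorem clo (h : Hyp x w L Fh) (b : AA x w L Fh) : Clo h b := by
  obtain ⟨p, rfl⟩ := mkA_surj x w L Fh b
  induction p using MvPolynomial.induction_on with
  | C g =>
    induction g using Polynomial.induction_on' with
    | add p q hp hq => rw [map_add, map_add]; exact hp.add hq
    | monomial j r =>
      have h1 : mkA x w L Fh (MvPolynomial.C (Polynomial.monomial j r)) =
          rA x w L Fh r * tA x w L Fh ^ j := by
        rw [← Polynomial.C_mul_X_pow_eq_monomial, map_mul, map_mul, map_pow, map_pow]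
        rfl
      rw [h1]
      apply Clo.r
      induction j with
      | zero => rw [pow_zero]; exact Clo.one h
      | succ j ih =>
        rw [pow_succ']
        apply Clo.t
        apply ih
        rw [← Polynomial.C_mul_X_pow_eq_monomial, map_mul, map_mul, map_pow, map_pow]
        rfl
  | add p q hp hq => rw [map_add]; exact hp.add hq
  | mul_X p i hp =>
    rw [map_mul, mul_comm]
    exact Clo.mul (lau_T_pow_y h i) hp

end Fam

end Pool.Agent.Helper796_theta
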