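import Mathlib
import Pool.Agent.Helper796_theta.Inst

set_option autoImplicit false

/-!
# The two fibres are hypersurfaces with isolated singularities
-/

open Function TensorProduct IsLocalRing

universe u

namespace Pool.Agent.Helper796_theta.Fam

section f

variable {R : Type u} [CommRing R] {n : ℕ} {x : Fin n → R} {w : Fin n → ℕ} {L : ℕ}
  {Fh : MvPolynomial (Fin n) R}

lemma t_pow_ft_mem (h : Hyp x w L Fh) :
    (MvPolynomial.C Polynomial.X : PP R n) ^ L * ft w L Fh -
      MvPolynomial.C (Polynomial.C (MvPolynomial.eval x Fh)) ∈ IP x w n := by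
  let q := Ideal.Quotient.mk (IP x w n)
  have h1 : ∀ z : PP R n, Phi (q.comp (MvPolynomial.C.comp Polynomial.C))
      (q (MvPolynomial.C Polynomial.X)) (fun i => q (MvPolynomial.X i)) z = q z := by
    intro z
    have : Phi (q.comp (MvPolynomial.C.comp Polynomial.C))
      (q (MvPolynomial.C Polynomial.X)) (fun i => q (MvPolynomial.X i)) = q := by
      apply MvPolynomial.ringHom_ext
      · intro p
        have h3 : (Phi (q.comp (MvPolynomial.C.comp Polynomial.C))
            (q (MvPolynomial.C Polynomial.X)) (fun i => q (MvPolynomial.X i))).comp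
            MvPolynomial.C = q.comp MvPolynomial.C := by
          apply Polynomial.ringHom_ext
          · intro r
            rw [RingHom.comp_apply, Phi_C]
            rfl
          · rw [RingHom.comp_apply, Phi_t]
            rfl
        exact RingHom.congr_fun h3 p
      · intro i
        rw [Phi_X]
    rw [this]
  have h2 := Phi_ft_mul (q.comp (MvPolynomial.C.comp Polynomial.C))
    (q (MvPolynomial.C Polynomial.X)) (fun i => q (MvPolynomial.X i)) (x := x) (w := w) (L := L)
    (Fh := Fh) (by
      intro i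
      symm
      rw [← sub_eq_zero]
      have h3 : bb x w i ∈ IP x w n := Ideal.subset_span ⟨i, i.2, rfl⟩
      have h4 : q (bb x w i) = 0 := Ideal.Quotient.eq_zero_iff_mem.2 h3
      rw [← h4, bb, map_sub, map_mul, map_pow, map_pow]
      rfl) h.le_weight
  rw [h1] at h2
  rw [← Ideal.Quotient.eq_zero_iff_mem]
  change q _ = 0
  rw [map_sub, map_mul, map_pow, h2]
  exact sub_self _

theorem eval_ne_zero (h : Hyp x w L Fh) : MvPolynomial.eval x Fh ≠ 0 := by
  intro h0
  have h1 := t_pow_ft_mem h
  rw [h0, map_zero, map_zero, sub_zero] at h1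
  have h2 : ∀ k : ℕ, (MvPolynomial.C Polynomial.X : PP R n) ^ k * ft w L Fh ∈ IP x w n →
      ft w L Fh ∈ IP x w n := by
    intro k
    induction k with
    | zero => intro h; simpa using h
    | succ k ih =>
      intro h2
      apply ih
      apply t_reg_IP h.w_pos h.regSeq n le_rfl
      rw [← mul_assoc, ← pow_succ']
      exact h2
  have h3 : ft w L Fh ∈ It R n ⊔ IP x w n := Ideal.mem_sup_right (h2 L h1)
  rw [mem_It_sup h.w_pos] at h3
  obtain ⟨α, h4, h5⟩ := h.lead
  apply h5
  have h6 := h3 α
  rw [coeff_pi0_ft L Fh h.le_weight, if_pos h4] at h6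
  exact h6

lemma coeff_zero_Fh (h : Hyp x w L Fh) : Fh.coeff 0 = 0 := by
  by_contra hne
  have h1 := h.le_weight 0 (MvPolynomial.mem_support_iff.2 hne)
  rw [map_zero] at h1
  have := h.L_pos
  omega

/-- a polynomial without constant term evaluates in the ideal -/
lemma eval_mem (h : Hyp x w L Fh) {I : Ideal R} (hI : ∀ i, x i ∈ I) :
    MvPolynomial.eval x Fh ∈ I := by
  rw [MvPolynomial.eval_eq]
  apply Ideal.sum_mem
  intro α hα
  apply Ideal.mul_mem_left
  have h1 : α ≠ 0 := by
    rintro rfl
    exact (MvPolynomial.mem_support_iff.1 hα) (coeff_zero_Fh h)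
  obtain ⟨i, hi⟩ : ∃ i, α i ≠ 0 := by
    by_contra hcon
    push Not at hcon
    exact h1 (Finsupp.ext hcon)
  rw [← Finset.mul_prod_erase _ _ (Finsupp.mem_support_iff.2 hi)]
  apply Ideal.mul_mem_right
  exact Ideal.pow_mem_of_mem _ (hI i) _ (Nat.pos_of_ne_zero hi)

end f

section gen

variable {R : Type u} [CommRing R] [IsRegularLocalRing R] {d : ℕ} {x : Fin (d + 1) → R}
  {w : Fin (d + 1) → ℕ} {L : ℕ} {Fh : MvPolynomial (Fin (d + 1)) R}

lemma redRing_quot {S : Type u} [CommRing S] [IsDomain S] {f : S} (hf : f ≠ 0) :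
    RedRing f (S ⧸ Ideal.span {f}) := by
  refine ⟨?_, Ideal.Quotient.mk_surjective, ?_⟩
  · intro a b hab
    exact mul_left_cancel₀ hf hab
  · intro b
    change Ideal.Quotient.mk _ b = 0 ↔ _
    rw [Ideal.Quotient.eq_zero_iff_mem, Ideal.mem_span_singleton]

lemma dim_quot_le {S : Type u} [CommRing S] [IsDomain S] {f : S} (hf : f ≠ 0) {d : ℕ}
    (hS : ringKrullDim S ≤ (d + 1 : ℕ)) : ringKrullDim (S ⧸ Ideal.span {f}) ≤ d := by
  have h1 := ringKrullDim_quotient_succ_le_of_nonZeroDivisor (R := S) (r := f)
    (mem_nonZeroDivisors_of_ne_zero hf)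
  have h2 : ringKrullDim (S ⧸ Ideal.span {f}) + 1 ≤ (d : WithBot ℕ∞) + 1 := by
    refine h1.trans (hS.trans ?_)
    push_cast
    exact le_rfl
  exact ENat.WithBot.add_le_add_one_right_iff.1 h2

theorem hypData_A (h : Hyp x w L Fh) (hx : Ideal.span (Set.range x) = maximalIdeal R)
    (hd : ringKrullDim R = (d + 1 : ℕ))
    (hA : ∀ (P : Ideal (HA x Fh)) [P.IsPrime], ¬ P.IsMaximal →
      IsRegularLocalRing (Localization.AtPrime P)) :
    HypData R (HA x Fh) (MvPolynomial.eval x Fh) d
      (Ideal.map (Ideal.Quotient.mk _) (maximalIdeal R)) := by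
  have hdom := H379R3.isDomain R
  have hf := eval_ne_zero h
  have hfm : MvPolynomial.eval x Fh ∈ maximalIdeal R := by
    apply eval_mem h
    intro i
    rw [← hx]
    exact Ideal.subset_span ⟨i, rfl⟩
  have hle : Ideal.span {MvPolynomial.eval x Fh} ≤ maximalIdeal R := by
    rw [Ideal.span_singleton_le_iff_mem]
    exact hfm
  have hloc := quot_local hle
  have hmax : Ideal.map (Ideal.Quotient.mk (Ideal.span {MvPolynomial.eval x Fh}))
      (maximalIdeal R) = maximalIdeal (HA x Fh) := H379R3.map_mk_maximalIdeal _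
  refine ⟨inferInstance, redRing_quot hf, GD_of_regularLocal (by rw [hd]), ?_, ?_, ?_⟩
  · rw [hmax]
    exact maximalIdeal.isMaximal _
  · intro P hP hnot
    apply hA P
    intro hPm
    apply hnot
    rw [hmax, IsLocalRing.eq_maximalIdeal hPm]
  · exact dim_quot_le hf (by rw [hd])

end gen

section cone

variable {k : Type u} [Field k] {d : ℕ} {F : MvPolynomial (Fin (d + 1)) k}

/-- the irrelevant ideal of the cone -/
noncomputable def irr (F : MvPolynomial (Fin (d + 1)) k) :
    Ideal (MvPolynomial (Fin (d + 1)) k ⧸ Ideal.span {F}) :=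
  Ideal.span (Set.range fun i => Ideal.Quotient.mk _ (MvPolynomial.X i))

lemma irr_isMaximal (hF0 : F.coeff 0 = 0) : (irr F).IsMaximal := by
  let ε : MvPolynomial (Fin (d + 1)) k ⧸ Ideal.span {F} →+* k :=
    Ideal.Quotient.lift _ MvPolynomial.constantCoeff (by
      have : Ideal.span {F} ≤ RingHom.ker (MvPolynomial.constantCoeff :
          MvPolynomial (Fin (d + 1)) k →+* k) := by
        rw [Ideal.span_le]
        rintro _ rfl
        exact hF0
      intro a ha
      exact this ha)
  have hε : Surjective ε := by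
    intro c
    exact ⟨Ideal.Quotient.mk _ (MvPolynomial.C c), MvPolynomial.constantCoeff_C _ c⟩
  have h1 : irr F = RingHom.ker ε := by
    apply le_antisymm
    · rw [irr, Ideal.span_le]
      rintro _ ⟨i, rfl⟩
      exact MvPolynomial.constantCoeff_X _ i
    · intro z hz
      obtain ⟨p, rfl⟩ := Ideal.Quotient.mk_surjective z
      have h2 : MvPolynomial.constantCoeff p = 0 := hz
      have h3 : ∀ q : MvPolynomial (Fin (d + 1)) k, Ideal.Quotient.mk (Ideal.span {F}) q -
          Ideal.Quotient.mk _ (MvPolynomial.C (MvPolynomial.constantCoeff q)) ∈ irr F := by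
        intro q
        induction q using MvPolynomial.induction_on with
        | C c => rw [MvPolynomial.constantCoeff_C, sub_self]; exact Ideal.zero_mem _
        | add p q hp hq =>
          have : Ideal.Quotient.mk (Ideal.span {F}) (p + q) - Ideal.Quotient.mk _
              (MvPolynomial.C (MvPolynomial.constantCoeff (p + q))) =
              (Ideal.Quotient.mk (Ideal.span {F}) p - Ideal.Quotient.mk _
                (MvPolynomial.C (MvPolynomial.constantCoeff p))) +
              (Ideal.Quotient.mk (Ideal.span {F}) q - Ideal.Quotient.mk _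
                (MvPolynomial.C (MvPolynomial.constantCoeff q))) := by
            simp only [map_add]
            ring
          rw [this]
          exact Ideal.add_mem _ hp hq
        | mul_X p i hp =>
          rw [map_mul, map_mul, MvPolynomial.constantCoeff_X, mul_zero, map_zero, map_zero,
            sub_zero]
          exact Ideal.mul_mem_left _ _ (Ideal.subset_span ⟨i, rfl⟩)
      have h4 := h3 p
      rw [h2, map_zero, map_zero, sub_zero] at h4
      exact h4
  rw [h1]
  exact RingHom.ker_isMaximal_of_surjective ε hε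

theorem hypData_C (hF : F ≠ 0) (hF0 : F.coeff 0 = 0)
    (hC : ∀ (P : Ideal (MvPolynomial (Fin (d + 1)) k ⧸ Ideal.span {F})) [P.IsPrime]
      (i : Fin (d + 1)), Ideal.Quotient.mk _ (MvPolynomial.X i) ∉ P →
        IsRegularLocalRing (Localization.AtPrime P)) :
    HypData (MvPolynomial (Fin (d + 1)) k) (MvPolynomial (Fin (d + 1)) k ⧸ Ideal.span {F}) F d
      (irr F) := by
  have hdim : ringKrullDim (MvPolynomial (Fin (d + 1)) k) ≤ (d + 1 : ℕ) := by
    rw [MvPolynomial.ringKrullDim_of_isNoetherianRing, ringKrullDim_eq_zero_of_field, zero_add,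
      Nat.card_eq_fintype_card, Fintype.card_fin]
  refine ⟨inferInstance, redRing_quot hF, GD_of_regular hdim, irr_isMaximal hF0, ?_,
    dim_quot_le hF hdim⟩
  intro P hP hnot
  obtain ⟨i, hi⟩ : ∃ i, Ideal.Quotient.mk (Ideal.span {F}) (MvPolynomial.X i) ∉ P := by
    by_contra hcon
    push Not at hcon
    apply hnot
    rw [irr, Ideal.span_le]
    rintro _ ⟨i, rfl⟩
    exact hcon i
  exact hC P i hi

end cone

end Pool.Agent.Helper796_theta.Fam
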