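import Mathlib
import Pool.Agent.Helper796_theta.Data

set_option autoImplicit false

/-!
# Degeneration of theta to the cone of the weighted leading form
-/

open Function TensorProduct IsLocalRing CategoryTheory

universe u

namespace Pool.Agent.Helper796_theta

/-- A grading by the integers of a module over `k[X_0, …, X_d] / (F)`, where `X_i` has degree
`w i`. -/
structure IsGraded {k : Type u} [Field k] {n : ℕ} (w : Fin n → ℕ) (F : MvPolynomial (Fin n) k)
    (M₀ : Type u) [AddCommGroup M₀] [Module (MvPolynomial (Fin n) k ⧸ Ideal.span {F}) M₀]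
    (𝒢 : ℤ → AddSubgroup M₀) : Prop where
  internal : DirectSum.IsInternal 𝒢
  smul_C : ∀ (c : k) (j : ℤ) (z : M₀), z ∈ 𝒢 j →
    (Ideal.Quotient.mk (Ideal.span {F}) (MvPolynomial.C c)) • z ∈ 𝒢 j
  smul_X : ∀ (i : Fin n) (j : ℤ) (z : M₀), z ∈ 𝒢 j →
    (Ideal.Quotient.mk (Ideal.span {F}) (MvPolynomial.X i)) • z ∈ 𝒢 (j + w i)

namespace Fam

variable {R : Type u} [CommRing R] [IsRegularLocalRing R] {d : ℕ} {x : Fin (d + 1) → R}
  {w : Fin (d + 1) → ℕ} {L : ℕ} {Fh : MvPolynomial (Fin (d + 1)) R}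

lemma dim_AA (hd : ringKrullDim R = (d + 1 : ℕ)) :
    ringKrullDim (AA x w L Fh) ≤ (d + 1 + 1 + (d + 1) : ℕ) := by
  refine (ringKrullDim_le_of_surjective (mkA x w L Fh) (mkA_surj x w L Fh)).trans ?_
  rw [MvPolynomial.ringKrullDim_of_isNoetherianRing, Polynomial.ringKrullDim_of_isNoetherianRing,
    hd, Nat.card_eq_fintype_card, Fintype.card_fin]
  push_cast
  exact le_rfl

theorem main1 (h : Hyp x w L Fh) (hx : Ideal.span (Set.range x) = maximalIdeal R)
    (hd : ringKrullDim R = (d + 1 : ℕ))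
    (hk : RingHom.ker (residue R) = IR x (d + 1))
    (hA : ∀ (P : Ideal (HA x Fh)) [P.IsPrime], ¬ P.IsMaximal →
      IsRegularLocalRing (Localization.AtPrime P))
    (hC : ∀ (P : Ideal (CA (residue R) w L Fh)) [P.IsPrime] (i : Fin (d + 1)),
      Ideal.Quotient.mk _ (MvPolynomial.X i) ∉ P →
        IsRegularLocalRing (Localization.AtPrime P))
    (hF : lead (residue R) w L Fh ≠ 0) (hF0 : (lead (residue R) w L Fh).coeff 0 = 0)
    (M N : Type u) [AddCommGroup M] [Module (HA x Fh) M] [Module.Finite (HA x Fh) M]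
    [AddCommGroup N] [Module (HA x Fh) N] [Module.Finite (HA x Fh) N] :
    ∃ (M₀ N₀ : Type u) (_ : AddCommGroup M₀) (_ : Module (CA (residue R) w L Fh) M₀)
      (_ : AddCommGroup N₀) (_ : Module (CA (residue R) w L Fh) N₀)
      (𝒢 : ℤ → AddSubgroup M₀) (ℋ : ℤ → AddSubgroup N₀),
      Module.Finite (CA (residue R) w L Fh) M₀ ∧ Module.Finite (CA (residue R) w L Fh) N₀ ∧
      IsGraded w (lead (residue R) w L Fh) M₀ 𝒢 ∧ IsGraded w (lead (residue R) w L Fh) N₀ ℋ ∧
      ∀ e : ℕ, d ≤ 2 * e → thTor (HA x Fh) e M N = thTor (CA (residue R) w L Fh) e M₀ N₀ := by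
  let _ : Algebra (HA x Fh) (AA x w L Fh) := (aA h).toAlgebra
  let _ : Algebra (AA x w L Fh) (LaurentPolynomial (HA x Fh)) := (lau h).toAlgebra
  have _ : IsScalarTower (HA x Fh) (AA x w L Fh) (LaurentPolynomial (HA x Fh)) :=
    IsScalarTower.of_algebraMap_eq (fun a => (lau_aA h a).symm)
  let _ : Algebra (AA x w L Fh) (CA (residue R) w L Fh) := (ev0 h hk).toAlgebra
  have hρ : Surjective (residue R) := residue_surjective
  have hCred : RedRing (tA x w L Fh) (CA (residue R) w L Fh) := redRing_zero hρ h hk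
  have hcl : ∀ S (b : AA x w L Fh), ∃ b', (lauZ (HA x Fh)).fil S
      (algebraMap (AA x w L Fh) (LaurentPolynomial (HA x Fh)) b) =
      algebraMap (AA x w L Fh) (LaurentPolynomial (HA x Fh)) b' := fun S b => clo h b S
  have ht : algebraMap (AA x w L Fh) (LaurentPolynomial (HA x Fh)) (tA x w L Fh) =
    LaurentPolynomial.T 1 := lau_t h
  have hgr : ∀ (M : Type u) [AddCommGroup M] [Module (HA x Fh) M],
      IsGraded w (lead (residue R) w L Fh) (M0 (HA x Fh) (AA x w L Fh)
        (LaurentPolynomial (HA x Fh)) (CA (residue R) w L Fh) M)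
        (gr (lauZ (HA x Fh)) ht hcl hCred M) := by
    intro M _ _
    refine ⟨gr_internal (lauZ (HA x Fh)) ht hcl hCred, ?_, ?_⟩
    · intro c j z hz
      obtain ⟨r, rfl⟩ := hρ c
      have h1 := gr_hom (lauZ (HA x Fh)) ht hcl hCred 0 (rA x w L Fh r)
        ⟨Ideal.Quotient.mk _ r, by
          rw [pow_zero, one_mul]
          exact lau_r h r⟩ hz
      have h2 : algebraMap (AA x w L Fh) (CA (residue R) w L Fh) (rA x w L Fh r) =
        Ideal.Quotient.mk _ (MvPolynomial.C (residue R r)) := ev0_r h hk r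
      rw [h2] at h1
      simpa using h1
    · intro i j z hz
      have h1 := gr_hom (lauZ (HA x Fh)) ht hcl hCred (w i) (yA x w L Fh i)
        ⟨Ideal.Quotient.mk _ (x i), lau_T_pow_y h i⟩ hz
      have h2 : algebraMap (AA x w L Fh) (CA (residue R) w L Fh) (yA x w L Fh i) =
        Ideal.Quotient.mk _ (MvPolynomial.X i) := ev0_y h hk i
      rw [h2] at h1
      exact h1
  let _ : Algebra (AA x w L Fh) (HA x Fh) := (ev1 h).toAlgebra
  have hAred : RedRing (tA x w L Fh - 1) (HA x Fh) := redRing_one h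
  have HA' := hypData_A h hx hd hA
  have HC' := hypData_C hF hF0 hC
  have hmem : ∀ (P : Ideal (HA x Fh)) [P.IsPrime] (i : Fin (d + 1)),
      Ideal.Quotient.mk _ (x i) ∉ P → RegAt P := by
    intro P _ i hi
    apply hA P
    intro hPm
    apply hi
    have hfm : Ideal.span {MvPolynomial.eval x Fh} ≤ maximalIdeal R := by
      rw [Ideal.span_singleton_le_iff_mem]
      apply eval_mem h
      intro i
      rw [← hx]
      exact Ideal.subset_span ⟨i, rfl⟩
    have hloc := quot_local hfm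
    rw [IsLocalRing.eq_maximalIdeal hPm, ← H379R3.map_mk_maximalIdeal]
    apply Ideal.mem_map_of_mem
    rw [← hx]
    exact Ideal.subset_span ⟨i, rfl⟩
  refine ⟨_, _, inferInstance, inferInstance, inferInstance, inferInstance, _, _,
    inferInstance, inferInstance, hgr M, hgr N, ?_⟩
  intro e he
  exact transfer2 (B := AA x w L Fh) (A := HA x Fh) (Λ := LaurentPolynomial (HA x Fh))
    (C := CA (residue R) w L Fh) (lauZ (HA x Fh)) ht hAred hCred (fun a => ev1_aA h a)
    (aug (HA x Fh)) (fun a => aug_C _ a) (fun b => aug_lau h b)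
    (lineLike_t1 hρ h hk) (lineLike_t hρ h hk) (dim_AA hd)
    (fun P _ hP => regAt_fam h hρ hk hmem hC P hP) HA' HC' M N e he

end Fam

end Pool.Agent.Helper796_theta
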