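import Mathlib
import Pool.Agent.Helper796_theta.Bc
import Pool.Agent.Helper796_theta.Main1

set_option autoImplicit false

/-!
# Graded modules are invariant under the torus
-/

open TensorProduct Function

universe u

namespace Pool.Agent.Helper796_theta

section

variable {k K : Type u} [Field k] [Field K] [Algebra k K] {n : ℕ}

/-- constants -/
noncomputable def cst (F : MvPolynomial (Fin n) K) : K →+* EE F :=
  (Ideal.Quotient.mk (Ideal.span {F})).comp MvPolynomial.C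

lemma sc_cst {F : MvPolynomial (Fin n) K} (u : Fin n → K) (hu : F ∣ sclP u F) (a : K) :
    sc F u hu (cst F a) = cst F a := by
  change sc F u hu (Ideal.Quotient.mk _ (MvPolynomial.C a)) = Ideal.Quotient.mk _ (MvPolynomial.C a)
  rw [sc_mk, sclP_C]

variable {w : Fin n → ℕ} {F₀ : MvPolynomial (Fin n) k} {L : ℕ}

lemma mp_X (l : Fin n) : mp k K (Fin n) (MvPolynomial.X l) = MvPolynomial.X l :=
  MvPolynomial.map_X _ _

lemma mp_C (a : k) : mp k K (Fin n) (MvPolynomial.C a) = MvPolynomial.C (algebraMap k K a) :=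
  MvPolynomial.map_C _ _

lemma mp_weight (hFw : ∀ α, F₀.coeff α ≠ 0 → Finsupp.weight w α = L) :
    ∀ α, (mp k K (Fin n) F₀).coeff α ≠ 0 → Finsupp.weight w α = L := by
  intro α h
  apply hFw
  intro h0
  apply h
  rw [mp, MvPolynomial.coeff_map, h0, map_zero]

lemma mp_dvd (hFw : ∀ α, F₀.coeff α ≠ 0 → Finsupp.weight w α = L) (z : K) :
    mp k K (Fin n) F₀ ∣ sclP (fun l => z ^ w l) (mp k K (Fin n) F₀) := by
  rw [sclP_weight (mp_weight hFw)]
  exact Dvd.intro_left _ rfl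

variable {M₀ : Type u} [AddCommGroup M₀] [Module (EE F₀) M₀] {𝒢 : ℤ → AddSubgroup M₀}

/-- decomposition -/
noncomputable def decE (hI : DirectSum.IsInternal 𝒢) : (DirectSum ℤ fun j => 𝒢 j) ≃+ M₀ :=
  AddEquiv.ofBijective (DirectSum.coeAddMonoidHom 𝒢) hI

lemma homog_induct (hI : DirectSum.IsInternal 𝒢) {p : M₀ → Prop} (h0 : p 0)
    (h1 : ∀ j, ∀ z ∈ 𝒢 j, p z) (h2 : ∀ a b, p a → p b → p (a + b)) (z : M₀) : p z := by
  obtain ⟨x, rfl⟩ := (decE hI).surjective z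
  induction x using DirectSum.induction_on with
  | zero => rw [map_zero]; exact h0
  | of j y =>
    have : decE hI (DirectSum.of (fun j => 𝒢 j) j y) = y :=
      DirectSum.coeAddMonoidHom_of 𝒢 j y
    rw [this]
    exact h1 j y y.2
  | add x y hx hy => rw [map_add]; exact h2 _ _ hx hy

variable (F₀) in
/-- the algebra structure -/
noncomputable abbrev algE (k K : Type u) [Field k] [Field K] [Algebra k K] {n : ℕ}
    (F₀ : MvPolynomial (Fin n) k) : Algebra (EE F₀) (EE (mp k K (Fin n) F₀)) :=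
  (cE k K F₀).toAlgebra

attribute [local instance] algE

/-- the torus action on homogeneous elements -/
noncomputable def psiG (hI : DirectSum.IsInternal 𝒢) (z : K) :
    M₀ →+ EE (mp k K (Fin n) F₀) ⊗[EE F₀] M₀ :=
  (DirectSum.toAddMonoid fun j =>
    { toFun := fun m : 𝒢 j => (cst (mp k K (Fin n) F₀) (z ^ j)) ⊗ₜ[EE F₀] (m : M₀)
      map_zero' := by rw [AddSubgroup.coe_zero, TensorProduct.tmul_zero]
      map_add' := fun a b => by rw [AddSubgroup.coe_add, TensorProduct.tmul_add] }).comp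
    (decE hI).symm.toAddMonoidHom

lemma psiG_homog (hI : DirectSum.IsInternal 𝒢) (z : K) {j : ℤ} {m : M₀} (hm : m ∈ 𝒢 j) :
    psiG (F₀ := F₀) hI z m = (cst (mp k K (Fin n) F₀) (z ^ j)) ⊗ₜ[EE F₀] m := by
  have h1 : decE hI (DirectSum.of (fun j => 𝒢 j) j ⟨m, hm⟩) = m :=
    DirectSum.coeAddMonoidHom_of 𝒢 j ⟨m, hm⟩
  have h2 : (decE hI).symm m = DirectSum.of (fun j => 𝒢 j) j ⟨m, hm⟩ := by
    rw [AddEquiv.symm_apply_eq, h1]
  change DirectSum.toAddMonoid _ ((decE hI).symm m) = _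
  rw [h2, DirectSum.toAddMonoid_of]
  rfl

lemma tmul_smul_E (e : EE (mp k K (Fin n) F₀)) (c : EE F₀) (m : M₀) :
    e ⊗ₜ[EE F₀] (c • m) = (cE k K F₀ c * e) ⊗ₜ[EE F₀] m := by
  rw [TensorProduct.tmul_smul, TensorProduct.smul_tmul', Algebra.smul_def]
  rfl

lemma psiG_X (h : IsGraded w F₀ M₀ 𝒢) (hFw : ∀ α, F₀.coeff α ≠ 0 → Finsupp.weight w α = L)
    (z : K) (hz : z ≠ 0) (l : Fin n) (m : M₀) :
    psiG (F₀ := F₀) h.internal z (Ideal.Quotient.mk (Ideal.span {F₀}) (MvPolynomial.X l) • m) =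
      sc (mp k K (Fin n) F₀) (fun l => z ^ w l) (mp_dvd hFw z)
        (cE k K F₀ (Ideal.Quotient.mk _ (MvPolynomial.X l))) • psiG (F₀ := F₀) h.internal z m := by
  induction m using homog_induct h.internal with
  | h0 => rw [smul_zero, map_zero, smul_zero]
  | h1 j m hm =>
    rw [psiG_homog _ _ (h.smul_X l j m hm), psiG_homog _ _ hm, tmul_smul_E, cE_mk,
      mp_X, sc_mk, sclP_X, TensorProduct.smul_tmul', smul_eq_mul, map_mul]
    congr 1
    have h1 : cst (mp k K (Fin n) F₀) (z ^ (j + (w l : ℤ))) =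
        cst (mp k K (Fin n) F₀) (z ^ w l) * cst (mp k K (Fin n) F₀) (z ^ j) := by
      rw [← map_mul, zpow_add₀ hz, zpow_natCast, mul_comm]
    rw [h1]
    have h2 : Ideal.Quotient.mk (Ideal.span {mp k K (Fin n) F₀})
        (MvPolynomial.C (z ^ w l)) = cst (mp k K (Fin n) F₀) (z ^ w l) := rfl
    rw [h2]
    ring
  | h2 a b ha hb => rw [smul_add, map_add, ha, hb, map_add, smul_add]

lemma psiG_C (h : IsGraded w F₀ M₀ 𝒢) (hFw : ∀ α, F₀.coeff α ≠ 0 → Finsupp.weight w α = L)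
    (z : K) (a : k) (m : M₀) :
    psiG (F₀ := F₀) h.internal z (Ideal.Quotient.mk (Ideal.span {F₀}) (MvPolynomial.C a) • m) =
      sc (mp k K (Fin n) F₀) (fun l => z ^ w l) (mp_dvd hFw z)
        (cE k K F₀ (Ideal.Quotient.mk _ (MvPolynomial.C a))) • psiG (F₀ := F₀) h.internal z m := by
  induction m using homog_induct h.internal with
  | h0 => rw [smul_zero, map_zero, smul_zero]
  | h1 j m hm =>
    rw [psiG_homog _ _ (h.smul_C a j m hm), psiG_homog _ _ hm, tmul_smul_E, cE_mk,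
      mp_C, sc_mk, sclP_C, TensorProduct.smul_tmul', smul_eq_mul]
  | h2 a b ha hb => rw [smul_add, map_add, ha, hb, map_add, smul_add]

lemma psiG_smul (h : IsGraded w F₀ M₀ 𝒢) (hFw : ∀ α, F₀.coeff α ≠ 0 → Finsupp.weight w α = L)
    (z : K) (hz : z ≠ 0) (c : EE F₀) (m : M₀) :
    psiG (F₀ := F₀) h.internal z (c • m) =
      sc (mp k K (Fin n) F₀) (fun l => z ^ w l) (mp_dvd hFw z)
        (cE k K F₀ c) • psiG (F₀ := F₀) h.internal z m := by
  obtain ⟨p, rfl⟩ := Ideal.Quotient.mk_surjective c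
  induction p using MvPolynomial.induction_on generalizing m with
  | C a => exact psiG_C h hFw z a m
  | add p q hp hq => rw [map_add, add_smul, map_add, hp, hq, map_add, map_add, add_smul]
  | mul_X p l hp =>
    rw [map_mul, mul_smul, hp, psiG_X h hFw z hz, map_mul, map_mul]
    have h1 := mul_smul (sc (mp k K (Fin n) F₀) (fun l => z ^ w l) (mp_dvd hFw z)
      (cE k K F₀ (Ideal.Quotient.mk (Ideal.span {F₀}) p)))
      (sc (mp k K (Fin n) F₀) (fun l => z ^ w l) (mp_dvd hFw z)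
      (cE k K F₀ (Ideal.Quotient.mk (Ideal.span {F₀}) (MvPolynomial.X l))))
      (psiG (F₀ := F₀) h.internal z m)
    exact h1.symm

/-- the torus action -/
noncomputable def PhiG (h : IsGraded w F₀ M₀ 𝒢)
    (hFw : ∀ α, F₀.coeff α ≠ 0 → Finsupp.weight w α = L) (z : K) (hz : z ≠ 0) :
    EE (mp k K (Fin n) F₀) ⊗[EE F₀] M₀ →ₗ[EE (mp k K (Fin n) F₀)]
      Tw (sc (mp k K (Fin n) F₀) (fun l => z ^ w l) (mp_dvd hFw z))
        (EE (mp k K (Fin n) F₀) ⊗[EE F₀] M₀) :=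
  letI : Module (EE F₀) (Tw (sc (mp k K (Fin n) F₀) (fun l => z ^ w l) (mp_dvd hFw z))
        (EE (mp k K (Fin n) F₀) ⊗[EE F₀] M₀)) := Module.compHom _ (cE k K F₀)
  haveI : IsScalarTower (EE F₀) (EE (mp k K (Fin n) F₀))
    (Tw (sc (mp k K (Fin n) F₀) (fun l => z ^ w l) (mp_dvd hFw z))
        (EE (mp k K (Fin n) F₀) ⊗[EE F₀] M₀)) := ⟨fun c e y => by
    rw [Algebra.smul_def, mul_smul]; rfl⟩
  LinearMap.liftBaseChange (EE (mp k K (Fin n) F₀))
    ({ toFun := fun m => Tw.of _ _ (psiG (F₀ := F₀) h.internal z m)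
       map_add' := fun a b => by rw [map_add, map_add]
       map_smul' := fun c m => by
        rw [psiG_smul h hFw z hz]
        rfl } : M₀ →ₗ[EE F₀] Tw (sc (mp k K (Fin n) F₀) (fun l => z ^ w l) (mp_dvd hFw z))
        (EE (mp k K (Fin n) F₀) ⊗[EE F₀] M₀))

lemma PhiG_tmul (h : IsGraded w F₀ M₀ 𝒢)
    (hFw : ∀ α, F₀.coeff α ≠ 0 → Finsupp.weight w α = L) (z : K) (hz : z ≠ 0)
    (e : EE (mp k K (Fin n) F₀)) (m : M₀) : PhiG h hFw z hz (e ⊗ₜ m) =
      Tw.of _ _ (sc (mp k K (Fin n) F₀) (fun l => z ^ w l) (mp_dvd hFw z) e •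
        psiG (F₀ := F₀) h.internal z m) := rfl

lemma PhiG_PhiG (h : IsGraded w F₀ M₀ 𝒢)
    (hFw : ∀ α, F₀.coeff α ≠ 0 → Finsupp.weight w α = L) (z z' : K) (hz : z ≠ 0) (hz' : z' ≠ 0)
    (hzz : z * z' = 1) (y : EE (mp k K (Fin n) F₀) ⊗[EE F₀] M₀) :
    (Tw.of _ _).symm (PhiG h hFw z' hz' ((Tw.of _ _).symm (PhiG h hFw z hz y))) = y := by
  induction y using TensorProduct.induction_on with
  | zero => simp
  | tmul e m =>
    induction m using homog_induct h.internal with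
    | h0 => simp
    | h1 j m hm =>
      rw [PhiG_tmul, AddEquiv.symm_apply_apply, psiG_homog _ _ hm, TensorProduct.smul_tmul',
        smul_eq_mul, PhiG_tmul, AddEquiv.symm_apply_apply, psiG_homog _ _ hm,
        TensorProduct.smul_tmul', smul_eq_mul, map_mul, sc_sc, sc_cst, mul_assoc, ← map_mul,
        ← mul_zpow, hzz, one_zpow, map_one, mul_one]
      congr 1
      have h1 : ((fun l => z' ^ w l) * fun l => z ^ w l) = (1 : Fin n → K) := by
        funext l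
        rw [Pi.mul_apply, ← mul_pow, mul_comm, hzz, one_pow]
        rfl
      rw [sc_congr h1 _ (by rw [sclP_one]), sc_one]
    | h2 a b ha hb => rw [TensorProduct.tmul_add, map_add, map_add, map_add, map_add, ha, hb]
  | add a b ha hb => rw [map_add, map_add, map_add, map_add, ha, hb]

theorem graded_twist (h : IsGraded w F₀ M₀ 𝒢)
    (hFw : ∀ α, F₀.coeff α ≠ 0 → Finsupp.weight w α = L) (z : K) (hz : z ≠ 0)
    (hd : mp k K (Fin n) F₀ ∣ sclP (fun l => z ^ w l) (mp k K (Fin n) F₀)) :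
    Nonempty ((EE (mp k K (Fin n) F₀) ⊗[EE F₀] M₀) ≃ₗ[EE (mp k K (Fin n) F₀)]
      Tw (sc (mp k K (Fin n) F₀) (fun l => z ^ w l) hd)
        (EE (mp k K (Fin n) F₀) ⊗[EE F₀] M₀)) := by
  have hz' : z⁻¹ ≠ 0 := inv_ne_zero hz
  refine ⟨LinearEquiv.ofBijective (PhiG h hFw z hz) ⟨?_, ?_⟩⟩
  · intro a b hab
    rw [← PhiG_PhiG h hFw z z⁻¹ hz hz' (mul_inv_cancel₀ hz) a, hab,
      PhiG_PhiG h hFw z z⁻¹ hz hz' (mul_inv_cancel₀ hz) b]
  · intro y
    refine ⟨(Tw.of _ _).symm (PhiG h hFw z⁻¹ hz' ((Tw.of _ _).symm y)), ?_⟩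
    have h1 := PhiG_PhiG h hFw z⁻¹ z hz' hz (inv_mul_cancel₀ hz) ((Tw.of _ _).symm y)
    exact (Tw.of _ _).symm.injective h1

end

end Pool.Agent.Helper796_theta
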