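import Mathlib
import Pool.Agent.Helper796_theta.GrTw

set_option autoImplicit false

/-!
# Vanishing of theta on graded modules, for lack of characters
-/

open TensorProduct Function

universe u

namespace Pool.Agent.Helper796_theta

section thAdd

variable {Q A : Type u} [CommRing Q] [CommRing A] [Algebra Q A] {f : Q} {D : ℕ} {𝔪 : Ideal A}

/-- theta as an additive function -/
noncomputable def thAdd (h : HypData Q A f D 𝔪) (T : Tower A) (hT : T.IsFin) (i : ℕ)
    (hi : D ≤ i) : AddFn A where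
  toFun M _ _ := th T i M
  add := fun h' h0 h'' f g hf hg hfg => by
    have g' := @HypData.good _ _ _ _ _ _ _ _ h T hT _ _ _ h'
    have g0 := @HypData.good _ _ _ _ _ _ _ _ h T hT _ _ _ h0
    have g'' := @HypData.good _ _ _ _ _ _ _ _ h T hT _ _ _ h''
    exact th_add f g hf hg hfg g' g0 g'' i hi

lemma th_zero_of_bot (T : Tower A) (M : Type u) [AddCommGroup M] [Module A M] (i : ℕ)
    (h0 : T.K M i = ⊥) (h1 : T.K M (i + 1) = ⊥) : th T i M = 0 := by
  have h : ∀ j, T.K M j = ⊥ → kn T M j = 0 := by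
    intro j hj
    rw [kn, hj]
    have : Subsingleton (⊥ : Submodule A (M ⊗[A] T.S (j + 1))) := inferInstance
    rw [Module.length_eq_zero_iff.2 this]
    rfl
  rw [th, h i h0, h (i + 1) h1, sub_self]

end thAdd

section field

variable {k : Type u} [Field k] {d : ℕ}

lemma dim_PJ (i : Fin (d + 1)) : ringKrullDim (PJ k i) ≤ d := by
  rw [MvPolynomial.ringKrullDim_of_isNoetherianRing, ringKrullDim_eq_zero_of_field, zero_add]
  have : Nat.card {l : Fin (d + 1) // l ≠ i} = d := by
    rw [Nat.card_eq_fintype_card, Fintype.card_subtype_compl, Fintype.card_fin,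
      Fintype.card_subtype_eq]
    rfl
  rw [this]

lemma GD_PJ (i : Fin (d + 1)) : GD (PJ k i) d := GD_of_regular (dim_PJ i)

theorem gr_vanish {F₀ : MvPolynomial (Fin (d + 1)) k} {𝔪 : Ideal (EE F₀)}
    (H : HypData (MvPolynomial (Fin (d + 1)) k) (EE F₀) F₀ d 𝔪) {p : ℕ} [ExpChar k p]
    (w : Fin (d + 1) → ℕ) (L : ℕ) (hFw : ∀ α, F₀.coeff α ≠ 0 → Finsupp.weight w α = L)
    (I : Finset (Fin (d + 1))) (a e : Fin (d + 1) → ℕ) (ha : ∀ i ∈ I, (a i : k) ≠ 0)
    (hI : ∀ i ∈ I, ∃ c : k, c ≠ 0 ∧ ∃ G : PJ k i,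
      F₀ = MvPolynomial.C c * MvPolynomial.X i ^ (a i * p ^ e i) +
        MvPolynomial.rename Subtype.val G)
    (g : ℕ) (hg : (g : k) ≠ 0) (hgL : g ∣ L) (hgw : ∀ i, i ∉ I → g ∣ w i)
    (hNC : ∀ b : Fin (d + 1) → ℕ, (∀ i ∈ I, 0 < b i ∧ b i < a i) → ¬ g ∣ ∑ i ∈ I, b i * w i)
    (T : Tower (EE F₀)) (hT : T.IsFin) (i : ℕ) (hi : d ≤ i)
    {M₀ : Type u} [AddCommGroup M₀] [Module (EE F₀) M₀] [Module.Finite (EE F₀) M₀]
    {𝒢 : ℤ → AddSubgroup M₀} (hgr : IsGraded w F₀ M₀ 𝒢) : th T i M₀ = 0 := by
  have hcast : ∀ m : ℕ, (m : k) ≠ 0 → 0 < m := by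
    intro m hm
    rcases Nat.eq_zero_or_pos m with h | h
    · subst h; simp at hm
    · exact h
  have hgpos := hcast g hg
  set N := g * ∏ i ∈ I, a i with hN
  have hNk : NeZero ((N : ℕ) : k) := ⟨by
    rw [hN]
    push_cast
    exact mul_ne_zero hg (Finset.prod_ne_zero_iff.2 ha)⟩
  have hN0 : N ≠ 0 := fun h => hNk.out (by rw [h, Nat.cast_zero])
  have hN0' : NeZero N := ⟨hN0⟩
  let K := CyclotomicField N k
  have hcyc : IsCyclotomicExtension {N} k K := CyclotomicField.isCyclotomicExtension N k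
  obtain ⟨ω, hω⟩ := hcyc.exists_isPrimitiveRoot (Set.mem_singleton N) hN0
  have hfd : FiniteDimensional k K := IsCyclotomicExtension.finiteDimensional {N} k K
  have hexp : ExpChar K p := expChar_of_injective_ringHom (algebraMap k K).injective p
  let β := Module.finBasis k K
  let _ : Algebra (EE F₀) (EE (mp k K (Fin (d + 1)) F₀)) := algE k K F₀
  obtain ⟨B⟩ := exists_basis_cE (F₀ := F₀) β
  have hfin : Module.Finite (EE F₀) (EE (mp k K (Fin (d + 1)) F₀)) := Module.Finite.of_basis B
  let θ := thAdd H T hT i hi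
  have hvan := van (K := K) (F := mp k K (Fin (d + 1)) F₀) (p := p) w L (mp_weight hFw) I a e
    (fun i hi => hcast _ (ha i hi)) (by
      intro i hi
      obtain ⟨c, hc, G, hFG⟩ := hI i hi
      refine ⟨algebraMap k K c, by simpa using hc, MvPolynomial.map (algebraMap k K) G, ?_⟩
      conv_lhs => rw [hFG]
      rw [map_add, map_mul, map_pow, mp_C, mp_X]
      congr 1
      exact MvPolynomial.map_rename _ _ _)
    g (by
      intro h0
      apply hg
      apply (algebraMap k K).injective
      rw [map_natCast, h0, map_zero]) hgL hgw hNC ω hω (θ.res) (by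
      intro j hj
      obtain ⟨c, hc, G, hFG⟩ := hI j hj
      intro X _ _ _
      let _ : Algebra (PJ K j) (EE (mp k K (Fin (d + 1)) F₀)) := pjAlg _ j
      let _ : Algebra (PJ k j) (EE F₀) := pjAlg F₀ j
      let _ : Algebra (PJ k j) (PJ K j) := (mp k K {l : Fin (d + 1) // l ≠ j}).toAlgebra
      let _ : Module (PJ k j) X := Module.compHom X (algebraMap (PJ k j) (PJ K j))
      have _ : IsScalarTower (PJ k j) (PJ K j) X := ⟨fun p c m => by
        rw [Algebra.smul_def, mul_smul]; rfl⟩
      obtain ⟨n, hn⟩ : ∃ n, a j * p ^ e j = n + 1 := ⟨a j * p ^ e j - 1, by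
        have := Nat.mul_pos (hcast _ (ha j hj)) (pow_pos (expChar_pos k p) (e j)); omega⟩
      rw [hn] at hFG
      have hFG' : mp k K (Fin (d + 1)) F₀ = MvPolynomial.C (algebraMap k K c) *
          MvPolynomial.X j ^ (n + 1) +
            MvPolynomial.rename Subtype.val (MvPolynomial.map (algebraMap k K) G) := by
        conv_lhs => rw [hFG]
        rw [map_add, map_mul, map_pow, mp_C, mp_X]
        congr 1
        exact MvPolynomial.map_rename _ _ _
      obtain ⟨b, hb⟩ := exists_basis hc hFG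
      obtain ⟨b₂, hb₂⟩ := exists_basis (by simpa using hc) hFG'
      have hfree : Module.Free (PJ k j) (EE F₀) := Module.Free.of_basis b
      have hfinC : Module.Finite (PJ k j) (EE F₀) := Module.Finite.of_basis b
      obtain ⟨φ⟩ := ind_equiv (P := PJ k j) (C := EE F₀) (P₂ := PJ K j)
        (E := EE (mp k K (Fin (d + 1)) F₀)) b b₂ (by
          intro l
          rw [hb, hb₂, map_pow]
          congr 1
          change cE k K F₀ _ = _
          rw [cE_mk, mp_X]) (by
          intro q
          change cE k K F₀ (Ideal.Quotient.mk (Ideal.span {F₀})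
            (MvPolynomial.rename Subtype.val q)) = Ideal.Quotient.mk _
              (MvPolynomial.rename Subtype.val (MvPolynomial.map (algebraMap k K) q))
          rw [cE_mk]
          congr 1
          exact MvPolynomial.map_rename _ _ _) X
      have h1 : th T i (EE F₀ ⊗[PJ k j] X) = 0 := by
        apply th_zero_of_bot
        · exact K_induced (GD_PJ j) T hT X i hi
        · exact K_induced (GD_PJ j) T hT X (i + 1) (by omega)
      rw [AddFn.res_toFun]
      have hE := H.noethA
      have h2 := θ.congr inferInstance φ.symm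
      rw [h2]
      exact h1)
    (EE (mp k K (Fin (d + 1)) F₀) ⊗[EE F₀] M₀) (by
      intro z hz hd
      have hz0 : z ≠ 0 := by
        rintro rfl
        rw [zero_pow hgpos.ne'] at hz
        exact zero_ne_one hz
      exact graded_twist hgr hFw z hz0 hd)
  have h1 := AddFn.res_baseChange θ B M₀
  rw [hvan] at h1
  have h2 : ((Module.finrank k K : ℕ) : ℤ) ≠ 0 := by
    exact_mod_cast (Module.finrank_pos (R := k) (M := K)).ne'
  exact (mul_eq_zero.1 h1.symm).resolve_left h2

end field

end Pool.Agent.Helper796_theta
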