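import Mathlib

set_option autoImplicit false

/-!
# Newton iteration for matrix factorizations
-/

open Function

universe u

namespace Pool.Agent.Helper796_theta

section dm

variable {R : Type u} [CommRing R] (D : Derivation ℤ R R) {l m n : Type} [Fintype m]

/-- a derivation applied to the entries -/
def dm {l m : Type} (A : Matrix l m R) : Matrix l m R := A.map D

lemma dm_add (A B : Matrix l n R) : dm D (A + B) = dm D A + dm D B := by
  ext i j
  exact map_add D _ _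

lemma dm_mul (A : Matrix l m R) (B : Matrix m n R) : dm D (A * B) = dm D A * B + A * dm D B := by
  ext i j
  rw [Matrix.add_apply, Matrix.mul_apply, Matrix.mul_apply]
  change D ((A * B) i j) = _
  rw [Matrix.mul_apply, map_sum, ← Finset.sum_add_distrib]
  refine Finset.sum_congr rfl fun k _ => ?_
  rw [D.leibniz, smul_eq_mul, smul_eq_mul, add_comm, mul_comm (B k j)]
  rfl

lemma dm_smul (c : R) (A : Matrix l n R) : dm D (c • A) = D c • A + c • dm D A := by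
  ext i j
  change D (c * A i j) = D c * A i j + c * D (A i j)
  rw [D.leibniz, smul_eq_mul, smul_eq_mul, add_comm, mul_comm (A i j)]

lemma dm_one [DecidableEq n] : dm D (1 : Matrix n n R) = 0 := by
  ext i j
  change D ((1 : Matrix n n R) i j) = 0
  rw [Matrix.one_apply]
  split_ifs
  · exact D.map_one_eq_zero
  · exact map_zero D

lemma dm_pow_zero {π : R} (h : D π = 0) (k : ℕ) : D (π ^ k) = 0 := by
  rw [D.leibniz_pow, h, smul_zero, smul_zero]

end dm

section step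

variable {R : Type u} [CommRing R] [IsDomain R] {n n' : ℕ}

/-- an approximate matrix factorization -/
def Apx (f π : R) (m : ℕ) (φ : Matrix (Fin n) (Fin n') R) (ψ : Matrix (Fin n') (Fin n) R) :
    Prop :=
  ∃ (E : Matrix (Fin n) (Fin n) R) (E' : Matrix (Fin n') (Fin n') R),
    φ * ψ = f • 1 + π ^ m • E ∧ ψ * φ = f • 1 + π ^ m • E'

theorem newton_step {f π b : R} (hπ : π ≠ 0) (D : Derivation ℤ R R) {s t : ℕ} (hs : 0 < s)
    (hf : D f + b * f = π ^ s) (ht : s + 1 ≤ t) {φ : Matrix (Fin n) (Fin n') R}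
    {ψ : Matrix (Fin n') (Fin n) R} (h : Apx f π (s + t) φ ψ) :
    ∃ (φ' : Matrix (Fin n) (Fin n') R) (ψ' : Matrix (Fin n') (Fin n) R),
      Apx f π (s + (t + 1)) φ' ψ' ∧ (∃ C, φ' = φ + π ^ t • C) ∧ ∃ C, ψ' = ψ + π ^ t • C := by
  obtain ⟨E, E', h1, h2⟩ := h
  have hπm : π ^ (s + t) ≠ 0 := pow_ne_zero _ hπ
  have c1 : φ * E' = E * φ := by
    have h3 : φ * (ψ * φ) = (φ * ψ) * φ := (Matrix.mul_assoc _ _ _).symm
    rw [h1, h2, Matrix.mul_add, Matrix.add_mul, Matrix.mul_smul, Matrix.smul_mul, Matrix.mul_one,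
      Matrix.one_mul, Matrix.mul_smul, Matrix.smul_mul] at h3
    have h4 := add_left_cancel h3
    exact smul_right_injective _ hπm h4
  have c2 : ψ * E = E' * ψ := by
    have h3 : ψ * (φ * ψ) = (ψ * φ) * ψ := (Matrix.mul_assoc _ _ _).symm
    rw [h1, h2, Matrix.mul_add, Matrix.add_mul, Matrix.mul_smul, Matrix.smul_mul, Matrix.mul_one,
      Matrix.one_mul, Matrix.mul_smul, Matrix.smul_mul] at h3
    have h4 := add_left_cancel h3
    exact smul_right_injective _ hπm h4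
  obtain ⟨r, rfl⟩ := Nat.exists_eq_add_of_le ht
  obtain ⟨s, rfl⟩ := Nat.exists_eq_succ_of_ne_zero hs.ne'
  rw [Nat.succ_eq_add_one] at *
  obtain ⟨u, hu⟩ : ∃ u, D (π ^ (s + 1 + (s + 1 + 1 + r))) = π ^ (s + 1 + 1 + (s + r)) * u := by
    have e : s + 1 + (s + 1 + 1 + r) - 1 = s + 1 + 1 + (s + r) := by omega
    rw [D.leibniz_pow, e]
    exact ⟨(s + 1 + (s + 1 + 1 + r) : ℕ) * D π, by
      rw [nsmul_eq_mul, smul_eq_mul]
      ring⟩
  obtain ⟨X, hX⟩ : ∃ X, X = dm D φ + b • φ := ⟨_, rfl⟩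
  obtain ⟨Y, hY⟩ : ∃ Y, Y = dm D ψ := ⟨_, rfl⟩
  have d1 : X * ψ + φ * Y = π ^ (s + 1) • 1 + π ^ (s + 1 + (s + 1 + 1 + r)) • (dm D E + b • E) +
      (π ^ (s + 1 + 1 + (s + r)) * u) • E := by
    have h3 : X * ψ + φ * Y = dm D (φ * ψ) + b • (φ * ψ) := by
      rw [dm_mul, hX, Matrix.add_mul, Matrix.smul_mul, hY]
      abel
    rw [h3, h1, dm_add, dm_smul, dm_smul, dm_one, hu, ← hf]
    module
  have d2 : Y * φ + ψ * X = π ^ (s + 1) • 1 + π ^ (s + 1 + (s + 1 + 1 + r)) • (dm D E' + b • E') +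
      (π ^ (s + 1 + 1 + (s + r)) * u) • E' := by
    have h3 : Y * φ + ψ * X = dm D (ψ * φ) + b • (ψ * φ) := by
      rw [dm_mul, hX, Matrix.mul_add, Matrix.mul_smul, hY]
      abel
    rw [h3, h2, dm_add, dm_smul, dm_smul, dm_one, hu, ← hf]
    module
  refine ⟨φ - π ^ (s + 1 + 1 + r) • (E * X), ψ - π ^ (s + 1 + 1 + r) • (E' * Y), ?_,
    ⟨-(E * X), ?_⟩, ⟨-(E' * Y), ?_⟩⟩
  · refine ⟨π ^ r • (E * X * (E' * Y)) - π ^ (s + 1 + r) • (E * (dm D E + b • E)) -
        (π ^ (s + r) * u) • (E * E),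
      π ^ r • (E' * Y * (E * X)) - π ^ (s + 1 + r) • (E' * (dm D E' + b • E')) -
        (π ^ (s + r) * u) • (E' * E'), ?_, ?_⟩
    · have h3 : (φ - π ^ (s + 1 + 1 + r) • (E * X)) * (ψ - π ^ (s + 1 + 1 + r) • (E' * Y)) =
          φ * ψ - π ^ (s + 1 + 1 + r) • (E * (X * ψ + φ * Y)) +
            π ^ (s + 1 + 1 + r) • π ^ (s + 1 + 1 + r) • (E * X * (E' * Y)) := by
        have h4 : φ * (E' * Y) = E * (φ * Y) := by
          rw [← Matrix.mul_assoc, c1, Matrix.mul_assoc]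
        rw [Matrix.sub_mul, Matrix.mul_sub, Matrix.mul_sub, Matrix.mul_smul, h4, Matrix.smul_mul,
          Matrix.smul_mul, Matrix.mul_smul, Matrix.mul_add, Matrix.mul_assoc E X ψ, smul_add]
        abel
      rw [h3, d1, h1, Matrix.mul_add, Matrix.mul_add, Matrix.mul_smul, Matrix.mul_smul,
        Matrix.mul_smul, Matrix.mul_one]
      module
    · have h3 : (ψ - π ^ (s + 1 + 1 + r) • (E' * Y)) * (φ - π ^ (s + 1 + 1 + r) • (E * X)) =
          ψ * φ - π ^ (s + 1 + 1 + r) • (E' * (Y * φ + ψ * X)) +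
            π ^ (s + 1 + 1 + r) • π ^ (s + 1 + 1 + r) • (E' * Y * (E * X)) := by
        have h4 : ψ * (E * X) = E' * (ψ * X) := by
          rw [← Matrix.mul_assoc, c2, Matrix.mul_assoc]
        rw [Matrix.sub_mul, Matrix.mul_sub, Matrix.mul_sub, Matrix.mul_smul, h4, Matrix.smul_mul,
          Matrix.smul_mul, Matrix.mul_smul, Matrix.mul_add, Matrix.mul_assoc E' Y φ, smul_add]
        abel
      rw [h3, d2, h2, Matrix.mul_add, Matrix.mul_add, Matrix.mul_smul, Matrix.mul_smul,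
        Matrix.mul_smul, Matrix.mul_one]
      module
  · rw [smul_neg, sub_eq_add_neg]
  · rw [smul_neg, sub_eq_add_neg]

end step

section limit

variable {R : Type u} [CommRing R] {π : R}

lemma smod_iff (x y : R) (k : ℕ) :
    x ≡ y [SMOD (Ideal.span {π} ^ k • ⊤ : Submodule R R)] ↔ π ^ k ∣ x - y := by
  rw [SModEq.sub_mem, Ideal.span_singleton_pow, smul_eq_mul, Ideal.mul_top,
    Ideal.mem_span_singleton]

lemma exists_limit [IsAdicComplete (Ideal.span {π}) R] (a : ℕ → R)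
    (ha : ∀ k j, π ^ k ∣ a (k + j) - a k) : ∃ L, ∀ k, π ^ k ∣ L - a k := by
  obtain ⟨L, hL⟩ := IsPrecomplete.prec (I := Ideal.span {π}) (M := R) inferInstance (f := a) (by
    intro m n hmn
    obtain ⟨j, rfl⟩ := Nat.exists_eq_add_of_le hmn
    rw [smod_iff]
    have := ha m j
    rwa [← dvd_neg, neg_sub] at this)
  refine ⟨L, fun k => ?_⟩
  have := (smod_iff _ _ _).1 (hL k)
  rwa [← dvd_neg, neg_sub] at this

lemma eq_zero_of_dvd [IsAdicComplete (Ideal.span {π}) R] (x : R) (hx : ∀ k, π ^ k ∣ x) :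
    x = 0 := by
  apply IsHausdorff.haus (I := Ideal.span {π}) (M := R) inferInstance x
  intro k
  rw [smod_iff, sub_zero]
  exact hx k

lemma exists_limit_matrix [IsAdicComplete (Ideal.span {π}) R] {m n : Type}
    (a : ℕ → Matrix m n R) (ha : ∀ k j, ∃ C : Matrix m n R, a (k + j) = a k + π ^ k • C) :
    ∃ L : Matrix m n R, ∀ k, ∃ C : Matrix m n R, L = a k + π ^ k • C := by
  have h1 : ∀ i j, ∃ L, ∀ k, π ^ k ∣ L - a k i j := by
    intro i j
    apply exists_limit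
    intro k l
    obtain ⟨C, hC⟩ := ha k l
    refine ⟨C i j, ?_⟩
    rw [hC, Matrix.add_apply, Matrix.smul_apply, smul_eq_mul, add_sub_cancel_left]
  choose L hL using h1
  refine ⟨Matrix.of L, fun k => ?_⟩
  choose C hC using fun i j => hL i j k
  refine ⟨Matrix.of C, ?_⟩
  ext i j
  rw [Matrix.add_apply, Matrix.smul_apply, smul_eq_mul]
  change L i j = a k i j + π ^ k * C i j
  rw [← hC]
  ring

variable [IsDomain R] {n n' : ℕ}

theorem newton_limit [IsAdicComplete (Ideal.span {π}) R] {f b : R} (hπ : π ≠ 0)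
    (D : Derivation ℤ R R) {s t : ℕ} (hs : 0 < s) (hf : D f + b * f = π ^ s) (ht : s + 1 ≤ t)
    {φ : Matrix (Fin n) (Fin n') R} {ψ : Matrix (Fin n') (Fin n) R} (h : Apx f π (s + t) φ ψ) :
    ∃ (φ' : Matrix (Fin n) (Fin n') R) (ψ' : Matrix (Fin n') (Fin n) R),
      φ' * ψ' = f • 1 ∧ ψ' * φ' = f • 1 ∧ (∃ C, φ' = φ + π ^ t • C) ∧
        ∃ C, ψ' = ψ + π ^ t • C := by
  let P : ℕ → Matrix (Fin n) (Fin n') R × Matrix (Fin n') (Fin n) R → Prop :=
    fun k p => Apx f π (s + (t + k)) p.1 p.2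
  have key : ∀ k (p : {p // P k p}), ∃ q : {q // P (k + 1) q},
      (∃ C, q.1.1 = p.1.1 + π ^ (t + k) • C) ∧ ∃ C, q.1.2 = p.1.2 + π ^ (t + k) • C := by
    rintro k ⟨p, hp⟩
    obtain ⟨φ', ψ', h1, h2, h3⟩ := newton_step hπ D hs hf (by omega : s + 1 ≤ t + k) hp
    exact ⟨⟨(φ', ψ'), h1⟩, h2, h3⟩
  choose nx hn1 hn2 using key
  let sq : ∀ k, {p // P k p} := fun k => Nat.rec ⟨(φ, ψ), h⟩ (fun k p => nx k p) k
  have hs0 : (sq 0).1 = (φ, ψ) := rfl
  have hs1 : ∀ k, sq (k + 1) = nx k (sq k) := fun k => rfl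
  have g1 : ∀ k j, ∃ C, (sq (k + j)).1.1 = (sq k).1.1 + π ^ (t + k) • C := by
    intro k j
    induction j with
    | zero => exact ⟨0, by rw [smul_zero]; exact (add_zero _).symm⟩
    | succ j ih =>
      obtain ⟨C, hC⟩ := ih
      obtain ⟨C', hC'⟩ := hn1 (k + j) (sq (k + j))
      refine ⟨C + π ^ j • C', ?_⟩
      rw [← Nat.add_assoc, hs1, hC', hC, smul_add, smul_smul, ← pow_add, add_assoc, add_assoc]
  have g2 : ∀ k j, ∃ C, (sq (k + j)).1.2 = (sq k).1.2 + π ^ (t + k) • C := by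
    intro k j
    induction j with
    | zero => exact ⟨0, by rw [smul_zero]; exact (add_zero _).symm⟩
    | succ j ih =>
      obtain ⟨C, hC⟩ := ih
      obtain ⟨C', hC'⟩ := hn2 (k + j) (sq (k + j))
      refine ⟨C + π ^ j • C', ?_⟩
      rw [← Nat.add_assoc, hs1, hC', hC, smul_add, smul_smul, ← pow_add, add_assoc, add_assoc]
  obtain ⟨φ', hφ'⟩ := exists_limit_matrix (π := π) (fun k => (sq k).1.1) (fun k j => by
    obtain ⟨C, hC⟩ := g1 k j
    refine ⟨π ^ t • C, ?_⟩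
    change (sq (k + j)).1.1 = (sq k).1.1 + _
    rw [hC, smul_smul, ← pow_add, add_comm k t])
  obtain ⟨ψ', hψ'⟩ := exists_limit_matrix (π := π) (fun k => (sq k).1.2) (fun k j => by
    obtain ⟨C, hC⟩ := g2 k j
    refine ⟨π ^ t • C, ?_⟩
    change (sq (k + j)).1.2 = (sq k).1.2 + _
    rw [hC, smul_smul, ← pow_add, add_comm k t])
  refine ⟨φ', ψ', ?_, ?_, ?_, ?_⟩
  · ext i j
    rw [← sub_eq_zero]
    apply eq_zero_of_dvd (π := π)
    intro k
    obtain ⟨C, hC⟩ := hφ' k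
    obtain ⟨C', hC'⟩ := hψ' k
    obtain ⟨E, E', h1, _⟩ := (sq k).2
    have h2 : φ' * ψ' = f • 1 + π ^ k • (π ^ (s + t) • E + (sq k).1.1 * C' + C * (sq k).1.2 +
        π ^ k • (C * C')) := by
      rw [hC, hC', Matrix.add_mul, Matrix.mul_add, Matrix.mul_add, h1, Matrix.mul_smul,
        Matrix.smul_mul, Matrix.smul_mul, Matrix.mul_smul]
      module
    refine ⟨(π ^ (s + t) • E + (sq k).1.1 * C' + C * (sq k).1.2 + π ^ k • (C * C')) i j, ?_⟩
    rw [h2, Matrix.add_apply, Matrix.smul_apply (π ^ k), smul_eq_mul, add_sub_cancel_left]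
  · ext i j
    rw [← sub_eq_zero]
    apply eq_zero_of_dvd (π := π)
    intro k
    obtain ⟨C, hC⟩ := hφ' k
    obtain ⟨C', hC'⟩ := hψ' k
    obtain ⟨E, E', _, h1⟩ := (sq k).2
    have h2 : ψ' * φ' = f • 1 + π ^ k • (π ^ (s + t) • E' + (sq k).1.2 * C + C' * (sq k).1.1 +
        π ^ k • (C' * C)) := by
      rw [hC, hC', Matrix.add_mul, Matrix.mul_add, Matrix.mul_add, h1, Matrix.mul_smul,
        Matrix.smul_mul, Matrix.smul_mul, Matrix.mul_smul]
      module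
    refine ⟨(π ^ (s + t) • E' + (sq k).1.2 * C + C' * (sq k).1.1 + π ^ k • (C' * C)) i j, ?_⟩
    rw [h2, Matrix.add_apply, Matrix.smul_apply (π ^ k), smul_eq_mul, add_sub_cancel_left]
  · obtain ⟨C, hC⟩ := hφ' t
    obtain ⟨C', hC'⟩ := g1 0 t
    rw [Nat.zero_add, Nat.add_zero, hs0] at hC'
    change φ' = (sq t).1.1 + _ at hC
    exact ⟨C' + C, by rw [hC, hC', smul_add, add_assoc]⟩
  · obtain ⟨C, hC⟩ := hψ' t
    obtain ⟨C', hC'⟩ := g2 0 t
    rw [Nat.zero_add, Nat.add_zero, hs0] at hC'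
    change ψ' = (sq t).1.2 + _ at hC
    exact ⟨C' + C, by rw [hC, hC', smul_add, add_assoc]⟩

end limit

end Pool.Agent.Helper796_theta
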