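import Mathlib
import Pool.Agent.Helper796_theta.Newton

set_option autoImplicit false

/-!
# Matrices acting on modules, and comparison modulo a power of a parameter
-/

open Function

universe u

namespace Pool.Agent.Helper796_theta

section mact

variable {R : Type u} [CommRing R] (N : Type u) [AddCommGroup N] [Module R N] {l m n : ℕ}

/-- a matrix acting on vectors with entries in a module -/
def mact (A : Matrix (Fin m) (Fin n) R) : (Fin n → N) →ₗ[R] (Fin m → N) :=
  LinearMap.pi fun i => ∑ j, A i j • LinearMap.proj j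

lemma mact_apply (A : Matrix (Fin m) (Fin n) R) (v : Fin n → N) (i : Fin m) :
    mact N A v i = ∑ j, A i j • v j := by
  rw [mact, LinearMap.pi_apply, LinearMap.sum_apply]
  rfl

lemma mact_mul (A : Matrix (Fin l) (Fin m) R) (B : Matrix (Fin m) (Fin n) R) (v : Fin n → N) :
    mact N (A * B) v = mact N A (mact N B v) := by
  funext i
  rw [mact_apply, mact_apply]
  simp only [mact_apply, Matrix.mul_apply, Finset.sum_smul, Finset.smul_sum, mul_smul]
  rw [Finset.sum_comm]

lemma mact_scalar (c : R) (v : Fin n → N) : mact N (c • (1 : Matrix (Fin n) (Fin n) R)) v =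
    c • v := by
  funext i
  rw [mact_apply, Finset.sum_eq_single i]
  · rw [Matrix.smul_apply, Matrix.one_apply_eq, smul_eq_mul, mul_one]; rfl
  · intro j _ hj
    rw [Matrix.smul_apply, Matrix.one_apply_ne hj.symm, smul_zero, zero_smul]
  · intro h
    exact absurd (Finset.mem_univ i) h

lemma mact_add (A B : Matrix (Fin m) (Fin n) R) (v : Fin n → N) :
    mact N (A + B) v = mact N A v + mact N B v := by
  funext i
  rw [Pi.add_apply, mact_apply, mact_apply, mact_apply, ← Finset.sum_add_distrib]
  exact Finset.sum_congr rfl fun j _ => by rw [Matrix.add_apply, add_smul]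

/-- the homology at the middle -/
abbrev Hq (A : Matrix (Fin m) (Fin n) R) (B : Matrix (Fin n) (Fin l) R) : Type u :=
  LinearMap.ker (mact N A) ⧸ (LinearMap.range (mact N B)).comap (LinearMap.ker (mact N A)).subtype

/-- the `j`-th graded piece of the homology for the filtration by powers of `c`, in a form which
makes sense for approximate data -/
abbrev Hj (c : R) (j : ℕ) (A : Matrix (Fin m) (Fin n) R) (B : Matrix (Fin n) (Fin l) R) : Type u :=
  LinearMap.ker (mact N A) ⧸ (LinearMap.range (mact N B) ⊔
    LinearMap.range (c ^ (j + 1) • (LinearMap.id : (Fin n → N) →ₗ[R] (Fin n → N)))).comap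
      (c ^ j • (LinearMap.ker (mact N A)).subtype)

variable {N} in
lemma mact_ann (D : Derivation ℤ R R) {f c b : R} (hD : D f + b * f = c)
    {A : Matrix (Fin m) (Fin n) R} {B : Matrix (Fin n) (Fin m) R} (hBA : B * A = f • 1)
    (hf : ∀ x : N, f • x = 0) (v : Fin n → N) (hv : mact N A v = 0) :
    c • v = mact N B (mact N (dm D A) v) := by
  have hfv : f • v = 0 := by
    funext i
    exact hf (v i)
  have h1 : mact N (dm D (B * A)) v = mact N B (mact N (dm D A) v) := by
    rw [dm_mul, mact_add, mact_mul, mact_mul, hv, map_zero, zero_add]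
  rw [hBA, dm_smul, dm_one, smul_zero, add_zero, mact_scalar] at h1
  rw [← hD, add_smul, mul_smul, hfv, smul_zero, add_zero, h1]

end mact

section compare

variable {R S : Type u} [CommRing R] [CommRing S] (ρ : R →+* S)
  {N : Type u} [AddCommGroup N] [Module R N] {N' : Type u} [AddCommGroup N'] [Module S N']
  (q : N →+ N') (hq : ∀ (r : R) (x : N), q (r • x) = ρ r • q x) {l m n : ℕ}

include hq in
lemma q_mact (A : Matrix (Fin m) (Fin n) R) (v : Fin n → N) :
    (fun i => q (mact N A v i)) = mact N' (A.map ρ) (fun j => q (v j)) := by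
  funext i
  rw [mact_apply, mact_apply, map_sum]
  exact Finset.sum_congr rfl fun j _ => by rw [hq, Matrix.map_apply]

/-- the length of a module from the filtration by the powers of `c` -/
lemma length_filt (H : Type u) [AddCommGroup H] [Module R H] (c : R) (s : ℕ) :
    Module.length R H = (∑ j ∈ Finset.range s, Module.length R (H ⧸
      (LinearMap.range (c ^ (j + 1) • (LinearMap.id : H →ₗ[R] H))).comap
        (c ^ j • (LinearMap.id : H →ₗ[R] H)))) +
        Module.length R (LinearMap.range (c ^ s • (LinearMap.id : H →ₗ[R] H))) := by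
  induction s with
  | zero =>
    rw [Finset.sum_range_zero, zero_add, pow_zero, one_smul, LinearMap.range_id]
    exact (Submodule.topEquiv.length_eq).symm
  | succ s ih =>
    rw [ih, Finset.sum_range_succ, add_assoc]
    congr 1
    set T := LinearMap.range (c ^ s • (LinearMap.id : H →ₗ[R] H)) with hT
    set T' := LinearMap.range (c ^ (s + 1) • (LinearMap.id : H →ₗ[R] H)) with hT'
    have hle : T' ≤ T := by
      rintro _ ⟨x, rfl⟩
      refine ⟨c • x, ?_⟩
      change c ^ s • c • x = c ^ (s + 1) • x
      rw [smul_smul, ← pow_succ]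
    let T'' : Submodule R T := T'.comap T.subtype
    have e1 : T'' ≃ₗ[R] T' := Submodule.comapSubtypeEquivOfLe hle
    let g : H →ₗ[R] T ⧸ T'' := T''.mkQ ∘ₗ LinearMap.rangeRestrict (c ^ s • LinearMap.id)
    have hg : Surjective g :=
      (Submodule.mkQ_surjective _).comp (LinearMap.surjective_rangeRestrict _)
    have hk : LinearMap.ker g = T'.comap (c ^ s • LinearMap.id) := by
      ext x
      rw [LinearMap.mem_ker, LinearMap.comp_apply, Submodule.mkQ_apply,
        Submodule.Quotient.mk_eq_zero, Submodule.mem_comap, Submodule.mem_comap]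
      rfl
    have e2 : (H ⧸ T'.comap (c ^ s • LinearMap.id)) ≃ₗ[R] T ⧸ T'' :=
      (Submodule.quotEquivOfEq _ _ hk.symm).trans (g.quotKerEquivOfSurjective hg)
    rw [e2.length_eq, ← e1.length_eq, add_comm]
    exact Module.length_eq_add_of_exact T''.subtype T''.mkQ T''.subtype_injective
      T''.mkQ_surjective (LinearMap.exact_subtype_mkQ T'')

include hq in
/-- comparison of the homology with approximate data -/
theorem length_compare (hρ : Surjective ρ) (hqs : Surjective q) {π f : R} {s : ℕ}
    (hqk : ∀ x, q x = 0 ↔ ∃ y, x = π ^ (s + 1) • y)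
    (hπ : ∀ x : N, π • x = 0 → x = 0) (hf : ∀ x : N, f • x = 0)
    {A : Matrix (Fin m) (Fin n) R} {B : Matrix (Fin n) (Fin m) R} (hAB : A * B = f • 1)
    (hBA : B * A = f • 1) (D : Derivation ℤ R R) {b : R} (hD : D f + b * f = π ^ s) :
    Module.length R (Hq N A B) =
      ∑ j ∈ Finset.range s, Module.length S (Hj N' (ρ π) j (A.map ρ) (B.map ρ)) := by
  let _ : Algebra R S := ρ.toAlgebra
  let _ : Module R N' := Module.compHom N' ρ
  have _ : IsScalarTower R S N' := ⟨fun r c y => by
    rw [Algebra.smul_def, mul_smul]; rfl⟩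
  have hπs : ∀ (k : ℕ) (x : N), π ^ k • x = 0 → x = 0 := by
    intro k
    induction k with
    | zero => intro x hx; rwa [pow_zero, one_smul] at hx
    | succ k ih =>
      intro x hx
      rw [pow_succ, mul_smul] at hx
      exact hπ _ (ih _ hx)
  have hπv : ∀ {n : ℕ} (k : ℕ) (v : Fin n → N), π ^ k • v = 0 → v = 0 := by
    intro n k v hv
    funext i
    exact hπs k _ (congrFun hv i)
  have hfv : ∀ {n : ℕ} (v : Fin n → N), f • v = 0 := by
    intro n v
    funext i
    exact hf (v i)
  -- reduction on vectors
  have hq0 : ∀ {n : ℕ} (v : Fin n → N), (fun i => q (v i)) = 0 → ∃ y, v = π ^ (s + 1) • y := by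
    intro n v hv
    choose y hy using fun i => (hqk (v i)).1 (congrFun hv i)
    exact ⟨y, funext hy⟩
  have hqp : ∀ {n : ℕ} (k : ℕ) (v : Fin n → N),
      (fun i => q ((π ^ k • v) i)) = ρ π ^ k • (fun i => q (v i)) := by
    intro n k v
    funext i
    rw [Pi.smul_apply, hq, map_pow]
    rfl
  let K := LinearMap.ker (mact N A)
  -- the last term of the filtration vanishes
  have hlast : LinearMap.range (π ^ s • (LinearMap.id : Hq N A B →ₗ[R] Hq N A B)) = ⊥ := by
    rw [LinearMap.range_eq_bot]
    ext ⟨v, hv⟩
    change π ^ s • Submodule.Quotient.mk (p := (LinearMap.range (mact N B)).comap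
      (LinearMap.ker (mact N A)).subtype) (⟨v, hv⟩ : K) = 0
    rw [← Submodule.Quotient.mk_smul, Submodule.Quotient.mk_eq_zero, Submodule.mem_comap]
    refine ⟨mact N (dm D A) v, ?_⟩
    rw [← mact_ann D hD hBA hf v hv]
    rfl
  rw [length_filt (Hq N A B) π s, hlast]
  have hbot : Module.length R (⊥ : Submodule R (Hq N A B)) = 0 := Module.length_bot
  rw [hbot, add_zero]
  refine Finset.sum_congr rfl fun j hj => ?_
  have hj' : j < s := Finset.mem_range.1 hj
  let g : K →ₗ[R] Hj N' (ρ π) j (A.map ρ) (B.map ρ) :=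
    { toFun := fun v => Submodule.Quotient.mk ⟨fun i => q ((v : Fin n → N) i), by
        rw [LinearMap.mem_ker, ← q_mact ρ q hq, LinearMap.mem_ker.1 v.2]
        funext i
        exact map_zero q⟩
      map_add' := fun v w => by
        rw [← Submodule.Quotient.mk_add]
        congr 1
        exact Subtype.ext (funext fun i => map_add q _ _)
      map_smul' := fun r v => by
        rw [RingHom.id_apply]
        change _ = ρ r • Submodule.Quotient.mk _
        rw [← Submodule.Quotient.mk_smul]
        congr 1
        exact Subtype.ext (funext fun i => hq _ _) }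
  have hg : ∀ v, g v = Submodule.Quotient.mk ⟨fun i => q ((v : Fin n → N) i), by
        rw [LinearMap.mem_ker, ← q_mact ρ q hq, LinearMap.mem_ker.1 v.2]
        funext i
        exact map_zero q⟩ := fun v => rfl
  have hgs : Surjective g := by
    intro y
    obtain ⟨⟨y, hy⟩, rfl⟩ := Submodule.Quotient.mk_surjective _ y
    choose v hv using fun i => hqs (y i)
    have h1 : (fun i => q (mact N A v i)) = 0 := by
      rw [q_mact ρ q hq]
      have : (fun j => q (v j)) = y := funext hv
      rw [this]
      exact hy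
    obtain ⟨z, hz⟩ := hq0 _ h1
    have h2 : mact N B z = 0 := by
      apply hπv (s + 1)
      rw [← map_smul, ← hz, ← mact_mul, hBA, mact_scalar, hfv]
    have h3 := mact_ann D hD hAB hf z h2
    set w := mact N (dm D B) z with hw
    have h4 : mact N A (v - π • w) = 0 := by
      rw [map_sub, map_smul, hz, ← h3, smul_smul, ← pow_succ', sub_self]
    refine ⟨⟨v - π • w, h4⟩, ?_⟩
    rw [hg, ← sub_eq_zero, ← Submodule.Quotient.mk_sub, Submodule.Quotient.mk_eq_zero,
      Submodule.mem_comap]
    apply Submodule.mem_sup_right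
    refine ⟨-(fun i => q (w i)), ?_⟩
    funext i
    change ρ π ^ (j + 1) • (-q (w i)) = ρ π ^ j • (q ((v - π • w) i) - y i)
    rw [Pi.sub_apply, Pi.smul_apply, map_sub, hq, hv, smul_neg, pow_succ, mul_smul]
    rw [show y i - ρ π • q (w i) - y i = -(ρ π • q (w i)) by abel, smul_neg]
  let U := (LinearMap.range (π ^ (j + 1) • (LinearMap.id : Hq N A B →ₗ[R] Hq N A B))).comap
    (π ^ j • (LinearMap.id : Hq N A B →ₗ[R] Hq N A B))
  let G : K →ₗ[R] Hq N A B ⧸ U := U.mkQ ∘ₗ
    Submodule.mkQ ((LinearMap.range (mact N B)).comap (LinearMap.ker (mact N A)).subtype)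
  have hG : Surjective G := (Submodule.mkQ_surjective _).comp (Submodule.mkQ_surjective _)
  have hGk : ∀ v, G v = 0 ↔ π ^ j • (Submodule.Quotient.mk v : Hq N A B) ∈
      LinearMap.range (π ^ (j + 1) • (LinearMap.id : Hq N A B →ₗ[R] Hq N A B)) := by
    intro v
    change Submodule.Quotient.mk (p := U) (Submodule.Quotient.mk v : Hq N A B) = 0 ↔ _
    rw [Submodule.Quotient.mk_eq_zero]
    rfl
  have hgk : LinearMap.ker g = LinearMap.ker G := by
    ext v
    change g v = 0 ↔ G v = 0
    rw [hg, Submodule.Quotient.mk_eq_zero, Submodule.mem_comap, hGk]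
    constructor
    · intro h
      obtain ⟨y1, ⟨u, hu⟩, y2, ⟨z, hz⟩, h3⟩ := Submodule.mem_sup.1 h
      choose u' hu' using fun i => hqs (u i)
      choose z' hz' using fun i => hqs (z i)
      have h4 : (fun i => q ((π ^ j • (v : Fin n → N) - mact N B u' - π ^ (j + 1) • z') i)) =
          0 := by
        have e1 : (fun i => q (mact N B u' i)) = y1 := by
          rw [q_mact ρ q hq, ← hu]
          congr 1
          exact funext hu'
        have e2 : (fun i => q ((π ^ (j + 1) • z') i)) = y2 := by
          rw [hqp, ← hz]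
          funext i
          change ρ π ^ (j + 1) • q (z' i) = ρ π ^ (j + 1) • z i
          rw [hz']
        have e3 : (fun i => q ((π ^ j • (v : Fin n → N)) i)) =
            ρ π ^ j • (fun i => q ((v : Fin n → N) i)) := hqp j _
        funext i
        have h5 := congrFun e1 i
        have h6 := congrFun e2 i
        have h7 := congrFun h3 i
        have h8 := congrFun e3 i
        change y1 i + y2 i = ρ π ^ j • q ((v : Fin n → N) i) at h7
        change q _ = ρ π ^ j • q ((v : Fin n → N) i) at h8
        rw [Pi.sub_apply, Pi.sub_apply, map_sub, map_sub, h5, h6, h8, ← h7]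
        change y1 i + y2 i - y1 i - y2 i = 0
        abel
      obtain ⟨z'', hz''⟩ := hq0 _ h4
      have hexp : π ^ (s + 1) • z'' = π ^ (j + 1) • π ^ (s - j) • z'' := by
        rw [smul_smul, ← pow_add]
        congr 2
        omega
      have h5 : π ^ j • (v : Fin n → N) = mact N B u' + π ^ (j + 1) • (z' + π ^ (s - j) • z'') := by
        have : π ^ j • (v : Fin n → N) = mact N B u' + π ^ (j + 1) • z' +
            (π ^ j • (v : Fin n → N) - mact N B u' - π ^ (j + 1) • z') := by abel
        rw [this, hz'', smul_add, hexp]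
        abel
      have h6 : mact N A (z' + π ^ (s - j) • z'') = 0 := by
        apply hπv (j + 1)
        have h7 : mact N A (π ^ j • (v : Fin n → N)) = 0 := by
          rw [map_smul, LinearMap.mem_ker.1 v.2, smul_zero]
        rw [h5, map_add, ← mact_mul, hAB, mact_scalar, hfv, zero_add, map_smul] at h7
        exact h7
      refine ⟨Submodule.Quotient.mk ⟨z' + π ^ (s - j) • z'', h6⟩, ?_⟩
      change π ^ (j + 1) • (Submodule.Quotient.mk (⟨z' + π ^ (s - j) • z'', h6⟩ : K) :
        Hq N A B) = π ^ j • (Submodule.Quotient.mk v : Hq N A B)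
      rw [← Submodule.Quotient.mk_smul, ← Submodule.Quotient.mk_smul, ← sub_eq_zero,
        ← Submodule.Quotient.mk_sub, Submodule.Quotient.mk_eq_zero, Submodule.mem_comap]
      refine ⟨-u', ?_⟩
      change _ = π ^ (j + 1) • (z' + π ^ (s - j) • z'') - π ^ j • (v : Fin n → N)
      rw [map_neg, h5]
      abel
    · rintro ⟨w, hw⟩
      obtain ⟨w, rfl⟩ := Submodule.Quotient.mk_surjective _ w
      change π ^ (j + 1) • (Submodule.Quotient.mk w : Hq N A B) =
        π ^ j • (Submodule.Quotient.mk v : Hq N A B) at hw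
      rw [← Submodule.Quotient.mk_smul, ← Submodule.Quotient.mk_smul, ← sub_eq_zero,
        ← Submodule.Quotient.mk_sub, Submodule.Quotient.mk_eq_zero, Submodule.mem_comap] at hw
      obtain ⟨u, hu⟩ := hw
      change _ = π ^ (j + 1) • (w : Fin n → N) - π ^ j • (v : Fin n → N) at hu
      refine Submodule.mem_sup.2 ⟨mact N' (B.map ρ) (-fun i => q (u i)), ⟨_, rfl⟩,
        ρ π ^ (j + 1) • fun i => q ((w : Fin n → N) i), ⟨_, rfl⟩, ?_⟩
      rw [map_neg, ← q_mact ρ q hq, hu]
      funext i
      change -q (π ^ (j + 1) • (w : Fin n → N) i - π ^ j • (v : Fin n → N) i) +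
        ρ π ^ (j + 1) • q ((w : Fin n → N) i) = ρ π ^ j • q ((v : Fin n → N) i)
      rw [map_sub, hq, hq, map_pow, map_pow]
      abel
  have e : (Hq N A B ⧸ (LinearMap.range (π ^ (j + 1) •
      (LinearMap.id : Hq N A B →ₗ[R] Hq N A B))).comap
        (π ^ j • (LinearMap.id : Hq N A B →ₗ[R] Hq N A B))) ≃ₗ[R]
      Hj N' (ρ π) j (A.map ρ) (B.map ρ) :=
    ((G.quotKerEquivOfSurjective hG).symm.trans (Submodule.quotEquivOfEq _ _ hgk.symm)).trans
        (g.quotKerEquivOfSurjective hgs)
  rw [e.length_eq]
  exact Module.length_eq_of_surjective (S := R) (R := S) hρ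

end compare

end Pool.Agent.Helper796_theta
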