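import Mathlib
import Pool.Agent.Helper796_theta.Mf
import Pool.Agent.Helper796_theta.Asm

set_option autoImplicit false

/-!
# The periodic tower of a matrix factorization
-/

open TensorProduct Function

universe u

namespace Pool.Agent.Helper796_theta

/-- parity -/
def par : ℕ → Bool
  | 0 => false
  | (i + 1) => !par i

lemma par_two_mul (e : ℕ) : par (2 * e) = false := by
  induction e with
  | zero => rfl
  | succ e ih =>
    have h : 2 * (e + 1) = 2 * e + 1 + 1 := by ring
    rw [h]
    change (!(!par (2 * e))) = false
    rw [ih]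
    rfl

section tensor

variable {A : Type u} [CommRing A] (N : Type u) [AddCommGroup N] [Module A N] {m n l : ℕ}

/-- vectors with entries in `N` -/
noncomputable abbrev vecE (n : ℕ) : N ⊗[A] (Fin n → A) ≃ₗ[A] (Fin n → N) :=
  TensorProduct.piScalarRight A A N (Fin n)

lemma vecE_mact (M : Matrix (Fin m) (Fin n) A) (z : N ⊗[A] (Fin n → A)) :
    vecE N m ((mact A M).lTensor N z) = mact N M (vecE N n z) := by
  induction z using TensorProduct.induction_on with
  | zero => simp
  | tmul x v =>
    rw [LinearMap.lTensor_tmul, TensorProduct.piScalarRight_apply,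
      TensorProduct.piScalarRight_apply]
    funext i
    rw [mact_apply]
    simp only [TensorProduct.piScalarRightHom_tmul, mact_apply, Finset.sum_smul, smul_eq_mul,
      mul_smul]
  | add a b ha hb => rw [map_add, map_add, map_add, map_add, ha, hb]

lemma lTensor_ker (α : Matrix (Fin m) (Fin n) A) (β : Matrix (Fin n) (Fin l) A)
    (hle : LinearMap.range (mact A β) ≤ LinearMap.ker (mact A α)) :
    Module.length A (LinearMap.ker (((LinearMap.range (mact A β)).liftQ (mact A α) hle).lTensor N)) =
      Module.length A (Hq N α β) := by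
  set Q := (Fin n → A) ⧸ LinearMap.range (mact A β)
  let ι : Q →ₗ[A] (Fin m → A) := (LinearMap.range (mact A β)).liftQ (mact A α) hle
  let mk : (Fin n → A) →ₗ[A] Q := Submodule.mkQ _
  have hcomp : ι ∘ₗ mk = mact A α := Submodule.liftQ_mkQ _ _ _
  let p : (Fin n → N) →ₗ[A] N ⊗[A] Q := mk.lTensor N ∘ₗ (vecE N n).symm.toLinearMap
  have hp : Surjective p :=
    (LinearMap.lTensor_surjective N (Submodule.mkQ_surjective _)).comp (vecE N n).symm.surjective
  have hpk : LinearMap.ker p = LinearMap.range (mact N β) := by
    have hex : Exact ((mact A β).lTensor N) (mk.lTensor N) := by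
      apply lTensor_exact N (f := mact A β) (g := mk) _ (Submodule.mkQ_surjective _)
      exact LinearMap.exact_map_mkQ_range _
    ext v
    constructor
    · intro hv
      obtain ⟨u, hu⟩ := (hex ((vecE N n).symm v)).1 hv
      refine ⟨vecE N l u, ?_⟩
      rw [← vecE_mact, hu, LinearEquiv.apply_symm_apply]
    · rintro ⟨u, rfl⟩
      obtain ⟨u, rfl⟩ := (vecE (A := A) N l).surjective u
      rw [LinearMap.mem_ker]
      change mk.lTensor N ((vecE N n).symm (mact N β (vecE N l u))) = 0
      rw [← vecE_mact, LinearEquiv.symm_apply_apply, hex.apply_apply_eq_zero]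
  have hip : ∀ v, vecE N m (ι.lTensor N (p v)) = mact N α v := by
    intro v
    have h1 : ∀ y : N ⊗[A] (Fin n → A), ι.lTensor N (mk.lTensor N y) =
        (mact A α).lTensor N y := by
      intro y
      rw [← hcomp, LinearMap.lTensor_comp]
      rfl
    change vecE N m (ι.lTensor N (mk.lTensor N ((vecE N n).symm v))) = _
    rw [h1, vecE_mact, LinearEquiv.apply_symm_apply]
  let g : LinearMap.ker (mact N α) →ₗ[A] LinearMap.ker (ι.lTensor N) :=
    (p ∘ₗ (LinearMap.ker (mact N α)).subtype).codRestrict _ (by
      rintro ⟨v, hv⟩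
      rw [LinearMap.mem_ker]
      apply (vecE N m).injective
      rw [map_zero]
      exact (hip v).trans hv)
  have hg : Surjective g := by
    rintro ⟨y, hy⟩
    obtain ⟨v, rfl⟩ := hp y
    refine ⟨⟨v, ?_⟩, rfl⟩
    rw [LinearMap.mem_ker, ← hip, LinearMap.mem_ker.1 hy, map_zero]
  have hgk : LinearMap.ker g = (LinearMap.range (mact N β)).comap
      (LinearMap.ker (mact N α)).subtype := by
    ext v
    rw [← hpk, LinearMap.mem_ker, Submodule.mem_comap, LinearMap.mem_ker]
    constructor
    · intro h
      exact congrArg Subtype.val h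
    · intro h
      exact Subtype.ext h
  have e : Hq N α β ≃ₗ[A] LinearMap.ker (ι.lTensor N) :=
    (Submodule.quotEquivOfEq _ _ hgk.symm).trans (g.quotKerEquivOfSurjective hg)
  exact e.length_eq.symm

end tensor

section tower

variable {A : Type u} [CommRing A] {nn : Bool → ℕ}
  (mx : ∀ b, Matrix (Fin (nn b)) (Fin (nn !b)) A)
  (hex : ∀ b, LinearMap.range (mact A (mx !b)) = LinearMap.ker (mact A (mx b)))

/-- the periodic tower -/
noncomputable def mfTower : Tower A where
  S i := ModuleCat.of A ((Fin (nn (par i)) → A) ⧸ LinearMap.range (mact A (mx (par i))))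
  F i := ModuleCat.of A (Fin (nn (par i)) → A)
  ι i := (LinearMap.range (mact A (mx (par (i + 1))))).liftQ (mact A (mx (par i)))
    (hex (par i)).le
  π i := Submodule.mkQ _
  inj i := by
    rw [← LinearMap.ker_eq_bot]
    apply Submodule.ker_liftQ_eq_bot
    exact (hex (par i)).ge
  surj i := Submodule.mkQ_surjective _
  ex i := by
    rw [LinearMap.exact_iff, Submodule.ker_mkQ, Submodule.range_liftQ]
    rfl
  proj i := inferInstanceAs (Module.Projective A (Fin _ → A))

lemma mfTower_fin : (mfTower mx hex).IsFin := fun _ =>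
  inferInstanceAs (Module.Finite A (Fin _ → A))

lemma mfTower_K (N : Type u) [AddCommGroup N] [Module A N] (i : ℕ) :
    Module.length A ((mfTower mx hex).K N i) =
      Module.length A (Hq N (mx (par i)) (mx !(par i))) :=
  lTensor_ker N (mx (par i)) (mx !(par i)) (hex (par i)).le

lemma mfTower_th (N : Type u) [AddCommGroup N] [Module A N] (e : ℕ) :
    th (mfTower mx hex) (2 * e) N = (Module.length A (Hq N (mx true) (mx false))).toNat -
      (Module.length A (Hq N (mx false) (mx true))).toNat := by
  have key : ∀ b : Bool, b = false → (Module.length A (Hq N (mx b) (mx !b))) =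
      Module.length A (Hq N (mx false) (mx true)) := by
    intro b hb
    subst hb
    rfl
  have key' : ∀ b : Bool, b = true → (Module.length A (Hq N (mx b) (mx !b))) =
      Module.length A (Hq N (mx true) (mx false)) := by
    intro b hb
    subst hb
    rfl
  have h0 := par_two_mul e
  have h1 : par (2 * e + 1) = true := by
    change (!par (2 * e)) = true
    rw [h0]
    rfl
  rw [th, kn, kn, mfTower_K, mfTower_K, key _ h0, key' _ h1]

end tower

end Pool.Agent.Helper796_theta
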