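import Mathlib
import Pool.Agent.Helper796_theta.MfTower

set_option autoImplicit false

/-!
# High syzygies over a hypersurface are cokernels of matrix factorizations
-/

open TensorProduct Function

universe u

namespace Pool.Agent.Helper796_theta

section mf

variable {R : Type u} [CommRing R]

/-- matrix factorizations -/
structure MFD (R : Type u) [CommRing R] (f : R) where
  n : ℕ
  n' : ℕ
  φ : Matrix (Fin n) (Fin n') R
  ψ : Matrix (Fin n') (Fin n) R
  h1 : φ * ψ = f • 1
  h2 : ψ * φ = f • 1

variable {f : R} (X : MFD R f)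

/-- the sizes -/
def MFD.nn (b : Bool) : ℕ := match b with
  | false => X.n
  | true => X.n'

/-- the matrices, with entries mapped to `A` -/
def MFD.mx {A : Type u} [CommRing A] (ρ : R →+* A) (b : Bool) :
    Matrix (Fin (X.nn b)) (Fin (X.nn !b)) A := match b with
  | false => X.φ.map ρ
  | true => X.ψ.map ρ

lemma mact_inj [IsDomain R] (hf : f ≠ 0) {m n : ℕ} {A : Matrix (Fin m) (Fin n) R}
    {B : Matrix (Fin n) (Fin m) R} (hBA : B * A = f • 1) (v : Fin n → R)
    (hv : mact R A v = 0) : v = 0 := by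
  have h1 : mact R (B * A) v = 0 := by rw [mact_mul, hv, map_zero]
  rw [hBA, mact_scalar] at h1
  exact (smul_eq_zero.1 h1).resolve_left hf

lemma q_mact_ring {A : Type u} [CommRing A] (ρ : R →+* A) {m n : ℕ}
    (M : Matrix (Fin m) (Fin n) R) (v : Fin n → R) :
    (fun i => ρ (mact R M v i)) = mact A (M.map ρ) (fun j => ρ (v j)) := by
  funext i
  rw [mact_apply, mact_apply, map_sum]
  exact Finset.sum_congr rfl fun j _ => by rw [smul_eq_mul, map_mul, Matrix.map_apply, smul_eq_mul]

lemma mf_exact [IsDomain R] (hf : f ≠ 0) {A : Type u} [CommRing A] {ρ : R →+* A}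
    (hρ : Surjective ρ) (hk : ∀ r, ρ r = 0 ↔ f ∣ r) {m n : ℕ} {M : Matrix (Fin m) (Fin n) R}
    {M' : Matrix (Fin n) (Fin m) R} (h1 : M * M' = f • 1) (h2 : M' * M = f • 1) :
    LinearMap.range (mact A (M'.map ρ)) = LinearMap.ker (mact A (M.map ρ)) := by
  have hlift : ∀ {n : ℕ} (v : Fin n → A), ∃ r : Fin n → R, v = fun i => ρ (r i) := by
    intro n v
    choose r hr using fun i => hρ (v i)
    exact ⟨r, funext fun i => (hr i).symm⟩
  have hρf : ρ f = 0 := (hk f).2 dvd_rfl
  apply le_antisymm
  · rintro _ ⟨v, rfl⟩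
    rw [LinearMap.mem_ker, ← mact_mul, ← Matrix.map_mul, h1]
    obtain ⟨r, rfl⟩ := hlift v
    rw [← q_mact_ring, mact_scalar]
    funext i
    change ρ (f * r i) = 0
    rw [map_mul, hρf, zero_mul]
  · intro v hv
    obtain ⟨r, rfl⟩ := hlift v
    rw [LinearMap.mem_ker, ← q_mact_ring] at hv
    choose z hz using fun i => (hk _).1 (congrFun hv i)
    have h3 : mact R M (r - mact R M' z) = 0 := by
      rw [map_sub, ← mact_mul, h1, mact_scalar, sub_eq_zero]
      exact funext hz
    have h4 := mact_inj hf h2 _ h3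
    refine ⟨fun i => ρ (z i), ?_⟩
    rw [← q_mact_ring, ← sub_eq_zero.1 h4]

/-- exactness over the quotient -/
lemma MFD.hex [IsDomain R] (hf : f ≠ 0) {A : Type u} [CommRing A] {ρ : R →+* A}
    (hρ : Surjective ρ) (hk : ∀ r, ρ r = 0 ↔ f ∣ r) (b : Bool) :
    LinearMap.range (mact A (X.mx ρ !b)) = LinearMap.ker (mact A (X.mx ρ b)) := by
  cases b
  · exact mf_exact hf hρ hk X.h1 X.h2
  · exact mf_exact hf hρ hk X.h2 X.h1

end mf

section coker

variable {R A : Type u} [CommRing R] [CommRing A] [Algebra R A] {f : R}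
  (hs : Surjective (algebraMap R A)) (hk : ∀ r, algebraMap R A r = 0 ↔ f ∣ r)
  {W : Type u} [AddCommGroup W] [Module A W] [Module R W] [IsScalarTower R A W]

include hs in
/-- presentation over `A` from a presentation over `R` -/
lemma coker_equiv {m n : ℕ} (M : Matrix (Fin n) (Fin m) R) (p : (Fin n → R) →ₗ[R] W)
    (hp : Surjective p) (hpk : LinearMap.ker p = LinearMap.range (mact R M)) :
    Nonempty (((Fin n → A) ⧸ LinearMap.range (mact A (M.map (algebraMap R A)))) ≃ₗ[A] W) := by
  let P : (Fin n → A) →ₗ[A] W := ∑ i, (LinearMap.proj i).smulRight (p (Pi.single i 1))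
  have hP : ∀ r : Fin n → R, P (fun i => algebraMap R A (r i)) = p r := by
    intro r
    have h1 : r = ∑ i, r i • (Pi.single i (1 : R) : Fin n → R) := by
      rw [← pi_eq_sum_univ' r]
    conv_rhs => rw [h1, map_sum]
    rw [LinearMap.sum_apply]
    refine Finset.sum_congr rfl fun i _ => ?_
    rw [LinearMap.smulRight_apply, map_smul]
    exact algebraMap_smul A (r i) _
  have hlift : ∀ {n : ℕ} (v : Fin n → A), ∃ r : Fin n → R, v = fun i => algebraMap R A (r i) := by
    intro n v
    choose r hr using fun i => hs (v i)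
    exact ⟨r, funext fun i => (hr i).symm⟩
  have hPs : Surjective P := by
    intro w
    obtain ⟨r, rfl⟩ := hp w
    exact ⟨_, hP r⟩
  have hPk : LinearMap.ker P = LinearMap.range (mact A (M.map (algebraMap R A))) := by
    ext v
    obtain ⟨r, rfl⟩ := hlift v
    rw [LinearMap.mem_ker, hP]
    constructor
    · intro h
      have h1 : r ∈ LinearMap.ker p := h
      rw [hpk] at h1
      obtain ⟨u, rfl⟩ := h1
      exact ⟨fun i => algebraMap R A (u i), (q_mact_ring (algebraMap R A) M u).symm⟩
    · rintro ⟨u, hu⟩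
      obtain ⟨u, rfl⟩ := hlift u
      rw [← q_mact_ring] at hu
      have h1 : p (mact R M u) = 0 := by
        have : mact R M u ∈ LinearMap.ker p := by rw [hpk]; exact ⟨u, rfl⟩
        exact this
      rw [← hP, ← hu, hP, h1]
  exact ⟨(Submodule.quotEquivOfEq _ _ hPk.symm).trans (P.quotKerEquivOfSurjective hPs)⟩

end coker

section syz

variable {R A : Type u} [CommRing R] [IsDomain R] [IsNoetherianRing R] [IsLocalRing R]
  [CommRing A] [Algebra R A] {f : R}

omit [IsDomain R] [IsNoetherianRing R] [IsLocalRing R] in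
lemma mact_eq_toLin' {m n : ℕ} (M : Matrix (Fin m) (Fin n) R) : mact R M = Matrix.toLin' M := by
  apply LinearMap.ext
  intro v
  funext i
  rw [mact_apply, Matrix.toLin'_apply]
  rfl

/-- modules of projective dimension at most one, killed by `f` -/
theorem exists_mf (_hf : f ≠ 0) (W : Type u) [AddCommGroup W] [Module R W] [Module.Finite R W]
    (hW : PD R 2 W) (hfW : ∀ x : W, f • x = 0) : ∃ (X : MFD R f) (p : (Fin X.n → R) →ₗ[R] W),
      Surjective p ∧ LinearMap.ker p = LinearMap.range (mact R X.φ) := by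
  obtain ⟨n, p, hp⟩ := Module.Finite.exists_fin' R W
  have hG : PD R 1 (LinearMap.ker p) :=
    PD.X1 (LinearMap.ker p).subtype p (Submodule.subtype_injective _) hp
      (LinearMap.exact_subtype_ker_map p) PD.of_proj hW
  have hproj := hG.proj
  have hfp : Module.FinitePresentation R (LinearMap.ker p) :=
    Module.finitePresentation_of_finite R _
  have hfree : Module.Free R (LinearMap.ker p) := Module.free_of_flat_of_isLocalRing
  let B := Module.finBasis R (LinearMap.ker p)
  set n' := Module.finrank R (LinearMap.ker p)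
  let φL : (Fin n' → R) →ₗ[R] (Fin n → R) :=
    (LinearMap.ker p).subtype ∘ₗ B.equivFun.symm.toLinearMap
  have hφL : Injective φL := (Submodule.subtype_injective _).comp B.equivFun.symm.injective
  have hφr : LinearMap.range φL = LinearMap.ker p := by
    rw [LinearMap.range_comp_of_range_eq_top _ (LinearEquiv.range _), Submodule.range_subtype]
  let φ : Matrix (Fin n) (Fin n') R := LinearMap.toMatrix' φL
  have hφ : mact R φ = φL := by rw [mact_eq_toLin', Matrix.toLin'_toMatrix']
  have hu : ∀ j : Fin n, ∃ u : Fin n' → R, φL u = f • (Pi.single j 1 : Fin n → R) := by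
    intro j
    have h1 : f • (Pi.single j 1 : Fin n → R) ∈ LinearMap.range φL := by
      rw [hφr, LinearMap.mem_ker, map_smul, hfW]
    exact h1
  choose u hu using hu
  let ψ : Matrix (Fin n') (Fin n) R := Matrix.of fun i j => u j i
  have h1 : φ * ψ = f • 1 := by
    ext i j
    have h2 := congrFun (hu j) i
    rw [← hφ, mact_apply] at h2
    rw [Matrix.mul_apply]
    change ∑ k, φ i k • u j k = _
    rw [h2, Pi.smul_apply, Matrix.smul_apply, Matrix.one_apply, Pi.single_apply]
  have h2 : ψ * φ = f • 1 := by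
    have h3 : ∀ v, mact R (ψ * φ) v = mact R (f • (1 : Matrix (Fin n') (Fin n') R)) v := by
      intro v
      apply hφL
      rw [← hφ, ← mact_mul, ← Matrix.mul_assoc, h1, mact_scalar, map_smul, mact_mul,
        mact_scalar]
    have h4 : mact R (ψ * φ) = mact R (f • (1 : Matrix (Fin n') (Fin n') R)) :=
      LinearMap.ext h3
    rw [mact_eq_toLin', mact_eq_toLin'] at h4
    exact Matrix.toLin'.injective h4
  refine ⟨⟨n, n', φ, ψ, h1, h2⟩, p, hp, ?_⟩
  rw [hφ, hφr]

/-- high syzygies are cokernels of matrix factorizations -/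
theorem exists_mf_syz (hf : f ≠ 0) (hred : RedRing f A) {D : ℕ} (hD : GD R (D + 1))
    (T : Tower A) (hT : T.IsFin) (c : ℕ) : ∃ X : MFD R f,
      Nonempty (((Fin X.n → A) ⧸ LinearMap.range (mact A (X.φ.map (algebraMap R A)))) ≃ₗ[A]
        T.S (c + D)) := by
  let T' := T.drop c
  have hT' : T'.IsFin := fun i => hT (c + i)
  let _ : ∀ i, Module R (T'.S i) := fun i => Module.compHom (T'.S i) (algebraMap R A)
  let _ : ∀ i, Module R (T'.F i) := fun i => Module.compHom (T'.F i) (algebraMap R A)
  have _ : ∀ i, IsScalarTower R A (T'.S i) := fun i => ⟨fun p c m => by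
    rw [Algebra.smul_def, mul_smul]; rfl⟩
  have _ : ∀ i, IsScalarTower R A (T'.F i) := fun i => ⟨fun p c m => by
    rw [Algebra.smul_def, mul_smul]; rfl⟩
  have hRA : Module.Finite R A :=
    Module.Finite.of_surjective (Algebra.linearMap R A) hred.surj
  have hfin : ∀ i, Module.Finite R (T'.S i) := fun i => by
    have := hT'.S i
    exact Module.Finite.trans A _
  have h0 : PD R (D + 1 + 1) (T'.S 0) := PD_of_GD hD (T'.S 0)
  have h1 : PD R 2 (T'.S D) := PD_syz hred T' hT' h0 D 2 (by omega) le_rfl
  have h2 : ∀ x : T'.S D, f • x = 0 := by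
    intro x
    have h3 : f • x = algebraMap R A f • x := (algebraMap_smul A f x).symm
    rw [h3, (hred.ker f).2 ⟨1, (mul_one f).symm⟩, zero_smul]
  obtain ⟨X, p, hp, hpk⟩ := exists_mf hf (T'.S D) h1 h2
  exact ⟨X, coker_equiv (W := T'.S D) hred.surj X.φ p hp hpk⟩

end syz

end Pool.Agent.Helper796_theta
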