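import Mathlib
import Pool.Agent.Helper796_theta.MfSyz
import Pool.Agent.Helper796_theta.Main2

set_option autoImplicit false

/-!
# Theta of two hypersurfaces which agree modulo a high power of a parameter
-/

open TensorProduct Function

universe u

namespace Pool.Agent.Helper796_theta

section restrict

variable {R A : Type u} [CommRing R] [CommRing A] [Algebra R A] {W : Type u} [AddCommGroup W]
  [Module A W] [Module R W] [IsScalarTower R A W] {l m n : ℕ}

lemma mact_restrict (M : Matrix (Fin m) (Fin n) R) (v : Fin n → W) :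
    mact W (M.map (algebraMap R A)) v = mact W M v := by
  funext i
  rw [mact_apply, mact_apply]
  exact Finset.sum_congr rfl fun j _ => by rw [Matrix.map_apply, algebraMap_smul]

lemma length_Hq_restrict (hs : Surjective (algebraMap R A)) (M : Matrix (Fin m) (Fin n) R)
    (M' : Matrix (Fin n) (Fin l) R) :
    Module.length A (Hq W (M.map (algebraMap R A)) (M'.map (algebraMap R A))) =
      Module.length R (Hq W M M') := by
  let g : LinearMap.ker (mact W M) →ₗ[R] Hq W (M.map (algebraMap R A)) (M'.map (algebraMap R A)) :=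
    { toFun := fun v => Submodule.Quotient.mk ⟨(v : Fin n → W), by
        rw [LinearMap.mem_ker, mact_restrict]; exact v.2⟩
      map_add' := fun v w => by
        rw [← Submodule.Quotient.mk_add]
        rfl
      map_smul' := fun r v => by
        rw [RingHom.id_apply]
        rfl }
  have hg : ∀ v, g v = Submodule.Quotient.mk ⟨(v : Fin n → W), by
        rw [LinearMap.mem_ker, mact_restrict]; exact v.2⟩ := fun v => rfl
  have hgs : Surjective g := by
    intro y
    obtain ⟨⟨y, hy⟩, rfl⟩ := Submodule.Quotient.mk_surjective _ y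
    refine ⟨⟨y, ?_⟩, rfl⟩
    rw [LinearMap.mem_ker, mact_restrict] at hy
    exact hy
  have hgk : LinearMap.ker g = (LinearMap.range (mact W M')).comap
      (LinearMap.ker (mact W M)).subtype := by
    ext v
    rw [LinearMap.mem_ker, hg, Submodule.Quotient.mk_eq_zero, Submodule.mem_comap,
      Submodule.mem_comap]
    constructor
    · rintro ⟨u, hu⟩
      exact ⟨u, by rw [← mact_restrict (A := A)]; exact hu⟩
    · rintro ⟨u, hu⟩
      refine ⟨u, ?_⟩
      rw [mact_restrict, hu]
      rfl
  have e : Hq W M M' ≃ₗ[R] Hq W (M.map (algebraMap R A)) (M'.map (algebraMap R A)) :=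
    (Submodule.quotEquivOfEq _ _ hgk.symm).trans (g.quotKerEquivOfSurjective hgs)
  rw [e.length_eq]
  exact (Module.length_eq_of_surjective (S := R) (R := A) hs).symm

end restrict

section val

/-- the cokernel of a matrix -/
abbrev cok {A : Type u} [CommRing A] {m n : ℕ} (M : Matrix (Fin m) (Fin n) A) : Type u :=
  (Fin m → A) ⧸ LinearMap.range (mact A M)

/-- the length of the homology, computed from approximate data -/
noncomputable def len {S : Type u} [CommRing S] (s : ℕ) (c : S) {m m' n n' : ℕ}
    (Φ : Matrix (Fin m) (Fin m') S) (Φ₂ : Matrix (Fin n) (Fin n') S)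
    (Ψ₂ : Matrix (Fin n') (Fin n) S) : ℕ∞ :=
  ∑ j ∈ Finset.range s, Module.length S (Hj (cok Φ) c j Φ₂ Ψ₂)

variable {R A S : Type u} [CommRing R] [IsDomain R] [CommRing A] [Algebra R A] [CommRing S]
  {π f b : R} {s : ℕ}

theorem len_eq (hf : f ≠ 0) (hs : Surjective (algebraMap R A))
    (hk : ∀ r, algebraMap R A r = 0 ↔ f ∣ r) (hπf : ∀ r, f ∣ π * r → f ∣ r)
    (D : Derivation ℤ R R) (hD : D f + b * f = π ^ s) (ρ : R →+* S) (hρ : Surjective ρ)
    (hρk : ∀ r, ρ r = 0 ↔ π ^ (s + 1) ∣ r) (X Y : MFD R f) :
    Module.length A (Hq (cok (X.φ.map (algebraMap R A))) (Y.φ.map (algebraMap R A))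
      (Y.ψ.map (algebraMap R A))) = len s (ρ π) (X.φ.map ρ) (Y.φ.map ρ) (Y.ψ.map ρ) ∧
    Module.length A (Hq (cok (X.φ.map (algebraMap R A))) (Y.ψ.map (algebraMap R A))
      (Y.φ.map (algebraMap R A))) = len s (ρ π) (X.φ.map ρ) (Y.ψ.map ρ) (Y.φ.map ρ) := by
  let W := cok (X.φ.map (algebraMap R A))
  have hsm : ∀ (r : R) (y : W), r • y = algebraMap R A r • y :=
    fun r y => (algebraMap_smul A r y).symm
  -- the presentation of `W` over `R`
  let P : (Fin X.n → R) →+ W :=
    { toFun := fun v => Submodule.Quotient.mk fun i => algebraMap R A (v i)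
      map_zero' := by
        rw [← Submodule.Quotient.mk_zero]
        congr 1
        funext i
        exact map_zero _
      map_add' := fun v w => by
        rw [← Submodule.Quotient.mk_add]
        congr 1
        funext i
        exact map_add _ _ _ }
  have hP : ∀ v, P v = Submodule.Quotient.mk fun i => algebraMap R A (v i) := fun v => rfl
  have hPsm : ∀ (r : R) (v : Fin X.n → R), P (r • v) = r • P v := by
    intro r v
    rw [hP, hP, hsm, ← Submodule.Quotient.mk_smul]
    congr 1
    funext i
    exact map_mul _ _ _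
  have hPs : Surjective P := by
    intro y
    obtain ⟨y, rfl⟩ := Submodule.Quotient.mk_surjective _ y
    choose v hv using fun i => hs (y i)
    refine ⟨v, ?_⟩
    rw [hP]
    congr 1
    exact funext hv
  have hPk : ∀ v, P v = 0 ↔ ∃ u, v = mact R X.φ u := by
    intro v
    rw [hP, Submodule.Quotient.mk_eq_zero]
    constructor
    · rintro ⟨u, hu⟩
      choose u' hu' using fun i => hs (u i)
      have h1 : (fun i => algebraMap R A (mact R X.φ u' i)) = fun i => algebraMap R A (v i) := by
        rw [q_mact_ring, ← hu]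
        congr 1
        exact funext hu'
      have h2 : ∀ i, f ∣ v i - mact R X.φ u' i := by
        intro i
        rw [← hk, map_sub, sub_eq_zero]
        exact (congrFun h1 i).symm
      choose z hz using h2
      refine ⟨u' + mact R X.ψ z, ?_⟩
      rw [map_add, ← mact_mul, X.h1, mact_scalar]
      funext i
      have := hz i
      rw [Pi.add_apply, Pi.smul_apply, smul_eq_mul, ← this]
      ring
    · rintro ⟨u, rfl⟩
      exact ⟨fun i => algebraMap R A (u i), (q_mact_ring _ _ _).symm⟩
  -- reduction
  let Q : (Fin X.n → R) →+ cok (X.φ.map ρ) :=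
    { toFun := fun v => Submodule.Quotient.mk fun i => ρ (v i)
      map_zero' := by
        rw [← Submodule.Quotient.mk_zero]
        congr 1
        funext i
        exact map_zero _
      map_add' := fun v w => by
        rw [← Submodule.Quotient.mk_add]
        congr 1
        funext i
        exact map_add _ _ _ }
  have hQ : ∀ v, Q v = Submodule.Quotient.mk fun i => ρ (v i) := fun v => rfl
  have hQs : Surjective Q := by
    intro y
    obtain ⟨y, rfl⟩ := Submodule.Quotient.mk_surjective _ y
    choose v hv using fun i => hρ (y i)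
    refine ⟨v, ?_⟩
    rw [hQ]
    congr 1
    exact funext hv
  have hQk : ∀ v, Q v = 0 ↔ ∃ u z, v = mact R X.φ u + π ^ (s + 1) • z := by
    intro v
    rw [hQ, Submodule.Quotient.mk_eq_zero]
    constructor
    · rintro ⟨u, hu⟩
      choose u' hu' using fun i => hρ (u i)
      have h1 : (fun i => ρ (mact R X.φ u' i)) = fun i => ρ (v i) := by
        rw [q_mact_ring, ← hu]
        congr 1
        exact funext hu'
      have h2 : ∀ i, π ^ (s + 1) ∣ v i - mact R X.φ u' i := by
        intro i
        rw [← hρk, map_sub, sub_eq_zero]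
        exact (congrFun h1 i).symm
      choose z hz using h2
      refine ⟨u', z, ?_⟩
      funext i
      have := hz i
      rw [Pi.add_apply, Pi.smul_apply, smul_eq_mul, ← this]
      ring
    · rintro ⟨u, z, rfl⟩
      refine ⟨fun i => ρ (u i), ?_⟩
      rw [← q_mact_ring]
      funext i
      rw [Pi.add_apply, Pi.smul_apply, map_add, smul_eq_mul, map_mul, (hρk _).2 dvd_rfl, zero_mul,
        add_zero]
  let q : W →+ cok (X.φ.map ρ) := AddMonoidHom.liftOfSurjective P hPs ⟨Q, by
    intro v hv
    obtain ⟨u, rfl⟩ := (hPk v).1 hv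
    refine (hQk _).2 ⟨u, 0, ?_⟩
    rw [smul_zero, add_zero]⟩
  have hqP : ∀ v, q (P v) = Q v := fun v => AddMonoidHom.liftOfRightInverse_comp_apply _ _ _ _ v
  have hq : ∀ (r : R) (x : W), q (r • x) = ρ r • q x := by
    intro r x
    obtain ⟨v, rfl⟩ := hPs x
    rw [← hPsm, hqP, hqP, hQ, hQ, ← Submodule.Quotient.mk_smul]
    congr 1
    funext i
    exact map_mul _ _ _
  have hqs : Surjective q := by
    intro y
    obtain ⟨v, rfl⟩ := hQs y
    exact ⟨P v, hqP v⟩
  have hqk : ∀ x, q x = 0 ↔ ∃ y, x = π ^ (s + 1) • y := by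
    intro x
    obtain ⟨v, rfl⟩ := hPs x
    rw [hqP, hQk]
    constructor
    · rintro ⟨u, z, rfl⟩
      refine ⟨P z, ?_⟩
      rw [map_add, (hPk _).2 ⟨u, rfl⟩, zero_add, hPsm]
    · rintro ⟨y, hy⟩
      obtain ⟨z, rfl⟩ := hPs y
      rw [← hPsm, ← sub_eq_zero, ← map_sub] at hy
      obtain ⟨u, hu⟩ := (hPk _).1 hy
      exact ⟨u, z, by rw [← hu]; abel⟩
  have hπW : ∀ x : W, π • x = 0 → x = 0 := by
    intro x hx
    obtain ⟨v, rfl⟩ := hPs x
    rw [← hPsm] at hx
    obtain ⟨u, hu⟩ := (hPk _).1 hx
    have h1 : π • mact R X.ψ v = f • u := by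
      rw [← map_smul, hu, ← mact_mul, X.h2, mact_scalar]
    have h2 : ∀ i, f ∣ mact R X.ψ v i := by
      intro i
      apply hπf
      exact ⟨u i, congrFun h1 i⟩
    choose z hz using h2
    have h3 : mact R X.ψ (v - mact R X.φ z) = 0 := by
      rw [map_sub, ← mact_mul, X.h2, mact_scalar, sub_eq_zero]
      exact funext hz
    have h4 := mact_inj hf X.h1 _ h3
    exact (hPk v).2 ⟨z, sub_eq_zero.1 h4⟩
  have hfW : ∀ x : W, f • x = 0 := by
    intro x
    rw [hsm, (hk f).2 dvd_rfl, zero_smul]
  have c1 := length_compare ρ q hq hρ hqs hqk hπW hfW Y.h1 Y.h2 D hD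
  have c2 := length_compare ρ q hq hρ hqs hqk hπW hfW Y.h2 Y.h1 D hD
  have r1 := length_Hq_restrict (W := W) hs Y.φ Y.ψ
  have r2 := length_Hq_restrict (W := W) hs Y.ψ Y.φ
  exact ⟨r1.trans c1, r2.trans c2⟩

end val

end Pool.Agent.Helper796_theta
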