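import Mathlib
import Pool.Agent.Helper796_theta.Close

set_option autoImplicit false

/-!
# Transfer of theta between close hypersurfaces
-/

open TensorProduct Function

universe u

namespace Pool.Agent.Helper796_theta

section shift

variable {Q A : Type u} [CommRing Q] [CommRing A] [Algebra Q A] {f : Q} {D : ℕ} {𝔪 : Ideal A}

lemma length_K_flat (T : Tower A) (F : Type u) [AddCommGroup F] [Module A F] [Module.Flat A F]
    (i : ℕ) : Module.length A (T.K F i) = 0 := by
  have h : T.K F i = ⊥ := LinearMap.ker_eq_bot.2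
    (Module.Flat.lTensor_preserves_injective_linearMap (T.ι i) (T.inj i))
  rw [h]
  exact Module.length_bot

/-- dimension shifting in the first variable -/
lemma length_K_shift (T U : Tower A) (i j : ℕ) :
    Module.length A (T.K (U.S (j + 1)) i) = Module.length A (T.K (U.S j) (i + 1)) := by
  have hT := T.proj
  have hp := U.proj j
  have h1 := length_K' (T.ι i) (U.ι j) (U.inj j)
  have h2 := length_K'' (T.ι (i + 1)) (T.π (i + 1)) (U.ι j) (U.π j) (U.inj j) (U.surj j) (U.ex j)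
    (T.surj (i + 1)) (T.ex (i + 1))
  have hr : ∀ {X Y : Type u} [AddCommGroup X] [Module A X] [AddCommGroup Y] [Module A Y]
      (g : X →ₗ[A] Y), Module.length A Y = 0 → Module.length A (LinearMap.range g) = 0 := by
    intro X Y _ _ _ _ g hY
    exact le_antisymm ((Module.length_le_of_injective (LinearMap.range g).subtype
      (Submodule.subtype_injective _)).trans hY.le) bot_le
  have hr' : ∀ {X Y : Type u} [AddCommGroup X] [Module A X] [AddCommGroup Y] [Module A Y]
      (g : X →ₗ[A] Y), Module.length A X = 0 → Module.length A (LinearMap.range g) = 0 := by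
    intro X Y _ _ _ _ g hY
    exact le_antisymm ((Module.length_le_of_surjective g.rangeRestrict
      g.surjective_rangeRestrict).trans hY.le) bot_le
  have e1 := hr (kmap (T.ι i) (U.ι j)) (length_K_flat T (U.F j) i)
  have e2 := hr' (kmap (T.ι (i + 1)) (U.π j)) (length_K_flat T (U.F j) (i + 1))
  rw [e1, add_zero] at h1
  rw [e2, zero_add] at h2
  exact h1.trans h2.symm

lemma length_K_shift' (T U : Tower A) (c i : ℕ) :
    Module.length A (T.K (U.S c) i) = Module.length A (T.K (U.S 0) (i + c)) := by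
  induction c generalizing i with
  | zero => rfl
  | succ c ih =>
    rw [length_K_shift, ih]
    have h : i + 1 + c = i + (c + 1) := by ring
    rw [h]

lemma length_K_congr_left (T : Tower A) {M M' : Type u} [AddCommGroup M] [Module A M]
    [AddCommGroup M'] [Module A M'] (e : M ≃ₗ[A] M') (i : ℕ) :
    Module.length A (T.K M i) = Module.length A (T.K M' i) := by
  rw [← length_tor_eq, ← length_tor_eq]
  exact length_tor_congr_left M e (i + 1)

/-- the lengths of Tor in terms of matrix factorizations -/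
theorem tor_mf [IsDomain Q] [IsLocalRing Q] (h : HypData Q A f D 𝔪) (hf : f ≠ 0)
    (M N : Type u) [AddCommGroup M] [Module A M] [Module.Finite A M] [AddCommGroup N] [Module A N]
    [Module.Finite A N] : ∃ X Y : MFD Q f, ∀ i, D ≤ i →
      Module.length A (TorM A (i + 1) M N) = Module.length A
        ((mfTower (Y.mx (algebraMap Q A)) (Y.hex hf h.red.surj h.red.ker)).K
          (cok (X.φ.map (algebraMap Q A))) i) := by
  have hn := h.noeth
  have hA := h.noethA
  have hTM : (tower (B := A) M).IsFin := fun i => tower_F_finite M i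
  have hTN : (tower (B := A) N).IsFin := fun i => tower_F_finite N i
  obtain ⟨X, ⟨eX⟩⟩ := exists_mf_syz hf h.red h.gd (tower (B := A) M) hTM D
  obtain ⟨Y, ⟨eY⟩⟩ := exists_mf_syz hf h.red h.gd (tower (B := A) N) hTN D
  refine ⟨X, Y, fun i hi => ?_⟩
  let TY := mfTower (Y.mx (algebraMap Q A)) (Y.hex hf h.red.surj h.red.ker)
  have hg := h.good (tower N) hTN M
  have h1 : Module.length A (TorM A (i + 1) M N) = Module.length A ((tower (B := A) N).K M i) :=
    length_tor_eq M (tower (B := A) N) i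
  have h2 : ∀ c, Module.length A ((tower (B := A) N).K M i) =
      Module.length A ((tower (B := A) N).K M (i + 2 * c)) := by
    intro c
    induction c with
    | zero => rfl
    | succ c ih =>
      have e : i + 2 * (c + 1) = i + 2 * c + 2 := by ring
      rw [e, hg.per _ (by omega), ih]
  have h3 : Module.length A (((tower (B := A) N).drop (D + D)).K M (i + (D + D))) =
      Module.length A (TY.K M (i + (D + D))) :=
    Tower.length_K_congr' ((tower (B := A) N).drop (D + D)) TY eY.symm M _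
  have h4 : Module.length A (((tower (B := A) N).drop (D + D)).K M (i + (D + D))) =
      Module.length A ((tower (B := A) N).K M (D + D + (i + (D + D)))) := rfl
  have h5 := length_K_shift' TY (tower (B := A) M) (D + D) i
  have h6 := length_K_congr_left TY eX i
  have e : i + 2 * (D + D) = D + D + (i + (D + D)) := by ring
  rw [h1, h2 (D + D), e, ← h4, h3]
  exact h5.symm.trans h6.symm

end shift

section lift

variable {R R' S : Type u} [CommRing R] [CommRing R'] [IsDomain R'] [CommRing S]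

theorem exists_lift (ρ : R →+* S) (ρ' : R' →+* S) (hρ' : Surjective ρ') {π' f' b' : R'} {s : ℕ}
    (hs : 0 < s) (hρ'k : ∀ r, ρ' r = 0 → π' ^ (2 * s + 1) ∣ r) (hπ' : π' ≠ 0)
    [IsAdicComplete (Ideal.span {π'}) R'] (D' : Derivation ℤ R' R')
    (hD' : D' f' + b' * f' = π' ^ s) {f : R} (hff : ρ f = ρ' f') (X : MFD R f) :
    ∃ (φ' : Matrix (Fin X.n) (Fin X.n') R') (ψ' : Matrix (Fin X.n') (Fin X.n) R'),
      φ' * ψ' = f' • 1 ∧ ψ' * φ' = f' • 1 ∧
        (∃ C : Matrix (Fin X.n) (Fin X.n') S, φ'.map ρ' = X.φ.map ρ + ρ' π' ^ (s + 1) • C) ∧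
        ∃ C : Matrix (Fin X.n') (Fin X.n) S, ψ'.map ρ' = X.ψ.map ρ + ρ' π' ^ (s + 1) • C := by
  have hlift : ∀ {m n : ℕ} (M : Matrix (Fin m) (Fin n) S), ∃ M' : Matrix (Fin m) (Fin n) R',
      M'.map ρ' = M := by
    intro m n M
    choose a ha using fun i j => hρ' (M i j)
    exact ⟨Matrix.of a, by ext i j; exact ha i j⟩
  have hker : ∀ {m n : ℕ} (M : Matrix (Fin m) (Fin n) R'), M.map ρ' = 0 →
      ∃ C : Matrix (Fin m) (Fin n) R', M = π' ^ (2 * s + 1) • C := by
    intro m n M hM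
    choose a ha using fun i j => hρ'k (M i j) (by
      have := congrFun (congrFun hM i) j
      exact this)
    exact ⟨Matrix.of a, by ext i j; exact ha i j⟩
  obtain ⟨φ₀, hφ₀⟩ := hlift (X.φ.map ρ)
  obtain ⟨ψ₀, hψ₀⟩ := hlift (X.ψ.map ρ)
  have hsc : ∀ n : ℕ, (f' • (1 : Matrix (Fin n) (Fin n) R')).map ρ' =
      (f • (1 : Matrix (Fin n) (Fin n) R)).map ρ := by
    intro n
    ext i j
    rw [Matrix.map_apply, Matrix.map_apply, Matrix.smul_apply, Matrix.smul_apply, smul_eq_mul,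
      smul_eq_mul, map_mul, map_mul, hff, Matrix.one_apply, Matrix.one_apply]
    split_ifs
    · rw [map_one, map_one]
    · rw [map_zero, map_zero]
  have hsub : ∀ {m n : ℕ} (M M' : Matrix (Fin m) (Fin n) R'),
      (M - M').map ρ' = M.map ρ' - M'.map ρ' := by
    intro m n M M'
    ext i j
    exact map_sub ρ' _ _
  obtain ⟨E, hE⟩ := hker (φ₀ * ψ₀ - f' • 1) (by
    rw [hsub, Matrix.map_mul, hφ₀, hψ₀, ← Matrix.map_mul, X.h1, hsc, sub_self])
  obtain ⟨E', hE'⟩ := hker (ψ₀ * φ₀ - f' • 1) (by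
    rw [hsub, Matrix.map_mul, hφ₀, hψ₀, ← Matrix.map_mul, X.h2, hsc, sub_self])
  have hapx : Apx f' π' (s + (s + 1)) φ₀ ψ₀ := by
    refine ⟨E, E', ?_, ?_⟩
    · have h3 : s + (s + 1) = 2 * s + 1 := by ring
      rw [h3, ← hE]
      abel
    · have h3 : s + (s + 1) = 2 * s + 1 := by ring
      rw [h3, ← hE']
      abel
  obtain ⟨φ', ψ', h1, h2, ⟨C, hC⟩, ⟨C', hC'⟩⟩ :=
    newton_limit hπ' D' hs hD' le_rfl hapx
  refine ⟨φ', ψ', h1, h2, ⟨C.map ρ', ?_⟩, ⟨C'.map ρ', ?_⟩⟩
  · rw [hC, ← hφ₀]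
    ext i j
    rw [Matrix.map_apply, Matrix.add_apply, Matrix.add_apply, Matrix.smul_apply,
      Matrix.smul_apply, map_add, smul_eq_mul, map_mul, map_pow]
    rfl
  · rw [hC', ← hψ₀]
    ext i j
    rw [Matrix.map_apply, Matrix.add_apply, Matrix.add_apply, Matrix.smul_apply,
      Matrix.smul_apply, map_add, smul_eq_mul, map_mul, map_pow]
    rfl

end lift

section close

variable {R R' A A' S : Type u} [CommRing R] [IsDomain R] [IsLocalRing R]
  [CommRing R'] [IsDomain R'] [CommRing A] [Algebra R A]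
  [CommRing A'] [Algebra R' A'] [CommRing S]

theorem close_transfer {d : ℕ} {π f b : R} {π' f' b' : R'} {s : ℕ} (hs : 0 < s)
    {𝔪 : Ideal A} (H : HypData R A f d 𝔪) (hsA' : Surjective (algebraMap R' A'))
    (hkA' : ∀ r, algebraMap R' A' r = 0 ↔ f' ∣ r)
    (hf : f ≠ 0) (hf' : f' ≠ 0) (hπ' : π' ≠ 0)
    (hπf : ∀ r, f ∣ π * r → f ∣ r) (hπf' : ∀ r, f' ∣ π' * r → f' ∣ r)
    (D : Derivation ℤ R R) (hD : D f + b * f = π ^ s)
    (D' : Derivation ℤ R' R') (hD' : D' f' + b' * f' = π' ^ s)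
    [IsAdicComplete (Ideal.span {π'}) R']
    (ρ : R →+* S) (hρ : Surjective ρ) (hρk : ∀ r, ρ r = 0 ↔ π ^ (2 * s + 1) ∣ r)
    (ρ' : R' →+* S) (hρ' : Surjective ρ') (hρk' : ∀ r, ρ' r = 0 ↔ π' ^ (2 * s + 1) ∣ r)
    (hρπ : ρ π = ρ' π') (hρf : ρ f = ρ' f')
    (M N : Type u) [AddCommGroup M] [Module A M] [Module.Finite A M] [AddCommGroup N] [Module A N]
    [Module.Finite A N] : ∃ (M' N' : Type u) (_ : AddCommGroup M') (_ : Module A' M')
      (_ : AddCommGroup N') (_ : Module A' N'), Module.Finite A' M' ∧ Module.Finite A' N' ∧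
      ∀ i, d ≤ i → Module.length A (TorM A (i + 1) M N) = Module.length A' (TorM A' (i + 1) M' N')
      := by
  obtain ⟨X, Y, hXY⟩ := tor_mf H hf M N
  obtain ⟨φX, ψX, x1, x2, ⟨CX, hCX⟩, ⟨CX', hCX'⟩⟩ :=
    exists_lift ρ ρ' hρ' hs (fun r => (hρk' r).1) hπ' D' hD' hρf X
  obtain ⟨φY, ψY, y1, y2, ⟨CY, hCY⟩, ⟨CY', hCY'⟩⟩ :=
    exists_lift ρ ρ' hρ' hs (fun r => (hρk' r).1) hπ' D' hD' hρf Y
  let X' : MFD R' f' := ⟨X.n, X.n', φX, ψX, x1, x2⟩
  let Y' : MFD R' f' := ⟨Y.n, Y.n', φY, ψY, y1, y2⟩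
  let S₂ := S ⧸ Ideal.span {ρ π ^ (s + 1)}
  let σ : S →+* S₂ := Ideal.Quotient.mk _
  have hσ : Surjective σ := Ideal.Quotient.mk_surjective
  have hσk : ∀ x, σ x = 0 ↔ ρ π ^ (s + 1) ∣ x := by
    intro x
    rw [← Ideal.mem_span_singleton]
    exact Ideal.Quotient.eq_zero_iff_mem
  have hk2 : ∀ r, σ.comp ρ r = 0 ↔ π ^ (s + 1) ∣ r := by
    intro r
    rw [RingHom.comp_apply, hσk]
    constructor
    · rintro ⟨z, hz⟩
      obtain ⟨z, rfl⟩ := hρ z
      have h1 : ρ (r - π ^ (s + 1) * z) = 0 := by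
        rw [map_sub, map_mul, map_pow, hz, sub_self]
      obtain ⟨y, hy⟩ := (hρk _).1 h1
      refine ⟨z + π ^ s * y, ?_⟩
      have h2 : 2 * s + 1 = s + 1 + s := by ring
      rw [h2, pow_add] at hy
      linear_combination hy
    · rintro ⟨z, rfl⟩
      rw [map_mul, map_pow]
      exact Dvd.intro _ rfl
  have hk2' : ∀ r, σ.comp ρ' r = 0 ↔ π' ^ (s + 1) ∣ r := by
    intro r
    rw [RingHom.comp_apply, hσk, hρπ]
    constructor
    · rintro ⟨z, hz⟩
      obtain ⟨z, rfl⟩ := hρ' z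
      have h1 : ρ' (r - π' ^ (s + 1) * z) = 0 := by
        rw [map_sub, map_mul, map_pow, hz, sub_self]
      obtain ⟨y, hy⟩ := (hρk' _).1 h1
      refine ⟨z + π' ^ s * y, ?_⟩
      have h2 : 2 * s + 1 = s + 1 + s := by ring
      rw [h2, pow_add] at hy
      linear_combination hy
    · rintro ⟨z, rfl⟩
      rw [map_mul, map_pow]
      exact Dvd.intro _ rfl
  have hmap : ∀ {m n : ℕ} (M : Matrix (Fin m) (Fin n) R) (M' : Matrix (Fin m) (Fin n) R')
      (C : Matrix (Fin m) (Fin n) S), M'.map ρ' = M.map ρ + ρ' π' ^ (s + 1) • C →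
      M'.map (σ.comp ρ') = M.map (σ.comp ρ) := by
    intro m n M M' C h
    ext i j
    have h1 := congrFun (congrFun h i) j
    rw [Matrix.map_apply, Matrix.map_apply, RingHom.comp_apply, RingHom.comp_apply]
    rw [Matrix.map_apply, Matrix.add_apply, Matrix.smul_apply, Matrix.map_apply,
      smul_eq_mul] at h1
    rw [h1, map_add, map_mul, ← hρπ, (hσk _).2 dvd_rfl, zero_mul, add_zero]
  refine ⟨cok (X'.φ.map (algebraMap R' A')), cok (Y'.φ.map (algebraMap R' A')), inferInstance,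
    inferInstance, inferInstance, inferInstance, inferInstance, inferInstance, ?_⟩
  intro i hi
  obtain ⟨v1, v2⟩ := len_eq hf H.red.surj H.red.ker hπf D hD (σ.comp ρ) (hσ.comp hρ) hk2 X Y
  obtain ⟨w1, w2⟩ := len_eq hf' hsA' hkA' hπf' D' hD' (σ.comp ρ') (hσ.comp hρ') hk2' X' Y'
  have e1 : X'.φ.map (σ.comp ρ') = X.φ.map (σ.comp ρ) := hmap _ _ _ hCX
  have e2 : Y'.φ.map (σ.comp ρ') = Y.φ.map (σ.comp ρ) := hmap _ _ _ hCY
  have e3 : Y'.ψ.map (σ.comp ρ') = Y.ψ.map (σ.comp ρ) := hmap _ _ _ hCY'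
  have e4 : σ.comp ρ' π' = σ.comp ρ π := congrArg σ hρπ.symm
  rw [e1, e2, e3, e4] at w1 w2
  have g1 := mfTower_K (Y.mx (algebraMap R A)) (Y.hex hf H.red.surj H.red.ker)
    (cok (X.φ.map (algebraMap R A))) i
  have g2 := mfTower_K (Y'.mx (algebraMap R' A')) (Y'.hex hf' hsA' hkA')
    (cok (X'.φ.map (algebraMap R' A'))) i
  have g3 := length_tor_eq (cok (X'.φ.map (algebraMap R' A')))
    (mfTower (Y'.mx (algebraMap R' A')) (Y'.hex hf' hsA' hkA')) i
  have key : ∀ b : Bool, Module.length A (Hq (cok (X.φ.map (algebraMap R A)))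
      (Y.mx (algebraMap R A) b) (Y.mx (algebraMap R A) !b)) =
      Module.length A' (Hq (cok (X'.φ.map (algebraMap R' A')))
        (Y'.mx (algebraMap R' A') b) (Y'.mx (algebraMap R' A') !b)) := by
    intro b
    cases b with
    | false => exact v1.trans w1.symm
    | true => exact v2.trans w2.symm
  rw [hXY i hi, g1, key, ← g2, ← g3]
  have h0 : par 0 = false := rfl
  rfl

end close

end Pool.Agent.Helper796_theta
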